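import Mathlib

/-!
Project SU(2,2), part (3): the differential algebra formalism (helper5).

`DS A` : a commutative `ℂ`-algebra with involution and commuting Wirtinger derivations
`d 0, d 1` (holomorphic) and `b 0, b 1` (antiholomorphic).
`Dat D` : a spacelike holomorphic map to the negative lines of `ℂ^{2,2}`.
-/

set_option autoImplicit false
set_option linter.all false

open Matrix

namespace Pool.Agent.MPd01a95.CW

/-- commuting Wirtinger derivations -/
structure DS (A : Type) [CommRing A] [Algebra ℂ A] [StarRing A] where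
  d : Fin 2 → Derivation ℂ A A
  b : Fin 2 → Derivation ℂ A A
  hdd : ∀ i j x, d i (d j x) = d j (d i x)
  hdb : ∀ i j x, d i (b j x) = b j (d i x)
  hbb : ∀ i j x, b i (b j x) = b j (b i x)
  hst : ∀ i x, star (d i x) = b i (star x)

section alg

variable {A : Type} [CommRing A] [StarRing A]

/-- the Hermitian form of signature `(2,2)` -/
def hh (v w : Fin 4 → A) : A :=
  v 0 * star (w 0) + v 1 * star (w 1) - v 2 * star (w 2) - v 3 * star (w 3)

/-- the standard bilinear form -/
def dt (v w : Fin 4 → A) : A := v 0 * w 0 + v 1 * w 1 + v 2 * w 2 + v 3 * w 3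

/-- three by three minor of the rows `x, y, z`, columns `i, j, k` -/
def d3 (x y z : Fin 4 → A) (i j k : Fin 4) : A :=
  x i * (y j * z k - y k * z j) - x j * (y i * z k - y k * z i) + x k * (y i * z j - y j * z i)

/-- the covector `v ↦ det (v, x, y, z)` -/
def cf (x y z : Fin 4 → A) : Fin 4 → A :=
  ![d3 x y z 1 2 3, - d3 x y z 0 2 3, d3 x y z 0 1 3, - d3 x y z 0 1 2]

/-- mixed discriminant of two by two matrices -/
def md (X Y : Fin 2 → Fin 2 → A) : A := X 0 0 * Y 1 1 + X 1 1 * Y 0 0 - X 0 1 * Y 1 0 - X 1 0 * Y 0 1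

/-- determinant -/
def d2 (X : Fin 2 → Fin 2 → A) : A := X 0 0 * X 1 1 - X 0 1 * X 1 0

/-- inverse matrix, `δ` being the inverse of the determinant -/
def iv (δ : A) (X : Fin 2 → Fin 2 → A) : Fin 2 → Fin 2 → A :=
  ![![δ * X 1 1, - (δ * X 0 1)], ![- (δ * X 1 0), δ * X 0 0]]

end alg

variable {A : Type} [CommRing A] [Algebra ℂ A] [StarRing A]

/-- the derivatives of a vector -/
def DS.dv (D : DS A) (k : Fin 2) (v : Fin 4 → A) : Fin 4 → A := fun a => D.d k (v a)

/-- the antiholomorphic derivatives of a vector -/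
def DS.bv (D : DS A) (k : Fin 2) (v : Fin 4 → A) : Fin 4 → A := fun a => D.b k (v a)

/-- holomorphic data: `P` is holomorphic, `m` is the inverse of `n = - h(P,P)` -/
structure Dat (D : DS A) where
  P : Fin 4 → A
  m : A
  δ : A
  hol : ∀ k a, D.b k (P a) = 0
  hm : - hh P P * m = 1
  hδ : d2 (fun i j => (hh (D.dv i P) (D.dv j P) + hh (D.dv i P) P * hh P (D.dv j P) * m) * m) * δ = 1

namespace Dat

variable {D : DS A} (V : Dat D)

def n : A := - hh V.P V.P
def Pd (i : Fin 2) : Fin 4 → A := D.dv i V.P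
def u (i : Fin 2) : A := - (hh (V.Pd i) V.P * V.m)
def E (i : Fin 2) : Fin 4 → A := fun a => V.Pd i a - V.u i * V.P a
def K (i j : Fin 2) : A := hh (V.Pd i) (V.Pd j) + hh (V.Pd i) V.P * hh V.P (V.Pd j) * V.m
def g (i j : Fin 2) : A := V.K i j * V.m
/-- determinant of `g` -/
def Dg : A := d2 V.g
def gi : Fin 2 → Fin 2 → A := iv V.δ V.g
def C : Fin 4 → A := cf V.P (V.Pd 0) (V.Pd 1)
def q (i j : Fin 2) : A := dt (D.dv i (V.Pd j)) V.C
/-- `- h(N,N)` -/
def n' : A := - (V.C 0 * star (V.C 0) + V.C 1 * star (V.C 1) - V.C 2 * star (V.C 2)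
  - V.C 3 * star (V.C 3))
/-- `1 / (n n')` -/
def κ : A := V.m ^ 4 * V.δ
/-- the second metric -/
def gp (k l : Fin 2) : A := V.κ * ∑ i, ∑ j, V.q i k * V.gi j i * star (V.q j l)
/-- the connection -/
def th (k i j : Fin 2) : A := ∑ a, D.d k (V.g i a) * V.gi a j
/-- the curvature -/
def Th (l k i j : Fin 2) : A := D.b l (V.th k i j)
def trTh (l k : Fin 2) : A := ∑ i, V.Th l k i i
def trth (k : Fin 2) : A := ∑ i, V.th k i i
def Disc : A := ∑ i, ∑ j, (V.Th 0 0 i j * V.Th 1 1 j i - V.Th 0 1 i j * V.Th 1 0 j i)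
def dett : A := d2 V.trTh
/-- the trace of `gp` with respect to `g` -/
def t : A := V.δ * md V.g V.gp

end Dat

end Pool.Agent.MPd01a95.CW
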