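import Mathlib
import Pool.Agent.Lib.MP_d01a95_gt_M.Defs

/-!
Project SU(2,2), part (3): first identities (helper5).
-/

set_option autoImplicit false
set_option linter.all false

open Matrix

namespace Pool.Agent.MPd01a95.CW

section alg
variable {A : Type} [CommRing A] [StarRing A]

theorem star_hh (v w : Fin 4 → A) : star (hh v w) = hh w v := by
  simp only [hh, star_sub, star_add, star_mul', star_star]; ring

theorem dt_cf (v x y z : Fin 4 → A) : dt v (cf x y z) =
    v 0 * d3 x y z 1 2 3 - v 1 * d3 x y z 0 2 3 + v 2 * d3 x y z 0 1 3 - v 3 * d3 x y z 0 1 2 := by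
  simp only [dt, cf, Matrix.cons_val_zero, Matrix.cons_val_one, Matrix.cons_val]; ring

theorem dt_cf_self1 (x y z : Fin 4 → A) : dt x (cf x y z) = 0 := by
  rw [dt_cf]; simp only [d3]; ring

theorem dt_cf_self2 (x y z : Fin 4 → A) : dt y (cf x y z) = 0 := by
  rw [dt_cf]; simp only [d3]; ring

theorem dt_cf_self3 (x y z : Fin 4 → A) : dt z (cf x y z) = 0 := by
  rw [dt_cf]; simp only [d3]; ring

theorem dt_add_left (v v' w : Fin 4 → A) : dt (fun a => v a + v' a) w = dt v w + dt v' w := by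
  simp only [dt]; ring
theorem dt_sub_left (v v' w : Fin 4 → A) : dt (fun a => v a - v' a) w = dt v w - dt v' w := by
  simp only [dt]; ring
theorem dt_smul_left (c : A) (v w : Fin 4 → A) : dt (fun a => c * v a) w = c * dt v w := by
  simp only [dt]; ring
theorem hh_add_left (v v' w : Fin 4 → A) : hh (fun a => v a + v' a) w = hh v w + hh v' w := by
  simp only [hh]; ring
theorem hh_sub_left (v v' w : Fin 4 → A) : hh (fun a => v a - v' a) w = hh v w - hh v' w := by
  simp only [hh]; ring
theorem hh_smul_left (c : A) (v w : Fin 4 → A) : hh (fun a => c * v a) w = c * hh v w := by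
  simp only [hh]; ring
theorem hh_add_right (v w w' : Fin 4 → A) : hh v (fun a => w a + w' a) = hh v w + hh v w' := by
  simp only [hh, star_add]; ring
theorem hh_sub_right (v w w' : Fin 4 → A) : hh v (fun a => w a - w' a) = hh v w - hh v w' := by
  simp only [hh, star_sub]; ring
theorem hh_smul_right (c : A) (v w : Fin 4 → A) : hh v (fun a => c * w a) = star c * hh v w := by
  simp only [hh, star_mul']; ring

/-- determinant of four vectors, as a matrix -/
def mt (x y z w : Fin 4 → A) : Matrix (Fin 4) (Fin 4) A := Matrix.of ![x, y, z, w]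

theorem det_mt (v x y z : Fin 4 → A) : (mt v x y z).det = dt v (cf x y z) := by
  rw [dt_cf, mt, Matrix.det_succ_row_zero]
  simp only [Matrix.det_fin_three, Fin.sum_univ_four, d3]
  simp [Fin.succAbove, Fin.lt_def]
  ring

/-- the signature matrix -/
def sgm : Matrix (Fin 4) (Fin 4) A := Matrix.diagonal ![1, 1, -1, -1]

theorem gram4 (v x y z v' x' y' z' : Fin 4 → A) :
    dt v (cf x y z) * star (dt v' (cf x' y' z')) =
      (Matrix.of ![![hh v v', hh v x', hh v y', hh v z'], ![hh x v', hh x x', hh x y', hh x z'],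
        ![hh y v', hh y x', hh y y', hh y z'], ![hh z v', hh z x', hh z y', hh z z']]).det := by
  have h1 : (mt v x y z * sgm * (mt v' x' y' z')ᴴ).det =
      dt v (cf x y z) * star (dt v' (cf x' y' z')) := by
    rw [Matrix.det_mul, Matrix.det_mul, det_mt, Matrix.det_conjTranspose, det_mt]
    have : (sgm : Matrix (Fin 4) (Fin 4) A).det = 1 := by
      simp [sgm, Matrix.det_diagonal, Fin.prod_univ_four]
    rw [this, mul_one]
  rw [← h1]
  congr 1
  ext i j
  fin_cases i <;> fin_cases j <;>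
    simp [mt, sgm, Matrix.mul_apply, Fin.sum_univ_four, hh, Matrix.vecMul_diagonal] <;> ring

end alg

variable {A : Type} [CommRing A] [Algebra ℂ A] [StarRing A]

namespace DS
variable (D : DS A)

theorem hst' (i : Fin 2) (x : A) : star (D.b i x) = D.d i (star x) := by
  have := D.hst i (star x)
  rw [star_star] at this
  rw [← this, star_star]

theorem d_hh (k : Fin 2) (v w : Fin 4 → A) : D.d k (hh v w) = hh (D.dv k v) w + hh v (D.bv k w) := by
  simp only [hh, dv, bv, map_add, map_sub, Derivation.leibniz, smul_eq_mul, D.hst']; ring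

theorem b_hh (k : Fin 2) (v w : Fin 4 → A) : D.b k (hh v w) = hh (D.bv k v) w + hh v (D.dv k w) := by
  simp only [hh, dv, bv, map_add, map_sub, Derivation.leibniz, smul_eq_mul, D.hst]; ring

theorem d_dt (k : Fin 2) (v w : Fin 4 → A) : D.d k (dt v w) = dt (D.dv k v) w + dt v (D.dv k w) := by
  simp only [dt, dv, map_add, Derivation.leibniz, smul_eq_mul]; ring

theorem b_dt (k : Fin 2) (v w : Fin 4 → A) : D.b k (dt v w) = dt (D.bv k v) w + dt v (D.bv k w) := by
  simp only [dt, bv, map_add, Derivation.leibniz, smul_eq_mul]; ring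

theorem b_d3 (k : Fin 2) (x y z : Fin 4 → A) (hx : ∀ a, D.b k (x a) = 0) (hy : ∀ a, D.b k (y a) = 0)
    (hz : ∀ a, D.b k (z a) = 0) (i j l : Fin 4) : D.b k (d3 x y z i j l) = 0 := by
  simp only [d3, map_add, map_sub, Derivation.leibniz, smul_eq_mul, hx, hy, hz]; ring

theorem b_cf (k : Fin 2) (x y z : Fin 4 → A) (hx : ∀ a, D.b k (x a) = 0) (hy : ∀ a, D.b k (y a) = 0)
    (hz : ∀ a, D.b k (z a) = 0) (a : Fin 4) : D.b k (cf x y z a) = 0 := by
  fin_cases a <;> simp [cf, D.b_d3 k x y z hx hy hz]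

end DS

namespace Dat

variable {D : DS A} (V : Dat D)

theorem hol_d (k i : Fin 2) (a : Fin 4) : D.b k (D.d i (V.P a)) = 0 := by
  rw [← D.hdb, V.hol, map_zero]

theorem hol_Pd (k i : Fin 2) (a : Fin 4) : D.b k (V.Pd i a) = 0 := V.hol_d k i a

theorem hol_C (k : Fin 2) (a : Fin 4) : D.b k (V.C a) = 0 :=
  D.b_cf k _ _ _ (V.hol k) (V.hol_Pd k 0) (V.hol_Pd k 1) a

theorem hol_q (k i j : Fin 2) : D.b k (V.q i j) = 0 := by
  have h1 : D.bv k (D.dv i (V.Pd j)) = fun _ => 0 := by
    funext a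
    change D.b k (D.d i (V.Pd j a)) = 0
    rw [← D.hdb, V.hol_Pd, map_zero]
  have h2 : D.bv k V.C = fun _ => 0 := by
    funext a
    exact V.hol_C k a
  rw [q, D.b_dt, h1, h2]
  simp [dt]

theorem star_n : star V.n = V.n := by simp [n, star_hh]

theorem nm : V.n * V.m = 1 := V.hm

theorem star_m : star V.m = V.m := by
  have h := congrArg star V.nm
  rw [star_mul', V.star_n, star_one] at h
  calc star V.m = star V.m * (V.n * V.m) := by rw [V.nm, mul_one]
    _ = (V.n * star V.m) * V.m := by ring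
    _ = V.m := by rw [h, one_mul]

theorem K_star (i j : Fin 2) : star (V.K i j) = V.K j i := by
  simp only [K, star_add, star_mul', star_hh, V.star_m]; ring

theorem g_star (i j : Fin 2) : star (V.g i j) = V.g j i := by
  simp only [g, star_mul', V.K_star, V.star_m]

theorem Dδ : V.Dg * V.δ = 1 := V.hδ

theorem star_Dg : star V.Dg = V.Dg := by
  simp only [Dg, d2, star_sub, star_mul', V.g_star]; ring

theorem star_δ : star V.δ = V.δ := by
  have h := congrArg star V.Dδ
  rw [star_mul', V.star_Dg, star_one] at h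
  calc star V.δ = star V.δ * (V.Dg * V.δ) := by rw [V.Dδ, mul_one]
    _ = (V.Dg * star V.δ) * V.δ := by ring
    _ = V.δ := by rw [h, one_mul]

theorem q_symm (i j : Fin 2) : V.q i j = V.q j i := by
  have : D.dv i (V.Pd j) = D.dv j (V.Pd i) := by
    funext a; exact D.hdd i j (V.P a)
  rw [q, q, this]

theorem d_m (k : Fin 2) : D.d k V.m = V.m ^ 2 * hh (V.Pd k) V.P := by
  have h := congrArg (D.d k) V.hm
  have h0 : D.bv k V.P = fun _ => 0 := funext fun a => V.hol k a
  rw [Derivation.leibniz, map_neg, D.d_hh, h0, Derivation.map_one_eq_zero] at h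
  simp only [smul_eq_mul] at h
  have e : hh V.P (fun _ : Fin 4 => (0 : A)) = 0 := by simp [hh]
  rw [e, add_zero] at h
  have h2 := V.hm
  have h3 : hh (D.dv k V.P) V.P = hh (V.Pd k) V.P := rfl
  rw [h3] at h
  linear_combination V.m * h - D.d k V.m * h2

theorem b_m (k : Fin 2) : D.b k V.m = V.m ^ 2 * hh V.P (V.Pd k) := by
  have h := congrArg star (V.d_m k)
  rw [D.hst, V.star_m, star_mul', star_pow, V.star_m, star_hh] at h
  exact h

theorem u_eq (i : Fin 2) : V.u i = - (hh (V.Pd i) V.P * V.m) := rfl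

theorem hEP (i : Fin 2) : hh (V.E i) V.P = 0 := by
  have : V.E i = fun a => V.Pd i a - V.u i * V.P a := rfl
  rw [this, hh_sub_left (V.Pd i) (fun a => V.u i * V.P a), hh_smul_left, u_eq]
  have h2 := V.hm
  linear_combination (-(hh (V.Pd i) V.P)) * h2

theorem hPE (i : Fin 2) : hh V.P (V.E i) = 0 := by
  rw [← star_hh, hEP, star_zero]

theorem hE_right (i : Fin 2) (v : Fin 4 → A) (h : hh v V.P = 0) : hh v (V.E i) = hh v (V.Pd i) := by
  have : V.E i = fun a => V.Pd i a - V.u i * V.P a := rfl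
  rw [this, hh_sub_right v (V.Pd i) (fun a => V.u i * V.P a), hh_smul_right, h]; ring

theorem hPdE (k i : Fin 2) : hh (V.Pd k) (V.E i) = V.K k i := by
  have : V.E i = fun a => V.Pd i a - V.u i * V.P a := rfl
  rw [this, hh_sub_right (V.Pd k) (V.Pd i) (fun a => V.u i * V.P a), hh_smul_right, u_eq]
  simp only [star_neg, star_mul', star_hh, V.star_m, K]; ring

theorem hEE (k i : Fin 2) : hh (V.E k) (V.E i) = V.K k i := by
  have : V.E k = fun a => V.Pd k a - V.u k * V.P a := rfl
  rw [this, hh_sub_left (V.Pd k) (fun a => V.u k * V.P a), hh_smul_left, hPE, hPdE]; ring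

theorem b_u (l i : Fin 2) : D.b l (V.u i) = - V.g i l := by
  have h0 : D.bv l (V.Pd i) = fun _ => 0 := funext fun a => V.hol_Pd l i a
  have e : hh (fun _ : Fin 4 => (0 : A)) V.P = 0 := by simp [hh]
  have h3 : D.dv l V.P = V.Pd l := rfl
  rw [u_eq, map_neg, Derivation.leibniz, D.b_hh, h0, e, h3, V.b_m, g, K]
  simp only [smul_eq_mul]
  ring

theorem b_E (l i : Fin 2) (a : Fin 4) : D.b l (V.E i a) = V.g i l * V.P a := by
  change D.b l (V.Pd i a - V.u i * V.P a) = _
  rw [map_sub, V.hol_Pd, Derivation.leibniz, V.b_u, V.hol]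
  simp only [smul_eq_mul]
  ring

theorem PC : dt V.P V.C = 0 := dt_cf_self1 _ _ _

theorem PdC (i : Fin 2) : dt (V.Pd i) V.C = 0 := by
  fin_cases i
  · exact dt_cf_self2 _ _ _
  · exact dt_cf_self3 _ _ _

theorem EC (i : Fin 2) : dt (V.E i) V.C = 0 := by
  have : V.E i = fun a => V.Pd i a - V.u i * V.P a := rfl
  rw [this, dt_sub_left (V.Pd i) (fun a => V.u i * V.P a), dt_smul_left, PC, PdC]; ring

/-- replacing `P_i` by `E_i` does not change the covector -/
theorem C_eq (v : Fin 4 → A) : dt v V.C = dt v (cf V.P (V.E 0) (V.E 1)) := by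
  rw [C, dt_cf, dt_cf]
  simp only [d3, E]
  ring

theorem parseval (v w : Fin 4 → A) :
    dt v V.C * star (dt w V.C) = - V.n * d2 V.K * hh v w - d2 V.K * hh v V.P * hh V.P w
      + V.n * (hh v (V.E 0) * V.K 1 1 * hh (V.E 0) w - hh v (V.E 0) * V.K 0 1 * hh (V.E 1) w
        - hh v (V.E 1) * V.K 1 0 * hh (V.E 0) w + hh v (V.E 1) * V.K 0 0 * hh (V.E 1) w) := by
  rw [C_eq, C_eq, gram4]
  simp only [hEP, hPE, hEE]
  rw [Matrix.det_succ_row_zero]
  have hn : hh V.P V.P = - V.n := by simp [n]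
  simp only [Matrix.det_fin_three, Fin.sum_univ_four, hn]
  simp [Fin.succAbove, Fin.lt_def, d2]
  ring

/-- Cauchy-Binet -/
theorem n'_eq : V.n' = V.n * d2 V.K := by
  have p0 := V.parseval (Pi.single 0 1) (Pi.single 0 1)
  have p1 := V.parseval (Pi.single 1 1) (Pi.single 1 1)
  have p2 := V.parseval (Pi.single 2 1) (Pi.single 2 1)
  have p3 := V.parseval (Pi.single 3 1) (Pi.single 3 1)
  have k00 := V.hEE 0 0
  have k01 := V.hEE 0 1
  have k10 := V.hEE 1 0
  have k11 := V.hEE 1 1
  have hn : hh V.P V.P = - V.n := by simp [n]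
  simp only [dt, hh, d2] at p0 p1 p2 p3 k00 k01 k10 k11 hn
  simp at p0 p1 p2 p3
  simp only [n', d2]
  generalize V.E 0 = e at *
  generalize V.E 1 = f at *
  linear_combination (exp := 1) (-1) * p0 - p1 + p2 + p3 + V.n * (- V.K 1 1 * k00 - V.K 0 0 * k11 + V.K 0 1 * k10 + V.K 1 0 * k01) + (V.K 0 0 * V.K 1 1 - V.K 0 1 * V.K 1 0) * hn

end Dat

end Pool.Agent.MPd01a95.CW
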