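import Mathlib
import Pool.Agent.Lib.MP_d01a95_gt_M.Defs
import Pool.Agent.Lib.MP_d01a95_gt_M.Alg1

/-!
Project SU(2,2), part (3): the curvature (helper5).
-/

set_option autoImplicit false
set_option linter.all false

open Matrix

namespace Pool.Agent.MPd01a95.CW

variable {A : Type} [CommRing A] [Algebra ℂ A] [StarRing A]

namespace Dat

variable {D : DS A} (V : Dat D)

/-- `∂_k E_i` -/
def w (k i : Fin 2) : Fin 4 → A := D.dv k (V.E i)

theorem bP (k : Fin 2) : D.bv k V.P = fun _ => 0 := funext fun a => V.hol k a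

theorem hh_zero_right (v : Fin 4 → A) : hh v (fun _ : Fin 4 => (0 : A)) = 0 := by simp [hh]
theorem hh_zero_left (v : Fin 4 → A) : hh (fun _ : Fin 4 => (0 : A)) v = 0 := by simp [hh]

theorem w_P (k i : Fin 2) : hh (V.w k i) V.P = 0 := by
  have h := D.d_hh k (V.E i) V.P
  rw [V.hEP, map_zero, V.bP, hh_zero_right, add_zero] at h
  exact h.symm

theorem P_w (k i : Fin 2) : hh V.P (V.w k i) = 0 := by
  rw [← star_hh, w_P, star_zero]

theorem bE (l i : Fin 2) : D.bv l (V.E i) = fun a => V.g i l * V.P a := funext fun a => V.b_E l i a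

theorem d_K (k i j : Fin 2) : D.d k (V.K i j) = hh (V.w k i) (V.E j) := by
  rw [← V.hEE, D.d_hh, V.bE, hh_smul_right, V.hEP]
  simp [w]

theorem b_K (l i j : Fin 2) : D.b l (V.K i j) = hh (V.E i) (V.w l j) := by
  have h := congrArg star (V.d_K l j i)
  rw [D.hst, V.K_star, star_hh] at h
  exact h

theorem b_w (l k i : Fin 2) (a : Fin 4) :
    D.b l (V.w k i a) = D.d k (V.g i l) * V.P a + V.g i l * V.Pd k a := by
  change D.b l (D.d k (V.E i a)) = _
  rw [← D.hdb, V.b_E, Derivation.leibniz]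
  simp only [smul_eq_mul, Pd, DS.dv]
  ring

theorem b_d_K (l k i j : Fin 2) :
    D.b l (D.d k (V.K i j)) = V.g i l * V.K k j + hh (V.w k i) (V.w l j) := by
  rw [V.d_K, D.b_hh]
  have e : D.bv l (V.w k i) = fun a => D.d k (V.g i l) * V.P a + V.g i l * V.Pd k a :=
    funext fun a => V.b_w l k i a
  rw [e, hh_add_left (fun a => D.d k (V.g i l) * V.P a) (fun a => V.g i l * V.Pd k a),
    hh_smul_left, hh_smul_left, V.hPE, V.hPdE]
  simp [w]

theorem w_C (k i : Fin 2) : dt (V.w k i) V.C = V.q k i := by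
  have e : V.w k i = fun a => D.d k (V.Pd i a) - (V.u i * V.Pd k a + D.d k (V.u i) * V.P a) := by
    funext a
    change D.d k (V.Pd i a - V.u i * V.P a) = _
    rw [map_sub, Derivation.leibniz]
    simp only [smul_eq_mul, Pd, DS.dv]
    ring
  have e2 : dt (fun a => D.d k (V.Pd i a)) V.C = V.q k i := rfl
  rw [e, dt_sub_left (fun a => D.d k (V.Pd i a))
    (fun a => V.u i * V.Pd k a + D.d k (V.u i) * V.P a), dt_add_left
    (fun a => V.u i * V.Pd k a) (fun a => D.d k (V.u i) * V.P a), dt_smul_left, dt_smul_left,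
    V.PC, V.PdC, e2]
  ring

/-- Parseval for the vectors `∂_k E_i` -/
theorem w_w (k i l j : Fin 2) : V.n * d2 V.K * hh (V.w k i) (V.w l j) =
    V.n * (hh (V.w k i) (V.E 0) * V.K 1 1 * hh (V.E 0) (V.w l j)
      - hh (V.w k i) (V.E 0) * V.K 0 1 * hh (V.E 1) (V.w l j)
      - hh (V.w k i) (V.E 1) * V.K 1 0 * hh (V.E 0) (V.w l j)
      + hh (V.w k i) (V.E 1) * V.K 0 0 * hh (V.E 1) (V.w l j)) - V.q k i * star (V.q l j) := by
  have h := V.parseval (V.w k i) (V.w l j)
  rw [w_C, w_C, w_P, P_w] at h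
  linear_combination h

theorem d_u (k i : Fin 2) : D.d k (V.u i) = D.d i (V.u k) := by
  have h1 : D.dv k (V.Pd i) = D.dv i (V.Pd k) := funext fun a => D.hdd k i (V.P a)
  simp only [u_eq, map_neg, Derivation.leibniz, D.d_hh, V.bP, V.d_m, hh_zero_right, smul_eq_mul]
  rw [h1]
  ring

theorem Dg_K : V.Dg = d2 V.K * V.m ^ 2 := by
  simp only [Dg, d2, g]; ring

theorem star_q_C (k i : Fin 2) : star (V.q k i) = star (V.q k i) := rfl

theorem g_eq (i j : Fin 2) : V.g i j = V.K i j * V.m := rfl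

theorem d_m' (k : Fin 2) : D.d k V.m = - V.m * V.u k := by
  rw [V.d_m, u_eq]; ring

theorem b_m' (k : Fin 2) : D.b k V.m = - V.m * star (V.u k) := by
  rw [V.b_m, u_eq, star_neg, star_mul', star_hh, V.star_m]; ring

/-- derivative of `g` -/
theorem d_g (k i j : Fin 2) : D.d k (V.g i j) = hh (V.w k i) (V.E j) * V.m - V.g i j * V.u k := by
  rw [g_eq, Derivation.leibniz, V.d_K, V.d_m']
  simp only [smul_eq_mul]; ring

theorem b_g (l i j : Fin 2) : D.b l (V.g i j) = hh (V.E i) (V.w l j) * V.m - V.g i j * star (V.u l) := by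
  rw [g_eq, Derivation.leibniz, V.b_K, V.b_m']
  simp only [smul_eq_mul]; ring

theorem star_u (l i : Fin 2) : D.d l (star (V.u i)) = - V.g l i := by
  rw [← D.hst', V.b_u, star_neg, V.g_star]

/-- second derivatives of `g` -/
theorem b_d_g (l k i j : Fin 2) : D.b l (D.d k (V.g i j)) =
    (V.g i l * V.K k j + hh (V.w k i) (V.w l j)) * V.m
      - hh (V.w k i) (V.E j) * V.m * star (V.u l)
      - (hh (V.E i) (V.w l j) * V.m - V.g i j * star (V.u l)) * V.u k + V.g i j * V.g k l := by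
  have h1 := V.b_d_K l k i j
  rw [V.d_K] at h1
  rw [V.d_g, map_sub, Derivation.leibniz, Derivation.leibniz, h1, V.b_m', V.b_g, V.b_u]
  simp only [smul_eq_mul]; ring

/-- the inverse matrix -/
theorem g_gi (i j : Fin 2) : ∑ a, V.g i a * V.gi a j = if i = j then 1 else 0 := by
  have h := V.Dδ
  simp only [Dg, d2] at h
  fin_cases i <;> fin_cases j <;> simp [gi, iv, Fin.sum_univ_two]
  · linear_combination h
  · ring
  · ring
  · linear_combination h

theorem gi_g (i j : Fin 2) : ∑ a, V.gi i a * V.g a j = if i = j then 1 else 0 := by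
  have h := V.Dδ
  simp only [Dg, d2] at h
  fin_cases i <;> fin_cases j <;> simp [gi, iv, Fin.sum_univ_two]
  · linear_combination h
  · ring
  · ring
  · linear_combination h

/-- `θ g = ∂ g` -/
theorem th_g (k i j : Fin 2) : ∑ a, V.th k i a * V.g a j = D.d k (V.g i j) := by
  have h0 := V.gi_g 0 j
  have h1 := V.gi_g 1 j
  simp only [th, Fin.sum_univ_two] at h0 h1 ⊢
  fin_cases j <;> simp at h0 h1 ⊢ <;> linear_combination D.d k (V.g i 0) * h0 + D.d k (V.g i 1) * h1

theorem th_eq (k i a : Fin 2) : V.th k i a =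
    V.m * (hh (V.w k i) (V.E 0) * V.gi 0 a + hh (V.w k i) (V.E 1) * V.gi 1 a)
      - V.u k * (if i = a then 1 else 0) := by
  rw [← V.g_gi i a, th]
  simp only [Fin.sum_univ_two, V.d_g]
  ring

/-- the curvature formula -/
theorem curv (l k i j : Fin 2) : ∑ a, V.Th l k i a * V.g a j =
    V.g i l * V.g k j + V.g k l * V.g i j - V.κ * V.q k i * star (V.q l j) := by
  have h := congrArg (D.b l) (V.th_g k i j)
  rw [V.b_d_g] at h
  simp only [map_sum, Derivation.leibniz, smul_eq_mul, V.b_g] at h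
  have hw := V.w_w k i l j
  have hd := V.Dδ
  have hnm := V.nm
  rw [V.Dg_K] at hd
  have ht := V.th_g k i j
  rw [V.d_g] at ht
  have e0 := V.th_eq k i 0
  have e1 := V.th_eq k i 1
  simp only [Fin.sum_univ_two] at h ht ⊢
  simp only [Th]
  have hY : V.th k i 0 * hh (V.E 0) (V.w l j) + V.th k i 1 * hh (V.E 1) (V.w l j) =
      V.m ^ 2 * V.δ * (hh (V.w k i) (V.E 0) * V.K 1 1 * hh (V.E 0) (V.w l j)
      - hh (V.w k i) (V.E 0) * V.K 0 1 * hh (V.E 1) (V.w l j)
      - hh (V.w k i) (V.E 1) * V.K 1 0 * hh (V.E 0) (V.w l j)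
      + hh (V.w k i) (V.E 1) * V.K 0 0 * hh (V.E 1) (V.w l j)) - V.u k * hh (V.E i) (V.w l j) := by
    rw [e0, e1]
    fin_cases i <;> simp [gi, iv, g_eq] <;> ring
  generalize hh (V.w k i) (V.E 0) = X0 at *
  generalize hh (V.w k i) (V.E 1) = X1 at *
  generalize hh (V.E 0) (V.w l j) = Y0 at *
  generalize hh (V.E 1) (V.w l j) = Y1 at *
  simp only [κ, g_eq] at *
  linear_combination h - V.m * hY + star (V.u l) * ht + V.m ^ 4 * V.δ * hw
    - (V.m * hh (V.w k i) (V.w l j)) * hd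
    - (V.m ^ 3 * V.δ * d2 V.K * hh (V.w k i) (V.w l j)) * hnm
    + V.m ^ 3 * V.δ * (X0 * V.K 1 1 * Y0 - X0 * V.K 0 1 * Y1 - X1 * V.K 1 0 * Y0 + X1 * V.K 0 0 * Y1) * hnm

end Dat

end Pool.Agent.MPd01a95.CW
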