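import Mathlib
import Pool.Agent.Lib.MP_d01a95_gt_M.Defs
import Pool.Agent.Lib.MP_d01a95_gt_M.Alg1
import Pool.Agent.Lib.MP_d01a95_gt_M.Alg2

/-!
Project SU(2,2), part (3): Chern forms (helper5).
-/

set_option autoImplicit false
set_option linter.all false

open Matrix

namespace Pool.Agent.MPd01a95.CW

variable {A : Type} [CommRing A] [Algebra ℂ A] [StarRing A]

namespace Dat

variable {D : DS A} (V : Dat D)

/-- the vector `q̄_l g⁻¹` -/
def s (l a : Fin 2) : A := ∑ j, star (V.q l j) * V.gi j a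

theorem s_g (l m : Fin 2) : ∑ a, V.s l a * V.g a m = star (V.q l m) := by
  have h0 := V.gi_g 0 m
  have h1 := V.gi_g 1 m
  simp only [s, Fin.sum_univ_two] at h0 h1 ⊢
  fin_cases m <;> simp at h0 h1 ⊢ <;>
    linear_combination star (V.q l 0) * h0 + star (V.q l 1) * h1

theorem s_symm : V.s 0 0 * V.g 0 1 + V.s 0 1 * V.g 1 1 = V.s 1 0 * V.g 0 0 + V.s 1 1 * V.g 1 0 := by
  have h1 := V.s_g 0 1
  have h2 := V.s_g 1 0
  rw [V.q_symm 1 0] at h2
  simp only [Fin.sum_univ_two] at h1 h2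
  rw [h1, h2]

theorem Th_eq (l k i a : Fin 2) : V.Th l k i a =
    V.g i l * (if k = a then 1 else 0) + V.g k l * (if i = a then 1 else 0)
      - V.κ * V.q k i * V.s l a := by
  have h0 := V.curv l k i 0
  have h1 := V.curv l k i 1
  have g0 := V.g_gi 0 a
  have g1 := V.g_gi 1 a
  rw [← V.g_gi k a, ← V.g_gi i a]
  simp only [s, Fin.sum_univ_two] at h0 h1 g0 g1 ⊢
  have e : V.Th l k i a = V.Th l k i 0 * (V.g 0 0 * V.gi 0 a + V.g 0 1 * V.gi 1 a) +
      V.Th l k i 1 * (V.g 1 0 * V.gi 0 a + V.g 1 1 * V.gi 1 a) := by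
    rw [g0, g1]
    fin_cases a <;> simp
  rw [e]
  linear_combination V.gi 0 a * h0 + V.gi 1 a * h1

theorem gp_eq (k l : Fin 2) : V.gp k l = V.κ * (V.q k 0 * V.s l 0 + V.q k 1 * V.s l 1) := by
  simp only [gp, s, Fin.sum_univ_two, V.q_symm _ l, V.q_symm _ k]
  ring

theorem trTh_eq (l k : Fin 2) : V.trTh l k = 3 * V.g k l - V.gp k l := by
  rw [gp_eq, trTh]
  simp only [Fin.sum_univ_two, Th_eq]
  fin_cases k <;> simp <;> ring

/-- Chern numbers -/
theorem disc_eq : 3 * V.Disc - V.dett = - 4 * d2 V.gp := by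
  have h := V.s_symm
  simp only [Disc, dett, d2, trTh_eq, gp_eq, Fin.sum_univ_two, Th_eq]
  simp
  rw [V.q_symm 1 0]
  linear_combination (0 : A) * h

end Dat

end Pool.Agent.MPd01a95.CW
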