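import Mathlib
import Pool.Agent.Lib.MP_d01a95_gt_M.Defs
import Pool.Agent.Lib.MP_d01a95_gt_M.Alg1
import Pool.Agent.Lib.MP_d01a95_gt_M.Alg2
import Pool.Agent.Lib.MP_d01a95_gt_M.Alg3

/-!
Project SU(2,2), part (3): closedness and transgression (helper5).
-/

set_option autoImplicit false
set_option linter.all false

open Matrix

namespace Pool.Agent.MPd01a95.CW

variable {A : Type} [CommRing A] [Algebra ℂ A] [StarRing A]

namespace Dat

variable {D : DS A} (V : Dat D)

theorem gi_star (i j : Fin 2) : star (V.gi i j) = V.gi j i := by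
  fin_cases i <;> fin_cases j <;> simp [gi, iv, V.star_δ, V.g_star]

theorem star_κ : star V.κ = V.κ := by simp [κ, V.star_m, V.star_δ]

theorem gp_star (k l : Fin 2) : star (V.gp k l) = V.gp l k := by
  simp only [gp, Fin.sum_univ_two, star_add, star_mul', V.gi_star, star_star, V.star_κ,
    V.q_symm _ k, V.q_symm _ l]
  ring

theorem trth_eq (k : Fin 2) : V.trth k = V.δ * D.d k V.Dg := by
  simp only [trth, th, Fin.sum_univ_two, Dg, d2, map_sub, Derivation.leibniz, smul_eq_mul]
  simp [gi, iv]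
  ring

theorem d_closed_g (m k l : Fin 2) : D.d m (V.g k l) = D.d k (V.g m l) := by
  have h1 : V.g k l = - D.b l (V.u k) := by rw [V.b_u, neg_neg]
  have h2 : V.g m l = - D.b l (V.u m) := by rw [V.b_u, neg_neg]
  rw [h1, h2, map_neg, map_neg, D.hdb, D.hdb, V.d_u]

theorem b_closed_g (m k l : Fin 2) : D.b m (V.g k l) = D.b l (V.g k m) := by
  have h := congrArg star (V.d_closed_g m l k)
  rw [D.hst, D.hst, V.g_star, V.g_star] at h
  exact h

theorem d_δ (k : Fin 2) : D.d k V.δ = - V.δ ^ 2 * D.d k V.Dg := by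
  have h := congrArg (D.d k) V.Dδ
  rw [Derivation.leibniz, Derivation.map_one_eq_zero] at h
  simp only [smul_eq_mul] at h
  linear_combination V.δ * h - D.d k V.δ * V.Dδ

theorem d_trth (m k : Fin 2) : D.d m (V.trth k) = D.d k (V.trth m) := by
  rw [trth_eq, trth_eq, Derivation.leibniz, Derivation.leibniz, V.d_δ, V.d_δ, D.hdd m k]
  simp only [smul_eq_mul]
  ring

theorem trTh_b (l k : Fin 2) : V.trTh l k = D.b l (V.trth k) := by
  simp [trTh, trth, Th]

theorem gp_eq' (k l : Fin 2) : V.gp k l = 3 * V.g k l - D.b l (V.trth k) := by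
  rw [← trTh_b, trTh_eq]; ring

theorem d_three (k : Fin 2) : D.d k (3 : A) = 0 := by
  have : (3 : A) = algebraMap ℂ A 3 := (map_ofNat (algebraMap ℂ A) 3).symm
  rw [this, Derivation.map_algebraMap]

theorem b_three (k : Fin 2) : D.b k (3 : A) = 0 := by
  have : (3 : A) = algebraMap ℂ A 3 := (map_ofNat (algebraMap ℂ A) 3).symm
  rw [this, Derivation.map_algebraMap]

theorem d_closed_gp (m k l : Fin 2) : D.d m (V.gp k l) = D.d k (V.gp m l) := by
  rw [gp_eq', gp_eq', map_sub, map_sub, Derivation.leibniz, Derivation.leibniz, V.d_closed_g m k l,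
    D.hdb, D.hdb, V.d_trth m k, d_three, d_three, smul_zero, smul_zero]

theorem b_closed_gp (m k l : Fin 2) : D.b m (V.gp k l) = D.b l (V.gp k m) := by
  have h := congrArg star (V.d_closed_gp m l k)
  rw [D.hst, D.hst, V.gp_star, V.gp_star] at h
  exact h

theorem d2_gp : d2 V.gp = V.κ ^ 2 * V.δ * (d2 V.q * star (d2 V.q)) := by
  have h := V.Dδ
  simp only [Dg, d2] at h
  simp only [d2, gp, Fin.sum_univ_two, star_sub, star_mul', V.q_symm 1 0]
  simp [gi, iv]
  linear_combination (V.κ ^ 2 * V.δ * (V.q 0 0 * V.q 1 1 - V.q 0 1 ^ 2) *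
    (star (V.q 0 0) * star (V.q 1 1) - star (V.q 0 1) ^ 2)) * h

end Dat

/-! ### transgression -/

section trans

variable {D : DS A} (V W : Dat D)

def eta (k i j : Fin 2) : A := V.th k i j - W.th k i j

def sig (k i j : Fin 2) : A := V.th k i j + W.th k i j

/-- `tr (η_k ∂̄_l Σ_{k'})` -/
def tau (k l k' : Fin 2) : A := ∑ i, ∑ j, eta V W k i j * D.b l (sig V W k' j i)

/-- the same for the traces -/
def tau' (k l k' : Fin 2) : A := (∑ i, eta V W k i i) * ∑ j, D.b l (sig V W k' j j)

/-- the transgression form -/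
def alp (l : Fin 2) : A := 3 * (tau V W 0 l 1 - tau V W 1 l 0) - (tau' V W 0 l 1 - tau' V W 1 l 0)

theorem transgression : D.b 0 (alp V W 1) - D.b 1 (alp V W 0) =
    2 * ((3 * V.Disc - V.dett) - (3 * W.Disc - W.dett)) := by
  simp only [alp, tau, tau', eta, sig, Dat.Disc, Dat.dett, Dat.Th, d2, Dat.trTh, Fin.sum_univ_two,
    map_sub, map_add, Derivation.leibniz, smul_eq_mul, Dat.b_three, D.hbb 1 0]
  ring

end trans

end Pool.Agent.MPd01a95.CW
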