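import Mathlib
import Pool.Agent.Lib.MP_d01a95_gt_M.Defs
import Pool.Agent.Lib.MP_d01a95_gt_M.Alg1
import Pool.Agent.Lib.MP_d01a95_gt_M.Alg2
import Pool.Agent.Lib.MP_d01a95_gt_M.Alg3
import Pool.Agent.Lib.MP_d01a95_gt_M.Alg4

/-!
Project SU(2,2), part (3): tensoriality (helper5).
-/

set_option autoImplicit false
set_option linter.all false

open Matrix

namespace Pool.Agent.MPd01a95.CW

variable {A : Type} [CommRing A] [Algebra ℂ A] [StarRing A]

/-- a holomorphic change of variables, `J m k = ∂_k γ_m` -/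
structure Eqv (D : DS A) where
  c : A →+* A
  J : Fin 2 → Fin 2 → A
  c_star : ∀ x, c (star x) = star (c x)
  c_d : ∀ k x, D.d k (c x) = ∑ m, J m k * c (D.d m x)
  J_hol : ∀ l m k, D.b l (J m k) = 0

namespace Eqv
variable {D : DS A} (T : Eqv D)

theorem c_b (k : Fin 2) (x : A) : D.b k (T.c x) = ∑ m, star (T.J m k) * T.c (D.b m x) := by
  have h := congrArg star (T.c_d k (star x))
  rw [D.hst, T.c_star, star_star] at h
  rw [h, star_sum]
  refine Finset.sum_congr rfl fun m _ => ?_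
  rw [star_mul', ← T.c_star, D.hst, star_star]

theorem c_hh (v w : Fin 4 → A) : T.c (hh v w) = hh (fun a => T.c (v a)) (fun a => T.c (w a)) := by
  simp only [hh, map_add, map_sub, map_mul, T.c_star]

end Eqv

/-- equivariance of holomorphic data; `R` is a constant isometry -/
structure Dat.Eq {D : DS A} (V : Dat D) (T : Eqv D) (R : (Fin 4 → A) → Fin 4 → A) (μ : A) : Prop where
  add : ∀ v w, R (fun a => v a + w a) = fun a => R v a + R w a
  smul : ∀ (c : A) v, R (fun a => c * v a) = fun a => c * R v a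
  d : ∀ k v, D.dv k (R v) = R (D.dv k v)
  iso : ∀ v w, hh (R v) (R w) = hh v w
  eqv : ∀ a, T.c (V.P a) = μ * R V.P a

namespace Dat.Eq
variable {D : DS A} {V : Dat D} {T : Eqv D} {R : (Fin 4 → A) → Fin 4 → A} {μ : A}

theorem cn (h : V.Eq T R μ) : T.c V.n = μ * star μ * V.n := by
  have e : (fun a => T.c (V.P a)) = fun a => μ * R V.P a := funext h.eqv
  rw [Dat.n, map_neg, T.c_hh, e, hh_smul_left, hh_smul_right, h.iso]
  ring

theorem cm (h : V.Eq T R μ) : μ * star μ * T.c V.m = V.m := by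
  have h1 : T.c V.n * T.c V.m = 1 := by rw [← map_mul, V.nm, map_one]
  rw [h.cn] at h1
  have h2 := V.nm
  linear_combination V.m * h1 - (μ * star μ * T.c V.m) * h2

theorem cPd (h : V.Eq T R μ) (k : Fin 2) (a : Fin 4) :
    ∑ m, T.J m k * T.c (V.Pd m a) = D.d k μ * R V.P a + μ * R (V.Pd k) a := by
  have h1 := congrArg (D.d k) (h.eqv a)
  rw [T.c_d, Derivation.leibniz] at h1
  have h2 : D.d k (R V.P a) = R (V.Pd k) a := congrFun (h.d k V.P) a
  rw [h2] at h1
  simp only [smul_eq_mul] at h1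
  rw [add_comm, mul_comm (D.d k μ)]
  exact h1

theorem cu (h : V.Eq T R μ) (k : Fin 2) :
    μ * ∑ m, T.J m k * T.c (V.u m) = D.d k μ + μ * V.u k := by
  have e : (fun a => T.c (V.P a)) = fun a => μ * R V.P a := funext h.eqv
  have h1 : ∑ m, T.J m k * T.c (V.u m) =
      - (hh (fun a => ∑ m, T.J m k * T.c (V.Pd m a)) (fun a => T.c (V.P a)) * T.c V.m) := by
    simp only [Fin.sum_univ_two, Dat.u, map_neg, map_mul, T.c_hh]
    rw [hh_add_left (fun a => T.J 0 k * T.c (V.Pd 0 a)) (fun a => T.J 1 k * T.c (V.Pd 1 a)),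
      hh_smul_left, hh_smul_left]
    ring
  have e2 : (fun a => ∑ m, T.J m k * T.c (V.Pd m a)) =
      fun a => D.d k μ * R V.P a + μ * R (V.Pd k) a := funext fun a => h.cPd k a
  rw [h1, e, e2, hh_add_left (fun a => D.d k μ * R V.P a) (fun a => μ * R (V.Pd k) a),
    hh_smul_left, hh_smul_left, hh_smul_right, hh_smul_right, h.iso, h.iso, V.u_eq]
  have hm := V.hm
  have cm := h.cm
  linear_combination (- (D.d k μ * hh V.P V.P + μ * hh (V.Pd k) V.P)) * cm + D.d k μ * hm

theorem cE (h : V.Eq T R μ) (k : Fin 2) (a : Fin 4) :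
    ∑ m, T.J m k * T.c (V.E m a) = μ * R (V.E k) a := by
  have h1 := h.cPd k a
  have h2 := h.cu k
  have h3 : R (V.E k) a = R (V.Pd k) a - V.u k * R V.P a := by
    have : V.E k = fun a => V.Pd k a + (- V.u k) * V.P a := by
      funext a; simp only [Dat.E]; ring
    rw [this, h.add (V.Pd k) (fun a => - V.u k * V.P a), h.smul]
    ring
  rw [h3]
  simp only [Fin.sum_univ_two, Dat.E, map_sub, map_mul, h.eqv] at *
  linear_combination h1 - R V.P a * h2

theorem cK (h : V.Eq T R μ) (i j : Fin 2) :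
    ∑ a, ∑ b, T.J a i * star (T.J b j) * T.c (V.K a b) = μ * star μ * V.K i j := by
  have e : ∀ k, (fun a => T.J 0 k * T.c (V.E 0 a) + T.J 1 k * T.c (V.E 1 a)) =
      fun a => μ * R (V.E k) a := by
    intro k
    funext a
    have := h.cE k a
    simpa only [Fin.sum_univ_two] using this
  have h1 : hh (fun a => T.J 0 i * T.c (V.E 0 a) + T.J 1 i * T.c (V.E 1 a))
      (fun a => T.J 0 j * T.c (V.E 0 a) + T.J 1 j * T.c (V.E 1 a)) = μ * star μ * V.K i j := by
    rw [e, e, hh_smul_left, hh_smul_right, h.iso, V.hEE]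
    ring
  rw [← h1, hh_add_left (fun a => T.J 0 i * T.c (V.E 0 a)) (fun a => T.J 1 i * T.c (V.E 1 a)),
    hh_add_right _ (fun a => T.J 0 j * T.c (V.E 0 a)) (fun a => T.J 1 j * T.c (V.E 1 a)),
    hh_add_right _ (fun a => T.J 0 j * T.c (V.E 0 a)) (fun a => T.J 1 j * T.c (V.E 1 a))]
  simp only [hh_smul_left, hh_smul_right, ← T.c_hh, V.hEE, Fin.sum_univ_two]
  ring

theorem cg (h : V.Eq T R μ) (i j : Fin 2) :
    ∑ a, ∑ b, T.J a i * star (T.J b j) * T.c (V.g a b) = V.g i j := by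
  have h1 := h.cK i j
  have cm := h.cm
  simp only [Fin.sum_univ_two, V.g_eq, map_mul] at *
  linear_combination T.c V.m * h1 + V.K i j * cm

end Dat.Eq

/-! ### consequences for the connection; everything from now on uses only `cg` -/

/-- matrix of functions -/
def mx (X : Fin 2 → Fin 2 → A) : Matrix (Fin 2) (Fin 2) A := Matrix.of X

/-- the invariance property -/
def Inv {D : DS A} (V : Dat D) (T : Eqv D) : Prop :=
  ∀ i j, ∑ a, ∑ b, T.J a i * star (T.J b j) * T.c (V.g a b) = V.g i j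

theorem Dat.Eq.inv {D : DS A} {V : Dat D} {T : Eqv D} {R : (Fin 4 → A) → Fin 4 → A} {μ : A}
    (h : V.Eq T R μ) : Inv V T := h.cg

namespace Inv
variable {D : DS A} {V W : Dat D} {T : Eqv D}

theorem det (h : Inv V T) : d2 T.J * star (d2 T.J) * T.c V.Dg = V.Dg := by
  have h00 := h 0 0
  have h01 := h 0 1
  have h10 := h 1 0
  have h11 := h 1 1
  simp only [Dat.Dg, d2, Fin.sum_univ_two, map_sub, map_mul, star_sub, star_mul'] at *
  generalize T.c (V.g 0 0) = c00 at *
  generalize T.c (V.g 0 1) = c01 at *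
  generalize T.c (V.g 1 0) = c10 at *
  generalize T.c (V.g 1 1) = c11 at *
  rw [← h00, ← h01, ← h10, ← h11]
  ring

/-- the determinant of the Jacobian is a unit -/
theorem unit (h : Inv V T) : d2 T.J * (star (d2 T.J) * T.c V.Dg * V.δ) = 1 := by
  have h1 := h.det
  have h2 := V.Dδ
  linear_combination V.δ * h1 + h2

theorem cδ (h : Inv V T) : d2 T.J * star (d2 T.J) * V.δ = T.c V.δ := by
  have h1 := h.det
  have h2 := V.Dδ
  have h3 : T.c V.Dg * T.c V.δ = 1 := by rw [← map_mul, V.Dδ, map_one]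
  linear_combination (V.δ * T.c V.δ) * h1 + T.c V.δ * h2 - (d2 T.J * star (d2 T.J) * V.δ) * h3

theorem d_starJ (T : Eqv D) (k m j : Fin 2) : D.d k (star (T.J m j)) = 0 := by
  rw [← D.hst', T.J_hol, star_zero]

theorem cancel (h : Inv V T) (x0 x1 : A)
    (hx : ∀ l, x0 * (T.c (V.g 0 0) * star (T.J 0 l) + T.c (V.g 0 1) * star (T.J 1 l)) +
      x1 * (T.c (V.g 1 0) * star (T.J 0 l) + T.c (V.g 1 1) * star (T.J 1 l)) = 0) :
    x0 = 0 ∧ x1 = 0 := by
  have h0 := hx 0
  have h1 := hx 1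
  have hu := h.unit
  simp only [Dat.Dg, d2, map_sub, map_mul, star_sub, star_mul'] at hu
  generalize T.c (V.g 0 0) = c00 at *
  generalize T.c (V.g 0 1) = c01 at *
  generalize T.c (V.g 1 0) = c10 at *
  generalize T.c (V.g 1 1) = c11 at *
  constructor
  · linear_combination ((T.J 0 0 * T.J 1 1 - T.J 0 1 * T.J 1 0) * V.δ) * ((c10 * star (T.J 0 1) + c11 * star (T.J 1 1)) * h0 -
      (c10 * star (T.J 0 0) + c11 * star (T.J 1 0)) * h1) - x0 * hu
  · linear_combination ((T.J 0 0 * T.J 1 1 - T.J 0 1 * T.J 1 0) * V.δ) * ((c00 * star (T.J 0 0) + c01 * star (T.J 1 0)) * h1 -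
      (c00 * star (T.J 0 1) + c01 * star (T.J 1 1)) * h0) - x1 * hu

/-- transformation of the connection: `θ_k Jᵀ = ∂_k Jᵀ + Jᵀ Σ J_mk c(θ_m)` -/
theorem cth (h : Inv V T) (k i j : Fin 2) : ∑ a, V.th k i a * T.J j a =
    D.d k (T.J j i) + ∑ a, ∑ m, T.J a i * T.J m k * T.c (V.th m a j) := by
  have key := h.cancel
    (∑ a, V.th k i a * T.J 0 a - (D.d k (T.J 0 i) + ∑ a, ∑ m, T.J a i * T.J m k * T.c (V.th m a 0)))
    (∑ a, V.th k i a * T.J 1 a - (D.d k (T.J 1 i) + ∑ a, ∑ m, T.J a i * T.J m k * T.c (V.th m a 1)))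
    (by
      intro l
      have e1 := V.th_g k i l
      have e2 := congrArg (D.d k) (h i l)
      have g0 := h 0 l
      have g1 := h 1 l
      have t : ∀ m a b, T.c (V.th m a 0) * T.c (V.g 0 b) + T.c (V.th m a 1) * T.c (V.g 1 b) =
          T.c (D.d m (V.g a b)) := by
        intro m a b
        rw [← V.th_g m a b]
        simp only [Fin.sum_univ_two, map_add, map_mul]
      simp only [Fin.sum_univ_two, map_add, Derivation.leibniz, smul_eq_mul, d_starJ, T.c_d] at *
      have t000 := t 0 0 0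
      have t001 := t 0 0 1
      have t010 := t 0 1 0
      have t011 := t 0 1 1
      have t100 := t 1 0 0
      have t101 := t 1 0 1
      have t110 := t 1 1 0
      have t111 := t 1 1 1
      linear_combination e1 - e2 + V.th k i 0 * g0 + V.th k i 1 * g1 
        - T.J 0 i * star (T.J 0 l) * (T.J 0 k * t000 + T.J 1 k * t100)
        - T.J 0 i * star (T.J 1 l) * (T.J 0 k * t001 + T.J 1 k * t101)
        - T.J 1 i * star (T.J 0 l) * (T.J 0 k * t010 + T.J 1 k * t110)
        - T.J 1 i * star (T.J 1 l) * (T.J 0 k * t011 + T.J 1 k * t111))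
  fin_cases j
  · exact sub_eq_zero.mp key.1
  · exact sub_eq_zero.mp key.2

end Inv

end Pool.Agent.MPd01a95.CW
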