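import Mathlib
import Pool.Agent.Lib.MP_d01a95_gt.Defs
import Pool.Agent.Lib.MP_d01a95_gt.Hol
import Pool.Agent.Lib.MP_d01a95_gt_M.Defs

/-!
Project SU(2,2), part (3): the algebra of smooth functions on the ball (helper5).
-/

set_option autoImplicit false
set_option linter.all false

open Matrix Filter Topology
open scoped ContDiff

namespace Pool.Agent.MPd01a95.CW

abbrev E2 : Type := Fin 2 → ℂ

/-- the unit ball of `ℂ²` -/
def B : Set E2 := {z | ∑ i, ‖z i‖ ^ 2 < 1}

theorem B_eq : B = HolAux.Bl (Fin 2) := rfl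

theorem isOpen_B : IsOpen B := by
  have : Continuous fun z : E2 => ∑ i, ‖z i‖ ^ 2 := by fun_prop
  exact isOpen_lt this continuous_const

/-- extension by zero -/
noncomputable def ext (f : B → ℂ) (z : E2) : ℂ :=
  open Classical in if h : z ∈ B then f ⟨z, h⟩ else 0

theorem ext_of_mem (f : B → ℂ) {z : E2} (h : z ∈ B) : ext f z = f ⟨z, h⟩ := by
  simp [ext, h]

theorem ext_of_not (f : B → ℂ) {z : E2} (h : z ∉ B) : ext f z = 0 := by
  simp [ext, h]

/-- smooth functions on the ball -/
def IsSm (f : B → ℂ) : Prop := ContDiffOn ℝ ∞ (ext f) B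

theorem IsSm.of_eqOn {f : B → ℂ} {F : E2 → ℂ} (hF : ContDiffOn ℝ ∞ F B)
    (h : ∀ z (hz : z ∈ B), f ⟨z, hz⟩ = F z) : IsSm f :=
  hF.congr fun z hz => by rw [ext_of_mem f hz, h z hz]

/-- the algebra of smooth functions on the ball -/
noncomputable def S : StarSubalgebra ℂ (B → ℂ) where
  carrier := {f | IsSm f}
  mul_mem' := by
    intro f g hf hg
    refine IsSm.of_eqOn (hf.mul hg) fun z hz => ?_
    simp [ext_of_mem _ hz]
  add_mem' := by
    intro f g hf hg
    refine IsSm.of_eqOn (hf.add hg) fun z hz => ?_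
    simp [ext_of_mem _ hz]
  algebraMap_mem' := by
    intro r
    refine IsSm.of_eqOn (F := fun _ => r) contDiffOn_const fun z hz => ?_
    simp [Pi.algebraMap_apply]
  star_mem' := by
    intro f hf
    refine IsSm.of_eqOn (F := fun z => star (ext f z)) ?_ fun z hz => ?_
    · exact (Complex.conjCLE.contDiff (n := ∞)).comp_contDiffOn hf
    · simp [ext_of_mem _ hz]

noncomputable instance : CommRing S := inferInstance
noncomputable instance : Algebra ℂ S := inferInstance
noncomputable instance : StarRing S := inferInstance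

/-- value of the extension -/
noncomputable def xt (f : S) : E2 → ℂ := ext f.1

theorem xt_sm (f : S) : ContDiffOn ℝ ∞ (xt f) B := f.2

theorem xt_mem (f : S) {z : E2} (hz : z ∈ B) : xt f z = f.1 ⟨z, hz⟩ := ext_of_mem _ hz

theorem S_ext {f g : S} (h : ∀ z ∈ B, xt f z = xt g z) : f = g := by
  apply Subtype.ext
  funext z
  have := h z.1 z.2
  rw [xt_mem f z.2, xt_mem g z.2] at this
  exact this

theorem xt_add (f g : S) {z : E2} (hz : z ∈ B) : xt (f + g) z = xt f z + xt g z := by
  simp [xt_mem _ hz]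
theorem xt_sub (f g : S) {z : E2} (hz : z ∈ B) : xt (f - g) z = xt f z - xt g z := by
  simp [xt_mem _ hz]
theorem xt_neg (f : S) {z : E2} (hz : z ∈ B) : xt (-f) z = - xt f z := by
  simp [xt_mem _ hz]
theorem xt_mul (f g : S) {z : E2} (hz : z ∈ B) : xt (f * g) z = xt f z * xt g z := by
  simp [xt_mem _ hz]
theorem xt_star (f : S) {z : E2} (hz : z ∈ B) : xt (star f) z = star (xt f z) := by
  simp [xt_mem _ hz]
theorem xt_one {z : E2} (hz : z ∈ B) : xt (1 : S) z = 1 := by
  simp [xt_mem _ hz]
theorem xt_zero {z : E2} (hz : z ∈ B) : xt (0 : S) z = 0 := by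
  simp [xt_mem _ hz]
theorem xt_smul (c : ℂ) (f : S) {z : E2} (hz : z ∈ B) : xt (c • f) z = c * xt f z := by
  simp [xt_mem _ hz]
theorem xt_algebraMap (c : ℂ) {z : E2} (hz : z ∈ B) : xt (algebraMap ℂ S c) z = c := by
  simp [xt_mem _ hz, Pi.algebraMap_apply]

/-- construct an element of `S` -/
noncomputable def mkS (F : E2 → ℂ) (hF : ContDiffOn ℝ ∞ F B) : S :=
  ⟨fun z => F z.1, IsSm.of_eqOn hF fun _ _ => rfl⟩

theorem xt_mkS (F : E2 → ℂ) (hF : ContDiffOn ℝ ∞ F B) {z : E2} (hz : z ∈ B) :
    xt (mkS F hF) z = F z := by rw [xt_mem _ hz]; rfl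

theorem xt_diff (f : S) {z : E2} (hz : z ∈ B) : DifferentiableAt ℝ (xt f) z :=
  ((xt_sm f).differentiableOn (by simp)).differentiableAt (isOpen_B.mem_nhds hz)

/-- derivative in the real direction `v` -/
noncomputable def dirF (v : E2) (f : S) : S :=
  mkS (fun z => fderiv ℝ (xt f) z v) (by
    have h1 : ContDiffOn ℝ ∞ (fderiv ℝ (xt f)) B :=
      (xt_sm f).fderiv_of_isOpen isOpen_B (by simp)
    exact h1.clm_apply contDiffOn_const)

theorem xt_dirF (v : E2) (f : S) {z : E2} (hz : z ∈ B) :
    xt (dirF v f) z = fderiv ℝ (xt f) z v := xt_mkS _ _ hz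

theorem ev_eq {f g : E2 → ℂ} (h : ∀ z ∈ B, f z = g z) {z : E2} (hz : z ∈ B) : f =ᶠ[𝓝 z] g := by
  filter_upwards [isOpen_B.mem_nhds hz] with y hy using h y hy

/-- the derivation in the real direction `v` -/
noncomputable def dir (v : E2) : Derivation ℂ S S :=
  Derivation.mk'
    { toFun := dirF v
      map_add' := by
        intro f g
        apply S_ext
        intro z hz
        rw [xt_add _ _ hz, xt_dirF _ _ hz, xt_dirF _ _ hz, xt_dirF _ _ hz,
          (ev_eq (fun y hy => xt_add f g hy) hz).fderiv_eq,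
          fderiv_fun_add (xt_diff f hz) (xt_diff g hz)]
        rfl
      map_smul' := by
        intro c f
        apply S_ext
        intro z hz
        rw [RingHom.id_apply, xt_smul _ _ hz, xt_dirF _ _ hz, xt_dirF _ _ hz,
          (ev_eq (fun y hy => xt_smul c f hy) hz).fderiv_eq,
          fderiv_const_mul (xt_diff f hz)]
        rfl }
    (by
      intro f g
      apply S_ext
      intro z hz
      change xt (dirF v (f * g)) z = xt (f * dirF v g + g * dirF v f) z
      rw [xt_add _ _ hz, xt_mul _ _ hz, xt_mul _ _ hz, xt_dirF _ _ hz, xt_dirF _ _ hz,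
        xt_dirF _ _ hz, (ev_eq (fun y hy => xt_mul f g hy) hz).fderiv_eq,
        fderiv_fun_mul (xt_diff f hz) (xt_diff g hz)]
      simp)

theorem xt_dir (v : E2) (f : S) {z : E2} (hz : z ∈ B) :
    xt (dir v f) z = fderiv ℝ (xt f) z v := xt_dirF v f hz

theorem dir_comm (v w : E2) (f : S) : dir v (dir w f) = dir w (dir v f) := by
  apply S_ext
  intro z hz
  have key : ∀ v w : E2, xt (dir v (dir w f)) z = fderiv ℝ (fderiv ℝ (xt f)) z v w := by
    intro v w
    rw [xt_dir _ _ hz, (ev_eq (fun y hy => xt_dir w f hy) hz).fderiv_eq]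
    have h1 : ContDiffOn ℝ ∞ (fderiv ℝ (xt f)) B :=
      (xt_sm f).fderiv_of_isOpen isOpen_B (by simp)
    have h2 : DifferentiableAt ℝ (fderiv ℝ (xt f)) z :=
      (h1.differentiableOn (by simp)).differentiableAt (isOpen_B.mem_nhds hz)
    rw [fderiv_clm_apply h2 (differentiableAt_const _)]
    simp
  rw [key, key]
  have h3 : ContDiffAt ℝ ∞ (xt f) z := (xt_sm f).contDiffAt (isOpen_B.mem_nhds hz)
  exact (h3.isSymmSndFDerivAt (by
    rw [minSmoothness_of_isRCLikeNormedField]
    exact WithTop.coe_le_coe.2 (le_top : (2 : ℕ∞) ≤ ⊤))).eq v w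

theorem dir_star (v : E2) (f : S) : star (dir v f) = dir v (star f) := by
  apply S_ext
  intro z hz
  rw [xt_star _ hz, xt_dir _ _ hz, xt_dir _ _ hz,
    (ev_eq (fun y hy => xt_star f hy) hz).fderiv_eq]
  have h := (Complex.conjCLE : ℂ ≃L[ℝ] ℂ).toContinuousLinearMap.hasFDerivAt.comp z
    (xt_diff f hz).hasFDerivAt
  have h2 : fderiv ℝ (fun y => star (xt f y)) z =
    (Complex.conjCLE : ℂ ≃L[ℝ] ℂ).toContinuousLinearMap.comp (fderiv ℝ (xt f) z) := h.fderiv
  rw [h2]
  rfl

/-- holomorphic derivation -/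
noncomputable def dB (k : Fin 2) : Derivation ℂ S S :=
  (1 / 2 : ℂ) • (dir (Pi.single k 1) - Complex.I • dir (Pi.single k Complex.I))

/-- antiholomorphic derivation -/
noncomputable def bB (k : Fin 2) : Derivation ℂ S S :=
  (1 / 2 : ℂ) • (dir (Pi.single k 1) + Complex.I • dir (Pi.single k Complex.I))

theorem dB_apply (k : Fin 2) (f : S) : dB k f =
    (1 / 2 : ℂ) • (dir (Pi.single k 1) f - Complex.I • dir (Pi.single k Complex.I) f) := rfl

theorem bB_apply (k : Fin 2) (f : S) : bB k f =
    (1 / 2 : ℂ) • (dir (Pi.single k 1) f + Complex.I • dir (Pi.single k Complex.I) f) := rfl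

/-- the differential algebra of the ball -/
noncomputable def DB : DS S where
  d := dB
  b := bB
  hdd := by
    intro i j x
    simp only [dB_apply, Derivation.map_smul, map_sub, dir_comm (Pi.single i _) _ x]
    module
  hdb := by
    intro i j x
    simp only [dB_apply, bB_apply, Derivation.map_smul, map_sub, map_add, dir_comm (Pi.single i _) _ x]
    module
  hbb := by
    intro i j x
    simp only [bB_apply, Derivation.map_smul, map_add, dir_comm (Pi.single i _) _ x]
    module
  hst := by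
    intro i x
    simp only [dB_apply, bB_apply, star_smul, star_sub, dir_star]
    simp

end Pool.Agent.MPd01a95.CW
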