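import Mathlib
import Pool.Agent.Lib.SCV.Osgood
import Pool.Agent.Lib.MP_d01a95_gt_M.Defs
import Pool.Agent.Lib.MP_d01a95_gt_M.Sm

/-!
Project SU(2,2), part (3): holomorphic functions on the ball (helper5).
-/

set_option autoImplicit false
set_option linter.all false

open Matrix Filter Topology
open scoped ContDiff

namespace Pool.Agent.MPd01a95.CW

/-- complex differentiable functions on the ball are analytic -/
theorem hol_analytic {f : E2 → ℂ} (hf : DifferentiableOn ℂ f B) : AnalyticOnNhd ℂ f B := by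
  let e : E2 ≃L[ℂ] ℂ × ℂ := ContinuousLinearEquiv.finTwoArrow ℂ ℂ
  have hU : IsOpen (e.symm ⁻¹' B) := isOpen_B.preimage e.symm.continuous
  have h1 : DifferentiableOn ℂ (fun p => f (e.symm p)) (e.symm ⁻¹' B) := by
    intro p hp
    exact DifferentiableWithinAt.comp p (hf _ hp) e.symm.differentiableAt.differentiableWithinAt
      (fun x hx => hx)
  have h2 := SCV.differentiableOn_analyticOnNhd _ hU _ h1
  intro z hz
  have hz' : e z ∈ e.symm ⁻¹' B := by
    change e.symm (e z) ∈ B
    rwa [e.symm_apply_apply]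
  have h3 : AnalyticAt ℂ (fun z => f (e.symm (e z))) z :=
    AnalyticAt.fun_comp (g := fun p => f (e.symm p)) (f := fun z => e z) (h2 (e z) hz')
      (e.toContinuousLinearMap.analyticAt z)
  simpa using h3

theorem hol_smoothC {f : E2 → ℂ} (hf : DifferentiableOn ℂ f B) : ContDiffOn ℂ ∞ f B :=
  (hol_analytic hf).contDiffOn isOpen_B.uniqueDiffOn

theorem hol_smooth {f : E2 → ℂ} (hf : DifferentiableOn ℂ f B) : ContDiffOn ℝ ∞ f B :=
  (hol_smoothC hf).restrict_scalars ℝ

/-- holomorphic functions as elements of the algebra -/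
noncomputable def hol (f : E2 → ℂ) (hf : DifferentiableOn ℂ f B) : S := mkS f (hol_smooth hf)

theorem xt_hol (f : E2 → ℂ) (hf : DifferentiableOn ℂ f B) {z : E2} (hz : z ∈ B) :
    xt (hol f hf) z = f z := xt_mkS _ _ hz

theorem fderiv_hol (f : E2 → ℂ) (hf : DifferentiableOn ℂ f B) {z : E2} (hz : z ∈ B) :
    fderiv ℝ (xt (hol f hf)) z = (fderiv ℂ f z).restrictScalars ℝ := by
  rw [(ev_eq (fun y hy => xt_hol f hf hy) hz).fderiv_eq]
  exact (((hf z hz).differentiableAt (isOpen_B.mem_nhds hz)).hasFDerivAt.restrictScalars ℝ).fderiv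

theorem bB_hol (k : Fin 2) (f : E2 → ℂ) (hf : DifferentiableOn ℂ f B) : bB k (hol f hf) = 0 := by
  apply S_ext
  intro z hz
  rw [bB_apply, xt_smul _ _ hz, xt_add _ _ hz, xt_smul _ _ hz, xt_dir _ _ hz, xt_dir _ _ hz,
    xt_zero hz, fderiv_hol f hf hz]
  have : (Pi.single k Complex.I : E2) = Complex.I • (Pi.single k 1 : E2) := by
    rw [← Pi.single_smul]; simp
  rw [this]
  simp only [ContinuousLinearMap.coe_restrictScalars', map_smul, smul_eq_mul]
  have hI := Complex.I_mul_I
  linear_combination (1 / 2 : ℂ) * (fderiv ℂ f z (Pi.single k 1)) * hI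

theorem dB_hol (k : Fin 2) (f : E2 → ℂ) (hf : DifferentiableOn ℂ f B) {z : E2} (hz : z ∈ B) :
    xt (dB k (hol f hf)) z = fderiv ℂ f z (Pi.single k 1) := by
  rw [dB_apply, xt_smul _ _ hz, xt_sub _ _ hz, xt_smul _ _ hz, xt_dir _ _ hz, xt_dir _ _ hz,
    fderiv_hol f hf hz]
  have : (Pi.single k Complex.I : E2) = Complex.I • (Pi.single k 1 : E2) := by
    rw [← Pi.single_smul]; simp
  rw [this]
  simp only [ContinuousLinearMap.coe_restrictScalars', map_smul, smul_eq_mul]
  have hI := Complex.I_mul_I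
  linear_combination (-1 / 2 : ℂ) * (fderiv ℂ f z (Pi.single k 1)) * hI

/-- a function with vanishing derivatives is constant -/
theorem const_of {f : S} (h1 : ∀ k, dB k f = 0) (h2 : ∀ k, bB k f = 0) {z w : E2} (hz : z ∈ B)
    (hw : w ∈ B) : xt f z = xt f w := by
  have hd : ∀ y ∈ B, fderiv ℝ (xt f) y = 0 := by
    intro y hy
    have e1 : ∀ k, fderiv ℝ (xt f) y (Pi.single k 1) = 0 ∧
        fderiv ℝ (xt f) y (Pi.single k Complex.I) = 0 := by
      intro k
      have a1 := congrArg (fun g => xt g y) (h1 k)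
      have a2 := congrArg (fun g => xt g y) (h2 k)
      simp only [dB_apply, bB_apply, xt_smul _ _ hy, xt_add _ _ hy, xt_sub _ _ hy, xt_dir _ _ hy,
        xt_zero hy] at a1 a2
      constructor
      · linear_combination a1 + a2
      · have hI := Complex.I_mul_I
        linear_combination (Complex.I) * a1 - Complex.I * a2 +
          fderiv ℝ (xt f) y (Pi.single k Complex.I) * hI
    ext v
    have hv : v = ∑ k, ((v k).re • (Pi.single k 1 : E2) + (v k).im • (Pi.single k Complex.I : E2)) := by
      funext i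
      rw [Finset.sum_apply, Finset.sum_eq_single i]
      · simp only [Pi.add_apply, Pi.smul_apply, Pi.single_eq_same, Complex.real_smul, mul_one]
        exact (Complex.re_add_im (v i)).symm
      · intro b _ hb
        simp [Pi.single_apply, Ne.symm hb]
      · intro h
        exact absurd (Finset.mem_univ i) h
    rw [hv, map_sum]
    simp only [map_add, map_smul, (e1 _).1, (e1 _).2, smul_zero, add_zero, Finset.sum_const_zero]
    simp
  have hconv : Convex ℝ B := by
    have e : B = {z : E2 | ‖(WithLp.toLp 2 z : EuclideanSpace ℂ (Fin 2))‖ < 1} := by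
      ext z
      simp only [B, Set.mem_setOf_eq, EuclideanSpace.norm_eq]
      rw [Real.sqrt_lt' one_pos, one_pow]
    rw [e]
    intro x hx y hy a b ha hb hab
    simp only [Set.mem_setOf_eq] at *
    have : (WithLp.toLp 2 (a • x + b • y) : EuclideanSpace ℂ (Fin 2)) =
      a • WithLp.toLp 2 x + b • WithLp.toLp 2 y := rfl
    rw [this]
    have hx' : WithLp.toLp 2 x ∈ Metric.ball (0 : EuclideanSpace ℂ (Fin 2)) 1 := by
      rwa [mem_ball_zero_iff]
    have hy' : WithLp.toLp 2 y ∈ Metric.ball (0 : EuclideanSpace ℂ (Fin 2)) 1 := by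
      rwa [mem_ball_zero_iff]
    have := convex_ball (0 : EuclideanSpace ℂ (Fin 2)) 1 hx' hy' ha hb hab
    rwa [mem_ball_zero_iff] at this
  exact hconv.is_const_of_fderivWithin_eq_zero (𝕜 := ℝ)
    ((xt_sm f).differentiableOn (by simp)) (fun y hy => by
      rw [fderivWithin_of_isOpen isOpen_B hy]; exact hd y hy) hz hw

end Pool.Agent.MPd01a95.CW
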