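import Mathlib
import Pool.Agent.Lib.MP_d01a95_gt.Defs
import Pool.Agent.Lib.MP_d01a95_gt.Low
import Pool.Agent.Lib.MP_d01a95_gt_H.GU
import Pool.Agent.Lib.MP_d01a95_gt_M.Defs
import Pool.Agent.Lib.MP_d01a95_gt_M.Alg5
import Pool.Agent.Lib.MP_d01a95_gt_M.Sm
import Pool.Agent.Lib.MP_d01a95_gt_M.HolS

/-!
Project SU(2,2), part (3): the action of `U(2,1)` on the ball (helper5).
-/

set_option autoImplicit false
set_option linter.all false

open Matrix Filter Topology
open scoped ContDiff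

namespace Pool.Agent.MPd01a95.CW

/-- the vector `(z, 1)` -/
def vz (z : E2) : Fin 2 ⊕ Unit → ℂ := Sum.elim z fun _ => 1

theorem nqC_vz (z : E2) : LowAux.nqC (vz z) = 1 - ∑ i, ‖z i‖ ^ 2 := by
  simp [LowAux.nqC, vz]

theorem mem_B_iff (z : E2) : z ∈ B ↔ 0 < LowAux.nqC (vz z) := by
  rw [nqC_vz, sub_pos]; rfl

/-- the denominator -/
noncomputable def den (g : GU (Fin 2)) (z : E2) : ℂ := (g.M *ᵥ vz z) (Sum.inr ())

theorem nqC_act (g : GU (Fin 2)) (z : E2) : LowAux.nqC (g.M *ᵥ vz z) = LowAux.nqC (vz z) :=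
  LowAux.nqC_iso g.pres _

theorem den_ne (g : GU (Fin 2)) {z : E2} (hz : z ∈ B) : den g z ≠ 0 := by
  intro h0
  have h1 := nqC_act g z
  rw [mem_B_iff] at hz
  rw [← h1] at hz
  unfold LowAux.nqC at hz
  have h2 : (g.M *ᵥ vz z) (Sum.inr ()) = 0 := h0
  rw [h2] at hz
  have h3 : 0 ≤ ∑ i, ‖(g.M *ᵥ vz z) (Sum.inl i)‖ ^ 2 := Finset.sum_nonneg fun i _ => by positivity
  rw [norm_zero, zero_pow two_ne_zero, zero_sub] at hz
  linarith

theorem act_eq (g : GU (Fin 2)) (z : E2) (i : Fin 2) :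
    act g.M z i = (g.M *ᵥ vz z) (Sum.inl i) / den g z := rfl

theorem vz_act (g : GU (Fin 2)) {z : E2} (hz : z ∈ B) : g.M *ᵥ vz z = den g z • vz (act g.M z) := by
  have hd := den_ne g hz
  funext i
  rcases i with i | i
  · simp only [Pi.smul_apply, smul_eq_mul, vz, Sum.elim_inl]
    rw [act_eq]
    field_simp
    rfl
  · simp only [Pi.smul_apply, smul_eq_mul, vz, Sum.elim_inr, mul_one]
    rfl

theorem nqC_smul (c : ℂ) (v : Fin 2 ⊕ Unit → ℂ) : LowAux.nqC (c • v) = ‖c‖ ^ 2 * LowAux.nqC v := by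
  simp only [LowAux.nqC, Pi.smul_apply, smul_eq_mul, norm_mul, mul_pow, mul_sub, Finset.mul_sum]

theorem nqC_vz_act (g : GU (Fin 2)) {z : E2} (hz : z ∈ B) :
    LowAux.nqC (vz z) = ‖den g z‖ ^ 2 * LowAux.nqC (vz (act g.M z)) := by
  rw [← nqC_act g z, vz_act g hz, nqC_smul]

theorem act_mem (g : GU (Fin 2)) {z : E2} (hz : z ∈ B) : act g.M z ∈ B := by
  rw [mem_B_iff]
  have h1 := nqC_vz_act g hz
  have h2 : 0 < ‖den g z‖ ^ 2 := by
    have := den_ne g hz
    positivity
  rw [mem_B_iff, h1] at hz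
  exact (pos_iff_pos_of_mul_pos hz).mp h2

theorem vz_inj {z w : E2} {c : ℂ} (h : vz z = c • vz w) : z = w := by
  have h1 := congrFun h (Sum.inr ())
  simp [vz] at h1
  funext i
  have h2 := congrFun h (Sum.inl i)
  simp [vz, ← h1] at h2
  exact h2

theorem act_mul (g h : GU (Fin 2)) {z : E2} (hz : z ∈ B) :
    act (g * h).M z = act g.M (act h.M z) := by
  have h1 := vz_act (g * h) hz
  have h2 := vz_act h hz
  have h3 := vz_act g (act_mem h hz)
  have e : (g * h).M *ᵥ vz z = (den h z * den g (act h.M z)) • vz (act g.M (act h.M z)) := by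
    rw [GU.M_mul, ← Matrix.mulVec_mulVec, h2, Matrix.mulVec_smul, h3, smul_smul]
  rw [e] at h1
  have hd := den_ne (g * h) hz
  refine (vz_inj (c := (den (g * h) z)⁻¹ * (den h z * den g (act h.M z))) ?_)
  rw [mul_smul, h1, smul_smul, inv_mul_cancel₀ hd, one_smul]

theorem act_one {z : E2} (hz : z ∈ B) : act (1 : GU (Fin 2)).M z = z := by
  funext i
  rw [act_eq]
  simp [den, vz]

theorem act_inv_act (g : GU (Fin 2)) {z : E2} (hz : z ∈ B) : act g⁻¹.M (act g.M z) = z := by
  rw [← act_mul _ _ hz, inv_mul_cancel, act_one hz]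

theorem act_act_inv (g : GU (Fin 2)) {z : E2} (hz : z ∈ B) : act g.M (act g⁻¹.M z) = z := by
  rw [← act_mul _ _ hz, mul_inv_cancel, act_one hz]

theorem mulVec_diff (g : GU (Fin 2)) (i : Fin 2 ⊕ Unit) :
    Differentiable ℂ fun z : E2 => (g.M *ᵥ vz z) i := by
  have e : (fun z : E2 => (g.M *ᵥ vz z) i) = fun z => ∑ j, g.M i (Sum.inl j) * z j + g.M i (Sum.inr ()) := by
    funext z
    simp [Matrix.mulVec, dotProduct, vz]
  rw [e]
  fun_prop

theorem act_diff (g : GU (Fin 2)) (i : Fin 2) : DifferentiableOn ℂ (fun z => act g.M z i) B := by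
  intro z hz
  have h1 : DifferentiableAt ℂ (fun z => (g.M *ᵥ vz z) (Sum.inl i) * ((g.M *ᵥ vz z) (Sum.inr ()))⁻¹) z :=
    (mulVec_diff g (Sum.inl i) z).mul ((mulVec_diff g (Sum.inr ()) z).inv (den_ne g hz))
  have e : (fun z => act g.M z i) =
      fun z => (g.M *ᵥ vz z) (Sum.inl i) * ((g.M *ᵥ vz z) (Sum.inr ()))⁻¹ := by
    funext y
    rw [act_eq, div_eq_mul_inv]; rfl
  rw [e]
  exact h1.differentiableWithinAt

theorem act_diff' (g : GU (Fin 2)) : DifferentiableOn ℂ (act g.M) B :=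
  differentiableOn_pi.mpr fun i => act_diff g i

theorem act_smooth (g : GU (Fin 2)) : ContDiffOn ℝ ∞ (act g.M) B :=
  contDiffOn_pi.mpr fun i => hol_smooth (act_diff g i)

/-- the components of the action -/
noncomputable def ga (g : GU (Fin 2)) (m : Fin 2) : S := hol (fun z => act g.M z m) (act_diff g m)

/-- composition with the action -/
noncomputable def cmp (g : GU (Fin 2)) (f : S) : S :=
  mkS (fun z => xt f (act g.M z)) ((xt_sm f).comp (act_smooth g) fun z hz => act_mem g hz)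

theorem xt_cmp (g : GU (Fin 2)) (f : S) {z : E2} (hz : z ∈ B) :
    xt (cmp g f) z = xt f (act g.M z) := xt_mkS _ _ hz

/-- composition as a ring homomorphism -/
noncomputable def cmpH (g : GU (Fin 2)) : S →+* S where
  toFun := cmp g
  map_one' := S_ext fun z hz => by rw [xt_cmp _ _ hz, xt_one (act_mem g hz), xt_one hz]
  map_zero' := S_ext fun z hz => by rw [xt_cmp _ _ hz, xt_zero (act_mem g hz), xt_zero hz]
  map_add' f h := S_ext fun z hz => by
    rw [xt_add _ _ hz, xt_cmp _ _ hz, xt_cmp _ _ hz, xt_cmp _ _ hz, xt_add _ _ (act_mem g hz)]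
  map_mul' f h := S_ext fun z hz => by
    rw [xt_mul _ _ hz, xt_cmp _ _ hz, xt_cmp _ _ hz, xt_cmp _ _ hz, xt_mul _ _ (act_mem g hz)]

theorem xt_cmpH (g : GU (Fin 2)) (f : S) {z : E2} (hz : z ∈ B) :
    xt (cmpH g f) z = xt f (act g.M z) := xt_cmp g f hz

/-- the complex linear part of a real linear map -/
theorem lin_dz (L : E2 →L[ℝ] ℂ) (x : E2) :
    (1 / 2 : ℂ) * (L x - Complex.I * L (Complex.I • x)) = ∑ c, x c * ((1 / 2 : ℂ) *
      (L (Pi.single c 1) - Complex.I * L (Pi.single c Complex.I))) := by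
  have hx : x = ∑ c, ((x c).re • (Pi.single c 1 : E2) + (x c).im • (Pi.single c Complex.I : E2)) := by
    funext i
    rw [Finset.sum_apply, Finset.sum_eq_single i]
    · simp only [Pi.add_apply, Pi.smul_apply, Pi.single_eq_same, Complex.real_smul, mul_one]
      exact (Complex.re_add_im (x i)).symm
    · intro b _ hb
      simp [Pi.single_apply, Ne.symm hb]
    · intro h
      exact absurd (Finset.mem_univ i) h
  have hIx : Complex.I • x = ∑ c, ((x c).re • (Pi.single c Complex.I : E2) -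
      (x c).im • (Pi.single c 1 : E2)) := by
    funext i
    rw [Finset.sum_apply, Finset.sum_eq_single i]
    · simp only [Pi.sub_apply, Pi.smul_apply, Pi.single_eq_same, Complex.real_smul, mul_one, smul_eq_mul]
      conv_lhs => rw [← Complex.re_add_im (x i)]
      have hI := Complex.I_mul_I
      linear_combination ((x i).im : ℂ) * hI
    · intro b _ hb
      simp [Pi.single_apply, Ne.symm hb]
    · intro h
      exact absurd (Finset.mem_univ i) h
  have h1 : L x = ∑ c, (((x c).re : ℂ) * L (Pi.single c 1) +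
      ((x c).im : ℂ) * L (Pi.single c Complex.I)) := by
    conv_lhs => rw [hx]
    rw [map_sum]
    refine Finset.sum_congr rfl fun c _ => ?_
    rw [map_add, map_smul, map_smul]
    simp
  have h2 : L (Complex.I • x) = ∑ c, (((x c).re : ℂ) * L (Pi.single c Complex.I) -
      ((x c).im : ℂ) * L (Pi.single c 1)) := by
    rw [hIx, map_sum]
    refine Finset.sum_congr rfl fun c _ => ?_
    rw [map_sub, map_smul, map_smul]
    simp
  rw [h1, h2]
  simp only [Fin.sum_univ_two]
  have hI := Complex.I_mul_I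
  have e0 := Complex.re_add_im (x 0)
  have e1 := Complex.re_add_im (x 1)
  rw [← e0, ← e1]
  simp only [Complex.add_re, Complex.add_im, Complex.ofReal_re, Complex.ofReal_im, Complex.mul_re,
    Complex.mul_im, Complex.I_re, Complex.I_im, mul_zero, mul_one, sub_zero, zero_add, add_zero,
    sub_self]
  linear_combination (1 / 2 : ℂ) * ((x 0).im * L (Pi.single 0 Complex.I) + (x 1).im * L (Pi.single 1 Complex.I)) * (hI)

/-- the chain rule -/
theorem chain (g : GU (Fin 2)) (k : Fin 2) (f : S) :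
    dB k (cmpH g f) = ∑ m, dB k (ga g m) * cmpH g (dB m f) := by
  apply S_ext
  intro z hz
  have hz' := act_mem g hz
  have hG : HasFDerivAt (act g.M) (fderiv ℂ (act g.M) z) z :=
    ((act_diff' g z hz).differentiableAt (isOpen_B.mem_nhds hz)).hasFDerivAt
  have h1 : fderiv ℝ (xt (cmpH g f)) z =
      (fderiv ℝ (xt f) (act g.M z)).comp ((fderiv ℂ (act g.M) z).restrictScalars ℝ) := by
    rw [(ev_eq (fun y hy => xt_cmpH g f hy) hz).fderiv_eq]
    exact ((xt_diff f hz').hasFDerivAt.comp z (hG.restrictScalars ℝ)).fderiv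
  have h2 : ∀ m, xt (dB k (ga g m)) z = fderiv ℂ (act g.M) z (Pi.single k 1) m := by
    intro m
    rw [ga, dB_hol k _ _ hz]
    have := (hasFDerivAt_pi'.mp hG m).fderiv
    rw [this]
    rfl
  have hs : ∀ (u v : S), xt (u + v) z = xt u z + xt v z := fun u v => xt_add u v hz
  rw [Fin.sum_univ_two, xt_add _ _ hz, xt_mul _ _ hz, xt_mul _ _ hz, h2, h2, xt_cmpH _ _ hz,
    xt_cmpH _ _ hz]
  simp only [dB_apply, xt_smul _ _ hz, xt_sub _ _ hz, xt_dir _ _ hz, xt_smul _ _ hz',
    xt_sub _ _ hz', xt_dir _ _ hz', h1]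
  have h3 := lin_dz (fderiv ℝ (xt f) (act g.M z)) (fderiv ℂ (act g.M) z (Pi.single k 1))
  rw [Fin.sum_univ_two] at h3
  rw [← h3]
  have : (Pi.single k Complex.I : E2) = Complex.I • (Pi.single k 1 : E2) := by
    rw [← Pi.single_smul]; simp
  rw [this]
  simp only [ContinuousLinearMap.comp_apply, ContinuousLinearMap.coe_restrictScalars', map_smul]

/-- the change of variables attached to an element of `U(2,1)` -/
noncomputable def T (g : GU (Fin 2)) : Eqv DB where
  c := cmpH g
  J := fun m k => dB k (ga g m)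
  c_star := by
    intro x
    apply S_ext
    intro z hz
    rw [xt_cmpH _ _ hz, xt_star _ hz, xt_star _ (act_mem g hz), xt_cmpH _ _ hz]
  c_d := fun k x => chain g k x
  J_hol := by
    intro l m k
    change bB l (dB k (ga g m)) = 0
    have h := DB.hdb k l (ga g m)
    change dB k (bB l (ga g m)) = bB l (dB k (ga g m)) at h
    rw [← h, ga, bB_hol, map_zero]

end Pool.Agent.MPd01a95.CW
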