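import Mathlib
import Pool.Agent.Lib.MP_d01a95_gt_M.Defs
import Pool.Agent.Lib.MP_d01a95_gt_M.Alg1
import Pool.Agent.Lib.MP_d01a95_gt_M.Alg2
import Pool.Agent.Lib.MP_d01a95_gt_M.Alg3
import Pool.Agent.Lib.MP_d01a95_gt_M.Alg4
import Pool.Agent.Lib.MP_d01a95_gt_M.Alg5

/-!
Project SU(2,2), part (3): tensoriality of the curvature and of the transgression form (helper5).
-/

set_option autoImplicit false
set_option linter.all false

open Matrix

namespace Pool.Agent.MPd01a95.CW

variable {A : Type} [CommRing A] [Algebra ℂ A] [StarRing A]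

theorem trace_conj (X Y P : Matrix (Fin 2) (Fin 2) A) (hP : IsUnit P.det) (h : X * P = P * Y) :
    X.trace = Y.trace := by
  have h1 : X = P * Y * P⁻¹ := by
    rw [← h, Matrix.mul_assoc, Matrix.mul_nonsing_inv P hP, Matrix.mul_one]
  rw [h1, Matrix.mul_assoc, Matrix.trace_mul_comm, Matrix.mul_assoc,
    Matrix.nonsing_inv_mul P hP, Matrix.mul_one]

/-- a covector valued in endomorphisms: the property of `η_k` -/
def IsT1 {D : DS A} (T : Eqv D) (X : Fin 2 → Fin 2 → Fin 2 → A) : Prop :=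
  ∀ k i j, ∑ a, X k i a * T.J j a = ∑ a, ∑ m, T.J a i * T.J m k * T.c (X m a j)

/-- a `(1,1)` form valued in endomorphisms: the property of `Θ_lk` -/
def IsT2 {D : DS A} (T : Eqv D) (X : Fin 2 → Fin 2 → Fin 2 → Fin 2 → A) : Prop :=
  ∀ l k i j, ∑ a, X l k i a * T.J j a =
    ∑ a, ∑ m, ∑ n, T.J a i * T.J m k * star (T.J n l) * T.c (X n m a j)

namespace Inv
variable {D : DS A} {V W : Dat D} {T : Eqv D}

theorem isUnit (h : Inv V T) : IsUnit (Matrix.of T.J)ᵀ.det := by
  rw [Matrix.det_transpose, Matrix.det_fin_two]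
  exact IsUnit.of_mul_eq_one _ h.unit

theorem eta1 (hV : Inv V T) (hW : Inv W T) : IsT1 T (eta V W) := by
  intro k i j
  have h1 := hV.cth k i j
  have h2 := hW.cth k i j
  simp only [eta, Fin.sum_univ_two, map_sub] at *
  linear_combination h1 - h2

theorem bth (hV : Inv V T) : IsT2 T V.Th := by
  intro l k i j
  have h1 := congrArg (D.b l) (hV.cth k i j)
  simp only [Fin.sum_univ_two, map_add, Derivation.leibniz, smul_eq_mul, T.c_b, T.J_hol,
    ← D.hdb, map_zero] at h1 ⊢
  simp only [Dat.Th]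
  linear_combination h1

theorem sig2 (hV : Inv V T) (hW : Inv W T) : IsT2 T (fun l k i j => D.b l (sig V W k i j)) := by
  intro l k i j
  have h1 := hV.bth l k i j
  have h2 := hW.bth l k i j
  simp only [Dat.Th, sig, Fin.sum_univ_two, map_add] at *
  linear_combination h1 + h2

theorem tau_inv (hV : Inv V T) (hW : Inv W T) (k l k' : Fin 2) : tau V W k l k' =
    ∑ m, ∑ n, ∑ m', T.J m k * star (T.J n l) * T.J m' k' * T.c (tau V W m n m') := by
  have e1 := hV.eta1 hW
  have e2 := hV.sig2 hW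
  have h1 : Matrix.of (eta V W k) * (Matrix.of T.J)ᵀ =
      (Matrix.of T.J)ᵀ * Matrix.of (fun a j => ∑ m, T.J m k * T.c (eta V W m a j)) := by
    ext i j
    have := e1 k i j
    simp only [Matrix.mul_apply, Matrix.transpose_apply, Matrix.of_apply, Fin.sum_univ_two] at *
    linear_combination this
  have h2 : Matrix.of (fun i j => D.b l (sig V W k' i j)) * (Matrix.of T.J)ᵀ =
      (Matrix.of T.J)ᵀ * Matrix.of (fun a j => ∑ m, ∑ n, T.J m k' * star (T.J n l) *
        T.c (D.b n (sig V W m a j))) := by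
    ext i j
    have := e2 l k' i j
    simp only [Matrix.mul_apply, Matrix.transpose_apply, Matrix.of_apply, Fin.sum_univ_two] at *
    linear_combination this
  have h3 : (Matrix.of (eta V W k) * Matrix.of (fun i j => D.b l (sig V W k' i j))) *
      (Matrix.of T.J)ᵀ = (Matrix.of T.J)ᵀ *
      (Matrix.of (fun a j => ∑ m, T.J m k * T.c (eta V W m a j)) *
        Matrix.of (fun a j => ∑ m, ∑ n, T.J m k' * star (T.J n l) *
        T.c (D.b n (sig V W m a j)))) := by
    rw [Matrix.mul_assoc, h2, ← Matrix.mul_assoc, h1, Matrix.mul_assoc]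
  have h4 := trace_conj _ _ _ hV.isUnit h3
  simp only [Matrix.trace, Matrix.diag, Matrix.mul_apply, Matrix.of_apply, Fin.sum_univ_two] at h4
  simp only [tau, Fin.sum_univ_two, map_add, map_mul]
  linear_combination h4

theorem tau'_inv (hV : Inv V T) (hW : Inv W T) (k l k' : Fin 2) : tau' V W k l k' =
    ∑ m, ∑ n, ∑ m', T.J m k * star (T.J n l) * T.J m' k' * T.c (tau' V W m n m') := by
  have e1 := hV.eta1 hW
  have e2 := hV.sig2 hW
  have h1 : Matrix.of (eta V W k) * (Matrix.of T.J)ᵀ =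
      (Matrix.of T.J)ᵀ * Matrix.of (fun a j => ∑ m, T.J m k * T.c (eta V W m a j)) := by
    ext i j
    have := e1 k i j
    simp only [Matrix.mul_apply, Matrix.transpose_apply, Matrix.of_apply, Fin.sum_univ_two] at *
    linear_combination this
  have h2 : Matrix.of (fun i j => D.b l (sig V W k' i j)) * (Matrix.of T.J)ᵀ =
      (Matrix.of T.J)ᵀ * Matrix.of (fun a j => ∑ m, ∑ n, T.J m k' * star (T.J n l) *
        T.c (D.b n (sig V W m a j))) := by
    ext i j
    have := e2 l k' i j
    simp only [Matrix.mul_apply, Matrix.transpose_apply, Matrix.of_apply, Fin.sum_univ_two] at *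
    linear_combination this
  have h3 := trace_conj _ _ _ hV.isUnit h1
  have h4 := trace_conj _ _ _ hV.isUnit h2
  simp only [Matrix.trace, Matrix.diag, Matrix.mul_apply, Matrix.of_apply, Fin.sum_univ_two] at h3 h4
  simp only [tau', Fin.sum_univ_two, map_add, map_mul]
  rw [h3, h4]
  ring

/-- the transgression form is tensorial -/
theorem alp_inv (hV : Inv V T) (hW : Inv W T) (l : Fin 2) :
    alp V W l = d2 T.J * ∑ n, star (T.J n l) * T.c (alp V W n) := by
  simp only [alp, hV.tau_inv hW _ l _, hV.tau'_inv hW _ l _]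
  simp only [Fin.sum_univ_two, map_sub, map_mul, d2, map_ofNat]
  ring

theorem trTh_inv (hV : Inv V T) (l k : Fin 2) :
    V.trTh l k = ∑ m, ∑ n, T.J m k * star (T.J n l) * T.c (V.trTh n m) := by
  have e2 := hV.bth
  have h2 : Matrix.of (fun i j => V.Th l k i j) * (Matrix.of T.J)ᵀ =
      (Matrix.of T.J)ᵀ * Matrix.of (fun a j => ∑ m, ∑ n, T.J m k * star (T.J n l) *
        T.c (V.Th n m a j)) := by
    ext i j
    have := e2 l k i j
    simp only [Matrix.mul_apply, Matrix.transpose_apply, Matrix.of_apply, Fin.sum_univ_two] at *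
    linear_combination this
  have h4 := trace_conj _ _ _ hV.isUnit h2
  simp only [Matrix.trace, Matrix.diag, Matrix.mul_apply, Matrix.of_apply, Fin.sum_univ_two] at h4
  simp only [Dat.trTh, Fin.sum_univ_two, map_add]
  linear_combination h4

theorem gp_inv (hV : Inv V T) (k l : Fin 2) :
    V.gp k l = ∑ a, ∑ b, T.J a k * star (T.J b l) * T.c (V.gp a b) := by
  have e : ∀ k l, V.gp k l = 3 * V.g k l - V.trTh l k := fun k l => by rw [V.trTh_eq]; ring
  have h1 := hV k l
  have h2 := hV.trTh_inv l k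
  simp only [e]
  rw [h2, ← h1]
  simp only [Fin.sum_univ_two, map_sub, map_mul, map_ofNat]
  ring

theorem d2_gp_inv (hV : Inv V T) : d2 V.gp = d2 T.J * star (d2 T.J) * T.c (d2 V.gp) := by
  have h00 := hV.gp_inv 0 0
  have h01 := hV.gp_inv 0 1
  have h10 := hV.gp_inv 1 0
  have h11 := hV.gp_inv 1 1
  simp only [d2, Fin.sum_univ_two, map_sub, map_mul, star_sub, star_mul'] at *
  generalize T.c (V.gp 0 0) = c00 at *
  generalize T.c (V.gp 0 1) = c01 at *
  generalize T.c (V.gp 1 0) = c10 at *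
  generalize T.c (V.gp 1 1) = c11 at *
  rw [h00, h01, h10, h11]
  ring

theorem md_inv (hV : Inv V T) : md V.g V.gp = d2 T.J * star (d2 T.J) * T.c (md V.g V.gp) := by
  have h00 := hV.gp_inv 0 0
  have h01 := hV.gp_inv 0 1
  have h10 := hV.gp_inv 1 0
  have h11 := hV.gp_inv 1 1
  have g00 := hV 0 0
  have g01 := hV 0 1
  have g10 := hV 1 0
  have g11 := hV 1 1
  simp only [d2, md, Fin.sum_univ_two, map_sub, map_mul, map_add, star_sub, star_mul'] at *
  generalize T.c (V.gp 0 0) = c00 at *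
  generalize T.c (V.gp 0 1) = c01 at *
  generalize T.c (V.gp 1 0) = c10 at *
  generalize T.c (V.gp 1 1) = c11 at *
  generalize T.c (V.g 0 0) = e00 at *
  generalize T.c (V.g 0 1) = e01 at *
  generalize T.c (V.g 1 0) = e10 at *
  generalize T.c (V.g 1 1) = e11 at *
  rw [h00, h01, h10, h11, ← g00, ← g01, ← g10, ← g11]
  ring

theorem t_inv (hV : Inv V T) : T.c V.t = V.t := by
  have h1 := hV.md_inv
  have h2 := hV.cδ
  rw [Dat.t, map_mul]
  linear_combination (-V.δ) * h1 - T.c (md V.g V.gp) * h2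

/-- the second form used with Stokes -/
theorem bet_inv (hV : Inv V T) (s : A) (hs : T.c s = s) (l : Fin 2) :
    s * (D.d 0 V.t * V.gp 1 l - D.d 1 V.t * V.gp 0 l) = d2 T.J * ∑ n, star (T.J n l) *
      T.c (s * (D.d 0 V.t * V.gp 1 n - D.d 1 V.t * V.gp 0 n)) := by
  have h0 := T.c_d 0 V.t
  have h1 := T.c_d 1 V.t
  rw [hV.t_inv] at h0 h1
  have g0 := hV.gp_inv 0 l
  have g1 := hV.gp_inv 1 l
  simp only [d2, Fin.sum_univ_two, map_sub, map_mul, map_add, hs] at *
  generalize T.c (V.gp 0 0) = c00 at *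
  generalize T.c (V.gp 0 1) = c01 at *
  generalize T.c (V.gp 1 0) = c10 at *
  generalize T.c (V.gp 1 1) = c11 at *
  generalize T.c (D.d 0 V.t) = f0 at *
  generalize T.c (D.d 1 V.t) = f1 at *
  rw [h0, h1, g0, g1]
  ring

end Inv

/-- the divergence computed by the second Stokes formula -/
theorem Dat.bet_div {D : DS A} (V : Dat D) (s e : A) (he : D.b 0 e = 0 ∧ D.b 1 e = 0)
    (hs : s * (V.t + e) = 1) :
    D.b 0 (s * (D.d 0 V.t * V.gp 1 1 - D.d 1 V.t * V.gp 0 1)) -
    D.b 1 (s * (D.d 0 V.t * V.gp 1 0 - D.d 1 V.t * V.gp 0 0)) =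
    s * md (fun k l => D.d k (D.b l V.t)) V.gp - s ^ 2 * md (fun k l => D.d k V.t * D.b l V.t) V.gp := by
  have hb : ∀ l, D.b l e = 0 := by
    intro l; fin_cases l
    · exact he.1
    · exact he.2
  have h1 : ∀ l, D.b l s = - s ^ 2 * D.b l V.t := by
    intro l
    have h := congrArg (D.b l) hs
    rw [Derivation.leibniz, Derivation.map_one_eq_zero, map_add, hb l] at h
    simp only [smul_eq_mul] at h
    linear_combination s * h - D.b l s * hs
  have c1 := V.b_closed_gp 0 1 1
  have c2 := V.b_closed_gp 0 0 1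
  simp only [md, map_sub, Derivation.leibniz, smul_eq_mul, h1, D.hdb, c1, c2]
  ring

end Pool.Agent.MPd01a95.CW
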