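import Mathlib
import Pool.Agent.Lib.MP_d01a95_gt.Defs
import Pool.Agent.Lib.MP_d01a95_gt.Low
import Pool.Agent.Lib.MP_d01a95_gt_H.GU
import Pool.Agent.Lib.MP_d01a95_gt_H.Cut
import Pool.Agent.Lib.MP_d01a95_gt_M.Defs
import Pool.Agent.Lib.MP_d01a95_gt_M.Alg5
import Pool.Agent.Lib.MP_d01a95_gt_M.Sm
import Pool.Agent.Lib.MP_d01a95_gt_M.HolS
import Pool.Agent.Lib.MP_d01a95_gt_M.Act

/-!
Project SU(2,2), part (3): smooth cutoff functions on the ball (helper5).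
-/

set_option autoImplicit false
set_option linter.all false

open Matrix Filter Topology MeasureTheory
open scoped ContDiff

namespace Pool.Agent.MPd01a95.CW

variable {G : Type} [Group G]

/-- squared norm -/
noncomputable def sq (z : E2) : ℝ := ∑ i, ‖z i‖ ^ 2

theorem mem_B {z : E2} : z ∈ B ↔ sq z < 1 := Iff.rfl

theorem sq_nonneg' (z : E2) : 0 ≤ sq z := Finset.sum_nonneg fun i _ => by positivity

theorem sq_smooth : ContDiff ℝ ∞ sq := by
  have e : sq = fun z : E2 => ∑ i, ((z i).re ^ 2 + (z i).im ^ 2) := by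
    funext z
    simp only [sq]
    refine Finset.sum_congr rfl fun i _ => ?_
    rw [← Complex.normSq_eq_norm_sq, Complex.normSq_apply]
    ring
  rw [e]
  have h1 : ∀ i : Fin 2, ContDiff ℝ ∞ fun z : E2 => (z i).re := fun i =>
    Complex.reCLM.contDiff.comp (contDiff_apply ℝ ℂ i)
  have h2 : ∀ i : Fin 2, ContDiff ℝ ∞ fun z : E2 => (z i).im := fun i =>
    Complex.imCLM.contDiff.comp (contDiff_apply ℝ ℂ i)
  exact ContDiff.sum fun i _ => ((h1 i).pow 2).add ((h2 i).pow 2)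

theorem zero_mem : (0 : E2) ∈ B := by
  rw [mem_B]; simp [sq]

/-- `|g 0|² = 1 - 1 / c(g)²` -/
theorem sq_act_zero (g : GU (Fin 2)) : 1 - sq (act g.M 0) = 1 / GU.c g ^ 2 := by
  have h1 := nqC_vz_act g zero_mem
  rw [nqC_vz, nqC_vz] at h1
  have h2 : den g 0 = g.M (Sum.inr ()) (Sum.inr ()) := by
    simp [den, Matrix.mulVec, dotProduct, vz]
  have h3 : ‖den g 0‖ = GU.c g := by rw [h2]; rfl
  rw [h3] at h1
  have h4 := GU.c_ge_one g
  have h5 : (∑ i, ‖(0 : E2) i‖ ^ 2) = 0 := by simp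
  rw [h5] at h1
  have h6 : GU.c g ^ 2 ≠ 0 := by positivity
  rw [eq_div_iff h6]
  change (1 - ∑ i, ‖act g.M 0 i‖ ^ 2) * GU.c g ^ 2 = 1
  linarith

theorem exists_act {z : E2} (hz : z ∈ B) : ∃ g : GU (Fin 2), act g.M 0 = z := by
  have h0 := (mem_B_iff z).mp hz
  set q := LowAux.nqC (vz z) with hq
  have h1 : LowAux.nqC (((1 / Real.sqrt q : ℝ) : ℂ) • vz z) = 1 := by
    rw [nqC_smul, ← hq, Complex.norm_real, Real.norm_eq_abs, sq_abs, div_pow, one_pow,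
      Real.sq_sqrt h0.le]
    field_simp
  obtain ⟨h, hh, hw⟩ := LowAux.exists_iso _ h1
  refine ⟨⟨h, hh⟩, ?_⟩
  have h2 := vz_act (⟨h, hh⟩ : GU (Fin 2)) zero_mem
  have h3 : vz 0 = LowAux.ee (Fin 2) := rfl
  have h4 : GU.M ⟨h, hh⟩ = h := rfl
  rw [h3, h4, hw] at h2
  have hs : ((1 / Real.sqrt q : ℝ) : ℂ) ≠ 0 := by
    have : Real.sqrt q ≠ 0 := (Real.sqrt_pos.mpr h0).ne'
    exact_mod_cast one_div_ne_zero this
  have h5 : vz z = (((1 / Real.sqrt q : ℝ) : ℂ)⁻¹ * den ⟨h, hh⟩ 0) • vz (act h 0) := by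
    rw [mul_smul, ← h2, smul_smul, inv_mul_cancel₀ hs, one_smul]
  exact (vz_inj h5).symm

theorem act_act_zero (g h : GU (Fin 2)) : act g.M (act h.M 0) = act (g * h).M 0 :=
  (act_mul g h zero_mem).symm

theorem c_le_of_sq {g : GU (Fin 2)} {r : ℝ} (hr : r < 1) (h : sq (act g.M 0) ≤ r) :
    GU.c g ≤ 1 / Real.sqrt (1 - r) := by
  have h1 := sq_act_zero g
  have h2 := GU.c_ge_one g
  have h3 : 1 - r ≤ 1 / GU.c g ^ 2 := by linarith
  have h4 : 0 < 1 - r := by linarith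
  have h5 : 0 < Real.sqrt (1 - r) := Real.sqrt_pos.mpr h4
  rw [le_div_iff₀ h5]
  have h6 : (1 - r) * GU.c g ^ 2 ≤ 1 := by
    rw [le_div_iff₀ (by positivity)] at h3
    exact h3
  have h7 : (GU.c g * Real.sqrt (1 - r)) ^ 2 ≤ 1 := by
    rw [mul_pow, Real.sq_sqrt h4.le]
    linarith
  have h8 : 0 ≤ GU.c g * Real.sqrt (1 - r) := by positivity
  nlinarith

/-- finitely many translates of a compact set meet a compact set -/
theorem finite_meet {σ : G →* GU (Fin 2)} (hL : Lat σ) {r s : ℝ} (hr : r < 1) (hs : s < 1) :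
    {γ : G | ∃ z ∈ B, sq z ≤ r ∧ sq (act (σ γ).M z) ≤ s}.Finite := by
  refine (hL.finite_meet (1 / Real.sqrt (1 - s)) (1 / Real.sqrt (1 - r))).subset ?_
  rintro γ ⟨z, hz, h1, h2⟩
  obtain ⟨g, rfl⟩ := exists_act hz
  refine ⟨g, c_le_of_sq hr h1, c_le_of_sq hs ?_⟩
  rwa [act_act_zero] at h2

/-- translates of a compact set cover the ball -/
theorem exists_cover {σ : G →* GU (Fin 2)} (hL : Lat σ) :
    ∃ r : ℝ, 0 ≤ r ∧ r < 1 ∧ ∀ z ∈ B, ∃ γ : G, sq (act (σ γ).M z) ≤ r := by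
  obtain ⟨R, hR⟩ := hL.coc
  have hR1 : 1 ≤ R := by
    obtain ⟨γ, hγ⟩ := hR 1
    exact (GU.c_ge_one _).trans hγ
  refine ⟨1 - 1 / R ^ 2, ?_, ?_, fun z hz => ?_⟩
  · have : 1 / R ^ 2 ≤ 1 := by
      rw [div_le_one (by positivity)]
      nlinarith
    linarith
  · have : 0 < 1 / R ^ 2 := by positivity
    linarith
  · obtain ⟨g, rfl⟩ := exists_act hz
    obtain ⟨γ, hγ⟩ := hR g
    refine ⟨γ, ?_⟩
    rw [act_act_zero]
    have h1 := sq_act_zero (σ γ * g)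
    have h2 := GU.c_ge_one (σ γ * g)
    have h3 : 1 / R ^ 2 ≤ 1 / GU.c (σ γ * g) ^ 2 := by
      apply one_div_le_one_div_of_le (by positivity)
      nlinarith
    linarith

/-- a bump function -/
noncomputable def bp (s : ℝ) (z : E2) : ℝ := Real.smoothTransition (s - sq z)

theorem bp_smooth (s : ℝ) : ContDiff ℝ ∞ (bp s) :=
  (Real.smoothTransition.contDiff (n := (⊤ : ℕ∞))).comp (contDiff_const.sub sq_smooth)

theorem bp_nonneg (s : ℝ) (z : E2) : 0 ≤ bp s z := Real.smoothTransition.nonneg _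

theorem bp_zero {s : ℝ} {z : E2} (h : s ≤ sq z) : bp s z = 0 :=
  Real.smoothTransition.zero_of_nonpos (by linarith)

theorem bp_pos {s : ℝ} {z : E2} (h : sq z < s) : 0 < bp s z :=
  Real.smoothTransition.pos_of_pos (by linarith)

theorem bp_ne {s : ℝ} {z : E2} (h : bp s z ≠ 0) : sq z < s := by
  by_contra hc
  exact h (bp_zero (not_lt.mp hc))

/-- the properties of the cutoff function -/
structure IsCut (σ : G →* GU (Fin 2)) (χ : S) : Prop where
  supp : ∃ s < 1, ∀ z ∈ B, xt χ z ≠ 0 → sq z < s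
  real : ∀ z ∈ B, ∃ t : ℝ, 0 ≤ t ∧ xt χ z = t
  sum : ∀ r < 1, ∃ F₀ : Finset G, ∀ F : Finset G, F₀ ⊆ F → ∀ z ∈ B, sq z ≤ r →
    ∑ γ ∈ F, xt χ (act (σ γ).M z) = 1
  pos : ∀ z ∈ B, ∃ γ : G, xt χ (act (σ γ).M z) ≠ 0

theorem exists_isCut {σ : G →* GU (Fin 2)} (hL : Lat σ) : ∃ χ : S, IsCut σ χ := by
  obtain ⟨r0, hr0, hr1, hcov⟩ := exists_cover hL
  set s : ℝ := (r0 + 1) / 2 with hs
  have hs1 : s < 1 := by rw [hs]; linarith
  have hrs : r0 < s := by rw [hs]; linarith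
  have hfin : ∀ r < 1, {γ : G | ∃ z ∈ B, sq z ≤ r ∧ sq (act (σ γ).M z) ≤ s}.Finite :=
    fun r hr => finite_meet hL hr hs1
  set u : G → E2 → ℝ := fun γ z => bp s (act (σ γ).M z) with hu
  set Su : E2 → ℝ := fun z => ∑ᶠ γ, u γ z with hSu
  have hsupp : ∀ r < 1, ∀ z ∈ B, sq z ≤ r →
      (Function.support fun γ => u γ z) ⊆ {γ : G | ∃ z ∈ B, sq z ≤ r ∧ sq (act (σ γ).M z) ≤ s} := by
    intro r hr z hz hzr γ hγ
    exact ⟨z, hz, hzr, (bp_ne hγ).le⟩
  have hfs : ∀ z ∈ B, (Function.support fun γ => u γ z).Finite := fun z hz =>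
    (hfin (sq z) hz).subset (hsupp (sq z) hz z hz le_rfl)
  have hpos : ∀ z ∈ B, 0 < Su z := by
    intro z hz
    obtain ⟨γ, hγ⟩ := hcov z hz
    have h1 : 0 < u γ z := bp_pos (lt_of_le_of_lt hγ hrs)
    refine lt_of_lt_of_le h1 ?_
    exact single_le_finsum γ (hfs z hz) fun γ' => bp_nonneg _ _
  have hinv : ∀ γ, ∀ z ∈ B, Su (act (σ γ).M z) = Su z := by
    intro γ z hz
    simp only [hSu]
    have : (fun γ' => u γ' (act (σ γ).M z)) = (fun γ' => u γ' z) ∘ (Equiv.mulRight γ) := by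
      funext γ'
      simp only [hu, Function.comp_apply, Equiv.coe_mulRight, map_mul]
      rw [act_mul _ _ hz]
    rw [this]
    exact finsum_comp_equiv (Equiv.mulRight γ) (f := fun γ' => u γ' z)
  have hsum : ∀ r (hr : r < 1) (F : Finset G), (hfin r hr).toFinset ⊆ F → ∀ z ∈ B, sq z ≤ r →
      Su z = ∑ γ ∈ F, u γ z := by
    intro r hr F hF z hz hzr
    simp only [hSu]
    apply finsum_eq_sum_of_support_subset
    intro γ hγ
    exact hF ((hfin r hr).mem_toFinset.mpr (hsupp r hr z hz hzr hγ))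
  have husm : ∀ γ, ContDiffOn ℝ ∞ (u γ) B := fun γ =>
    (bp_smooth s).comp_contDiffOn (act_smooth (σ γ))
  have hSsm : ContDiffOn ℝ ∞ Su B := by
    intro z hz
    obtain ⟨r, hr, hr2⟩ := exists_between (mem_B.mp hz)
    have hopen : IsOpen {y : E2 | sq y < r} := isOpen_lt sq_smooth.continuous continuous_const
    have h1 : ContDiffWithinAt ℝ ∞ (fun y => ∑ γ ∈ (hfin r hr2).toFinset, u γ y) B z :=
      ContDiffWithinAt.sum fun γ _ => husm γ z hz
    refine h1.congr_of_eventuallyEq ?_ (hsum r hr2 _ subset_rfl z hz hr.le)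
    filter_upwards [self_mem_nhdsWithin, mem_nhdsWithin_of_mem_nhds (hopen.mem_nhds hr)] with y hy hy2
    exact hsum r hr2 _ subset_rfl y hy hy2.le
  have hχsm : ContDiffOn ℝ ∞ (fun z => ((bp s z / Su z : ℝ) : ℂ)) B := by
    have h1 : ContDiffOn ℝ ∞ (fun z => bp s z / Su z) B :=
      (bp_smooth s).contDiffOn.div hSsm fun z hz => (hpos z hz).ne'
    exact Complex.ofRealCLM.contDiff.comp_contDiffOn h1
  refine ⟨mkS _ hχsm, ⟨s, hs1, fun z hz hne => ?_⟩, fun z hz => ⟨bp s z / Su z,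
    div_nonneg (bp_nonneg _ _) (hpos z hz).le, xt_mkS _ _ hz⟩, fun r hr => ?_, fun z hz => ?_⟩
  · rw [xt_mkS _ _ hz] at hne
    by_contra hc
    apply hne
    rw [bp_zero (not_lt.mp hc), zero_div, Complex.ofReal_zero]
  · refine ⟨(hfin r hr).toFinset, fun F hF z hz hzr => ?_⟩
    have h1 : ∀ γ, xt (mkS _ hχsm) (act (σ γ).M z) = ((u γ z / Su z : ℝ) : ℂ) := by
      intro γ
      rw [xt_mkS _ _ (act_mem _ hz), hinv γ z hz]
    simp only [h1]
    rw [← Complex.ofReal_sum, ← Finset.sum_div, ← hsum r hr F hF z hz hzr,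
      div_self (hpos z hz).ne', Complex.ofReal_one]
  · obtain ⟨γ, hγ⟩ := hcov z hz
    refine ⟨γ, ?_⟩
    rw [xt_mkS _ _ (act_mem _ hz), hinv γ z hz]
    have h1 : 0 < bp s (act (σ γ).M z) := bp_pos (lt_of_le_of_lt hγ hrs)
    have h2 := div_pos h1 (hpos z hz)
    exact_mod_cast h2.ne'

end Pool.Agent.MPd01a95.CW
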