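import Mathlib
import Pool.Agent.Lib.MP_d01a95_gt_M.Defs
import Pool.Agent.Lib.MP_d01a95_gt_M.Alg1
import Pool.Agent.Lib.MP_d01a95_gt_M.Alg2
import Pool.Agent.Lib.MP_d01a95_gt_M.Alg3
import Pool.Agent.Lib.MP_d01a95_gt_M.Alg4

/-!
Project SU(2,2), part (3): the identity (J) in rank one (helper5).
-/

set_option autoImplicit false
set_option linter.all false

open Matrix

namespace Pool.Agent.MPd01a95.CW

variable {A : Type} [CommRing A] [Algebra ℂ A] [StarRing A]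

/-- the vector with `h(v, sgv w) = v . w` -/
def sgv (w : Fin 4 → A) : Fin 4 → A := ![star (w 0), star (w 1), - star (w 2), - star (w 3)]

theorem hh_sgv (v w : Fin 4 → A) : hh v (sgv w) = dt v w := by
  simp [hh, sgv, dt]

/-- `x ∂∂̄x - ∂x ∂̄x` -/
def DS.L (D : DS A) (x : A) (k l : Fin 2) : A := x * D.b l (D.d k x) - D.d k x * D.b l x

theorem DS.L_mul (D : DS A) (x y : A) (k l : Fin 2) :
    D.L (x * y) k l = x ^ 2 * D.L y k l + y ^ 2 * D.L x k l := by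
  simp only [DS.L, Derivation.leibniz, smul_eq_mul, map_add]
  ring

/-- contraction with `f` and its conjugate -/
def ct (f : Fin 2 → A) (X : Fin 2 → Fin 2 → A) : A :=
  f 0 * star (f 0) * X 0 0 + f 0 * star (f 1) * X 0 1 + f 1 * star (f 0) * X 1 0 +
    f 1 * star (f 1) * X 1 1

namespace Dat

variable {D : DS A} (V : Dat D)

theorem L_m (k l : Fin 2) : D.L V.m k l = V.m ^ 2 * V.g k l := by
  simp only [DS.L, V.d_m', V.b_m', Derivation.leibniz, smul_eq_mul, V.b_u, map_neg]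
  ring

theorem d_δ' (k : Fin 2) : D.d k V.δ = - V.δ * V.trth k := by
  rw [V.d_δ, V.trth_eq]; ring

theorem b_δ' (k : Fin 2) : D.b k V.δ = - V.δ * star (V.trth k) := by
  have h := congrArg star (V.d_δ' k)
  rw [D.hst, V.star_δ, star_mul', star_neg, V.star_δ] at h
  exact h

theorem L_δ (k l : Fin 2) : D.L V.δ k l = - V.δ ^ 2 * (3 * V.g k l - V.gp k l) := by
  have h := V.trTh_b l k
  rw [V.trTh_eq] at h
  simp only [DS.L, V.d_δ', V.b_δ', Derivation.leibniz, smul_eq_mul, ← h, map_neg]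
  ring

section f
variable (j : Fin 2)

/-- the kernel vector field of `q` -/
def f : Fin 2 → A := ![V.q 1 j, - V.q 0 j]

theorem f0 : V.f j 0 = V.q 1 j := rfl
theorem f1 : V.f j 1 = - V.q 0 j := rfl

theorem b_f (l a : Fin 2) : D.b l (V.f j a) = 0 := by
  fin_cases a
  · exact V.hol_q l 1 j
  · change D.b l (- V.q 0 j) = 0
    rw [map_neg, V.hol_q, neg_zero]

theorem F1 (hq : d2 V.q = 0) (i k : Fin 2) : V.q j j * V.q i k = V.q i j * V.q k j := by
  simp only [d2, V.q_symm 1 0] at hq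
  fin_cases j <;> fin_cases i <;> fin_cases k <;> simp [V.q_symm 1 0] <;> first | ring1 | linear_combination hq | linear_combination -hq

theorem F2 (hq : d2 V.q = 0) (k : Fin 2) : V.f j 0 * V.q 0 k + V.f j 1 * V.q 1 k = 0 := by
  rw [f0, f1]
  simp only [d2, V.q_symm 1 0] at hq
  fin_cases j <;> fin_cases k <;> simp [V.q_symm 1 0] <;>
    first | ring1 | linear_combination hq | linear_combination -hq

def Pf : Fin 4 → A := fun a => V.f j 0 * V.Pd 0 a + V.f j 1 * V.Pd 1 a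
def Ef : Fin 4 → A := fun a => V.f j 0 * V.E 0 a + V.f j 1 * V.E 1 a
def uf : A := V.f j 0 * V.u 0 + V.f j 1 * V.u 1
def kf : A := hh (V.Ef j) (V.Ef j)
def gf (l : Fin 2) : A := V.f j 0 * V.g 0 l + V.f j 1 * V.g 1 l
/-- `∂_k E_f` -/
def Wf (k : Fin 2) : Fin 4 → A := D.dv k (V.Ef j)
def wf : Fin 4 → A := fun a => V.f j 0 * V.Wf j 0 a + V.f j 1 * V.Wf j 1 a

theorem Ef_eq : V.Ef j = fun a => V.Pf j a - V.uf j * V.P a := by
  funext a; simp only [Ef, Pf, uf, E]; ring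

theorem Ef_P : hh (V.Ef j) V.P = 0 := by
  have : V.Ef j = fun a => V.f j 0 * V.E 0 a + V.f j 1 * V.E 1 a := rfl
  rw [this, hh_add_left (fun a => V.f j 0 * V.E 0 a) (fun a => V.f j 1 * V.E 1 a), hh_smul_left,
    hh_smul_left, V.hEP, V.hEP]
  ring

theorem P_Ef : hh V.P (V.Ef j) = 0 := by rw [← star_hh, Ef_P, star_zero]

theorem hh_Ef (v : Fin 4 → A) : hh v (V.Ef j) =
    star (V.f j 0) * hh v (V.E 0) + star (V.f j 1) * hh v (V.E 1) := by
  have : V.Ef j = fun a => V.f j 0 * V.E 0 a + V.f j 1 * V.E 1 a := rfl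
  rw [this, hh_add_right v (fun a => V.f j 0 * V.E 0 a) (fun a => V.f j 1 * V.E 1 a),
    hh_smul_right, hh_smul_right]

theorem Ef_hh (v : Fin 4 → A) : hh (V.Ef j) v =
    V.f j 0 * hh (V.E 0) v + V.f j 1 * hh (V.E 1) v := by
  have : V.Ef j = fun a => V.f j 0 * V.E 0 a + V.f j 1 * V.E 1 a := rfl
  rw [this, hh_add_left (fun a => V.f j 0 * V.E 0 a) (fun a => V.f j 1 * V.E 1 a),
    hh_smul_left, hh_smul_left]

theorem kf_eq : V.kf j = ct (V.f j) V.K := by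
  rw [kf, Ef_hh, hh_Ef, hh_Ef, V.hEE, V.hEE, V.hEE, V.hEE]
  simp only [ct]; ring

theorem b_Ef (l : Fin 2) (a : Fin 4) : D.b l (V.Ef j a) = V.gf j l * V.P a := by
  simp only [Ef, map_add, Derivation.leibniz, V.b_f, V.b_E, smul_eq_mul, gf]
  ring

theorem bEf (l : Fin 2) : D.bv l (V.Ef j) = fun a => V.gf j l * V.P a :=
  funext fun a => V.b_Ef j l a

theorem Wf_P (k : Fin 2) : hh (V.Wf j k) V.P = 0 := by
  have h := D.d_hh k (V.Ef j) V.P
  rw [V.Ef_P, map_zero, V.bP, hh_zero_right, add_zero] at h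
  exact h.symm

theorem d_kf (k : Fin 2) : D.d k (V.kf j) = hh (V.Wf j k) (V.Ef j) := by
  rw [kf, D.d_hh, V.bEf, hh_smul_right, V.Ef_P]
  simp [Wf]

theorem star_kf : star (V.kf j) = V.kf j := star_hh _ _

theorem b_kf (l : Fin 2) : D.b l (V.kf j) = hh (V.Ef j) (V.Wf j l) := by
  have h := congrArg star (V.d_kf j l)
  rw [D.hst, V.star_kf, star_hh] at h
  exact h

theorem b_Wf (l k : Fin 2) (a : Fin 4) :
    D.b l (V.Wf j k a) = D.d k (V.gf j l) * V.P a + V.gf j l * V.Pd k a := by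
  change D.b l (D.d k (V.Ef j a)) = _
  rw [← D.hdb, V.b_Ef, Derivation.leibniz]
  simp only [smul_eq_mul, Pd, DS.dv]
  ring

theorem b_d_kf (l k : Fin 2) : D.b l (D.d k (V.kf j)) =
    V.gf j l * (star (V.f j 0) * V.K k 0 + star (V.f j 1) * V.K k 1) +
      hh (V.Wf j k) (V.Wf j l) := by
  rw [V.d_kf, D.b_hh]
  have e : D.bv l (V.Wf j k) = fun a => D.d k (V.gf j l) * V.P a + V.gf j l * V.Pd k a :=
    funext fun a => V.b_Wf j l k a
  rw [e, hh_add_left (fun a => D.d k (V.gf j l) * V.P a) (fun a => V.gf j l * V.Pd k a),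
    hh_smul_left, hh_smul_left, V.P_Ef, V.hh_Ef, V.hPdE, V.hPdE]
  simp [Wf]

theorem dt_P_dC (l : Fin 2) : dt V.P (D.dv l V.C) = 0 := by
  have h := D.d_dt l V.P V.C
  rw [V.PC, map_zero] at h
  have h2 : dt (D.dv l V.P) V.C = 0 := V.PdC l
  rw [h2, zero_add] at h
  exact h.symm

theorem dt_Pd_dC (a l : Fin 2) : dt (V.Pd a) (D.dv l V.C) = - V.q l a := by
  have h := D.d_dt l (V.Pd a) V.C
  rw [V.PdC, map_zero] at h
  have h2 : dt (D.dv l (V.Pd a)) V.C = V.q l a := rfl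
  rw [h2] at h
  linear_combination -h

theorem dt_E_dC (a l : Fin 2) : dt (V.E a) (D.dv l V.C) = - V.q l a := by
  have : V.E a = fun b => V.Pd a b - V.u a * V.P b := rfl
  rw [this, dt_sub_left (V.Pd a) (fun b => V.u a * V.P b), dt_smul_left, dt_P_dC, dt_Pd_dC]
  ring

theorem dt_Pf_dC (hq : d2 V.q = 0) (l : Fin 2) : dt (V.Pf j) (D.dv l V.C) = 0 := by
  have : V.Pf j = fun a => V.f j 0 * V.Pd 0 a + V.f j 1 * V.Pd 1 a := rfl
  rw [this, dt_add_left (fun a => V.f j 0 * V.Pd 0 a) (fun a => V.f j 1 * V.Pd 1 a),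
    dt_smul_left, dt_smul_left, V.dt_Pd_dC, V.dt_Pd_dC, V.q_symm l 0, V.q_symm l 1]
  linear_combination - V.F2 j hq l

theorem dt_Pf_C : dt (V.Pf j) V.C = 0 := by
  have : V.Pf j = fun a => V.f j 0 * V.Pd 0 a + V.f j 1 * V.Pd 1 a := rfl
  rw [this, dt_add_left (fun a => V.f j 0 * V.Pd 0 a) (fun a => V.f j 1 * V.Pd 1 a),
    dt_smul_left, dt_smul_left, V.PdC, V.PdC]
  ring

/-- `∂_f C` -/
def Cf : Fin 4 → A := fun a => V.f j 0 * D.dv 0 V.C a + V.f j 1 * D.dv 1 V.C a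

theorem dt_Cf (v : Fin 4 → A) : dt v (V.Cf j) =
    V.f j 0 * dt v (D.dv 0 V.C) + V.f j 1 * dt v (D.dv 1 V.C) := by
  simp only [dt, Cf]; ring

theorem unit_nK : V.n * d2 V.K * (V.m ^ 3 * V.δ) = 1 := by
  have h1 := V.nm
  have h2 := V.Dδ
  rw [V.Dg_K] at h2
  linear_combination (V.m ^ 2 * V.δ * d2 V.K) * h1 + h2

/-- a vector annihilated by `C` is annihilated by every covector annihilating `P, E_0, E_1` -/
theorem ann (v c : Fin 4 → A) (hv : dt v V.C = 0) (h0 : dt V.P c = 0) (h1 : dt (V.E 0) c = 0)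
    (h2 : dt (V.E 1) c = 0) : dt v c = 0 := by
  have h := V.parseval v (sgv c)
  simp only [hh_sgv, hv, h0, h1, h2] at h
  have hu := V.unit_nK
  linear_combination (V.m ^ 3 * V.δ) * h - dt v c * hu

/-- key vanishing -/
theorem dt_Wf_dC (hq : d2 V.q = 0) : dt (V.wf j) (D.dv j V.C) = 0 := by
  -- `d_k P_f`
  have hPC := V.dt_P_dC
  have e0 : ∀ k, dt (V.Wf j k) (D.dv j V.C) = dt (D.dv k (V.Pf j)) (D.dv j V.C) + V.uf j * V.q j k := by
    intro k
    have e1 : V.Wf j k = fun a => D.dv k (V.Pf j) a - (V.uf j * V.Pd k a + D.d k (V.uf j) * V.P a) := by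
      funext a
      change D.d k (V.Ef j a) = _
      rw [V.Ef_eq, map_sub, Derivation.leibniz]
      simp only [smul_eq_mul, Pd, DS.dv]
      ring
    rw [e1, dt_sub_left (D.dv k (V.Pf j)) (fun a => V.uf j * V.Pd k a + D.d k (V.uf j) * V.P a),
      dt_add_left (fun a => V.uf j * V.Pd k a) (fun a => D.d k (V.uf j) * V.P a), dt_smul_left,
      dt_smul_left, hPC, V.dt_Pd_dC]
    ring
  have e2 : dt (V.wf j) (D.dv j V.C) = V.f j 0 * dt (V.Wf j 0) (D.dv j V.C) +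
      V.f j 1 * dt (V.Wf j 1) (D.dv j V.C) := by
    have : V.wf j = fun a => V.f j 0 * V.Wf j 0 a + V.f j 1 * V.Wf j 1 a := rfl
    rw [this, dt_add_left (fun a => V.f j 0 * V.Wf j 0 a) (fun a => V.f j 1 * V.Wf j 1 a),
      dt_smul_left, dt_smul_left]
  rw [e2, e0, e0]
  have hF := V.F2 j hq j
  rw [V.q_symm 0 j, V.q_symm 1 j] at hF
  -- `P_f . ∂_k ∂_j C`
  have e3 : ∀ k, dt (D.dv k (V.Pf j)) (D.dv j V.C) = - dt (V.Pf j) (D.dv k (D.dv j V.C)) := by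
    intro k
    have h := D.d_dt k (V.Pf j) (D.dv j V.C)
    rw [V.dt_Pf_dC j hq, map_zero] at h
    linear_combination -h
  have e4 : dt (V.Pf j) (V.Cf j) = 0 := by
    rw [V.dt_Cf, V.dt_Pf_dC j hq, V.dt_Pf_dC j hq]; ring
  have e5 := D.d_dt j (V.Pf j) (V.Cf j)
  rw [e4, map_zero] at e5
  have e6 : dt (V.Pf j) (D.dv j (V.Cf j)) = V.f j 0 * dt (V.Pf j) (D.dv 0 (D.dv j V.C)) +
      V.f j 1 * dt (V.Pf j) (D.dv 1 (D.dv j V.C)) := by
    have h0 := V.dt_Pf_dC j hq 0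
    have h1 := V.dt_Pf_dC j hq 1
    have hc : ∀ k a, D.d j (D.d k (V.C a)) = D.d k (D.d j (V.C a)) := fun k a => D.hdd j k _
    simp only [dt, DS.dv, Cf, map_add, Derivation.leibniz, smul_eq_mul, hc] at h0 h1 ⊢
    linear_combination D.d j (V.f j 0) * h0 + D.d j (V.f j 1) * h1
  have e7 : dt (D.dv j (V.Pf j)) (V.Cf j) = 0 := by
    apply V.ann
    · have h := D.d_dt j (V.Pf j) V.C
      rw [V.dt_Pf_C, map_zero, V.dt_Pf_dC j hq, add_zero] at h
      exact h.symm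
    · rw [V.dt_Cf, hPC, hPC]; ring
    · rw [V.dt_Cf, V.dt_E_dC, V.dt_E_dC]
      linear_combination - V.F2 j hq 0
    · rw [V.dt_Cf, V.dt_E_dC, V.dt_E_dC]
      linear_combination - V.F2 j hq 1
  rw [e3, e3]
  rw [e7, e6] at e5
  linear_combination e5 + V.uf j * hF

theorem wf_C (hq : d2 V.q = 0) : dt (V.wf j) V.C = 0 := by
  have e0 : ∀ k, dt (V.Wf j k) V.C = 0 := by
    intro k
    have e1 : V.Wf j k = fun a => D.dv k (V.Pf j) a - (V.uf j * V.Pd k a + D.d k (V.uf j) * V.P a) := by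
      funext a
      change D.d k (V.Ef j a) = _
      rw [V.Ef_eq, map_sub, Derivation.leibniz]
      simp only [smul_eq_mul, Pd, DS.dv]
      ring
    rw [e1, dt_sub_left (D.dv k (V.Pf j)) (fun a => V.uf j * V.Pd k a + D.d k (V.uf j) * V.P a),
      dt_add_left (fun a => V.uf j * V.Pd k a) (fun a => D.d k (V.uf j) * V.P a), dt_smul_left,
      dt_smul_left, V.PC, V.PdC]
    have h := D.d_dt k (V.Pf j) V.C
    rw [V.dt_Pf_C, map_zero, V.dt_Pf_dC j hq, add_zero] at h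
    rw [← h]; ring
  have : V.wf j = fun a => V.f j 0 * V.Wf j 0 a + V.f j 1 * V.Wf j 1 a := rfl
  rw [this, dt_add_left (fun a => V.f j 0 * V.Wf j 0 a) (fun a => V.f j 1 * V.Wf j 1 a),
      dt_smul_left, dt_smul_left, e0, e0]
  ring

theorem wf_P : hh (V.wf j) V.P = 0 := by
  have : V.wf j = fun a => V.f j 0 * V.Wf j 0 a + V.f j 1 * V.Wf j 1 a := rfl
  rw [this, hh_add_left (fun a => V.f j 0 * V.Wf j 0 a) (fun a => V.f j 1 * V.Wf j 1 a),
      hh_smul_left, hh_smul_left, V.Wf_P, V.Wf_P]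
  ring

/-- `∂_f E_f` is proportional to `E_f` -/
theorem wf_wedge (hq : d2 V.q = 0) :
    hh (V.wf j) (V.E 1) * hh (V.Ef j) (V.E 0) - hh (V.wf j) (V.E 0) * hh (V.Ef j) (V.E 1) = 0 := by
  have h := V.parseval (V.wf j) (sgv (D.dv j V.C))
  simp only [hh_sgv, V.wf_C j hq, V.dt_Wf_dC j hq, V.dt_P_dC, V.dt_E_dC, V.wf_P] at h
  rw [V.Ef_hh, V.Ef_hh, V.hEE, V.hEE, V.hEE, V.hEE, f0, f1]
  rw [V.q_symm j 0, V.q_symm j 1] at h
  have hm := V.nm
  linear_combination (V.m) * h - (hh (V.wf j) (V.E 1) * (V.q 1 j * V.K 0 0 - V.q 0 j * V.K 1 0) - hh (V.wf j) (V.E 0) * (V.q 1 j * V.K 0 1 - V.q 0 j * V.K 1 1)) * hm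

theorem wf_key (hq : d2 V.q = 0) :
    V.kf j * hh (V.wf j) (V.wf j) = hh (V.wf j) (V.Ef j) * hh (V.Ef j) (V.wf j) := by
  have h := V.parseval (V.wf j) (V.wf j)
  have hP : hh V.P (V.wf j) = 0 := by rw [← star_hh, V.wf_P, star_zero]
  simp only [V.wf_C j hq, V.wf_P, hP] at h
  have hx := V.wf_wedge j hq
  have hx' := congrArg star hx
  simp only [star_sub, star_mul', star_hh, star_zero] at hx'
  have hu := V.unit_nK
  rw [V.Ef_hh, V.Ef_hh, V.hEE, V.hEE, V.hEE, V.hEE] at hx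
  rw [V.hh_Ef, V.hh_Ef, V.hEE, V.hEE, V.hEE, V.hEE] at hx'
  rw [V.kf_eq, V.hh_Ef, V.Ef_hh]
  simp only [ct, d2] at *
  generalize hh (V.wf j) (V.E 0) = x0 at *
  generalize hh (V.wf j) (V.E 1) = x1 at *
  generalize hh (V.E 0) (V.wf j) = y0 at *
  generalize hh (V.E 1) (V.wf j) = y1 at *
  generalize hh (V.wf j) (V.wf j) = z at *
  generalize V.f j 0 = f0 at *
  generalize V.f j 1 = f1 at *
  generalize star f0 = F0 at *
  generalize star f1 = F1 at *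
  linear_combination (V.m ^ 3 * V.δ * (f0 * F0 * V.K 0 0 + f0 * F1 * V.K 0 1 + f1 * F0 * V.K 1 0 +
      f1 * F1 * V.K 1 1)) * h + (V.n * V.m ^ 3 * V.δ *
      (x1 * (f0 * V.K 0 0 + f1 * V.K 1 0) - x0 * (f0 * V.K 0 1 + f1 * V.K 1 1))) * hx' -
      ((f0 * F0 * V.K 0 0 + f0 * F1 * V.K 0 1 + f1 * F0 * V.K 1 0 +
      f1 * F1 * V.K 1 1) * z - (F0 * x0 + F1 * x1) * (f0 * y0 + f1 * y1)) * hu

/-- contracted second order expression of `k = h(E_f, E_f)` -/
theorem L_kf (hq : d2 V.q = 0) : ct (V.f j) (D.L (V.kf j)) = V.kf j ^ 2 * (V.kf j * V.m) := by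
  have hk := V.wf_key j hq
  have hkf := V.kf_eq j
  have e1 : hh (V.wf j) (V.Ef j) = V.f j 0 * hh (V.Wf j 0) (V.Ef j) + V.f j 1 * hh (V.Wf j 1) (V.Ef j) := by
    have : V.wf j = fun a => V.f j 0 * V.Wf j 0 a + V.f j 1 * V.Wf j 1 a := rfl
    rw [this, hh_add_left (fun a => V.f j 0 * V.Wf j 0 a) (fun a => V.f j 1 * V.Wf j 1 a),
        hh_smul_left, hh_smul_left]
  have e2 : ∀ v, hh v (V.wf j) = star (V.f j 0) * hh v (V.Wf j 0) + star (V.f j 1) * hh v (V.Wf j 1) := by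
    intro v
    have : V.wf j = fun a => V.f j 0 * V.Wf j 0 a + V.f j 1 * V.Wf j 1 a := rfl
    rw [this, hh_add_right v (fun a => V.f j 0 * V.Wf j 0 a) (fun a => V.f j 1 * V.Wf j 1 a),
        hh_smul_right, hh_smul_right]
  have e3 : ∀ v, hh (V.wf j) v = V.f j 0 * hh (V.Wf j 0) v + V.f j 1 * hh (V.Wf j 1) v := by
    intro v
    have : V.wf j = fun a => V.f j 0 * V.Wf j 0 a + V.f j 1 * V.Wf j 1 a := rfl
    rw [this, hh_add_left (fun a => V.f j 0 * V.Wf j 0 a) (fun a => V.f j 1 * V.Wf j 1 a),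
        hh_smul_left, hh_smul_left]
  rw [e3, e3] at hk
  rw [e2, e2, e2] at hk
  have hb : ∀ l k, D.b l (hh (V.Wf j k) (V.Ef j)) =
      V.gf j l * (star (V.f j 0) * V.K k 0 + star (V.f j 1) * V.K k 1) +
      hh (V.Wf j k) (V.Wf j l) := by
    intro l k
    rw [← V.d_kf]
    exact V.b_d_kf j l k
  simp only [ct, DS.L, V.d_kf, hb, V.b_kf, gf, g_eq] at *
  linear_combination hk - (V.kf j * V.m) * (V.kf j + (V.f j 0 * star (V.f j 0) * V.K 0 0 + V.f j 0 * star (V.f j 1) * V.K 0 1 + V.f j 1 * star (V.f j 0) * V.K 1 0 +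
    V.f j 1 * star (V.f j 1) * V.K 1 1)) * hkf

theorem ct_L_mul (f : Fin 2 → A) (x y : A) :
    ct f (D.L (x * y)) = x ^ 2 * ct f (D.L y) + y ^ 2 * ct f (D.L x) := by
  simp only [ct, D.L_mul]; ring

theorem ct_L_pow2 (f : Fin 2 → A) (x : A) : ct f (D.L (x ^ 2)) = 2 * x ^ 2 * ct f (D.L x) := by
  rw [pow_two, ct_L_mul]; ring

theorem ct_L_pow3 (f : Fin 2 → A) (x : A) : ct f (D.L (x ^ 3)) = 3 * x ^ 4 * ct f (D.L x) := by
  rw [pow_succ, ct_L_mul, ct_L_pow2]; ring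

/-- `g (f, f̄)` -/
def G : A := ct (V.f j) V.g

theorem G_eq : V.G j = V.kf j * V.m := by
  rw [kf_eq, G]; simp only [ct, g_eq]; ring

theorem ct_gp (hq : d2 V.q = 0) : ct (V.f j) V.gp = 0 := by
  have h0 := V.F2 j hq 0
  have h1 := V.F2 j hq 1
  have hs0 := congrArg star h0
  have hs1 := congrArg star h1
  simp only [ct, gp, Fin.sum_univ_two, V.q_symm 1 0, star_add, star_mul', star_zero] at *
  linear_combination (V.κ * (star (V.f j 0) * (V.gi 0 0 * star (V.q 0 0) + V.gi 1 0 * star (V.q 0 1)) +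
    star (V.f j 1) * (V.gi 0 0 * star (V.q 0 1) + V.gi 1 0 * star (V.q 1 1)))) * h0 +
    (V.κ * (star (V.f j 0) * (V.gi 0 1 * star (V.q 0 0) + V.gi 1 1 * star (V.q 0 1)) +
    star (V.f j 1) * (V.gi 0 1 * star (V.q 0 1) + V.gi 1 1 * star (V.q 1 1)))) * h1

/-- `|q_jj|² g'` is rank one -/
theorem Q_gp (hq : d2 V.q = 0) (k l : Fin 2) : V.q j j * star (V.q j j) * V.gp k l =
    V.κ * V.δ * V.G j * (V.q k j * star (V.q l j)) := by
  have a0 := V.F1 j hq 0 k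
  have a1 := V.F1 j hq 1 k
  have b0 := congrArg star (V.F1 j hq 0 l)
  have b1 := congrArg star (V.F1 j hq 1 l)
  simp only [star_mul'] at b0 b1
  have e : V.q j j * star (V.q j j) * V.gp k l = V.κ * ∑ i, ∑ i', (V.q j j * V.q i k) * V.gi i' i *
      (star (V.q j j) * star (V.q i' l)) := by
    simp only [gp, Fin.sum_univ_two]; ring
  rw [e]
  simp only [Fin.sum_univ_two, a0, a1, b0, b1, G, ct, f0, f1, star_neg, gi, iv]
  simp
  ring

theorem Q_md (hq : d2 V.q = 0) (X : Fin 2 → Fin 2 → A) : V.q j j * star (V.q j j) * md X V.gp =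
    V.κ * V.δ * V.G j * ct (V.f j) X := by
  have h00 := V.Q_gp j hq 0 0
  have h01 := V.Q_gp j hq 0 1
  have h10 := V.Q_gp j hq 1 0
  have h11 := V.Q_gp j hq 1 1
  simp only [md, ct, f0, f1, star_neg]
  linear_combination X 0 0 * h11 + X 1 1 * h00 - X 0 1 * h10 - X 1 0 * h01

theorem Q_t (hq : d2 V.q = 0) : V.q j j * star (V.q j j) * V.t = V.m ^ 6 * (V.δ ^ 3 * V.kf j ^ 2) := by
  have h := V.Q_md j hq V.g
  have h2 : ct (V.f j) V.g = V.G j := rfl
  rw [h2, G_eq, κ] at h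
  rw [t]
  linear_combination V.δ * h

theorem b_q (l i k : Fin 2) : D.d l (star (V.q i k)) = 0 := by
  rw [← D.hst', V.hol_q, star_zero]

theorem L_Q (f : Fin 2 → A) : ct f (D.L (V.q j j * star (V.q j j))) = 0 := by
  have e : ∀ k l, D.L (V.q j j * star (V.q j j)) k l = 0 := by
    intro k l
    simp only [DS.L, Derivation.leibniz, smul_eq_mul, V.b_q, V.hol_q, mul_zero, add_zero, zero_add,
      map_add, map_zero, ← D.hdb]
    ring
  simp only [ct, e]; ring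

theorem L_t (hq : d2 V.q = 0) : (V.q j j * star (V.q j j)) ^ 2 *
    (ct (V.f j) (D.L V.t) + V.G j * V.t ^ 2) = 0 := by
  have h1 := ct_L_mul (D := D) (V.f j) (V.q j j * star (V.q j j)) V.t
  rw [V.L_Q, V.Q_t j hq] at h1
  have h2 : V.m ^ 6 = (V.m ^ 3) ^ 2 := by ring
  have h3 : ct (V.f j) (D.L V.m) = V.m ^ 2 * V.G j := by
    simp only [ct, V.L_m, G]; ring
  have h4 : ct (V.f j) (D.L V.δ) = - V.δ ^ 2 * (3 * V.G j) := by
    have := V.ct_gp j hq
    simp only [ct, V.L_δ, G] at *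
    linear_combination V.δ ^ 2 * this
  rw [ct_L_mul, ct_L_mul, ct_L_pow3, ct_L_pow2, h2, ct_L_pow2, ct_L_pow3, h3, h4, V.L_kf j hq,
    V.G_eq] at h1
  have h5 := V.Q_t j hq
  rw [V.G_eq]
  linear_combination -h1 + (V.kf j * V.m * (V.q j j * star (V.q j j) * V.t + V.m ^ 6 * (V.δ ^ 3 * V.kf j ^ 2))) * h5

/-- the identity (J), where `q_jj` does not vanish -/
theorem J_identity (hq : d2 V.q = 0) : (V.q j j * star (V.q j j)) ^ 3 *
    (md (D.L V.t) V.gp + V.t ^ 2 * md V.g V.gp) = 0 := by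
  have h1 := V.Q_md j hq (D.L V.t)
  have h2 := V.Q_md j hq V.g
  have h3 := V.L_t j hq
  have h4 : ct (V.f j) V.g = V.G j := rfl
  rw [h4] at h2
  linear_combination (V.q j j * star (V.q j j)) ^ 2 * h1 + (V.q j j * star (V.q j j)) ^ 2 * V.t ^ 2 * h2 + V.κ * V.δ * V.G j * h3

end f

end Dat

end Pool.Agent.MPd01a95.CW
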