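import Mathlib
import Pool.Agent.Lib.MP_d01a95_gt.Defs
import Pool.Agent.Lib.MP_d01a95_gt.Low
import Pool.Agent.Lib.MP_d01a95_gt_H.GU
import Pool.Agent.Lib.MP_d01a95_gt_M.Defs
import Pool.Agent.Lib.MP_d01a95_gt_M.Alg1
import Pool.Agent.Lib.MP_d01a95_gt_M.Alg2
import Pool.Agent.Lib.MP_d01a95_gt_M.Alg5
import Pool.Agent.Lib.MP_d01a95_gt_M.Alg7
import Pool.Agent.Lib.MP_d01a95_gt_M.Sm
import Pool.Agent.Lib.MP_d01a95_gt_M.HolS
import Pool.Agent.Lib.MP_d01a95_gt_M.Act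

/-!
Project SU(2,2), part (3): from holomorphic maps to `Dat` (helper5).
-/

set_option autoImplicit false
set_option linter.all false

open Matrix Filter Topology
open scoped ContDiff

namespace Pool.Agent.MPd01a95.CW

/-- the quadratic form of signature `(2,2)` -/
noncomputable def hq (v : Fin 4 → ℂ) : ℝ := ‖v 0‖ ^ 2 + ‖v 1‖ ^ 2 - ‖v 2‖ ^ 2 - ‖v 3‖ ^ 2

theorem hh_self (v : Fin 4 → ℂ) : hh v v = (hq v : ℂ) := by
  have e : ∀ z : ℂ, z * star z = ((‖z‖ ^ 2 : ℝ) : ℂ) := fun z => by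
    rw [← Complex.normSq_eq_norm_sq]; exact Complex.mul_conj z
  simp only [hh, e, hq]
  push_cast
  ring

/-- spacelike holomorphic maps from the ball to the negative lines of `ℂ^{2,2}` -/
structure HIn (P : E2 → Fin 4 → ℂ) : Prop where
  diff : ∀ a, DifferentiableOn ℂ (fun z => P z a) B
  neg : ∀ z ∈ B, hq (P z) < 0
  space : ∀ z ∈ B, ∀ ξ : Fin 2 → ℂ, ξ ≠ 0 → 0 < - hq (P z) * hq (fderiv ℂ P z ξ) +
    ‖hh (fderiv ℂ P z ξ) (P z)‖ ^ 2

/-- evaluation at a point of the ball -/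
noncomputable def ev {z : E2} (hz : z ∈ B) : S →+* ℂ where
  toFun f := xt f z
  map_one' := xt_one hz
  map_zero' := xt_zero hz
  map_add' f g := xt_add f g hz
  map_mul' f g := xt_mul f g hz

theorem ev_apply {z : E2} (hz : z ∈ B) (f : S) : ev hz f = xt f z := rfl

theorem ev_star {z : E2} (hz : z ∈ B) (f : S) : ev hz (star f) = star (ev hz f) := xt_star f hz

theorem ev_hh {z : E2} (hz : z ∈ B) (v w : Fin 4 → S) :
    ev hz (hh v w) = hh (fun a => ev hz (v a)) (fun a => ev hz (w a)) := by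
  simp only [hh, map_add, map_sub, map_mul, ev_star]

theorem ev_ext {f g : S} (h : ∀ z (hz : z ∈ B), ev hz f = ev hz g) : f = g :=
  S_ext fun z hz => h z hz

theorem exists_inv (f : S) (hf : ∀ z (hz : z ∈ B), ev hz f ≠ 0) : ∃ g : S, f * g = 1 := by
  have h1 : ContDiffOn ℝ ∞ (fun z => (xt f z)⁻¹) B := (xt_sm f).inv fun z hz => hf z hz
  refine ⟨mkS _ h1, ev_ext fun z hz => ?_⟩
  rw [map_mul, map_one]
  change xt f z * xt (mkS _ h1) z = 1
  rw [xt_mkS _ _ hz]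
  exact mul_inv_cancel₀ (hf z hz)

variable {P : E2 → Fin 4 → ℂ}

/-- the components -/
noncomputable def pS (h : HIn P) (a : Fin 4) : S := hol (fun z => P z a) (h.diff a)

theorem ev_pS (h : HIn P) (a : Fin 4) {z : E2} (hz : z ∈ B) : ev hz (pS h a) = P z a :=
  xt_hol _ _ hz

theorem HIn.hasF (h : HIn P) {z : E2} (hz : z ∈ B) : HasFDerivAt P (fderiv ℂ P z) z := by
  have : DifferentiableAt ℂ P z := differentiableAt_pi.mpr fun a =>
    (h.diff a z hz).differentiableAt (isOpen_B.mem_nhds hz)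
  exact this.hasFDerivAt

theorem ev_dP (h : HIn P) (k : Fin 2) (a : Fin 4) {z : E2} (hz : z ∈ B) :
    ev hz (DB.dv k (pS h) a) = fderiv ℂ P z (Pi.single k 1) a := by
  change xt (dB k (hol _ _)) z = _
  rw [dB_hol k _ _ hz]
  have := (hasFDerivAt_pi'.mp (h.hasF hz) a).fderiv
  rw [this]
  rfl

/-- the matrix `K` at a point -/
noncomputable def Kz (P : E2 → Fin 4 → ℂ) (z : E2) (i j : Fin 2) : ℂ :=
  hh (fderiv ℂ P z (Pi.single i 1)) (fderiv ℂ P z (Pi.single j 1)) +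
    hh (fderiv ℂ P z (Pi.single i 1)) (P z) * hh (P z) (fderiv ℂ P z (Pi.single j 1)) *
      (-(hq (P z) : ℂ))⁻¹

theorem Kz_star (P : E2 → Fin 4 → ℂ) (z : E2) (i j : Fin 2) : star (Kz P z i j) = Kz P z j i := by
  simp only [Kz, star_add, star_mul', star_hh, star_inv₀, star_neg]
  rw [show star ((hq (P z) : ℝ) : ℂ) = ((hq (P z) : ℝ) : ℂ) from Complex.conj_ofReal _]
  ring

theorem Kz_form (h : HIn P) {z : E2} (hz : z ∈ B) (x : Fin 2 → ℂ) (hx : x ≠ 0) :
    ∃ t : ℝ, 0 < t ∧ ct x (Kz P z) = t := by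
  have h1 := h.space z hz x hx
  have h2 := h.neg z hz
  have e : fderiv ℂ P z x = fun a => x 0 * fderiv ℂ P z (Pi.single 0 1) a +
      x 1 * fderiv ℂ P z (Pi.single 1 1) a := by
    have : x = x 0 • (Pi.single 0 1 : E2) + x 1 • (Pi.single 1 1 : E2) := by
      funext i; fin_cases i <;> simp
    conv_lhs => rw [this]
    rw [map_add, map_smul, map_smul]
    funext a
    simp
  have hn : (-(hq (P z) : ℂ)) ≠ 0 := by
    rw [neg_ne_zero]; exact_mod_cast h2.ne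
  refine ⟨(- hq (P z) * hq (fderiv ℂ P z x) + ‖hh (fderiv ℂ P z x) (P z)‖ ^ 2) / (- hq (P z)),
    div_pos h1 (by linarith), ?_⟩
  push_cast
  rw [eq_div_iff hn]
  have e2 : ((‖hh (fderiv ℂ P z x) (P z)‖ : ℝ) : ℂ) ^ 2 = hh (fderiv ℂ P z x) (P z) *
      hh (P z) (fderiv ℂ P z x) := by
    rw [← star_hh (fderiv ℂ P z x) (P z)]
    exact (Complex.mul_conj' _).symm
  rw [e2, ← hh_self (fderiv ℂ P z x), e]
  set a := fderiv ℂ P z (Pi.single 0 1) with ha
  set b := fderiv ℂ P z (Pi.single 1 1) with hb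
  have l1 : ∀ w, hh (fun i => x 0 * a i + x 1 * b i) w = x 0 * hh a w + x 1 * hh b w := by
    intro w
    rw [hh_add_left (fun i => x 0 * a i) (fun i => x 1 * b i), hh_smul_left, hh_smul_left]
  have l2 : ∀ w, hh w (fun i => x 0 * a i + x 1 * b i) = star (x 0) * hh w a + star (x 1) * hh w b := by
    intro w
    rw [hh_add_right w (fun i => x 0 * a i) (fun i => x 1 * b i), hh_smul_right, hh_smul_right]
  rw [l1, l1, l2, l2, l2]
  simp only [ct, Kz, ← ha, ← hb]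
  have hi : (-(hq (P z) : ℂ))⁻¹ * (-(hq (P z) : ℂ)) = 1 := inv_mul_cancel₀ hn
  linear_combination ((x 0 * hh a (P z) + x 1 * hh b (P z)) *
    (star (x 0) * hh (P z) a + star (x 1) * hh (P z) b)) * hi

theorem Kz_pos (h : HIn P) {z : E2} (hz : z ∈ B) :
    ∃ t : ℝ, 0 < t ∧ Kz P z 0 0 * Kz P z 1 1 - Kz P z 0 1 * Kz P z 1 0 = t := by
  obtain ⟨a, ha, ha2⟩ := Kz_form h hz (Pi.single 0 1) (by
    intro h0
    have := congrFun h0 0
    simp at this)
  have e1 : Kz P z 0 0 = a := by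
    rw [← ha2]; simp [ct]
  have hne : (![- Kz P z 1 0, Kz P z 0 0] : Fin 2 → ℂ) ≠ 0 := by
    intro h0
    have h1 := congrFun h0 1
    simp only [Matrix.cons_val_one, Matrix.cons_val_zero, Pi.zero_apply, e1] at h1
    have : a = 0 := by exact_mod_cast h1
    linarith
  obtain ⟨b, hb, hb2⟩ := Kz_form h hz _ hne
  have s10 := Kz_star P z 1 0
  have s00 := Kz_star P z 0 0
  simp only [ct, Matrix.cons_val_one, Matrix.cons_val_zero, star_neg, s10, s00] at hb2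
  refine ⟨b / a, div_pos hb ha, ?_⟩
  have hac : (a : ℂ) ≠ 0 := by exact_mod_cast ha.ne'
  push_cast
  rw [eq_div_iff hac, ← hb2, ← e1]
  ring

theorem ev_hhP (h : HIn P) {z : E2} (hz : z ∈ B) : ev hz (hh (pS h) (pS h)) = (hq (P z) : ℂ) := by
  rw [ev_hh]
  simp only [ev_pS]
  exact hh_self _

theorem exists_m (h : HIn P) : ∃ m : S, - hh (pS h) (pS h) * m = 1 := by
  apply exists_inv
  intro z hz
  rw [map_neg, ev_hhP h hz, neg_ne_zero]
  exact_mod_cast (h.neg z hz).ne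

noncomputable def mS (h : HIn P) : S := (exists_m h).choose

theorem hmS (h : HIn P) : - hh (pS h) (pS h) * mS h = 1 := (exists_m h).choose_spec

theorem ev_mS (h : HIn P) {z : E2} (hz : z ∈ B) : ev hz (mS h) = (-(hq (P z) : ℂ))⁻¹ := by
  have h1 := congrArg (ev hz) (hmS h)
  rw [map_mul, map_neg, ev_hhP h hz, map_one] at h1
  exact eq_inv_of_mul_eq_one_right h1

/-- the metric as an element -/
noncomputable def gS (h : HIn P) (i j : Fin 2) : S :=
  (hh (DB.dv i (pS h)) (DB.dv j (pS h)) + hh (DB.dv i (pS h)) (pS h) *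
    hh (pS h) (DB.dv j (pS h)) * mS h) * mS h

theorem ev_gS (h : HIn P) (i j : Fin 2) {z : E2} (hz : z ∈ B) :
    ev hz (gS h i j) = Kz P z i j * (-(hq (P z) : ℂ))⁻¹ := by
  simp only [gS, map_mul, map_add, ev_hh, ev_mS h hz, ev_pS, ev_dP]
  rfl

theorem exists_δ (h : HIn P) : ∃ δ : S, d2 (gS h) * δ = 1 := by
  apply exists_inv
  intro z hz
  obtain ⟨t, ht, ht2⟩ := Kz_pos h hz
  have hn : (-(hq (P z) : ℂ)) ≠ 0 := by
    rw [neg_ne_zero]; exact_mod_cast (h.neg z hz).ne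
  simp only [d2, map_sub, map_mul, ev_gS h _ _ hz]
  have e : Kz P z 0 0 * (-(hq (P z) : ℂ))⁻¹ * (Kz P z 1 1 * (-(hq (P z) : ℂ))⁻¹) -
      Kz P z 0 1 * (-(hq (P z) : ℂ))⁻¹ * (Kz P z 1 0 * (-(hq (P z) : ℂ))⁻¹) =
      (t : ℂ) * ((-(hq (P z) : ℂ))⁻¹) ^ 2 := by
    rw [← ht2]; ring
  rw [e]
  exact mul_ne_zero (by exact_mod_cast ht.ne') (pow_ne_zero _ (inv_ne_zero hn))

/-- the data attached to a spacelike holomorphic map -/
noncomputable def datB (h : HIn P) : Dat DB where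
  P := pS h
  m := mS h
  δ := (exists_δ h).choose
  hol := fun k a => bB_hol k _ _
  hm := hmS h
  hδ := (exists_δ h).choose_spec

theorem datB_g (h : HIn P) (i j : Fin 2) : (datB h).g i j = gS h i j := rfl

/-- positivity of `m`, `δ` and `g` -/
theorem m_pos (h : HIn P) {z : E2} (hz : z ∈ B) :
    ∃ t : ℝ, 0 < t ∧ ev hz (datB h).m = t := by
  refine ⟨(- hq (P z))⁻¹, inv_pos.mpr (by linarith [h.neg z hz]), ?_⟩
  rw [show (datB h).m = mS h from rfl, ev_mS h hz]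
  push_cast
  rfl

theorem Dg_pos (h : HIn P) {z : E2} (hz : z ∈ B) :
    ∃ t : ℝ, 0 < t ∧ ev hz (datB h).Dg = t := by
  obtain ⟨t, ht, ht2⟩ := Kz_pos h hz
  have hn := h.neg z hz
  refine ⟨t * ((- hq (P z))⁻¹) ^ 2, mul_pos ht (pow_pos (inv_pos.mpr (by linarith)) 2), ?_⟩
  simp only [Dat.Dg, d2, datB_g, map_sub, map_mul, ev_gS h _ _ hz]
  push_cast
  rw [← ht2]
  ring

theorem δ_pos (h : HIn P) {z : E2} (hz : z ∈ B) :
    ∃ t : ℝ, 0 < t ∧ ev hz (datB h).δ = t := by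
  obtain ⟨t, ht, ht2⟩ := Dg_pos h hz
  refine ⟨t⁻¹, inv_pos.mpr ht, ?_⟩
  have h1 := congrArg (ev hz) (datB h).Dδ
  rw [map_mul, map_one, ht2] at h1
  rw [Complex.ofReal_inv]
  exact eq_inv_of_mul_eq_one_right h1

theorem g_pos (h : HIn P) {z : E2} (hz : z ∈ B) (x : Fin 2 → ℂ) (hx : x ≠ 0) :
    ∃ t : ℝ, 0 < t ∧ ct x (fun i j => ev hz ((datB h).g i j)) = t := by
  obtain ⟨t, ht, ht2⟩ := Kz_form h hz x hx
  have hn := h.neg z hz
  refine ⟨t * (- hq (P z))⁻¹, mul_pos ht (inv_pos.mpr (by linarith)), ?_⟩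
  push_cast
  rw [← ht2]
  simp only [datB_g, ev_gS h _ _ hz, ct]
  ring

/-! ### equivariance -/

/-- constant matrices acting on vectors -/
noncomputable def Rop (R : Matrix (Fin 4) (Fin 4) ℂ) (v : Fin 4 → S) : Fin 4 → S :=
  fun a => ∑ b, algebraMap ℂ S (R a b) * v b

theorem ev_algebraMap {z : E2} (hz : z ∈ B) (c : ℂ) : ev hz (algebraMap ℂ S c) = c :=
  xt_algebraMap c hz

theorem ev_Rop (R : Matrix (Fin 4) (Fin 4) ℂ) (v : Fin 4 → S) (a : Fin 4) {z : E2} (hz : z ∈ B) :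
    ev hz (Rop R v a) = (R *ᵥ fun b => ev hz (v b)) a := by
  simp only [Rop, map_sum, map_mul, ev_algebraMap, Matrix.mulVec, dotProduct]

theorem equivariance (h : HIn P) (g : GU (Fin 2)) (R : Matrix (Fin 4) (Fin 4) ℂ)
    (hR : ∀ v w : Fin 4 → ℂ, hh (R *ᵥ v) (R *ᵥ w) = hh v w)
    (he : ∀ z ∈ B, ∃ c : ℂ, P (act g.M z) = c • (R *ᵥ P z)) :
    ∃ μ, (datB h).Eq (T g) (Rop R) μ := by
  refine ⟨- (datB h).m * hh (fun a => cmpH g ((datB h).P a)) (Rop R (datB h).P), ?_, ?_, ?_, ?_, ?_⟩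
  · intro v w
    funext a
    simp only [Rop, mul_add, Finset.sum_add_distrib]
  · intro c v
    funext a
    simp only [Rop, Finset.mul_sum]
    exact Finset.sum_congr rfl fun b _ => by ring
  · intro k v
    funext a
    change DB.d k (Rop R v a) = Rop R (DB.dv k v) a
    simp only [Rop, map_sum, Derivation.leibniz, Derivation.map_algebraMap,
      smul_eq_mul, DS.dv, mul_zero, add_zero]
  · intro v w
    apply ev_ext
    intro z hz
    simp only [ev_hh, ev_Rop]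
    exact hR _ _
  · intro a
    apply ev_ext
    intro z hz
    obtain ⟨c, hc⟩ := he z hz
    have hz' := act_mem g hz
    have e1 : ∀ b, ev hz (cmpH g ((datB h).P b)) = c * (R *ᵥ P z) b := by
      intro b
      change xt (cmpH g ((datB h).P b)) z = _
      rw [xt_cmpH _ _ hz]
      have : xt ((datB h).P b) (act g.M z) = P (act g.M z) b := ev_pS h b hz'
      rw [this, hc]
      rfl
    have e2 : ∀ b, ev hz ((datB h).P b) = P z b := fun b => ev_pS h b hz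
    have e3 : ev hz (datB h).m = (-(hq (P z) : ℂ))⁻¹ := ev_mS h hz
    change ev hz (cmpH g ((datB h).P a)) = _
    rw [e1, map_mul, map_mul, map_neg, ev_hh, e3]
    simp only [e1, ev_Rop, e2]
    have e4 : hh (fun b => c * (R *ᵥ P z) b) (fun b => (R *ᵥ P z) b) = c * (hq (P z) : ℂ) := by
      rw [hh_smul_left c (fun b => (R *ᵥ P z) b)]
      have : hh (R *ᵥ P z) (R *ᵥ P z) = (hq (P z) : ℂ) := by rw [hR, hh_self]
      rw [← this]
    have e5 : (fun b => P z b) = P z := rfl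
    rw [e5, e4]
    have hn : (hq (P z) : ℂ) ≠ 0 := by exact_mod_cast (h.neg z hz).ne
    field_simp

end Pool.Agent.MPd01a95.CW
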