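import Mathlib
import Pool.Agent.Lib.MP_d01a95_gt.Defs
import Pool.Agent.Lib.MP_d01a95_gt.Low
import Pool.Agent.Lib.MP_d01a95_gt.Trans
import Pool.Agent.Lib.MP_d01a95_gt_H.GU
import Pool.Agent.Lib.MP_d01a95_gt_M.Defs
import Pool.Agent.Lib.MP_d01a95_gt_M.Alg1
import Pool.Agent.Lib.MP_d01a95_gt_M.Alg2
import Pool.Agent.Lib.MP_d01a95_gt_M.Alg4
import Pool.Agent.Lib.MP_d01a95_gt_M.Alg5
import Pool.Agent.Lib.MP_d01a95_gt_M.Sm
import Pool.Agent.Lib.MP_d01a95_gt_M.HolS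
import Pool.Agent.Lib.MP_d01a95_gt_M.Act
import Pool.Agent.Lib.MP_d01a95_gt_M.CutB
import Pool.Agent.Lib.MP_d01a95_gt_M.DatB

/-!
Project SU(2,2), part (3): the ball itself (helper5).
-/

set_option autoImplicit false
set_option linter.all false

open Matrix Filter Topology
open scoped ContDiff

namespace Pool.Agent.MPd01a95.CW

/-- the standard embedding of the ball -/
noncomputable def P0 (z : E2) : Fin 4 → ℂ := ![z 0, z 1, 1, 0]

theorem P0_diff (a : Fin 4) : Differentiable ℂ fun z => P0 z a := by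
  fin_cases a
  · exact differentiable_apply (𝕜 := ℂ) (0 : Fin 2)
  · exact differentiable_apply (𝕜 := ℂ) (1 : Fin 2)
  · exact differentiable_const _
  · exact differentiable_const _

theorem P0_fderiv (z x : E2) : fderiv ℂ P0 z x = ![x 0, x 1, 0, 0] := by
  have hd : HasFDerivAt P0 (fderiv ℂ P0 z) z :=
    (differentiableAt_pi.mpr fun a => P0_diff a z).hasFDerivAt
  funext a
  have h1 := (hasFDerivAt_pi'.mp hd a).fderiv
  have h2 : fderiv ℂ (fun z => P0 z a) z x = fderiv ℂ P0 z x a := by rw [h1]; rfl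
  rw [← h2]
  fin_cases a
  · change fderiv ℂ (fun z : E2 => z 0) z x = x 0
    have h3 : HasFDerivAt (fun z : E2 => z 0)
        (ContinuousLinearMap.proj (R := ℂ) (φ := fun _ : Fin 2 => ℂ) (0 : Fin 2)) z :=
      (ContinuousLinearMap.proj (R := ℂ) (φ := fun _ : Fin 2 => ℂ) (0 : Fin 2)).hasFDerivAt
    rw [h3.fderiv]
    rfl
  · change fderiv ℂ (fun z : E2 => z 1) z x = x 1
    have h3 : HasFDerivAt (fun z : E2 => z 1)
        (ContinuousLinearMap.proj (R := ℂ) (φ := fun _ : Fin 2 => ℂ) (1 : Fin 2)) z :=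
      (ContinuousLinearMap.proj (R := ℂ) (φ := fun _ : Fin 2 => ℂ) (1 : Fin 2)).hasFDerivAt
    rw [h3.fderiv]
    rfl
  · change fderiv ℂ (fun z : E2 => (1 : ℂ)) z x = 0
    simp
  · change fderiv ℂ (fun z : E2 => (0 : ℂ)) z x = 0
    simp

theorem hIn0 : HIn P0 where
  diff := fun a => (P0_diff a).differentiableOn
  neg := by
    intro z hz
    rw [mem_B, sq, Fin.sum_univ_two] at hz
    simp [hq, P0]
    linarith
  space := by
    intro z hz x hx
    rw [P0_fderiv]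
    rw [mem_B, sq, Fin.sum_univ_two] at hz
    have h1 : 0 < ‖x 0‖ ^ 2 + ‖x 1‖ ^ 2 := by
      have h2 : x 0 ≠ 0 ∨ x 1 ≠ 0 := by
        by_contra hc
        push Not at hc
        apply hx
        funext i
        fin_cases i
        · exact hc.1
        · exact hc.2
      rcases h2 with h2 | h2
      · have := norm_pos_iff.mpr h2
        positivity
      · have := norm_pos_iff.mpr h2
        positivity
    have e1 : hq (P0 z) = ‖z 0‖ ^ 2 + ‖z 1‖ ^ 2 - 1 := by simp [hq, P0]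
    have e2 : hq ![x 0, x 1, 0, 0] = ‖x 0‖ ^ 2 + ‖x 1‖ ^ 2 := by simp [hq]
    rw [e1, e2]
    have : 0 < -(‖z 0‖ ^ 2 + ‖z 1‖ ^ 2 - 1) * (‖x 0‖ ^ 2 + ‖x 1‖ ^ 2) := mul_pos (by linarith) h1
    positivity

/-- the second fundamental form of the ball vanishes -/
theorem q0 (i j : Fin 2) : (datB hIn0).q i j = 0 := by
  have e : ∀ a, DB.d i (DB.d j ((datB hIn0).P a)) = 0 := by
    intro a
    have h1 : DB.d j ((datB hIn0).P a) =
        algebraMap ℂ S ((![(Pi.single j 1 : E2) 0, (Pi.single j 1 : E2) 1, 0, 0] : Fin 4 → ℂ) a) := by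
      apply ev_ext
      intro z hz
      rw [ev_algebraMap]
      have := ev_dP hIn0 j a hz
      rw [P0_fderiv] at this
      exact this
    rw [h1, Derivation.map_algebraMap]
  have e2 : DB.dv i ((datB hIn0).Pd j) = fun _ => 0 := funext e
  rw [Dat.q, e2]
  simp [dt]

theorem gp0 (k l : Fin 2) : (datB hIn0).gp k l = 0 := by
  simp [Dat.gp, q0]

/-- the three dimensional part -/
def v3 (v : Fin 4 → ℂ) : Fin 2 ⊕ Unit → ℂ := Sum.elim ![v 0, v 1] fun _ => v 2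

/-- the block matrix -/
noncomputable def R0 (g : GU (Fin 2)) : Matrix (Fin 4) (Fin 4) ℂ :=
  Matrix.of ![![g.M (Sum.inl 0) (Sum.inl 0), g.M (Sum.inl 0) (Sum.inl 1), g.M (Sum.inl 0) (Sum.inr ()), 0],
    ![g.M (Sum.inl 1) (Sum.inl 0), g.M (Sum.inl 1) (Sum.inl 1), g.M (Sum.inl 1) (Sum.inr ()), 0],
    ![g.M (Sum.inr ()) (Sum.inl 0), g.M (Sum.inr ()) (Sum.inl 1), g.M (Sum.inr ()) (Sum.inr ()), 0],
    ![0, 0, 0, 1]]

theorem R0_mul (g : GU (Fin 2)) (v : Fin 4 → ℂ) : R0 g *ᵥ v =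
    ![(g.M *ᵥ v3 v) (Sum.inl 0), (g.M *ᵥ v3 v) (Sum.inl 1), (g.M *ᵥ v3 v) (Sum.inr ()), v 3] := by
  funext a
  fin_cases a <;>
    simp [R0, Matrix.mulVec, dotProduct, Fin.sum_univ_four, v3, Fintype.sum_sum_type]

theorem R0_iso (g : GU (Fin 2)) (v w : Fin 4 → ℂ) : hh (R0 g *ᵥ v) (R0 g *ᵥ w) = hh v w := by
  have h1 : star (g.M *ᵥ v3 w) ⬝ᵥ (JC (Fin 2) *ᵥ (g.M *ᵥ v3 v)) =
      star (v3 w) ⬝ᵥ (JC (Fin 2) *ᵥ v3 v) := by
    rw [Matrix.star_mulVec, ← Matrix.dotProduct_mulVec, Matrix.mulVec_mulVec, Matrix.mulVec_mulVec,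
      g.pres]
  rw [LowAux.herm, LowAux.herm, Fin.sum_univ_two, Fin.sum_univ_two] at h1
  rw [R0_mul, R0_mul]
  simp only [hh, Matrix.cons_val_zero, Matrix.cons_val_one, Matrix.cons_val]
  simp only [v3, Sum.elim_inl, Sum.elim_inr, Matrix.cons_val_zero, Matrix.cons_val_one] at h1 ⊢
  linear_combination h1

theorem v3_P0 (z : E2) : v3 (P0 z) = vz z := by
  funext i
  rcases i with i | i
  · fin_cases i <;> rfl
  · rfl

theorem eqv0 (g : GU (Fin 2)) {z : E2} (hz : z ∈ B) :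
    ∃ c : ℂ, P0 (act g.M z) = c • (R0 g *ᵥ P0 z) := by
  refine ⟨(den g z)⁻¹, ?_⟩
  have hd := den_ne g hz
  rw [R0_mul, v3_P0, vz_act g hz]
  funext a
  fin_cases a
  · simp [P0, vz, hd]
  · simp [P0, vz, hd]
  · simp [P0, vz, hd]
  · simp [P0]

end Pool.Agent.MPd01a95.CW
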