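import Mathlib
import Pool.Agent.Lib.MP_d01a95_gt.Defs
import Pool.Agent.Lib.MP_d01a95_gt.Low
import Pool.Agent.Lib.MP_d01a95_gt_H.GU
import Pool.Agent.Lib.MP_d01a95_gt_M.Defs
import Pool.Agent.Lib.MP_d01a95_gt_M.Alg5
import Pool.Agent.Lib.MP_d01a95_gt_M.Sm
import Pool.Agent.Lib.MP_d01a95_gt_M.HolS
import Pool.Agent.Lib.MP_d01a95_gt_M.Act

/-!
Project SU(2,2), part (3): change of variables in the ball (helper5).
-/

set_option autoImplicit false
set_option linter.all false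

open Matrix Filter Topology MeasureTheory
open scoped ContDiff

namespace Pool.Agent.MPd01a95.CW

/-- the complex Jacobian determinant -/
noncomputable def jd (g : GU (Fin 2)) : S := d2 (T g).J

theorem xt_J (g : GU (Fin 2)) (m k : Fin 2) {z : E2} (hz : z ∈ B) :
    xt ((T g).J m k) z = fderiv ℂ (act g.M) z (Pi.single k 1) m := by
  have hG : HasFDerivAt (act g.M) (fderiv ℂ (act g.M) z) z :=
    ((act_diff' g z hz).differentiableAt (isOpen_B.mem_nhds hz)).hasFDerivAt
  change xt (dB k (ga g m)) z = _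
  rw [ga, dB_hol k _ _ hz]
  have := (hasFDerivAt_pi'.mp hG m).fderiv
  rw [this]
  rfl

theorem xt_jd (g : GU (Fin 2)) {z : E2} (hz : z ∈ B) :
    xt (jd g) z = LinearMap.det ((fderiv ℂ (act g.M) z : E2 →L[ℂ] E2) : E2 →ₗ[ℂ] E2) := by
  rw [← LinearMap.det_toMatrix', Matrix.det_fin_two]
  simp only [LinearMap.toMatrix'_apply]
  rw [jd, d2, xt_sub _ _ hz, xt_mul _ _ hz, xt_mul _ _ hz, xt_J _ _ _ hz, xt_J _ _ _ hz,
    xt_J _ _ _ hz, xt_J _ _ _ hz]
  rfl

theorem det_real (g : GU (Fin 2)) {z : E2} (hz : z ∈ B) :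
    |((fderiv ℂ (act g.M) z).restrictScalars ℝ : E2 →L[ℝ] E2).det| = ‖xt (jd g) z‖ ^ 2 := by
  have h : ((fderiv ℂ (act g.M) z).restrictScalars ℝ : E2 →L[ℝ] E2).det =
      Algebra.norm ℝ (LinearMap.det ((fderiv ℂ (act g.M) z : E2 →L[ℂ] E2) : E2 →ₗ[ℂ] E2)) := by
    rw [← LinearMap.det_restrictScalars]
    rfl
  rw [h, Algebra.norm_complex_apply, ← xt_jd g hz, Complex.normSq_eq_norm_sq, abs_of_nonneg (by positivity)]

theorem act_image (g : GU (Fin 2)) : act g.M '' B = B := by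
  ext z
  constructor
  · rintro ⟨y, hy, rfl⟩
    exact act_mem g hy
  · intro hz
    exact ⟨act g⁻¹.M z, act_mem _ hz, act_act_inv g hz⟩

theorem act_inj (g : GU (Fin 2)) : Set.InjOn (act g.M) B := by
  intro x hx y hy h
  rw [← act_inv_act g hx, ← act_inv_act g hy, h]

theorem cov {F : Type} [NormedAddCommGroup F] [NormedSpace ℝ F] (g : GU (Fin 2)) (f : E2 → F) :
    ∫ z in B, f z = ∫ z in B, (‖xt (jd g) z‖ ^ 2) • f (act g.M z) := by
  have h := integral_image_eq_integral_abs_det_fderiv_smul (μ := (volume : Measure E2))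
    (s := B) (f := act g.M) (f' := fun z => (fderiv ℂ (act g.M) z).restrictScalars ℝ)
    isOpen_B.measurableSet (fun z hz =>
      ((((act_diff' g z hz).differentiableAt (isOpen_B.mem_nhds hz)).hasFDerivAt).restrictScalars ℝ
        ).hasFDerivWithinAt) (act_inj g) f
  rw [act_image] at h
  rw [h]
  refine setIntegral_congr_fun isOpen_B.measurableSet fun z hz => ?_
  change |((fderiv ℂ (act g.M) z).restrictScalars ℝ : E2 →L[ℝ] E2).det| • f (act g.M z) = _
  rw [det_real g hz]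

end Pool.Agent.MPd01a95.CW
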