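import Mathlib
import Pool.Agent.Lib.MP_d01a95_gt.Defs
import Pool.Agent.Lib.MP_d01a95_gt.Low
import Pool.Agent.Lib.MP_d01a95_gt_H.GU
import Pool.Agent.Lib.MP_d01a95_gt_H.Cut
import Pool.Agent.Lib.MP_d01a95_gt_M.Defs
import Pool.Agent.Lib.MP_d01a95_gt_M.Alg5
import Pool.Agent.Lib.MP_d01a95_gt_M.Sm
import Pool.Agent.Lib.MP_d01a95_gt_M.HolS
import Pool.Agent.Lib.MP_d01a95_gt_M.Act
import Pool.Agent.Lib.MP_d01a95_gt_M.Cov
import Pool.Agent.Lib.MP_d01a95_gt_M.CutB

/-!
Project SU(2,2), part (3): Stokes by unfolding (helper5).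
-/

set_option autoImplicit false
set_option linter.all false

open Matrix Filter Topology MeasureTheory
open scoped ContDiff

namespace Pool.Agent.MPd01a95.CW

variable {G : Type} [Group G]

/-- support condition -/
def Sup (s : ℝ) (f : S) : Prop := ∀ z ∈ B, xt f z ≠ 0 → sq z < s

theorem isCompact_sq (s : ℝ) : IsCompact {z : E2 | sq z ≤ s} := by
  have hcl : IsClosed {z : E2 | sq z ≤ s} := isClosed_le sq_smooth.continuous continuous_const
  refine (isCompact_closedBall (0 : E2) (Real.sqrt (|s|))).of_isClosed_subset hcl fun z hz => ?_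
  rw [mem_closedBall_zero_iff, pi_norm_le_iff_of_nonneg (Real.sqrt_nonneg _)]
  intro i
  apply Real.le_sqrt_of_sq_le
  have h1 : ‖z i‖ ^ 2 ≤ sq z := Finset.single_le_sum (f := fun i => ‖z i‖ ^ 2)
    (fun i _ => by positivity) (Finset.mem_univ i)
  exact h1.trans (hz.trans (le_abs_self s))

theorem Sup.zero_off {s : ℝ} {f : S} (h : Sup s f) {z : E2} (hz : ¬ sq z < s) : xt f z = 0 := by
  by_cases hB : z ∈ B
  · by_contra hne
    exact hz (h z hB hne)
  · exact ext_of_not f.1 hB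

theorem Sup.compact {s : ℝ} {f : S} (h : Sup s f) : HasCompactSupport (xt f) := by
  refine HasCompactSupport.intro (isCompact_sq s) fun z hz => h.zero_off fun hlt => hz hlt.le

theorem Sup.smooth {s : ℝ} (hs : s < 1) {f : S} (h : Sup s f) : ContDiff ℝ ∞ (xt f) := by
  rw [contDiff_iff_contDiffAt]
  intro z
  by_cases hB : z ∈ B
  · exact (xt_sm f).contDiffAt (isOpen_B.mem_nhds hB)
  · have h1 : s < sq z := lt_of_lt_of_le hs (not_lt.mp hB)
    have hopen : IsOpen {y : E2 | s < sq y} := isOpen_lt continuous_const sq_smooth.continuous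
    have h2 : xt f =ᶠ[𝓝 z] fun _ => 0 := by
      filter_upwards [hopen.mem_nhds h1] with y hy
      exact h.zero_off (not_lt.mpr (le_of_lt hy))
    exact contDiffAt_const.congr_of_eventuallyEq h2

theorem Sup.mul {s : ℝ} {f : S} (h : Sup s f) (g : S) : Sup s (f * g) := by
  intro z hz hne
  rw [xt_mul _ _ hz] at hne
  exact h z hz (left_ne_zero_of_mul hne)

theorem Sup.integrable {s : ℝ} (hs : s < 1) {f : S} (h : Sup s f) :
    Integrable (xt f) (volume : Measure E2) :=
  (h.smooth hs).continuous.integrable_of_hasCompactSupport h.compact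

theorem setInt_eq (f : S) : ∫ z in B, xt f z = ∫ z, xt f z := by
  apply setIntegral_eq_integral_of_forall_compl_eq_zero
  intro z hz
  exact ext_of_not f.1 hz

theorem Sup.int_fderiv {s : ℝ} (hs : s < 1) {f : S} (h : Sup s f) (v : E2) :
    ∫ z, fderiv ℝ (xt f) z v = 0 := by
  have hsm := h.smooth hs
  have hc := h.compact
  have hcont : Continuous fun z => fderiv ℝ (xt f) z v :=
    (hsm.continuous_fderiv (by simp)).clm_apply continuous_const
  have i1 : Integrable (fun z => fderiv ℝ (xt f) z v) (volume : Measure E2) :=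
    hcont.integrable_of_hasCompactSupport (hc.fderiv_apply (𝕜 := ℝ) v)
  have := integral_mul_fderiv_eq_neg_fderiv_mul_of_integrable (μ := (volume : Measure E2))
    (f := fun _ : E2 => (1 : ℂ)) (g := xt f) (v := v) (by simp) (by simpa using i1)
    (by simpa using h.integrable hs) (fun x _ => differentiableAt_const _)
    (fun x _ => hsm.differentiable (by simp) x)
  simpa using this

theorem Sup.dir {s : ℝ} {f : S} (h : Sup s f) (v : E2) {z : E2} (hz : z ∉ B) (hs : s < 1) :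
    fderiv ℝ (xt f) z v = 0 := by
  have h1 : s < sq z := lt_of_lt_of_le hs (not_lt.mp hz)
  have hopen : IsOpen {y : E2 | s < sq y} := isOpen_lt continuous_const sq_smooth.continuous
  have h2 : xt f =ᶠ[𝓝 z] fun _ => 0 := by
    filter_upwards [hopen.mem_nhds h1] with y hy
    exact h.zero_off (not_lt.mpr (le_of_lt hy))
  rw [h2.fderiv_eq]
  simp

/-- Stokes for compactly supported functions -/
theorem Sup.int_b {s : ℝ} (hs : s < 1) {f : S} (h : Sup s f) (k : Fin 2) :
    ∫ z in B, xt (bB k f) z = 0 := by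
  have e0 : ∫ z in B, xt (bB k f) z = ∫ z in B, ((1 / 2 : ℂ) * (fderiv ℝ (xt f) z (Pi.single k 1) +
      Complex.I * fderiv ℝ (xt f) z (Pi.single k Complex.I))) := by
    refine setIntegral_congr_fun isOpen_B.measurableSet fun z hz => ?_
    simp only [bB_apply, xt_smul _ _ hz, xt_add _ _ hz, xt_dir _ _ hz]
  have e : ∫ z in B, xt (bB k f) z = ∫ z, ((1 / 2 : ℂ) * (fderiv ℝ (xt f) z (Pi.single k 1) +
      Complex.I * fderiv ℝ (xt f) z (Pi.single k Complex.I))) := by
    rw [e0]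
    apply setIntegral_eq_integral_of_forall_compl_eq_zero
    intro z hz
    rw [h.dir _ hz hs, h.dir _ hz hs]
    simp
  have hsm := h.smooth hs
  have hc := h.compact
  have i1 : ∀ v, Integrable (fun z => fderiv ℝ (xt f) z v) (volume : Measure E2) := fun v =>
    ((hsm.continuous_fderiv (by simp)).clm_apply continuous_const).integrable_of_hasCompactSupport
      (hc.fderiv_apply (𝕜 := ℝ) v)
  rw [e, integral_const_mul, integral_add (i1 _) ((i1 _).const_mul _), integral_const_mul,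
    h.int_fderiv hs, h.int_fderiv hs]
  simp

theorem Sup.mono {s s' : ℝ} {f : S} (h : Sup s f) (hss : s ≤ s') : Sup s' f :=
  fun z hz hne => lt_of_lt_of_le (h z hz hne) hss

theorem Sup.b {s s' : ℝ} {f : S} (h : Sup s f) (hss : s < s') (k : Fin 2) : Sup s' (bB k f) := by
  intro z hz hne
  by_contra hc
  apply hne
  have h1 : s < sq z := lt_of_lt_of_le hss (not_lt.mp hc)
  have hopen : IsOpen {y : E2 | s < sq y} := isOpen_lt continuous_const sq_smooth.continuous
  have h2 : xt f =ᶠ[𝓝 z] fun _ => 0 := by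
    filter_upwards [hopen.mem_nhds h1] with y hy
    exact h.zero_off (not_lt.mpr (le_of_lt hy))
  rw [bB_apply, xt_smul _ _ hz, xt_add _ _ hz, xt_smul _ _ hz, xt_dir _ _ hz, xt_dir _ _ hz,
    h2.fderiv_eq]
  simp

theorem Sup.sub {s : ℝ} {f g : S} (h : Sup s f) (h' : Sup s g) : Sup s (f - g) := by
  intro z hz hne
  by_contra hc
  apply hne
  rw [xt_sub _ _ hz, h.zero_off hc, h'.zero_off hc, sub_zero]

theorem Sup.int_sub {s : ℝ} (hs : s < 1) {f g : S} (h : Sup s f) (h' : Sup s g) :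
    ∫ z in B, xt (f - g) z = (∫ z in B, xt f z) - ∫ z in B, xt g z := by
  rw [← integral_sub (h.integrable hs).integrableOn (h'.integrable hs).integrableOn]
  exact setIntegral_congr_fun isOpen_B.measurableSet fun z hz => xt_sub _ _ hz

/-- the form `∂̄φ ∧ α` -/
noncomputable def WW (α : Fin 2 → S) (φ : S) : S := bB 0 φ * α 1 - bB 1 φ * α 0

theorem WW_cmp (g : GU (Fin 2)) (α : Fin 2 → S)
    (hα : ∀ l, α l = jd g * ∑ n, star ((T g).J n l) * (T g).c (α n)) (φ : S) :
    WW α (cmpH g φ) = jd g * star (jd g) * cmpH g (WW α φ) := by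
  have h0 := (T g).c_b 0 φ
  have h1 := (T g).c_b 1 φ
  have a0 := hα 0
  have a1 := hα 1
  change bB 0 (cmpH g φ) = _ at h0
  change bB 1 (cmpH g φ) = _ at h1
  simp only [WW, jd, d2, map_sub, map_mul, Fin.sum_univ_two, star_sub, star_mul'] at *
  change bB 0 (cmpH g φ) = star ((T g).J 0 0) * cmpH g (bB 0 φ) + star ((T g).J 1 0) * cmpH g (bB 1 φ) at h0
  change bB 1 (cmpH g φ) = star ((T g).J 0 1) * cmpH g (bB 0 φ) + star ((T g).J 1 1) * cmpH g (bB 1 φ) at h1
  change α 0 = _ * (star ((T g).J 0 0) * cmpH g (α 0) + star ((T g).J 1 0) * cmpH g (α 1)) at a0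
  change α 1 = _ * (star ((T g).J 0 1) * cmpH g (α 0) + star ((T g).J 1 1) * cmpH g (α 1)) at a1
  rw [h0, h1]
  generalize cmpH g (α 0) = x0 at *
  generalize cmpH g (α 1) = x1 at *
  rw [a0, a1]
  ring

theorem WW_zero {α : Fin 2 → S} {φ : S} {z : E2} (hz : z ∈ B)
    (h : xt φ =ᶠ[𝓝 z] fun _ => 1) : xt (WW α φ) z = 0 := by
  have h1 : fderiv ℝ (xt φ) z = 0 := by rw [h.fderiv_eq]; simp
  simp only [WW, xt_sub _ _ hz, xt_mul _ _ hz, bB_apply, xt_smul _ _ hz, xt_add _ _ hz,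
    xt_dir _ _ hz, h1]
  simp

theorem WW_add (α : Fin 2 → S) (φ ψ : S) : WW α (φ + ψ) = WW α φ + WW α ψ := by
  simp only [WW, map_add]; ring

theorem WW_sum (α : Fin 2 → S) {ι : Type} (F : Finset ι) (φ : ι → S) :
    WW α (∑ i ∈ F, φ i) = ∑ i ∈ F, WW α (φ i) := by
  classical
  induction F using Finset.induction_on with
  | empty => simp [WW]
  | insert a F ha ih => rw [Finset.sum_insert ha, Finset.sum_insert ha, WW_add, ih]

theorem xt_sum {ι : Type} (F : Finset ι) (φ : ι → S) {z : E2} (hz : z ∈ B) :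
    xt (∑ i ∈ F, φ i) z = ∑ i ∈ F, xt (φ i) z := by
  classical
  induction F using Finset.induction_on with
  | empty => simp [xt_zero hz]
  | insert a F ha ih => rw [Finset.sum_insert ha, Finset.sum_insert ha, xt_add _ _ hz, ih]

/-- **Stokes by unfolding** -/
theorem stokes {σ : G →* GU (Fin 2)} {χ : S} (hχ : IsCut σ χ) (α : Fin 2 → S)
    (hα : ∀ γ, ∀ l, α l = jd (σ γ) * ∑ n, star ((T (σ γ)).J n l) * (T (σ γ)).c (α n)) :
    ∫ z in B, xt χ z * xt (bB 0 (α 1) - bB 1 (α 0)) z = 0 := by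
  classical
  obtain ⟨s, hs, hsup⟩ := hχ.supp
  have hS : Sup s χ := hsup
  obtain ⟨s', hs', hs'1⟩ := exists_between hs
  have hW : Sup s' (WW α χ) :=
    ((hS.b hs' 0).mul (α 1)).sub ((hS.b hs' 1).mul (α 0))
  -- reduce to `∫ W(χ) = 0`
  have h1 : ∫ z in B, xt (WW α χ) z = - ∫ z in B, xt χ z * xt (bB 0 (α 1) - bB 1 (α 0)) z := by
    have e1 := (hS.mul (α 1)).int_b hs 0
    have e2 := (hS.mul (α 0)).int_b hs 1
    have s1 := (hS.mul (α 1)).b hs' 0
    have s2 := (hS.mul (α 0)).b hs' 1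
    have s3 : Sup s' (χ * (bB 0 (α 1) - bB 1 (α 0))) := (hS.mul _).mono hs'.le
    have e : WW α χ = (bB 0 (χ * α 1) - bB 1 (χ * α 0)) - χ * (bB 0 (α 1) - bB 1 (α 0)) := by
      simp only [WW, Derivation.leibniz, smul_eq_mul]
      ring
    have e3 : ∫ z in B, xt χ z * xt (bB 0 (α 1) - bB 1 (α 0)) z =
        ∫ z in B, xt (χ * (bB 0 (α 1) - bB 1 (α 0))) z :=
      setIntegral_congr_fun isOpen_B.measurableSet fun z hz => (xt_mul _ _ hz).symm
    rw [e, (s1.sub s2).int_sub hs'1 s3, s1.int_sub hs'1 s2, e1, e2, e3]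
    ring
  -- the finite set
  obtain ⟨F₀, hF₀⟩ := hχ.sum s' hs'1
  set F : Finset G := F₀ ∪ F₀.image (fun γ => γ⁻¹) with hF
  have hFsum : ∀ z ∈ B, sq z ≤ s' → ∑ γ ∈ F, xt χ (act (σ γ).M z) = 1 :=
    hF₀ F Finset.subset_union_left
  have hFinv : F.image (fun γ => γ⁻¹) = F := by
    rw [hF, Finset.image_union, Finset.image_image]
    have : ((fun γ : G => γ⁻¹) ∘ fun γ : G => γ⁻¹) = id := by
      funext γ; simp
    rw [this, Finset.image_id, Finset.union_comm]
  have hFsum' : ∀ z ∈ B, sq z ≤ s' → ∑ γ ∈ F, xt χ (act (σ γ⁻¹).M z) = 1 := by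
    intro z hz hzs
    rw [← hFsum z hz hzs]
    conv_rhs => rw [← hFinv]
    rw [Finset.sum_image fun x _ y _ h => inv_injective h]
  have h2 : ∫ z in B, xt (WW α χ) z = ∑ γ ∈ F, ∫ z in B, xt (WW α χ) z * xt χ (act (σ γ).M z) := by
    rw [← integral_finset_sum]
    · refine setIntegral_congr_fun isOpen_B.measurableSet fun z hz => ?_
      change xt (WW α χ) z = ∑ γ ∈ F, xt (WW α χ) z * xt χ (act (σ γ).M z)
      rw [← Finset.mul_sum]
      by_cases h : sq z ≤ s'
      · rw [hFsum z hz h, mul_one]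
      · rw [hW.zero_off (fun hc => h hc.le), zero_mul]
    · intro γ _
      have i1 := ((hW.mul (cmpH (σ γ) χ)).integrable hs'1).integrableOn (s := B)
      refine i1.congr_fun (fun z hz => ?_) isOpen_B.measurableSet
      rw [xt_mul _ _ hz, xt_cmpH _ _ hz]
  have h3 : ∀ γ, ∫ z in B, xt (WW α χ) z * xt χ (act (σ γ).M z) =
      ∫ z in B, xt (WW α (cmpH (σ γ⁻¹) χ)) z * xt χ z := by
    intro γ
    rw [cov (σ γ⁻¹)]
    refine setIntegral_congr_fun isOpen_B.measurableSet fun z hz => ?_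
    change (‖xt (jd (σ γ⁻¹)) z‖ ^ 2) • (xt (WW α χ) (act (σ γ⁻¹).M z) *
      xt χ (act (σ γ).M (act (σ γ⁻¹).M z))) = xt (WW α (cmpH (σ γ⁻¹) χ)) z * xt χ z
    have e1 : act (σ γ).M (act (σ γ⁻¹).M z) = z := by
      rw [← act_mul _ _ hz, ← map_mul, mul_inv_cancel, map_one, act_one hz]
    rw [e1, WW_cmp (σ γ⁻¹) α (hα γ⁻¹), xt_mul _ _ hz, xt_mul _ _ hz, xt_star _ hz, xt_cmpH _ _ hz,
      Complex.real_smul]
    have e2 : ((‖xt (jd (σ γ⁻¹)) z‖ ^ 2 : ℝ) : ℂ) = xt (jd (σ γ⁻¹)) z * star (xt (jd (σ γ⁻¹)) z) := by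
      rw [← Complex.normSq_eq_norm_sq]
      exact (Complex.mul_conj _).symm
    rw [e2]
    ring
  have h4 : ∑ γ ∈ F, ∫ z in B, xt (WW α (cmpH (σ γ⁻¹) χ)) z * xt χ z =
      ∫ z in B, xt (WW α (∑ γ ∈ F, cmpH (σ γ⁻¹) χ)) z * xt χ z := by
    rw [← integral_finset_sum]
    · refine setIntegral_congr_fun isOpen_B.measurableSet fun z hz => ?_
      change ∑ γ ∈ F, xt (WW α (cmpH (σ γ⁻¹) χ)) z * xt χ z = _
      rw [WW_sum, xt_sum _ _ hz, Finset.sum_mul]
    · intro γ _
      have i1 := ((hS.mul (WW α (cmpH (σ γ⁻¹) χ))).integrable hs).integrableOn (s := B)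
      refine i1.congr_fun (fun z hz => ?_) isOpen_B.measurableSet
      rw [xt_mul _ _ hz, mul_comm]
  have h5 : ∫ z in B, xt (WW α (∑ γ ∈ F, cmpH (σ γ⁻¹) χ)) z * xt χ z = 0 := by
    rw [setIntegral_congr_fun isOpen_B.measurableSet (g := fun _ => (0 : ℂ))]
    · simp
    · intro z hz
      change xt (WW α (∑ γ ∈ F, cmpH (σ γ⁻¹) χ)) z * xt χ z = 0
      by_cases h : xt χ z = 0
      · rw [h, mul_zero]
      · have hz2 : sq z < s' := (hS z hz h).trans hs'
        have hopen : IsOpen {y : E2 | sq y < s'} := isOpen_lt sq_smooth.continuous continuous_const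
        rw [WW_zero hz, zero_mul]
        filter_upwards [hopen.mem_nhds hz2, isOpen_B.mem_nhds hz] with y hy hyB
        rw [xt_sum _ _ hyB]
        simp only [xt_cmpH _ _ hyB]
        exact hFsum' y hyB (le_of_lt hy)
  rw [h2, Finset.sum_congr rfl fun γ _ => h3 γ, h4, h5] at h1
  linear_combination h1

end Pool.Agent.MPd01a95.CW
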