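import Mathlib
import Pool.Agent.Lib.MP_d01a95_gt.Defs
import Pool.Agent.Lib.MP_d01a95_gt.Low
import Pool.Agent.Lib.MP_d01a95_gt_H.GU
import Pool.Agent.Lib.MP_d01a95_gt_H.Cut
import Pool.Agent.Lib.MP_d01a95_gt_M.Defs
import Pool.Agent.Lib.MP_d01a95_gt_M.Alg1
import Pool.Agent.Lib.MP_d01a95_gt_M.Alg2
import Pool.Agent.Lib.MP_d01a95_gt_M.Alg3
import Pool.Agent.Lib.MP_d01a95_gt_M.Alg4
import Pool.Agent.Lib.MP_d01a95_gt_M.Alg5
import Pool.Agent.Lib.MP_d01a95_gt_M.Alg6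
import Pool.Agent.Lib.MP_d01a95_gt_M.Alg7
import Pool.Agent.Lib.MP_d01a95_gt_M.Sm
import Pool.Agent.Lib.MP_d01a95_gt_M.HolS
import Pool.Agent.Lib.MP_d01a95_gt_M.Act
import Pool.Agent.Lib.MP_d01a95_gt_M.Cov
import Pool.Agent.Lib.MP_d01a95_gt_M.CutB
import Pool.Agent.Lib.MP_d01a95_gt_M.Stokes
import Pool.Agent.Lib.MP_d01a95_gt_M.DatB
import Pool.Agent.Lib.MP_d01a95_gt_M.Ball

/-!
Project SU(2,2), part (3): `c₁² = 3 c₂` gives `det q = 0` (helper5).
-/

set_option autoImplicit false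
set_option linter.all false

open Matrix Filter Topology MeasureTheory
open scoped ContDiff

namespace Pool.Agent.MPd01a95.CW

variable {G : Type} [Group G] {P : E2 → Fin 4 → ℂ}

/-- a nonnegative continuous function with vanishing integral vanishes -/
theorem int_zero {s : ℝ} (hs : s < 1) {F : S} (h : Sup s F)
    (hr : ∀ z ∈ B, ∃ t : ℝ, 0 ≤ t ∧ xt F z = t) (h0 : ∫ z in B, xt F z = 0) :
    ∀ z ∈ B, xt F z = 0 := by
  have hr' : ∀ z, ∃ t : ℝ, 0 ≤ t ∧ xt F z = t := by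
    intro z
    by_cases hz : z ∈ B
    · exact hr z hz
    · exact ⟨0, le_rfl, by rw [show xt F z = 0 from ext_of_not F.1 hz]; simp⟩
  have hcont : Continuous fun z => (xt F z).re := Complex.continuous_re.comp (h.smooth hs).continuous
  have hc : HasCompactSupport fun z => (xt F z).re := h.compact.comp_left Complex.zero_re
  have hnn : 0 ≤ fun z => (xt F z).re := by
    intro z
    obtain ⟨t, ht, ht2⟩ := hr' z
    simp only [Pi.zero_apply, ht2, Complex.ofReal_re]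
    exact ht
  intro z hz
  by_contra hne
  have hx : (xt F z).re ≠ 0 := by
    obtain ⟨t, ht, ht2⟩ := hr' z
    rw [ht2] at hne ⊢
    simpa using hne
  have hpos := hcont.integral_pos_of_hasCompactSupport_nonneg_nonzero (μ := (volume : Measure E2))
    hc hnn hx
  rw [setInt_eq] at h0
  have h1 : ∫ z, (xt F z).re = (∫ z, xt F z).re := integral_re (h.integrable hs)
  rw [h1, h0] at hpos
  simp at hpos

/-- reality and positivity of the quantity `κ`, `δ` at a point -/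
theorem κ_pos (h : HIn P) {z : E2} (hz : z ∈ B) :
    ∃ t : ℝ, 0 < t ∧ ev hz (datB h).κ = t := by
  obtain ⟨a, ha, ha2⟩ := m_pos h hz
  obtain ⟨b, hb, hb2⟩ := δ_pos h hz
  refine ⟨a ^ 4 * b, by positivity, ?_⟩
  simp only [Dat.κ, map_mul, map_pow, ha2, hb2]
  push_cast
  ring

theorem d2gp_nonneg (h : HIn P) {z : E2} (hz : z ∈ B) :
    ∃ t : ℝ, 0 ≤ t ∧ ev hz (d2 (datB h).gp) = t := by
  obtain ⟨a, ha, ha2⟩ := κ_pos h hz
  obtain ⟨b, hb, hb2⟩ := δ_pos h hz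
  refine ⟨a ^ 2 * b * ‖ev hz (d2 (datB h).q)‖ ^ 2, by positivity, ?_⟩
  rw [Dat.d2_gp, map_mul, map_mul, map_mul, map_pow, ha2, hb2, ev_star]
  push_cast
  have e : ev hz (d2 (datB h).q) * star (ev hz (d2 (datB h).q)) =
      ((‖ev hz (d2 (datB h).q)‖ : ℝ) : ℂ) ^ 2 := Complex.mul_conj' _
  rw [e]

/-- a cutoff function and invariance: vanishing everywhere -/
theorem vanish {σ : G →* GU (Fin 2)} {χ : S} (hχ : IsCut σ χ) (F : S)
    (hF : ∀ γ, ∃ c : S, F = c * cmpH (σ γ) F)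
    (h0 : ∀ z ∈ B, xt (χ * F) z = 0) : F = 0 := by
  apply S_ext
  intro z hz
  obtain ⟨γ, hγ⟩ := hχ.pos z hz
  obtain ⟨c, hc⟩ := hF γ
  have hz' := act_mem (σ γ) hz
  have h1 := h0 _ hz'
  rw [xt_mul _ _ hz'] at h1
  have h2 : xt F (act (σ γ).M z) = 0 := (mul_eq_zero.mp h1).resolve_left hγ
  rw [hc, xt_mul _ _ hz, xt_cmpH _ _ hz, h2, mul_zero, xt_zero hz]

theorem detgp_zero {σ : G →* GU (Fin 2)} (hL : Lat σ) (h : HIn P)
    (hinv : ∀ γ, Inv (datB h) (T (σ γ))) : d2 (datB h).gp = 0 := by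
  obtain ⟨χ, hχ⟩ := exists_isCut hL
  obtain ⟨s, hs, hsup⟩ := hχ.supp
  have hS : Sup s χ := hsup
  have hinv0 : ∀ γ, Inv (datB hIn0) (T (σ γ)) := by
    intro γ
    obtain ⟨μ, hμ⟩ := equivariance hIn0 (σ γ) (R0 (σ γ)) (R0_iso _) (fun z hz => eqv0 (σ γ) hz)
    exact hμ.inv
  have h1 := stokes hχ (alp (datB h) (datB hIn0)) (fun γ l => (hinv γ).alp_inv (hinv0 γ) l)
  have h2 := transgression (datB h) (datB hIn0)
  have h3 : d2 (datB hIn0).gp = 0 := by simp [d2, gp0]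
  rw [Dat.disc_eq, Dat.disc_eq, h3] at h2
  change bB 0 (alp (datB h) (datB hIn0) 1) - bB 1 (alp (datB h) (datB hIn0) 0) = _ at h2
  rw [h2] at h1
  have h4 : ∫ z in B, xt (χ * d2 (datB h).gp) z = 0 := by
    have e : ∫ z in B, xt χ z * xt (2 * (-4 * d2 (datB h).gp - -4 * 0)) z =
        ∫ z in B, (-8 : ℂ) * xt (χ * d2 (datB h).gp) z := by
      refine setIntegral_congr_fun isOpen_B.measurableSet fun z hz => ?_
      change xt χ z * ev hz (2 * (-4 * d2 (datB h).gp - -4 * 0)) =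
        (-8 : ℂ) * ev hz (χ * d2 (datB h).gp)
      simp only [map_mul, map_sub, map_neg, map_ofNat, map_zero]
      change ev hz χ * _ = _
      ring
    rw [e, integral_const_mul] at h1
    exact (mul_eq_zero.mp h1).resolve_left (by norm_num)
  have h5 := int_zero hs (hS.mul _) (fun z hz => by
    obtain ⟨a, ha, ha2⟩ := hχ.real z hz
    obtain ⟨b, hb, hb2⟩ := d2gp_nonneg h hz
    refine ⟨a * b, mul_nonneg ha hb, ?_⟩
    rw [xt_mul _ _ hz, ha2]
    change (a : ℂ) * ev hz (d2 (datB h).gp) = _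
    rw [hb2]; push_cast; rfl) h4
  exact vanish hχ _ (fun γ => ⟨_, (hinv γ).d2_gp_inv⟩) h5

theorem detq_zero {σ : G →* GU (Fin 2)} (hL : Lat σ) (h : HIn P)
    (hinv : ∀ γ, Inv (datB h) (T (σ γ))) : d2 (datB h).q = 0 := by
  have h1 := detgp_zero hL h hinv
  apply ev_ext
  intro z hz
  have h2 := congrArg (ev hz) h1
  obtain ⟨a, ha, ha2⟩ := κ_pos h hz
  obtain ⟨b, hb, hb2⟩ := δ_pos h hz
  rw [Dat.d2_gp, map_mul, map_mul, map_mul, map_pow, ha2, hb2, ev_star, map_zero] at h2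
  rw [map_zero]
  have hac : (a : ℂ) ≠ 0 := by exact_mod_cast ha.ne'
  have hbc : (b : ℂ) ≠ 0 := by exact_mod_cast hb.ne'
  have h3 := (mul_eq_zero.mp h2).resolve_left (mul_ne_zero (pow_ne_zero _ hac) hbc)
  rcases mul_eq_zero.mp h3 with h4 | h4
  · exact h4
  · exact star_eq_zero.mp h4

end Pool.Agent.MPd01a95.CW
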