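import Mathlib
import Pool.Agent.Lib.MP_d01a95_gt.Defs
import Pool.Agent.Lib.MP_d01a95_gt.Low
import Pool.Agent.Lib.MP_d01a95_gt_H.GU
import Pool.Agent.Lib.MP_d01a95_gt_H.Cut
import Pool.Agent.Lib.MP_d01a95_gt_M.Defs
import Pool.Agent.Lib.MP_d01a95_gt_M.Alg1
import Pool.Agent.Lib.MP_d01a95_gt_M.Alg2
import Pool.Agent.Lib.MP_d01a95_gt_M.Alg3
import Pool.Agent.Lib.MP_d01a95_gt_M.Alg4
import Pool.Agent.Lib.MP_d01a95_gt_M.Alg5
import Pool.Agent.Lib.MP_d01a95_gt_M.Alg6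
import Pool.Agent.Lib.MP_d01a95_gt_M.Alg7
import Pool.Agent.Lib.MP_d01a95_gt_M.Sm
import Pool.Agent.Lib.MP_d01a95_gt_M.HolS
import Pool.Agent.Lib.MP_d01a95_gt_M.Act
import Pool.Agent.Lib.MP_d01a95_gt_M.Cov
import Pool.Agent.Lib.MP_d01a95_gt_M.CutB
import Pool.Agent.Lib.MP_d01a95_gt_M.Stokes
import Pool.Agent.Lib.MP_d01a95_gt_M.DatB
import Pool.Agent.Lib.MP_d01a95_gt_M.Ball
import Pool.Agent.Lib.MP_d01a95_gt_M.DetZero
import Pool.Agent.Lib.MP_d01a95_gt_M.Boch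

/-!
Project SU(2,2), part (3): `q = 0` (helper5).
-/

set_option autoImplicit false
set_option linter.all false

open Matrix Filter Topology MeasureTheory
open scoped ContDiff

namespace Pool.Agent.MPd01a95.CW

variable {G : Type} [Group G] {P : E2 → Fin 4 → ℂ}

theorem eps_pos (N : ℕ) : (0 : ℝ) < 1 / ((N : ℝ) + 1) := by positivity

theorem exists_s (h : HIn P) (hq0 : d2 (datB h).q = 0) (ε : ℝ) (hε : 0 < ε) :
    ∃ s : S, s * ((datB h).t + algebraMap ℂ S (ε : ℂ)) = 1 := by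
  obtain ⟨g, hg⟩ := exists_inv ((datB h).t + algebraMap ℂ S (ε : ℂ)) (by
    intro z hz
    obtain ⟨t, ht, ht2, -⟩ := t_nonneg h hq0 hz
    rw [map_add, ht2, ev_algebraMap]
    have : (0 : ℝ) < t + ε := by linarith
    exact_mod_cast this.ne')
  exact ⟨g, by rw [mul_comm]; exact hg⟩

theorem lim1 (t : ℝ) (ht : 0 ≤ t) (x : ℂ) (hx : t = 0 → x = 0) :
    Tendsto (fun N : ℕ => (((t / (t + 1 / ((N : ℝ) + 1))) ^ 2 : ℝ) : ℂ) * x) atTop (𝓝 x) := by
  rcases ht.eq_or_lt with h0 | h0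
  · rw [hx h0.symm]
    simp
  · have h1 : Tendsto (fun N : ℕ => t / (t + 1 / ((N : ℝ) + 1))) atTop (𝓝 (t / (t + 0))) :=
      tendsto_const_nhds.div (tendsto_const_nhds.add tendsto_one_div_add_atTop_nhds_zero_nat)
        (by linarith)
    rw [add_zero, div_self h0.ne'] at h1
    have h2 := h1.pow 2
    rw [one_pow] at h2
    have h3 := (Complex.continuous_ofReal.tendsto 1).comp h2
    have h4 := h3.mul (tendsto_const_nhds (x := x))
    rw [Complex.ofReal_one, one_mul] at h4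
    exact h4

theorem b1 (t ε : ℝ) (ht : 0 ≤ t) (hε : 0 < ε) : (t / (t + ε)) ^ 2 ≤ 1 := by
  have h1 : t / (t + ε) ≤ 1 := by rw [div_le_one (by linarith)]; linarith
  have h2 : 0 ≤ t / (t + ε) := by positivity
  nlinarith

theorem b2 (t ε : ℝ) (ht : 0 ≤ t) (hε : 0 < ε) : ε * t / (t + ε) ^ 2 ≤ 1 := by
  rw [div_le_one (by positivity)]
  nlinarith [sq_nonneg t, sq_nonneg ε, mul_nonneg ht hε.le]

theorem lim2 (t : ℝ) (ht : 0 ≤ t) :
    Tendsto (fun N : ℕ => (1 / ((N : ℝ) + 1)) * t / (t + 1 / ((N : ℝ) + 1)) ^ 2) atTop (𝓝 0) := by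
  rcases ht.eq_or_lt with h0 | h0
  · rw [← h0]; simp
  · have h1 : Tendsto (fun N : ℕ => (1 / ((N : ℝ) + 1)) * t / (t + 1 / ((N : ℝ) + 1)) ^ 2) atTop
        (𝓝 (0 * t / (t + 0) ^ 2)) :=
      (tendsto_one_div_add_atTop_nhds_zero_nat.mul tendsto_const_nhds).div
        ((tendsto_const_nhds.add tendsto_one_div_add_atTop_nhds_zero_nat).pow 2)
        (by rw [add_zero]; positivity)
    simpa using h1

theorem c_eq {A : Type} [CommRing A] [Algebra ℂ A] [StarRing A] {D : DS A} (V : Dat D) :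
    md V.g V.gp = V.t * V.Dg := by
  rw [Dat.t]
  linear_combination (-(md V.g V.gp)) * V.Dδ

/-- second derivatives of `t` -/
noncomputable def ddt (h : HIn P) (k l : Fin 2) : S := DB.d k (DB.b l (datB h).t)

/-- the main integral identity -/
theorem int_id {σ : G →* GU (Fin 2)} (h : HIn P) (hinv : ∀ γ, Inv (datB h) (T (σ γ)))
    (hq0 : d2 (datB h).q = 0) {χ : S} (hχ : IsCut σ χ) (ε : ℝ) (s : S)
    (hs : s * ((datB h).t + algebraMap ℂ S (ε : ℂ)) = 1) :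
    ∫ z in B, xt (χ * (s ^ 2 * ((datB h).t ^ 2 * md (datB h).g (datB h).gp))) z =
      ∫ z in B, xt (χ * (s ^ 2 * (algebraMap ℂ S (ε : ℂ) * md (ddt h) (datB h).gp))) z := by
  obtain ⟨r, hr, hsup⟩ := hχ.supp
  have hS : Sup r χ := hsup
  set e := algebraMap ℂ S (ε : ℂ) with he
  have hcs : ∀ γ, (T (σ γ)).c s = s := by
    intro γ
    have h1 := congrArg (T (σ γ)).c hs
    have h2 : (T (σ γ)).c e = e := by
      apply ev_ext
      intro z hz
      change xt (cmpH (σ γ) e) z = xt e z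
      rw [xt_cmpH _ _ hz, he, xt_algebraMap _ hz, xt_algebraMap _ (act_mem _ hz)]
    rw [map_mul, map_add, (hinv γ).t_inv, h2, map_one] at h1
    linear_combination s * h1 - (T (σ γ)).c s * hs
  have h1 := stokes hχ (fun l => s * (DB.d 0 (datB h).t * (datB h).gp 1 l -
    DB.d 1 (datB h).t * (datB h).gp 0 l)) (fun γ l => (hinv γ).bet_inv s (hcs γ) l)
  have h2 := (datB h).bet_div s e ⟨Derivation.map_algebraMap _ _, Derivation.map_algebraMap _ _⟩ hs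
  have h1' : ∫ z in B, xt χ z * xt (DB.b 0 (s * (DB.d 0 (datB h).t * (datB h).gp 1 1 -
    DB.d 1 (datB h).t * (datB h).gp 0 1)) - DB.b 1 (s * (DB.d 0 (datB h).t * (datB h).gp 1 0 -
    DB.d 1 (datB h).t * (datB h).gp 0 0))) z = 0 := h1
  rw [h2] at h1'
  have h3 := J_full h hq0
  have h4 : s * md (fun k l => DB.d k (DB.b l (datB h).t)) (datB h).gp -
      s ^ 2 * md (fun k l => DB.d k (datB h).t * DB.b l (datB h).t) (datB h).gp =
      s ^ 2 * (e * md (ddt h) (datB h).gp) - s ^ 2 * ((datB h).t ^ 2 * md (datB h).g (datB h).gp) := by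
    have h5 : md (DB.L (datB h).t) (datB h).gp = (datB h).t * md (ddt h) (datB h).gp -
        md (fun k l => DB.d k (datB h).t * DB.b l (datB h).t) (datB h).gp := by
      simp only [md, DS.L, ddt, DB.hdb]
      ring
    have h6 : (fun k l => DB.d k (DB.b l (datB h).t)) = ddt h := rfl
    rw [h6]
    rw [h5] at h3
    linear_combination (s ^ 2) * h3 - (s * md (ddt h) (datB h).gp) * hs
  rw [h4] at h1'
  have h7 : ∫ z in B, xt χ z * xt (s ^ 2 * (e * md (ddt h) (datB h).gp) -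
      s ^ 2 * ((datB h).t ^ 2 * md (datB h).g (datB h).gp)) z =
      ∫ z in B, xt (χ * (s ^ 2 * (e * md (ddt h) (datB h).gp)) -
        χ * (s ^ 2 * ((datB h).t ^ 2 * md (datB h).g (datB h).gp))) z := by
    refine setIntegral_congr_fun isOpen_B.measurableSet fun z hz => ?_
    change xt χ z * xt (_ - _) z = xt (_ - _) z
    rw [xt_sub _ _ hz, xt_sub _ _ hz, xt_mul χ _ hz, xt_mul χ _ hz, mul_sub]
  rw [h7, (hS.mul _).int_sub hr (hS.mul _)] at h1'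
  linear_combination -h1'

theorem md_le (X Y : Fin 2 → Fin 2 → ℂ) (C : ℝ) (hY : ∀ k l, ‖Y k l‖ ≤ C) :
    ‖md X Y‖ ≤ (‖X 0 0‖ + ‖X 1 1‖ + ‖X 0 1‖ + ‖X 1 0‖) * C := by
  have h1 : ‖md X Y‖ ≤ ‖X 0 0‖ * ‖Y 1 1‖ + ‖X 1 1‖ * ‖Y 0 0‖ + ‖X 0 1‖ * ‖Y 1 0‖ + ‖X 1 0‖ * ‖Y 0 1‖ := by
    unfold md
    calc _ ≤ ‖X 0 0 * Y 1 1 + X 1 1 * Y 0 0 - X 0 1 * Y 1 0‖ + ‖X 1 0 * Y 0 1‖ := norm_sub_le _ _
      _ ≤ (‖X 0 0 * Y 1 1 + X 1 1 * Y 0 0‖ + ‖X 0 1 * Y 1 0‖) + ‖X 1 0 * Y 0 1‖ := by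
        gcongr; exact norm_sub_le _ _
      _ ≤ ((‖X 0 0 * Y 1 1‖ + ‖X 1 1 * Y 0 0‖) + ‖X 0 1 * Y 1 0‖) + ‖X 1 0 * Y 0 1‖ := by
        gcongr; exact norm_add_le _ _
      _ = _ := by simp only [norm_mul]
  refine h1.trans ?_
  have a := mul_le_mul_of_nonneg_left (hY 1 1) (norm_nonneg (X 0 0))
  have b := mul_le_mul_of_nonneg_left (hY 0 0) (norm_nonneg (X 1 1))
  have c := mul_le_mul_of_nonneg_left (hY 1 0) (norm_nonneg (X 0 1))
  have d := mul_le_mul_of_nonneg_left (hY 0 1) (norm_nonneg (X 1 0))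
  linarith

/-- values of `s` -/
theorem s_val (h : HIn P) {z : E2} (hz : z ∈ B) (t ε : ℝ) (ht2 : ev hz (datB h).t = t) (s : S)
    (hs : s * ((datB h).t + algebraMap ℂ S (ε : ℂ)) = 1) :
    ev hz s = (((t + ε)⁻¹ : ℝ) : ℂ) := by
  have h1 := congrArg (ev hz) hs
  rw [map_mul, map_add, ev_algebraMap, map_one, ht2] at h1
  rw [Complex.ofReal_inv, Complex.ofReal_add]
  exact eq_inv_of_mul_eq_one_left h1

theorem F_val (h : HIn P) {z : E2} (hz : z ∈ B) (t ε : ℝ) (ht2 : ev hz (datB h).t = t) (s χ : S)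
    (hs : s * ((datB h).t + algebraMap ℂ S (ε : ℂ)) = 1) :
    xt (χ * (s ^ 2 * ((datB h).t ^ 2 * md (datB h).g (datB h).gp))) z =
      ev hz χ * ((((t / (t + ε)) ^ 2 : ℝ) : ℂ) * ev hz (md (datB h).g (datB h).gp)) := by
  have e0 : xt (χ * (s ^ 2 * ((datB h).t ^ 2 * md (datB h).g (datB h).gp))) z =
    ev hz χ * (ev hz s ^ 2 * (ev hz (datB h).t ^ 2 * ev hz (md (datB h).g (datB h).gp))) := by
    rw [← ev_apply hz, map_mul, map_mul, map_mul, map_pow, map_pow]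
  rw [e0, s_val h hz t ε ht2 s hs, ht2]
  push_cast
  ring

theorem G_val (h : HIn P) {z : E2} (hz : z ∈ B) (t ε : ℝ) (ht2 : ev hz (datB h).t = t) (s χ : S)
    (hs : s * ((datB h).t + algebraMap ℂ S (ε : ℂ)) = 1) :
    xt (χ * (s ^ 2 * (algebraMap ℂ S (ε : ℂ) * md (ddt h) (datB h).gp))) z =
      ev hz χ * ((((t + ε)⁻¹ : ℝ) : ℂ) ^ 2 * ((ε : ℂ) * ev hz (md (ddt h) (datB h).gp))) := by
  rw [← ev_apply hz, map_mul, map_mul, map_mul, map_pow, ev_algebraMap, s_val h hz t ε ht2 s hs]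

/-- the bound for `md (∂∂̄t) g'` -/
theorem a_le (h : HIn P) (hq0 : d2 (datB h).q = 0) {z : E2} (hz : z ∈ B) (t : ℝ) (ht : 0 ≤ t)
    (ht2 : ev hz (datB h).t = t) : ‖ev hz (md (ddt h) (datB h).gp)‖ ≤
    t * ((‖ev hz (ddt h 0 0)‖ + ‖ev hz (ddt h 1 1)‖ + ‖ev hz (ddt h 0 1)‖ + ‖ev hz (ddt h 1 0)‖) *
      ‖ev hz (trg h)‖) := by
  have e : ev hz (md (ddt h) (datB h).gp) = md (fun k l => ev hz (ddt h k l))
      (fun k l => ev hz ((datB h).gp k l)) := by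
    simp only [md, map_add, map_sub, map_mul]
  have h1 := md_le (fun k l => ev hz (ddt h k l)) (fun k l => ev hz ((datB h).gp k l))
    (t * ‖ev hz (trg h)‖) (by
      intro k l
      have := gp_le h hq0 hz k l
      rwa [ht2, Complex.norm_real, Real.norm_eq_abs, abs_of_nonneg ht] at this)
  rw [e]
  refine h1.trans (le_of_eq ?_)
  ring

theorem G_le (h : HIn P) (hq0 : d2 (datB h).q = 0) {z : E2} (hz : z ∈ B) (t ε : ℝ) (ht : 0 ≤ t)
    (hε : 0 < ε) (ht2 : ev hz (datB h).t = t) (s χ : S)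
    (hs : s * ((datB h).t + algebraMap ℂ S (ε : ℂ)) = 1) :
    ‖xt (χ * (s ^ 2 * (algebraMap ℂ S (ε : ℂ) * md (ddt h) (datB h).gp))) z‖ ≤
      (ε * t / (t + ε) ^ 2) * (‖ev hz χ‖ * ((‖ev hz (ddt h 0 0)‖ + ‖ev hz (ddt h 1 1)‖ +
        ‖ev hz (ddt h 0 1)‖ + ‖ev hz (ddt h 1 0)‖) * ‖ev hz (trg h)‖)) := by
  rw [G_val h hz t ε ht2 s χ hs]
  have h1 := a_le h hq0 hz t ht ht2
  have h2 : 0 < t + ε := by linarith
  rw [norm_mul, norm_mul, norm_mul, norm_pow, Complex.norm_real, Complex.norm_real,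
    Real.norm_eq_abs, Real.norm_eq_abs, abs_of_pos (inv_pos.mpr h2), abs_of_pos hε]
  calc _ ≤ ‖ev hz χ‖ * ((t + ε)⁻¹ ^ 2 * (ε * (t * ((‖ev hz (ddt h 0 0)‖ + ‖ev hz (ddt h 1 1)‖ +
        ‖ev hz (ddt h 0 1)‖ + ‖ev hz (ddt h 1 0)‖) * ‖ev hz (trg h)‖)))) := by
        gcongr
    _ = _ := by
        rw [div_eq_mul_inv, inv_pow]; ring

theorem bd_val (h : HIn P) {z : E2} (hz : z ∈ B) (χ : S) :
    ‖xt (χ * (ddt h 0 0 * trg h)) z‖ + ‖xt (χ * (ddt h 1 1 * trg h)) z‖ +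
      ‖xt (χ * (ddt h 0 1 * trg h)) z‖ + ‖xt (χ * (ddt h 1 0 * trg h)) z‖ =
    ‖ev hz χ‖ * ((‖ev hz (ddt h 0 0)‖ + ‖ev hz (ddt h 1 1)‖ +
        ‖ev hz (ddt h 0 1)‖ + ‖ev hz (ddt h 1 0)‖) * ‖ev hz (trg h)‖) := by
  simp only [← ev_apply hz, map_mul, norm_mul]
  ring

theorem limF (h : HIn P) (hq0 : d2 (datB h).q = 0) {r : ℝ} (hr : r < 1) {χ : S} (hS : Sup r χ)
    (s : ℕ → S) (hs : ∀ N : ℕ, s N * ((datB h).t +
      algebraMap ℂ S ((1 / ((N : ℝ) + 1) : ℝ) : ℂ)) = 1) :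
    Tendsto (fun N : ℕ => ∫ z in B, xt (χ * (s N ^ 2 * ((datB h).t ^ 2 *
      md (datB h).g (datB h).gp))) z) atTop (𝓝 (∫ z in B, xt (χ * md (datB h).g (datB h).gp) z)) := by
  apply tendsto_integral_of_dominated_convergence (fun z => ‖xt (χ * md (datB h).g (datB h).gp) z‖)
  · intro N
    exact ((hS.mul _).integrable hr).integrableOn.aestronglyMeasurable
  · exact ((hS.mul _).integrable hr).integrableOn.norm
  · intro N
    filter_upwards [ae_restrict_mem isOpen_B.measurableSet] with z hz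
    obtain ⟨t, ht, ht2, -⟩ := t_nonneg h hq0 hz
    rw [F_val h hz t _ ht2 _ χ (hs N), ← ev_apply hz, map_mul, norm_mul, norm_mul, norm_mul,
      Complex.norm_real, Real.norm_eq_abs, abs_of_nonneg (sq_nonneg _)]
    have h1 := b1 t _ ht (eps_pos N)
    have h2 := mul_le_mul_of_nonneg_right h1 (norm_nonneg (ev hz (md (datB h).g (datB h).gp)))
    rw [one_mul] at h2
    exact mul_le_mul_of_nonneg_left h2 (norm_nonneg _)
  · filter_upwards [ae_restrict_mem isOpen_B.measurableSet] with z hz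
    obtain ⟨t, ht, ht2, -⟩ := t_nonneg h hq0 hz
    have e : (fun N : ℕ => xt (χ * (s N ^ 2 * ((datB h).t ^ 2 * md (datB h).g (datB h).gp))) z) =
        fun N : ℕ => ev hz χ * ((((t / (t + 1 / ((N : ℝ) + 1))) ^ 2 : ℝ) : ℂ) *
          ev hz (md (datB h).g (datB h).gp)) := by
      funext N
      exact F_val h hz t _ ht2 _ χ (hs N)
    rw [e, ← ev_apply hz, map_mul]
    refine (lim1 t ht _ fun h0 => ?_).const_mul _
    rw [c_eq, map_mul, ht2, h0]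
    simp

theorem limG (h : HIn P) (hq0 : d2 (datB h).q = 0) {r : ℝ} (hr : r < 1) {χ : S} (hS : Sup r χ)
    (s : ℕ → S) (hs : ∀ N : ℕ, s N * ((datB h).t +
      algebraMap ℂ S ((1 / ((N : ℝ) + 1) : ℝ) : ℂ)) = 1) :
    Tendsto (fun N : ℕ => ∫ z in B, xt (χ * (s N ^ 2 *
      (algebraMap ℂ S ((1 / ((N : ℝ) + 1) : ℝ) : ℂ) * md (ddt h) (datB h).gp))) z) atTop
      (𝓝 (∫ z in B, (0 : ℂ))) := by
  apply tendsto_integral_of_dominated_convergence (fun z => ‖xt (χ * (ddt h 0 0 * trg h)) z‖ +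
    ‖xt (χ * (ddt h 1 1 * trg h)) z‖ + ‖xt (χ * (ddt h 0 1 * trg h)) z‖ +
    ‖xt (χ * (ddt h 1 0 * trg h)) z‖)
  · intro N
    exact ((hS.mul _).integrable hr).integrableOn.aestronglyMeasurable
  · exact (((((hS.mul _).integrable hr).integrableOn.norm.add
      ((hS.mul _).integrable hr).integrableOn.norm).add
      ((hS.mul _).integrable hr).integrableOn.norm).add
      ((hS.mul _).integrable hr).integrableOn.norm)
  · intro N
    filter_upwards [ae_restrict_mem isOpen_B.measurableSet] with z hz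
    obtain ⟨t, ht, ht2, -⟩ := t_nonneg h hq0 hz
    refine (G_le h hq0 hz t _ ht (eps_pos N) ht2 _ χ (hs N)).trans ?_
    rw [bd_val h hz χ]
    have h1 := b2 t _ ht (eps_pos N)
    have h2 : 0 ≤ ‖ev hz χ‖ * ((‖ev hz (ddt h 0 0)‖ + ‖ev hz (ddt h 1 1)‖ +
        ‖ev hz (ddt h 0 1)‖ + ‖ev hz (ddt h 1 0)‖) * ‖ev hz (trg h)‖) := by positivity
    have h3 := mul_le_mul_of_nonneg_right h1 h2
    rwa [one_mul] at h3
  · filter_upwards [ae_restrict_mem isOpen_B.measurableSet] with z hz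
    obtain ⟨t, ht, ht2, -⟩ := t_nonneg h hq0 hz
    have h1 := (lim2 t ht).mul_const (‖ev hz χ‖ * ((‖ev hz (ddt h 0 0)‖ + ‖ev hz (ddt h 1 1)‖ +
        ‖ev hz (ddt h 0 1)‖ + ‖ev hz (ddt h 1 0)‖) * ‖ev hz (trg h)‖))
    rw [zero_mul] at h1
    exact squeeze_zero_norm (fun N => G_le h hq0 hz t _ ht (eps_pos N) ht2 _ χ (hs N)) h1

theorem int_c {σ : G →* GU (Fin 2)} (h : HIn P) (hinv : ∀ γ, Inv (datB h) (T (σ γ)))
    (hq0 : d2 (datB h).q = 0) {χ : S} (hχ : IsCut σ χ) :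
    ∫ z in B, xt (χ * md (datB h).g (datB h).gp) z = 0 := by
  obtain ⟨r, hr, hsup⟩ := hχ.supp
  have hS : Sup r χ := hsup
  choose s hs using fun N : ℕ => exists_s h hq0 (1 / ((N : ℝ) + 1)) (eps_pos N)
  have h1 := limF h hq0 hr hS s hs
  have h2 := limG h hq0 hr hS s hs
  have h3 : (fun N : ℕ => ∫ z in B, xt (χ * (s N ^ 2 * ((datB h).t ^ 2 *
      md (datB h).g (datB h).gp))) z) = fun N : ℕ => ∫ z in B, xt (χ * (s N ^ 2 *
      (algebraMap ℂ S ((1 / ((N : ℝ) + 1) : ℝ) : ℂ) * md (ddt h) (datB h).gp))) z := by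
    funext N
    exact int_id h hinv hq0 hχ _ _ (hs N)
  rw [h3] at h1
  have h4 := tendsto_nhds_unique h1 h2
  rw [h4]
  simp

theorem q_zero {σ : G →* GU (Fin 2)} (hL : Lat σ) (h : HIn P)
    (hinv : ∀ γ, Inv (datB h) (T (σ γ))) (i k : Fin 2) : (datB h).q i k = 0 := by
  have hq0 := detq_zero hL h hinv
  obtain ⟨χ, hχ⟩ := exists_isCut hL
  obtain ⟨r, hr, hsup⟩ := hχ.supp
  have hS : Sup r χ := hsup
  have h0 := int_c h hinv hq0 hχ
  have h1 := int_zero hr (hS.mul (md (datB h).g (datB h).gp)) (fun z hz => by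
    obtain ⟨a, ha, ha2⟩ := hχ.real z hz
    obtain ⟨t, ht, ht2, -⟩ := t_nonneg h hq0 hz
    obtain ⟨d, hd, hd2⟩ := Dg_pos h hz
    refine ⟨a * (t * d), by positivity, ?_⟩
    rw [← ev_apply hz, c_eq, map_mul, map_mul, ht2, hd2, ev_apply, ha2]
    push_cast; rfl) h0
  have h2 : md (datB h).g (datB h).gp = 0 := vanish hχ _ (fun γ => ⟨_, (hinv γ).md_inv⟩) h1
  apply ev_ext
  intro z hz
  obtain ⟨t, ht, ht2, ht3⟩ := t_nonneg h hq0 hz
  rw [map_zero]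
  apply ht3
  have h3 := congrArg (ev hz) (c_eq (datB h))
  obtain ⟨d, hd, hd2⟩ := Dg_pos h hz
  rw [h2, map_mul, map_zero, ht2, hd2] at h3
  have h4 : t * d = 0 := by exact_mod_cast h3.symm
  exact (mul_eq_zero.mp h4).resolve_right hd.ne'

end Pool.Agent.MPd01a95.CW
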