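import Mathlib
import Pool.Agent.Lib.MP_d01a95_gt.Defs
import Pool.Agent.Lib.MP_d01a95_gt.Low
import Pool.Agent.Lib.MP_d01a95_gt_H.GU
import Pool.Agent.Lib.MP_d01a95_gt_H.Cut
import Pool.Agent.Lib.MP_d01a95_gt_M.Defs
import Pool.Agent.Lib.MP_d01a95_gt_M.Alg1
import Pool.Agent.Lib.MP_d01a95_gt_M.Alg2
import Pool.Agent.Lib.MP_d01a95_gt_M.Alg3
import Pool.Agent.Lib.MP_d01a95_gt_M.Alg4
import Pool.Agent.Lib.MP_d01a95_gt_M.Alg5
import Pool.Agent.Lib.MP_d01a95_gt_M.Alg6
import Pool.Agent.Lib.MP_d01a95_gt_M.Alg7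
import Pool.Agent.Lib.MP_d01a95_gt_M.Sm
import Pool.Agent.Lib.MP_d01a95_gt_M.HolS
import Pool.Agent.Lib.MP_d01a95_gt_M.Act
import Pool.Agent.Lib.MP_d01a95_gt_M.CutB
import Pool.Agent.Lib.MP_d01a95_gt_M.DatB
import Pool.Agent.Lib.MP_d01a95_gt_M.QZero

/-!
Project SU(2,2), part (3): the final statement (helper5).

`vhs_line`: a spacelike holomorphic equivariant map from the ball to the negative lines of
`ℂ^{2,2}` preserves a negative line.
-/

set_option autoImplicit false
set_option linter.all false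

open Matrix Filter Topology
open scoped ContDiff

namespace Pool.Agent.MPd01a95.CW

section alg

variable {A : Type} [CommRing A] [Algebra ℂ A] [StarRing A] {D : DS A} (V : Dat D)

/-- inverse of `n'` -/
def nu : A := V.m ^ 3 * V.δ

theorem n'_nu : V.n' * nu V = 1 := by
  rw [V.n'_eq, nu]; exact V.unit_nK

theorem star_nu : star (nu V) = nu V := by
  simp [nu, V.star_m, V.star_δ]

/-- the proportionality factor -/
def lam (k : Fin 2) : A := - (nu V * star (dt (sgv (D.dv k V.C)) V.C))

theorem dt_single (a : Fin 4) (w : Fin 4 → A) : dt (Pi.single a 1) w = w a := by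
  fin_cases a <;> simp [dt]

theorem dC_eq (hq : ∀ i j, V.q i j = 0) (k : Fin 2) (a : Fin 4) :
    D.d k (V.C a) = lam V k * V.C a := by
  have h := V.parseval (Pi.single a 1) (sgv (D.dv k V.C))
  simp only [hh_sgv, V.dt_P_dC, V.dt_E_dC, hq, dt_single] at h
  have hu := n'_nu V
  rw [V.n'_eq] at hu
  have e : D.dv k V.C a = D.d k (V.C a) := rfl
  rw [e] at h
  rw [lam]
  linear_combination (nu V) * h - (D.d k (V.C a)) * hu

theorem d_starC (k : Fin 2) (a : Fin 4) : D.d k (star (V.C a)) = 0 := by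
  rw [← D.hst', V.hol_C, star_zero]

theorem d_n' (hq : ∀ i j, V.q i j = 0) (k : Fin 2) : D.d k V.n' = lam V k * V.n' := by
  simp only [Dat.n', map_neg, map_add, map_sub, Derivation.leibniz, smul_eq_mul, d_starC,
    dC_eq V hq]
  ring

theorem d_nu (hq : ∀ i j, V.q i j = 0) (k : Fin 2) : D.d k (nu V) = - lam V k * nu V := by
  have h := congrArg (D.d k) (n'_nu V)
  rw [Derivation.leibniz, Derivation.map_one_eq_zero, d_n' V hq] at h
  simp only [smul_eq_mul] at h
  have hu := n'_nu V
  linear_combination nu V * h - (D.d k (nu V) + lam V k * nu V) * hu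

/-- the projector -/
def Pj (a b : Fin 4) : A := V.C a * star (V.C b) * nu V

theorem d_Pj (hq : ∀ i j, V.q i j = 0) (k : Fin 2) (a b : Fin 4) : D.d k (Pj V a b) = 0 := by
  simp only [Pj, Derivation.leibniz, smul_eq_mul, d_starC, dC_eq V hq, d_nu V hq]
  ring

theorem star_Pj (a b : Fin 4) : star (Pj V a b) = Pj V b a := by
  simp only [Pj, star_mul', star_star, star_nu]; ring

theorem b_Pj (hq : ∀ i j, V.q i j = 0) (k : Fin 2) (a b : Fin 4) : D.b k (Pj V a b) = 0 := by
  rw [← star_Pj V b a, ← D.hst, d_Pj V hq, star_zero]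

end alg

variable {G : Type} [Group G] {P : E2 → Fin 4 → ℂ}

theorem Pj_const (h : HIn P) (hq : ∀ i j, (datB h).q i j = 0) (a b : Fin 4) {z w : E2}
    (hz : z ∈ B) (hw : w ∈ B) : ev hz (Pj (datB h) a b) = ev hw (Pj (datB h) a b) :=
  const_of (f := Pj (datB h) a b) (fun k => d_Pj _ hq k a b) (fun k => b_Pj _ hq k a b) hz hw

/-- the covector at a point -/
noncomputable def Cz (h : HIn P) {z : E2} (hz : z ∈ B) : Fin 4 → ℂ := fun a => ev hz ((datB h).C a)

theorem nu_pos (h : HIn P) {z : E2} (hz : z ∈ B) : ∃ t : ℝ, 0 < t ∧ ev hz (nu (datB h)) = t := by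
  obtain ⟨a, ha, ha2⟩ := m_pos h hz
  obtain ⟨b, hb, hb2⟩ := δ_pos h hz
  refine ⟨a ^ 3 * b, by positivity, ?_⟩
  rw [nu, map_mul, map_pow, ha2, hb2]
  push_cast
  rfl

/-- `h(N,N) < 0` -/
theorem hq_Cz (h : HIn P) {z : E2} (hz : z ∈ B) : hq (Cz h hz) < 0 := by
  obtain ⟨t, ht, ht2⟩ := nu_pos h hz
  have h1 := congrArg (ev hz) (n'_nu (datB h))
  rw [map_mul, ht2, map_one] at h1
  have h2 : ev hz (datB h).n' = ((- hq (Cz h hz) : ℝ) : ℂ) := by
    have h3 := hh_self (Cz h hz)
    simp only [hh, Cz] at h3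
    simp only [Dat.n', map_neg, map_sub, map_add, map_mul, ev_star]
    push_cast
    rw [h3]
  rw [h2] at h1
  have h4 : - hq (Cz h hz) * t = 1 := by exact_mod_cast h1
  by_contra hc
  push Not at hc
  nlinarith

/-- all covectors are proportional -/
theorem Cz_prop (h : HIn P) (hq' : ∀ i j, (datB h).q i j = 0) {z w : E2} (hz : z ∈ B) (hw : w ∈ B) :
    ∃ c : ℂ, Cz h hz = c • Cz h hw := by
  obtain ⟨s, hs, hs2⟩ := nu_pos h hz
  obtain ⟨t, ht, ht2⟩ := nu_pos h hw
  -- pick `b` with `C_b(z) ≠ 0`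
  obtain ⟨b, hb⟩ : ∃ b, Cz h hz b ≠ 0 := by
    by_contra hc
    push Not at hc
    have h1 := hq_Cz h hz
    simp [hq, hc] at h1
  have key : ∀ a, Cz h hz a * star (Cz h hz b) * s = Cz h hw a * star (Cz h hw b) * t := by
    intro a
    have := Pj_const h hq' a b hz hw
    simp only [Pj, map_mul, ev_star, hs2, ht2] at this
    exact this
  have hsc : (s : ℂ) ≠ 0 := by exact_mod_cast hs.ne'
  have hd : star (Cz h hz b) * s ≠ 0 := mul_ne_zero (star_ne_zero.mpr hb) hsc
  refine ⟨star (Cz h hw b) * t / (star (Cz h hz b) * s), ?_⟩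
  funext a
  rw [Pi.smul_apply, smul_eq_mul, div_mul_eq_mul_div, eq_div_iff hd]
  linear_combination key a

/-- Parseval at a point, for constant vectors -/
theorem parseval_pt (h : HIn P) {z : E2} (hz : z ∈ B) (v w : Fin 4 → ℂ)
    (hP : hh v (P z) = 0) (hE : ∀ k, hh v (fun a => ev hz ((datB h).E k a)) = 0) :
    dt v (Cz h hz) * star (dt w (Cz h hz)) = - ev hz (datB h).n' * hh v w := by
  have h1 := congrArg (ev hz) ((datB h).parseval (fun a => algebraMap ℂ S (v a))
    (fun a => algebraMap ℂ S (w a)))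
  have e1 : ∀ u : Fin 4 → ℂ, ev hz (dt (fun a => algebraMap ℂ S (u a)) (datB h).C) =
      dt u (Cz h hz) := by
    intro u
    simp only [dt, map_add, map_mul, ev_algebraMap, Cz]
  have e2 : ∀ k, ev hz (hh (fun a => algebraMap ℂ S (v a)) ((datB h).E k)) = 0 := by
    intro k
    rw [ev_hh]
    simp only [ev_algebraMap]
    exact hE k
  have e3 : ev hz (hh (fun a => algebraMap ℂ S (v a)) (datB h).P) = 0 := by
    rw [ev_hh]
    simp only [ev_algebraMap]
    have : (fun a => ev hz ((datB h).P a)) = P z := funext fun a => ev_pS h a hz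
    rw [this]
    exact hP
  have e4 : ev hz (hh (fun a => algebraMap ℂ S (v a)) (fun a => algebraMap ℂ S (w a))) = hh v w := by
    rw [ev_hh]
    simp only [ev_algebraMap]
  rw [map_mul, ev_star, e1, e1] at h1
  rw [map_add, map_sub, map_mul, map_mul, map_mul, map_mul, map_mul, map_add, map_sub, map_sub, map_mul, map_mul,
    map_mul, map_mul, map_mul, map_mul, map_mul, map_mul, e2, e2, e3, e4] at h1
  rw [h1, (datB h).n'_eq, map_mul]
  simp only [map_neg]
  ring

theorem ev_n'_ne (h : HIn P) {z : E2} (hz : z ∈ B) : ev hz (datB h).n' ≠ 0 := by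
  intro h0
  have h2 := congrArg (ev hz) (n'_nu (datB h))
  rw [map_mul, h0, zero_mul, map_one] at h2
  exact zero_ne_one h2

/-- the final statement of part (3) -/
theorem vhs_line {σ : G →* GU (Fin 2)} (hL : Lat σ) (h : HIn P)
    (R : G → Matrix (Fin 4) (Fin 4) ℂ)
    (hR : ∀ γ, ∀ v w : Fin 4 → ℂ, hh (R γ *ᵥ v) (R γ *ᵥ w) = hh v w)
    (he : ∀ γ, ∀ z ∈ B, ∃ c : ℂ, P (act (σ γ).M z) = c • (R γ *ᵥ P z)) :
    ∃ N : Fin 4 → ℂ, hq N < 0 ∧ ∀ γ, ∃ c : ℂ, R γ *ᵥ N = c • N := by
  have heq : ∀ γ, ∃ μ, (datB h).Eq (T (σ γ)) (Rop (R γ)) μ := fun γ =>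
    equivariance h (σ γ) (R γ) (hR γ) (he γ)
  have hinv : ∀ γ, Inv (datB h) (T (σ γ)) := fun γ => by
    obtain ⟨μ, hμ⟩ := heq γ
    exact hμ.inv
  have hq' := q_zero hL h hinv
  have z0 : (0 : E2) ∈ B := zero_mem
  refine ⟨sgv (Cz h z0), ?_, fun γ => ?_⟩
  · have h1 := hq_Cz h z0
    simp only [hq, sgv, Matrix.cons_val_zero, Matrix.cons_val_one, Matrix.cons_val, norm_neg,
      norm_star] at h1 ⊢
    exact h1
  · obtain ⟨μ, hμ⟩ := heq γ
    have hy := act_mem (σ γ) z0
    set y := act (σ γ).M 0 with hydef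
    set v := R γ *ᵥ sgv (Cz h z0) with hv
    -- orthogonality
    have o1 : hh v (P y) = 0 := by
      obtain ⟨c, hc⟩ := he γ 0 z0
      rw [hydef, hc, hv]
      have e : c • (R γ *ᵥ P 0) = fun a => c * (R γ *ᵥ P 0) a := rfl
      rw [e, hh_smul_right]
      have e2 : hh (R γ *ᵥ sgv (Cz h z0)) (fun a => (R γ *ᵥ P 0) a) = hh (sgv (Cz h z0)) (P 0) := hR γ _ _
      rw [e2, ← star_hh, hh_sgv]
      have e3 := congrArg (ev z0) (datB h).PC
      have e4 : ev z0 (dt (datB h).P (datB h).C) = dt (P 0) (Cz h z0) := by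
        simp only [dt, map_add, map_mul, Cz]
        have : ∀ a, ev z0 ((datB h).P a) = P 0 a := fun a => ev_pS h a z0
        simp only [this]
      rw [e4, map_zero] at e3
      rw [e3]; simp
    have o2 : ∀ k, hh v (fun a => ev hy ((datB h).E k a)) = 0 := by
      -- the relation `Σ J_mk E_m(y) = μ R E_k(0)`
      have r : ∀ k, hh v (fun a => ev z0 ((T (σ γ)).J 0 k) * ev hy ((datB h).E 0 a) +
          ev z0 ((T (σ γ)).J 1 k) * ev hy ((datB h).E 1 a)) = 0 := by
        intro k
        have e1 : (fun a => ev z0 ((T (σ γ)).J 0 k) * ev hy ((datB h).E 0 a) +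
            ev z0 ((T (σ γ)).J 1 k) * ev hy ((datB h).E 1 a)) =
            fun a => ev z0 μ * (R γ *ᵥ fun b => ev z0 ((datB h).E k b)) a := by
          funext a
          have h1 := congrArg (ev z0) (hμ.cE k a)
          rw [Fin.sum_univ_two, map_add, map_mul, map_mul, map_mul, ev_Rop] at h1
          have h2 : ∀ f : S, ev z0 ((T (σ γ)).c f) = ev hy f := by
            intro f
            change xt (cmpH (σ γ) f) 0 = xt f y
            rw [xt_cmpH _ _ z0]
          rw [h2, h2] at h1
          exact h1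
        rw [e1, hh_smul_right]
        have e2 : hh v (fun a => (R γ *ᵥ fun b => ev z0 ((datB h).E k b)) a) =
            hh (sgv (Cz h z0)) (fun b => ev z0 ((datB h).E k b)) := hR γ _ _
        rw [e2, ← star_hh, hh_sgv]
        have e3 := congrArg (ev z0) ((datB h).EC k)
        have e4 : ev z0 (dt ((datB h).E k) (datB h).C) =
            dt (fun b => ev z0 ((datB h).E k b)) (Cz h z0) := by
          simp only [dt, map_add, map_mul, Cz]
        rw [e4, map_zero] at e3
        rw [e3]; simp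
      have hu := congrArg (ev z0) (hinv γ).unit
      rw [map_mul, map_one] at hu
      have hdet : ev z0 (d2 (T (σ γ)).J) ≠ 0 := left_ne_zero_of_mul (by rw [hu]; exact one_ne_zero)
      have r0 := r 0
      have r1 := r 1
      rw [hh_add_right v (fun a => ev z0 ((T (σ γ)).J 0 0) * ev hy ((datB h).E 0 a))
        (fun a => ev z0 ((T (σ γ)).J 1 0) * ev hy ((datB h).E 1 a)), hh_smul_right, hh_smul_right] at r0
      rw [hh_add_right v (fun a => ev z0 ((T (σ γ)).J 0 1) * ev hy ((datB h).E 0 a))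
        (fun a => ev z0 ((T (σ γ)).J 1 1) * ev hy ((datB h).E 1 a)), hh_smul_right, hh_smul_right] at r1
      simp only [d2, map_sub, map_mul] at hdet
      have hdet' := star_ne_zero.mpr hdet
      simp only [star_sub, star_mul'] at hdet'
      have x0 : hh v (fun a => ev hy ((datB h).E 0 a)) = 0 := by
        have : (star (ev z0 ((T (σ γ)).J 0 0)) * star (ev z0 ((T (σ γ)).J 1 1)) -
          star (ev z0 ((T (σ γ)).J 0 1)) * star (ev z0 ((T (σ γ)).J 1 0))) *
          hh v (fun a => ev hy ((datB h).E 0 a)) = 0 := by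
          linear_combination star (ev z0 ((T (σ γ)).J 1 1)) * r0 - star (ev z0 ((T (σ γ)).J 1 0)) * r1
        exact (mul_eq_zero.mp this).resolve_left hdet'
      have x1 : hh v (fun a => ev hy ((datB h).E 1 a)) = 0 := by
        have : (star (ev z0 ((T (σ γ)).J 0 0)) * star (ev z0 ((T (σ γ)).J 1 1)) -
          star (ev z0 ((T (σ γ)).J 0 1)) * star (ev z0 ((T (σ γ)).J 1 0))) *
          hh v (fun a => ev hy ((datB h).E 1 a)) = 0 := by
          linear_combination star (ev z0 ((T (σ γ)).J 0 0)) * r1 - star (ev z0 ((T (σ γ)).J 0 1)) * r0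
        exact (mul_eq_zero.mp this).resolve_left hdet'
      intro k
      fin_cases k
      · exact x0
      · exact x1
    -- hence `v` is proportional to `N(y)`
    obtain ⟨c, hc⟩ := Cz_prop h hq' hy z0
    have o3 : ∃ e : ℂ, v = e • sgv (Cz h hy) := by
      have hn := ev_n'_ne h hy
      refine ⟨- (dt v (Cz h hy)) / ev hy (datB h).n', ?_⟩
      have key : ∀ a, dt v (Cz h hy) * star (Cz h hy a) =
          - ev hy (datB h).n' * hh v (Pi.single a 1) := by
        intro a
        have := parseval_pt h hy v (Pi.single a 1) o1 o2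
        rw [dt_single] at this
        exact this
      funext a
      rw [Pi.smul_apply, smul_eq_mul, div_mul_eq_mul_div, eq_div_iff hn]
      have ka := key a
      fin_cases a
      · simp [hh] at ka
        simp [sgv]
        linear_combination ka
      · simp [hh] at ka
        simp [sgv]
        linear_combination ka
      · simp [hh] at ka
        simp [sgv]
        linear_combination -ka
      · simp [hh] at ka
        simp [sgv]
        linear_combination -ka
    obtain ⟨e, he3⟩ := o3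
    refine ⟨e * star c, ?_⟩
    rw [he3, hc]
    funext a
    fin_cases a <;> simp [sgv] <;> ring

end Pool.Agent.MPd01a95.CW
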