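import Mathlib
import Pool.Agent.Lib.MP_d01a95_gt.Defs
import Pool.Agent.Lib.MP_d01a95_gt.Low
import Pool.Agent.Lib.MP_d01a95_gt_H.GU
import Pool.Agent.Lib.MP_d01a95_gt_H.Cut
import Pool.Agent.Lib.MP_d01a95_gt_M.Defs
import Pool.Agent.Lib.MP_d01a95_gt_M.Alg1
import Pool.Agent.Lib.MP_d01a95_gt_M.Alg2
import Pool.Agent.Lib.MP_d01a95_gt_M.Alg3
import Pool.Agent.Lib.MP_d01a95_gt_M.Alg4
import Pool.Agent.Lib.MP_d01a95_gt_M.Alg5
import Pool.Agent.Lib.MP_d01a95_gt_M.Alg6
import Pool.Agent.Lib.MP_d01a95_gt_M.Alg7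
import Pool.Agent.Lib.MP_d01a95_gt_M.Sm
import Pool.Agent.Lib.MP_d01a95_gt_M.HolS
import Pool.Agent.Lib.MP_d01a95_gt_M.Act
import Pool.Agent.Lib.MP_d01a95_gt_M.Cov
import Pool.Agent.Lib.MP_d01a95_gt_M.CutB
import Pool.Agent.Lib.MP_d01a95_gt_M.Stokes
import Pool.Agent.Lib.MP_d01a95_gt_M.DatB
import Pool.Agent.Lib.MP_d01a95_gt_M.Ball
import Pool.Agent.Lib.MP_d01a95_gt_M.DetZero

/-!
Project SU(2,2), part (3): the Bochner argument in rank one, `q = 0` (helper5).
-/

set_option autoImplicit false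
set_option linter.all false

open Matrix Filter Topology MeasureTheory
open scoped ContDiff

namespace Pool.Agent.MPd01a95.CW

variable {G : Type} [Group G] {P : E2 → Fin 4 → ℂ}

section pt

variable (h : HIn P) (hq0 : d2 (datB h).q = 0)

/-- if all diagonal entries of `q` vanish at a point, then `q` vanishes -/
theorem q_all_zero (hq0 : d2 (datB h).q = 0) {z : E2} (hz : z ∈ B)
    (hj : ∀ j, ev hz ((datB h).q j j) = 0) (i k : Fin 2) : ev hz ((datB h).q i k) = 0 := by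
  have h1 := congrArg (ev hz) hq0
  simp only [d2, (datB h).q_symm 1 0, map_sub, map_mul, map_zero, hj 0] at h1
  have h2 : ev hz ((datB h).q 0 1) = 0 := by
    have : ev hz ((datB h).q 0 1) * ev hz ((datB h).q 0 1) = 0 := by linear_combination -h1
    exact mul_self_eq_zero.mp this
  fin_cases i <;> fin_cases k
  · exact hj 0
  · exact h2
  · change ev hz ((datB h).q 1 0) = 0
    rw [(datB h).q_symm 1 0]; exact h2
  · exact hj 1

theorem gp_all_zero (hq0 : d2 (datB h).q = 0) {z : E2} (hz : z ∈ B)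
    (hj : ∀ j, ev hz ((datB h).q j j) = 0) (k l : Fin 2) : ev hz ((datB h).gp k l) = 0 := by
  simp only [Dat.gp, map_mul, map_sum, q_all_zero h hq0 hz hj]
  simp

/-- the identity (J) -/
theorem J_full (hq0 : d2 (datB h).q = 0) :
    md (DB.L (datB h).t) (datB h).gp + (datB h).t ^ 2 * md (datB h).g (datB h).gp = 0 := by
  apply ev_ext
  intro z hz
  by_cases hj : ∀ j, ev hz ((datB h).q j j) = 0
  · simp only [md, map_add, map_sub, map_mul, gp_all_zero h hq0 hz hj]
    simp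
  · push Not at hj
    obtain ⟨j, hj⟩ := hj
    have h1 := congrArg (ev hz) ((datB h).J_identity j hq0)
    rw [map_mul, map_pow, map_mul, ev_star, map_zero] at h1
    rw [map_zero]
    have h2 : star (ev hz ((datB h).q j j)) ≠ 0 := star_ne_zero.mpr hj
    exact (mul_eq_zero.mp h1).resolve_left (pow_ne_zero _ (mul_ne_zero hj h2))

/-- evaluation of the norm square -/
theorem mul_star_eq (x : ℂ) : x * star x = ((‖x‖ ^ 2 : ℝ) : ℂ) := by
  rw [← Complex.normSq_eq_norm_sq]; exact Complex.mul_conj x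

/-- `k = h(E_f,E_f)` is real and nonnegative -/
theorem G_nonneg {z : E2} (hz : z ∈ B) (j : Fin 2) :
    ∃ t : ℝ, 0 ≤ t ∧ ev hz ((datB h).G j) = t ∧
      (t = 0 → ∀ a, ev hz ((datB h).f j a) = 0) := by
  set x : Fin 2 → ℂ := fun a => ev hz ((datB h).f j a) with hx
  have e : ev hz ((datB h).G j) = ct x (fun i k => ev hz ((datB h).g i k)) := by
    simp only [Dat.G, ct, map_add, map_mul, ev_star, hx]
  by_cases h0 : x = 0
  · refine ⟨0, le_rfl, ?_, fun _ a => congrFun h0 a⟩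
    rw [e, h0]
    simp [ct]
  · obtain ⟨t, ht, ht2⟩ := g_pos h hz x h0
    exact ⟨t, ht.le, by rw [e, ht2], fun h3 => absurd h3 ht.ne'⟩

/-- `|q_jj|² t = κ δ² G²` -/
theorem Q_t' (hq0 : d2 (datB h).q = 0) (j : Fin 2) :
    (datB h).q j j * star ((datB h).q j j) * (datB h).t =
      (datB h).κ * (datB h).δ ^ 2 * (datB h).G j ^ 2 := by
  have h1 := (datB h).Q_md j hq0 (datB h).g
  have h2 : ct ((datB h).f j) (datB h).g = (datB h).G j := rfl
  rw [h2] at h1
  rw [Dat.t]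
  linear_combination (datB h).δ * h1

/-- `t` is real and nonnegative; if it vanishes then `q` vanishes -/
theorem t_nonneg (hq0 : d2 (datB h).q = 0) {z : E2} (hz : z ∈ B) :
    ∃ t : ℝ, 0 ≤ t ∧ ev hz (datB h).t = t ∧ (t = 0 → ∀ i k, ev hz ((datB h).q i k) = 0) := by
  obtain ⟨a, ha, ha2⟩ := κ_pos h hz
  obtain ⟨b, hb, hb2⟩ := δ_pos h hz
  by_cases hj : ∀ j, ev hz ((datB h).q j j) = 0
  · refine ⟨0, le_rfl, ?_, fun _ => q_all_zero h hq0 hz hj⟩
    rw [Dat.t, map_mul]
    simp only [md, map_add, map_sub, map_mul, gp_all_zero h hq0 hz hj]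
    simp
  · push Not at hj
    obtain ⟨j, hj⟩ := hj
    obtain ⟨g, hg, hg2, hg3⟩ := G_nonneg h hz j
    have h1 := congrArg (ev hz) (Q_t' h hq0 j)
    simp only [map_mul, map_pow, ev_star, ha2, hb2, hg2] at h1
    rw [mul_star_eq] at h1
    set N := ‖ev hz ((datB h).q j j)‖ ^ 2 with hN
    have hNp : 0 < N := by
      have := norm_pos_iff.mpr hj
      positivity
    have hNc : (N : ℂ) ≠ 0 := by exact_mod_cast hNp.ne'
    refine ⟨a * b ^ 2 * g ^ 2 / N, by positivity, ?_, fun h0 => ?_⟩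
    · push_cast
      rw [eq_div_iff hNc]
      linear_combination h1
    · exfalso
      have h2 : a * b ^ 2 * g ^ 2 = 0 := by
        rcases div_eq_zero_iff.mp h0 with h2 | h2
        · exact h2
        · exact absurd h2 hNp.ne'
      have h3 : g = 0 := by
        have h4 := (mul_eq_zero.mp h2).resolve_left (by positivity)
        exact pow_eq_zero_iff (two_ne_zero) |>.mp h4
      have h4 := hg3 h3
      apply hj
      fin_cases j
      · have := h4 1
        change ev hz (- (datB h).q 0 0) = 0 at this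
        rw [map_neg, neg_eq_zero] at this
        exact this
      · exact h4 0

/-- Cayley-Hamilton -/
theorem cayley (V : Dat DB) (x : Fin 2 → S) : ct x V.g * (V.g 0 0 + V.g 1 1) =
    V.Dg * (x 0 * star (x 0) + x 1 * star (x 1)) +
      (x 0 * V.g 0 0 + x 1 * V.g 1 0) * star (x 0 * V.g 0 0 + x 1 * V.g 1 0) +
      (x 0 * V.g 0 1 + x 1 * V.g 1 1) * star (x 0 * V.g 0 1 + x 1 * V.g 1 1) := by
  simp only [star_add, star_mul', V.g_star, ct, Dat.Dg, d2]
  ring

/-- the trace of `g` -/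
noncomputable def trg : S := (datB h).g 0 0 + (datB h).g 1 1

/-- `|g'_kl| ≤ t tr g` -/
theorem gp_le (hq0 : d2 (datB h).q = 0) {z : E2} (hz : z ∈ B) (k l : Fin 2) :
    ‖ev hz ((datB h).gp k l)‖ ≤ ‖ev hz (datB h).t‖ * ‖ev hz (trg h)‖ := by
  obtain ⟨a, ha, ha2⟩ := κ_pos h hz
  obtain ⟨b, hb, hb2⟩ := δ_pos h hz
  by_cases hj : ∀ j, ev hz ((datB h).q j j) = 0
  · rw [gp_all_zero h hq0 hz hj, norm_zero]
    positivity
  · push Not at hj
    obtain ⟨j, hj⟩ := hj
    obtain ⟨g, hg, hg2, hg3⟩ := G_nonneg h hz j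
    have h1 := congrArg (fun x => ‖ev hz x‖) (Q_t' h hq0 j)
    have h2 := congrArg (fun x => ‖ev hz x‖) ((datB h).Q_gp j hq0 k l)
    simp only [map_mul, map_pow, ev_star, ha2, hb2, hg2, norm_mul, norm_pow, norm_star,
      Complex.norm_real, Real.norm_eq_abs, abs_of_pos ha, abs_of_pos hb, abs_of_nonneg hg] at h1 h2
    set N := ‖ev hz ((datB h).q j j)‖ with hN
    have hNp : 0 < N := norm_pos_iff.mpr hj
    -- the inequality `|f|² ≤ δ G tr g`
    have h3 : ‖ev hz ((datB h).q 0 j)‖ ^ 2 + ‖ev hz ((datB h).q 1 j)‖ ^ 2 ≤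
        b * g * ‖ev hz (trg h)‖ := by
      have h4 := congrArg (ev hz) (cayley (datB h) ((datB h).f j))
      have h5 : ct ((datB h).f j) (datB h).g = (datB h).G j := rfl
      rw [h5] at h4
      have h6 := congrArg (ev hz) (datB h).Dδ
      rw [map_mul, hb2, map_one] at h6
      simp only [map_mul, map_add, ev_star, hg2, mul_star_eq] at h4
      have h4' := congrArg (fun x => (b : ℂ) * x) h4
      have e0 : ‖ev hz ((datB h).f j 0)‖ = ‖ev hz ((datB h).q 1 j)‖ := rfl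
      have e1 : ‖ev hz ((datB h).f j 1)‖ = ‖ev hz ((datB h).q 0 j)‖ := by
        change ‖ev hz (- (datB h).q 0 j)‖ = _
        rw [map_neg, norm_neg]
      rw [e0, e1] at h4'
      set r1 := ‖star (ev hz ((datB h).f j 0))‖ with hr1
      generalize ‖ev hz ((datB h).f j 0) * ev hz ((datB h).g 0 0) + ev hz ((datB h).f j 1) * ev hz ((datB h).g 1 0)‖ = X at *
      generalize ‖ev hz ((datB h).f j 0) * ev hz ((datB h).g 0 1) + ev hz ((datB h).f j 1) * ev hz ((datB h).g 1 1)‖ = Y at *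
      have h7 : (b : ℂ) * ((g : ℂ) * (ev hz ((datB h).g 0 0) + ev hz ((datB h).g 1 1))) =
          ((‖ev hz ((datB h).q 0 j)‖ ^ 2 + ‖ev hz ((datB h).q 1 j)‖ ^ 2 + b * (X ^ 2 + Y ^ 2) : ℝ) : ℂ) := by
        push_cast at h4' ⊢
        linear_combination h4' + ((‖ev hz ((datB h).q 0 j)‖ : ℂ) ^ 2 + (‖ev hz ((datB h).q 1 j)‖ : ℂ) ^ 2) * h6
      have h8 := congrArg norm h7
      rw [Complex.norm_real, Real.norm_eq_abs, abs_of_nonneg (by positivity), norm_mul, norm_mul,
        Complex.norm_real, Complex.norm_real, Real.norm_eq_abs, Real.norm_eq_abs, abs_of_pos hb,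
        abs_of_nonneg hg] at h8
      have h9 : ev hz (trg h) = ev hz ((datB h).g 0 0) + ev hz ((datB h).g 1 1) := by
        rw [trg, map_add]
      rw [h9]
      have h10 : 0 ≤ b * (X ^ 2 + Y ^ 2) := by positivity
      linarith
    have h11 : ‖ev hz ((datB h).q k j)‖ * ‖ev hz ((datB h).q l j)‖ ≤
        ‖ev hz ((datB h).q 0 j)‖ ^ 2 + ‖ev hz ((datB h).q 1 j)‖ ^ 2 := by
      fin_cases k <;> fin_cases l <;> simp only [Fin.mk_zero, Fin.mk_one, Fin.isValue, Fin.zero_eta] <;>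
        nlinarith [sq_nonneg (‖ev hz ((datB h).q 0 j)‖ - ‖ev hz ((datB h).q 1 j)‖),
          sq_nonneg (‖ev hz ((datB h).q 0 j)‖), sq_nonneg (‖ev hz ((datB h).q 1 j)‖)]
    have h12 : N * N * ‖ev hz ((datB h).gp k l)‖ ≤ N * N * (‖ev hz (datB h).t‖ * ‖ev hz (trg h)‖) := by
      calc N * N * ‖ev hz ((datB h).gp k l)‖ = a * b * g * (‖ev hz ((datB h).q k j)‖ * ‖ev hz ((datB h).q l j)‖) := h2
        _ ≤ a * b * g * (b * g * ‖ev hz (trg h)‖) :=
          mul_le_mul_of_nonneg_left (h11.trans h3) (by positivity)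
        _ = (a * b ^ 2 * g ^ 2) * ‖ev hz (trg h)‖ := by ring
        _ = N * N * (‖ev hz (datB h).t‖ * ‖ev hz (trg h)‖) := by rw [← h1]; ring
    exact le_of_mul_le_mul_left h12 (by positivity)

end pt

end Pool.Agent.MPd01a95.CW
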