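import Mathlib
import Pool.Agent.Lib.MP_d01a95_gt.Defs
import Pool.Agent.Lib.MP_d01a95_gt.Hol
import Pool.Agent.Lib.MP_d01a95_gt_M.Defs
import Pool.Agent.Lib.MP_d01a95_gt_M.Sm

/-!
Project SU(2,2), part (2): smooth functions on the half space
`Om = {(μ, τ) | 0 < Im τ}` of `ℂ²`, with values in a complex normed space (helper5).
-/

set_option autoImplicit false
set_option linter.all false

open Filter Topology
open scoped ContDiff ComplexConjugate

namespace Pool.Agent.MPd01a95.CW

/-- the half space -/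
def Om : Set E2 := {p | 0 < (p 1).im}

theorem isOpen_Om : IsOpen Om := by
  have : Continuous fun p : E2 => (p 1).im := by fun_prop
  exact isOpen_lt continuous_const this

theorem mem_Om {p : E2} : p ∈ Om ↔ 0 < (p 1).im := Iff.rfl

section mf

variable {F : Type} [NormedAddCommGroup F] [NormedSpace ℂ F]

/-- extension by zero -/
noncomputable def exK (f : Om → F) (z : E2) : F :=
  open Classical in if h : z ∈ Om then f ⟨z, h⟩ else 0

theorem exK_of_mem (f : Om → F) {z : E2} (h : z ∈ Om) : exK f z = f ⟨z, h⟩ := by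
  simp [exK, h]

theorem exK_of_not (f : Om → F) {z : E2} (h : z ∉ Om) : exK f z = 0 := by
  simp [exK, h]

/-- smooth functions on the half space -/
def IsK (f : Om → F) : Prop := ContDiffOn ℝ ∞ (exK f) Om

theorem IsK.of_eqOn {f : Om → F} {g : E2 → F} (hg : ContDiffOn ℝ ∞ g Om)
    (h : ∀ z (hz : z ∈ Om), f ⟨z, hz⟩ = g z) : IsK f :=
  hg.congr fun z hz => by rw [exK_of_mem f hz, h z hz]

variable (F) in
/-- the module of smooth vector valued functions -/
noncomputable def MF : Submodule ℂ (Om → F) where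
  carrier := {f | IsK f}
  add_mem' := by
    intro f g hf hg
    refine IsK.of_eqOn (hf.add hg) fun z hz => ?_
    simp [exK_of_mem _ hz]
  zero_mem' := IsK.of_eqOn (g := fun _ => 0) contDiffOn_const fun z hz => rfl
  smul_mem' := by
    intro c f hf
    refine IsK.of_eqOn (g := fun z => c • exK f z) ?_ fun z hz => ?_
    · exact (contDiffOn_const (c := c)).smul hf
    · simp [exK_of_mem _ hz]

end mf

/-- the algebra of smooth functions on the half space -/
noncomputable def SO : StarSubalgebra ℂ (Om → ℂ) where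
  carrier := {f | IsK f}
  mul_mem' := by
    intro f g hf hg
    refine IsK.of_eqOn (ContDiffOn.mul hf hg) fun z hz => ?_
    simp [exK_of_mem _ hz]
  add_mem' := by
    intro f g hf hg
    refine IsK.of_eqOn (ContDiffOn.add hf hg) fun z hz => ?_
    simp [exK_of_mem _ hz]
  algebraMap_mem' := by
    intro r
    refine IsK.of_eqOn (g := fun _ => r) contDiffOn_const fun z hz => ?_
    simp [Pi.algebraMap_apply]
  star_mem' := by
    intro f hf
    refine IsK.of_eqOn (g := fun z => star (exK f z)) ?_ fun z hz => ?_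
    · exact (Complex.conjCLE.contDiff (n := ∞)).comp_contDiffOn hf
    · simp [exK_of_mem _ hz]

noncomputable instance : CommRing SO := inferInstance
noncomputable instance : Algebra ℂ SO := inferInstance
noncomputable instance : StarRing SO := inferInstance

section mf2

variable {F : Type} [NormedAddCommGroup F] [NormedSpace ℂ F]

noncomputable instance : AddCommGroup (MF F) := inferInstance
noncomputable instance : Module ℂ (MF F) := inferInstance

/-- value of the extension -/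
noncomputable def xk (f : SO) : E2 → ℂ := exK f.1
/-- value of the extension -/
noncomputable def xm (f : MF F) : E2 → F := exK f.1

theorem xk_sm (f : SO) : ContDiffOn ℝ ∞ (xk f) Om := f.2
theorem xm_sm (f : MF F) : ContDiffOn ℝ ∞ (xm f) Om := f.2

theorem xk_mem (f : SO) {z : E2} (hz : z ∈ Om) : xk f z = f.1 ⟨z, hz⟩ := exK_of_mem _ hz
theorem xm_mem (f : MF F) {z : E2} (hz : z ∈ Om) : xm f z = f.1 ⟨z, hz⟩ := exK_of_mem _ hz

theorem K_ext {f g : SO} (h : ∀ z ∈ Om, xk f z = xk g z) : f = g := by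
  apply Subtype.ext
  funext z
  have := h z.1 z.2
  rw [xk_mem f z.2, xk_mem g z.2] at this
  exact this

theorem M_ext {f g : MF F} (h : ∀ z ∈ Om, xm f z = xm g z) : f = g := by
  apply Subtype.ext
  funext z
  have := h z.1 z.2
  rw [xm_mem f z.2, xm_mem g z.2] at this
  exact this

theorem xk_add (f g : SO) {z : E2} (hz : z ∈ Om) : xk (f + g) z = xk f z + xk g z := by
  simp [xk_mem _ hz]
theorem xk_sub (f g : SO) {z : E2} (hz : z ∈ Om) : xk (f - g) z = xk f z - xk g z := by
  simp [xk_mem _ hz]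
theorem xk_neg (f : SO) {z : E2} (hz : z ∈ Om) : xk (-f) z = - xk f z := by
  simp [xk_mem _ hz]
theorem xk_mul (f g : SO) {z : E2} (hz : z ∈ Om) : xk (f * g) z = xk f z * xk g z := by
  simp [xk_mem _ hz]
theorem xk_star (f : SO) {z : E2} (hz : z ∈ Om) : xk (star f) z = star (xk f z) := by
  simp [xk_mem _ hz]
theorem xk_one {z : E2} (hz : z ∈ Om) : xk (1 : SO) z = 1 := by
  simp [xk_mem _ hz]
theorem xk_zero {z : E2} (hz : z ∈ Om) : xk (0 : SO) z = 0 := by
  simp [xk_mem _ hz]
theorem xk_smul (c : ℂ) (f : SO) {z : E2} (hz : z ∈ Om) : xk (c • f) z = c * xk f z := by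
  simp [xk_mem _ hz]
theorem xk_algebraMap (c : ℂ) {z : E2} (hz : z ∈ Om) : xk (algebraMap ℂ SO c) z = c := by
  simp [xk_mem _ hz, Pi.algebraMap_apply]

theorem xm_add (f g : MF F) {z : E2} (hz : z ∈ Om) : xm (f + g) z = xm f z + xm g z := by
  simp [xm_mem _ hz]
theorem xm_sub (f g : MF F) {z : E2} (hz : z ∈ Om) : xm (f - g) z = xm f z - xm g z := by
  simp [xm_mem _ hz]
theorem xm_neg (f : MF F) {z : E2} (hz : z ∈ Om) : xm (-f) z = - xm f z := by
  simp [xm_mem _ hz]
theorem xm_zero {z : E2} (hz : z ∈ Om) : xm (0 : MF F) z = 0 := by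
  simp [xm_mem _ hz]
theorem xm_smul (c : ℂ) (f : MF F) {z : E2} (hz : z ∈ Om) : xm (c • f) z = c • xm f z := by
  simp [xm_mem _ hz]

/-- construct an element of `SO` -/
noncomputable def mkK (g : E2 → ℂ) (hg : ContDiffOn ℝ ∞ g Om) : SO :=
  ⟨fun z => g z.1, IsK.of_eqOn hg fun _ _ => rfl⟩

/-- construct an element of `MF F` -/
noncomputable def mkM (g : E2 → F) (hg : ContDiffOn ℝ ∞ g Om) : MF F :=
  ⟨fun z => g z.1, IsK.of_eqOn hg fun _ _ => rfl⟩

theorem xk_mkK (g : E2 → ℂ) (hg : ContDiffOn ℝ ∞ g Om) {z : E2} (hz : z ∈ Om) :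
    xk (mkK g hg) z = g z := by rw [xk_mem _ hz]; rfl

theorem xm_mkM (g : E2 → F) (hg : ContDiffOn ℝ ∞ g Om) {z : E2} (hz : z ∈ Om) :
    xm (mkM g hg) z = g z := by rw [xm_mem _ hz]; rfl

noncomputable instance : SMul SO (MF F) where
  smul a f := mkM (fun z => xk a z • xm f z) ((xk_sm a).smul (xm_sm f))

theorem xm_ksmul (a : SO) (f : MF F) {z : E2} (hz : z ∈ Om) : xm (a • f) z = xk a z • xm f z :=
  xm_mkM _ _ hz

noncomputable instance : Module SO (MF F) where
  one_smul f := M_ext fun z hz => by rw [xm_ksmul _ _ hz, xk_one hz, one_smul]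
  mul_smul a b f := M_ext fun z hz => by
    rw [xm_ksmul _ _ hz, xm_ksmul _ _ hz, xm_ksmul _ _ hz, xk_mul _ _ hz, mul_smul]
  smul_zero a := M_ext fun z hz => by rw [xm_ksmul _ _ hz, xm_zero hz, smul_zero]
  smul_add a f g := M_ext fun z hz => by
    rw [xm_ksmul _ _ hz, xm_add _ _ hz, xm_add _ _ hz, xm_ksmul _ _ hz, xm_ksmul _ _ hz, smul_add]
  add_smul a b f := M_ext fun z hz => by
    rw [xm_ksmul _ _ hz, xm_add _ _ hz, xk_add _ _ hz, xm_ksmul _ _ hz, xm_ksmul _ _ hz, add_smul]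
  zero_smul f := M_ext fun z hz => by rw [xm_ksmul _ _ hz, xk_zero hz, xm_zero hz, zero_smul]

instance : IsScalarTower ℂ SO (MF F) where
  smul_assoc c a f := M_ext fun z hz => by
    rw [xm_ksmul _ _ hz, xk_smul _ _ hz, xm_smul _ _ hz, xm_ksmul _ _ hz, mul_smul]

theorem xk_diff (f : SO) {z : E2} (hz : z ∈ Om) : DifferentiableAt ℝ (xk f) z :=
  ((xk_sm f).differentiableOn (by simp)).differentiableAt (isOpen_Om.mem_nhds hz)

theorem xm_diff (f : MF F) {z : E2} (hz : z ∈ Om) : DifferentiableAt ℝ (xm f) z :=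
  ((xm_sm f).differentiableOn (by simp)).differentiableAt (isOpen_Om.mem_nhds hz)

theorem evK_eq {E : Type} {f g : E2 → E} (h : ∀ z ∈ Om, f z = g z) {z : E2} (hz : z ∈ Om) :
    f =ᶠ[𝓝 z] g := by
  filter_upwards [isOpen_Om.mem_nhds hz] with y hy using h y hy

/-- derivative in the real direction `v` -/
noncomputable def kdF (v : E2) (f : SO) : SO :=
  mkK (fun z => fderiv ℝ (xk f) z v) (by
    have h1 : ContDiffOn ℝ ∞ (fderiv ℝ (xk f)) Om :=
      (xk_sm f).fderiv_of_isOpen isOpen_Om (by simp)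
    exact h1.clm_apply contDiffOn_const)

theorem xk_kdF (v : E2) (f : SO) {z : E2} (hz : z ∈ Om) :
    xk (kdF v f) z = fderiv ℝ (xk f) z v := xk_mkK _ _ hz

/-- the derivation in the real direction `v` -/
noncomputable def kd (v : E2) : Derivation ℂ SO SO :=
  Derivation.mk'
    { toFun := kdF v
      map_add' := by
        intro f g
        apply K_ext
        intro z hz
        rw [xk_add _ _ hz, xk_kdF _ _ hz, xk_kdF _ _ hz, xk_kdF _ _ hz,
          (evK_eq (fun y hy => xk_add f g hy) hz).fderiv_eq,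
          fderiv_fun_add (xk_diff f hz) (xk_diff g hz)]
        rfl
      map_smul' := by
        intro c f
        apply K_ext
        intro z hz
        rw [RingHom.id_apply, xk_smul _ _ hz, xk_kdF _ _ hz, xk_kdF _ _ hz,
          (evK_eq (fun y hy => xk_smul c f hy) hz).fderiv_eq,
          fderiv_const_mul (xk_diff f hz)]
        rfl }
    (by
      intro f g
      apply K_ext
      intro z hz
      change xk (kdF v (f * g)) z = xk (f * kdF v g + g * kdF v f) z
      rw [xk_add _ _ hz, xk_mul _ _ hz, xk_mul _ _ hz, xk_kdF _ _ hz, xk_kdF _ _ hz,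
        xk_kdF _ _ hz, (evK_eq (fun y hy => xk_mul f g hy) hz).fderiv_eq,
        fderiv_fun_mul (xk_diff f hz) (xk_diff g hz)]
      simp)

theorem xk_kd (v : E2) (f : SO) {z : E2} (hz : z ∈ Om) :
    xk (kd v f) z = fderiv ℝ (xk f) z v := xk_kdF v f hz

/-- derivative of vector valued functions in the real direction `v` -/
noncomputable def vd (v : E2) : MF F →ₗ[ℂ] MF F where
  toFun f := mkM (fun z => fderiv ℝ (xm f) z v) (by
    have h1 : ContDiffOn ℝ ∞ (fderiv ℝ (xm f)) Om :=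
      (xm_sm f).fderiv_of_isOpen isOpen_Om (by simp)
    exact h1.clm_apply contDiffOn_const)
  map_add' := by
    intro f g
    apply M_ext
    intro z hz
    rw [xm_add _ _ hz, xm_mkM _ _ hz, xm_mkM _ _ hz, xm_mkM _ _ hz,
      (evK_eq (fun y hy => xm_add f g hy) hz).fderiv_eq,
      fderiv_fun_add (xm_diff f hz) (xm_diff g hz)]
    rfl
  map_smul' := by
    intro c f
    apply M_ext
    intro z hz
    rw [RingHom.id_apply, xm_smul _ _ hz, xm_mkM _ _ hz, xm_mkM _ _ hz,
      (evK_eq (fun y hy => xm_smul c f hy) hz).fderiv_eq,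
      fderiv_fun_const_smul (xm_diff f hz)]
    rfl

theorem xm_vd (v : E2) (f : MF F) {z : E2} (hz : z ∈ Om) :
    xm (vd v f) z = fderiv ℝ (xm f) z v := xm_mkM _ _ hz

theorem vd_ksmul (v : E2) (a : SO) (f : MF F) : vd v (a • f) = kd v a • f + a • vd v f := by
  apply M_ext
  intro z hz
  rw [xm_add _ _ hz, xm_ksmul _ _ hz, xm_ksmul _ _ hz, xm_vd _ _ hz, xm_vd _ _ hz, xk_kd _ _ hz,
    (evK_eq (fun y hy => xm_ksmul a f hy) hz).fderiv_eq, fderiv_fun_smul (xk_diff a hz) (xm_diff f hz)]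
  simp [add_comm]

theorem vd_comm (v w : E2) (f : MF F) : vd v (vd w f) = vd w (vd v f) := by
  apply M_ext
  intro z hz
  have key : ∀ v w : E2, xm (vd v (vd w f)) z = fderiv ℝ (fderiv ℝ (xm f)) z v w := by
    intro v w
    rw [xm_vd _ _ hz, (evK_eq (fun y hy => xm_vd w f hy) hz).fderiv_eq]
    have h1 : ContDiffOn ℝ ∞ (fderiv ℝ (xm f)) Om :=
      (xm_sm f).fderiv_of_isOpen isOpen_Om (by simp)
    have h2 : DifferentiableAt ℝ (fderiv ℝ (xm f)) z :=
      (h1.differentiableOn (by simp)).differentiableAt (isOpen_Om.mem_nhds hz)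
    rw [fderiv_clm_apply h2 (differentiableAt_const _)]
    simp
  rw [key, key]
  have h3 : ContDiffAt ℝ ∞ (xm f) z := (xm_sm f).contDiffAt (isOpen_Om.mem_nhds hz)
  exact (h3.isSymmSndFDerivAt (by
    rw [minSmoothness_of_isRCLikeNormedField]
    exact WithTop.coe_le_coe.2 (le_top : (2 : ℕ∞) ≤ ⊤))).eq v w

theorem kd_comm (v w : E2) (f : SO) : kd v (kd w f) = kd w (kd v f) := by
  apply K_ext
  intro z hz
  have key : ∀ v w : E2, xk (kd v (kd w f)) z = fderiv ℝ (fderiv ℝ (xk f)) z v w := by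
    intro v w
    rw [xk_kd _ _ hz, (evK_eq (fun y hy => xk_kd w f hy) hz).fderiv_eq]
    have h1 : ContDiffOn ℝ ∞ (fderiv ℝ (xk f)) Om :=
      (xk_sm f).fderiv_of_isOpen isOpen_Om (by simp)
    have h2 : DifferentiableAt ℝ (fderiv ℝ (xk f)) z :=
      (h1.differentiableOn (by simp)).differentiableAt (isOpen_Om.mem_nhds hz)
    rw [fderiv_clm_apply h2 (differentiableAt_const _)]
    simp
  rw [key, key]
  have h3 : ContDiffAt ℝ ∞ (xk f) z := (xk_sm f).contDiffAt (isOpen_Om.mem_nhds hz)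
  exact (h3.isSymmSndFDerivAt (by
    rw [minSmoothness_of_isRCLikeNormedField]
    exact WithTop.coe_le_coe.2 (le_top : (2 : ℕ∞) ≤ ⊤))).eq v w

theorem kd_star (v : E2) (f : SO) : star (kd v f) = kd v (star f) := by
  apply K_ext
  intro z hz
  rw [xk_star _ hz, xk_kd _ _ hz, xk_kd _ _ hz,
    (evK_eq (fun y hy => xk_star f hy) hz).fderiv_eq]
  have h := (Complex.conjCLE : ℂ ≃L[ℝ] ℂ).toContinuousLinearMap.hasFDerivAt.comp z
    (xk_diff f hz).hasFDerivAt
  have h2 : fderiv ℝ (fun y => star (xk f y)) z =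
    (Complex.conjCLE : ℂ ≃L[ℝ] ℂ).toContinuousLinearMap.comp (fderiv ℝ (xk f) z) := h.fderiv
  rw [h2]
  rfl

end mf2

section inner

variable {H : Type} [NormedAddCommGroup H] [InnerProductSpace ℂ H]

/-- the pairing of vector valued functions -/
noncomputable def pr (f g : MF H) : SO :=
  mkK (fun z => inner ℂ (xm f z) (xm g z)) ((xm_sm f).inner ℂ (xm_sm g))

theorem xk_pr (f g : MF H) {z : E2} (hz : z ∈ Om) : xk (pr f g) z = inner ℂ (xm f z) (xm g z) :=
  xk_mkK _ _ hz

theorem pr_add_left (f g h : MF H) : pr (f + g) h = pr f h + pr g h := K_ext fun z hz => by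
  rw [xk_add _ _ hz, xk_pr _ _ hz, xk_pr _ _ hz, xk_pr _ _ hz, xm_add _ _ hz, inner_add_left]

theorem pr_add_right (f g h : MF H) : pr f (g + h) = pr f g + pr f h := K_ext fun z hz => by
  rw [xk_add _ _ hz, xk_pr _ _ hz, xk_pr _ _ hz, xk_pr _ _ hz, xm_add _ _ hz, inner_add_right]

theorem pr_ksmul_left (a : SO) (f g : MF H) : pr (a • f) g = star a * pr f g := K_ext fun z hz => by
  rw [xk_mul _ _ hz, xk_star _ hz, xk_pr _ _ hz, xk_pr _ _ hz, xm_ksmul _ _ hz, inner_smul_left]
  rfl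

theorem pr_ksmul_right (a : SO) (f g : MF H) : pr f (a • g) = a * pr f g := K_ext fun z hz => by
  rw [xk_mul _ _ hz, xk_pr _ _ hz, xk_pr _ _ hz, xm_ksmul _ _ hz, inner_smul_right]

theorem pr_smul_left (a : ℂ) (f g : MF H) : pr (a • f) g = (conj a) • pr f g := K_ext fun z hz => by
  rw [xk_smul _ _ hz, xk_pr _ _ hz, xk_pr _ _ hz, xm_smul _ _ hz, inner_smul_left]

theorem pr_smul_right (a : ℂ) (f g : MF H) : pr f (a • g) = a • pr f g := K_ext fun z hz => by
  rw [xk_smul _ _ hz, xk_pr _ _ hz, xk_pr _ _ hz, xm_smul _ _ hz, inner_smul_right]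

theorem star_pr (f g : MF H) : star (pr f g) = pr g f := K_ext fun z hz => by
  rw [xk_star _ hz, xk_pr _ _ hz, xk_pr _ _ hz]
  exact inner_conj_symm _ _

theorem kd_pr (v : E2) (f g : MF H) : kd v (pr f g) = pr (vd v f) g + pr f (vd v g) :=
  K_ext fun z hz => by
  rw [xk_add _ _ hz, xk_kd _ _ hz, xk_pr _ _ hz, xk_pr _ _ hz, xm_vd _ _ hz, xm_vd _ _ hz,
    (evK_eq (fun y hy => xk_pr f g hy) hz).fderiv_eq, fderiv_inner_apply ℂ (xm_diff f hz) (xm_diff g hz)]
  exact add_comm _ _

end inner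

end Pool.Agent.MPd01a95.CW
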