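import Mathlib

/-!
Project SU(2,2), part (2): the frame algebra of the Kerr chart (helper5).

`FA A` : a commutative algebra with involution and derivations `e i` (antiholomorphic) and
`f i` (holomorphic) with the commutation relations of the Kerr frame.
`FM D M` : modules over it, with a pairing.
-/

set_option autoImplicit false
set_option linter.all false

namespace Pool.Agent.MPd01a95.CW

/-- the frame algebra -/
structure FA (A : Type) [CommRing A] [Algebra ℂ A] [StarRing A] where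
  e : Fin 2 → Derivation ℂ A A
  f : Fin 2 → Derivation ℂ A A
  a : A
  k : A
  st : ∀ i x, star (e i x) = f i (star x)
  ee : ∀ x, e 0 (e 1 x) = e 1 (e 0 x)
  ff : ∀ x, f 0 (f 1 x) = f 1 (f 0 x)
  fe00 : ∀ x, f 0 (e 0 x) = e 0 (f 0 x)
  fe01 : ∀ x, f 0 (e 1 x) = e 1 (f 0 x) + a * f 0 x
  fe10 : ∀ x, f 1 (e 0 x) = e 0 (f 1 x) - star a * e 0 x
  fe11 : ∀ x, f 1 (e 1 x) = e 1 (f 1 x) + k * f 0 x - star k * e 0 x
  e0a : e 0 a = 0
  e1a : e 1 a = - a ^ 2
  e0k : e 0 k = 0
  e1k : e 1 k = - (k * a)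
  f0k : f 0 k = f 1 a

/-- a module over the frame algebra, with a pairing -/
structure FM {A : Type} [CommRing A] [Algebra ℂ A] [StarRing A] (D : FA A)
    (M : Type) [AddCommGroup M] [Module ℂ M] [Module A M] where
  e : Fin 2 → M →ₗ[ℂ] M
  f : Fin 2 → M →ₗ[ℂ] M
  le : ∀ i (c : A) (x : M), e i (c • x) = D.e i c • x + c • e i x
  lf : ∀ i (c : A) (x : M), f i (c • x) = D.f i c • x + c • f i x
  ee : ∀ x, e 0 (e 1 x) = e 1 (e 0 x)
  ff : ∀ x, f 0 (f 1 x) = f 1 (f 0 x)
  fe00 : ∀ x, f 0 (e 0 x) = e 0 (f 0 x)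
  fe01 : ∀ x, f 0 (e 1 x) = e 1 (f 0 x) + D.a • f 0 x
  fe10 : ∀ x, f 1 (e 0 x) = e 0 (f 1 x) - star D.a • e 0 x
  fe11 : ∀ x, f 1 (e 1 x) = e 1 (f 1 x) + D.k • f 0 x - star D.k • e 0 x
  pr : M → M → A
  pal : ∀ x y z, pr (x + y) z = pr x z + pr y z
  par : ∀ x y z, pr x (y + z) = pr x y + pr x z
  psl : ∀ (c : A) x y, pr (c • x) y = star c * pr x y
  psr : ∀ (c : A) x y, pr x (c • y) = c * pr x y
  pst : ∀ x y, star (pr x y) = pr y x
  pe : ∀ i x y, D.e i (pr x y) = pr (f i x) y + pr x (e i y)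
  pf : ∀ i x y, D.f i (pr x y) = pr (e i x) y + pr x (f i y)

namespace FA

variable {A : Type} [CommRing A] [Algebra ℂ A] [StarRing A] (D : FA A)

theorem f0sa : D.f 0 (star D.a) = 0 := by rw [← D.st, D.e0a, star_zero]
theorem f1sa : D.f 1 (star D.a) = - star D.a ^ 2 := by rw [← D.st, D.e1a]; simp
theorem f0sk : D.f 0 (star D.k) = 0 := by rw [← D.st, D.e0k, star_zero]
theorem f1sk : D.f 1 (star D.k) = - (star D.k * star D.a) := by rw [← D.st, D.e1k]; simp [mul_comm]
theorem sf (i : Fin 2) (x : A) : star (D.f i x) = D.e i (star x) := by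
  rw [← star_inj, star_star, D.st, star_star]
theorem e0sk : D.e 0 (star D.k) = D.e 1 (star D.a) := by
  rw [← D.sf, D.f0k, D.sf]

/-- the algebra as a module over itself -/
def self : FM D A where
  e i := (D.e i).toLinearMap
  f i := (D.f i).toLinearMap
  le i c x := by simp [smul_eq_mul, Derivation.leibniz]; ring
  lf i c x := by simp [smul_eq_mul, Derivation.leibniz]; ring
  ee := D.ee
  ff := D.ff
  fe00 := D.fe00
  fe01 := D.fe01
  fe10 := D.fe10
  fe11 := D.fe11
  pr x y := star x * y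
  pal x y z := by rw [star_add, add_mul]
  par x y z := mul_add _ _ _
  psl c x y := by rw [smul_eq_mul, star_mul]; ring
  psr c x y := by rw [smul_eq_mul]; ring
  pst x y := by rw [star_mul, star_star]
  pe i x y := by
    simp only [Derivation.leibniz, smul_eq_mul, Derivation.coeFn_coe]
    rw [D.sf]; ring
  pf i x y := by
    simp only [Derivation.leibniz, smul_eq_mul, Derivation.coeFn_coe]
    rw [D.st]; ring

end FA

namespace FM

variable {A : Type} [CommRing A] [Algebra ℂ A] [StarRing A] {D : FA A}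
variable {M : Type} [AddCommGroup M] [Module ℂ M] [Module A M] (V : FM D M)

theorem psub_left (x y z : M) : V.pr (x - y) z = V.pr x z - V.pr y z := by
  have h := V.pal (x - y) y z
  rw [sub_add_cancel] at h
  rw [h]; ring

theorem psub_right (x y z : M) : V.pr x (y - z) = V.pr x y - V.pr x z := by
  have h := V.par x (y - z) z
  rw [sub_add_cancel] at h
  rw [h]; ring

/-- the Levi matrix -/
def L (x : M) : Fin 2 → Fin 2 → M :=
  ![![V.f 0 (V.e 0 x), V.f 0 (V.e 1 x)],
    ![V.f 1 (V.e 0 x) + star D.a • V.e 0 x, V.f 1 (V.e 1 x) + star D.k • V.e 0 x]]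

theorem L00 (x : M) : V.L x 0 0 = V.f 0 (V.e 0 x) := rfl
theorem L01 (x : M) : V.L x 0 1 = V.f 0 (V.e 1 x) := rfl
theorem L10 (x : M) : V.L x 1 0 = V.f 1 (V.e 0 x) + star D.a • V.e 0 x := rfl
theorem L11 (x : M) : V.L x 1 1 = V.f 1 (V.e 1 x) + star D.k • V.e 0 x := rfl

theorem L_add (x y : M) (i j : Fin 2) : V.L (x + y) i j = V.L x i j + V.L y i j := by
  fin_cases i <;> fin_cases j <;> simp [L, smul_add] <;> abel

theorem L_smul (c : ℂ) (x : M) (i j : Fin 2) [IsScalarTower ℂ A M] : V.L (c • x) i j = c • V.L x i j := by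
  have h : ∀ (b : A) (y : M), b • (c • y) = c • (b • y) := by
    intro b y
    have h1 : c • y = (algebraMap ℂ A c) • y := (algebraMap_smul A c y).symm
    have h2 : c • (b • y) = (algebraMap ℂ A c) • (b • y) := (algebraMap_smul A c _).symm
    rw [h1, h2, smul_smul, smul_smul, mul_comm]
  fin_cases i <;> fin_cases j <;> simp [L, smul_add, h]

/-- the null Lagrangian -/
def N (x : M) : A := V.pr (V.L x 1 1) (V.L x 0 0) + V.pr (V.L x 0 0) (V.L x 1 1)
  - V.pr (V.L x 0 1) (V.L x 0 1) - V.pr (V.L x 1 0) (V.L x 1 0)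

/-- its primitive -/
def cc (x : M) (i : Fin 2) : A := V.pr (V.L x i 0) (V.f 1 x) - V.pr (V.L x i 1) (V.f 0 x)

theorem L00' (x : M) : V.L x 0 0 = V.e 0 (V.f 0 x) := by rw [L00, V.fe00]
theorem L01' (x : M) : V.L x 0 1 = V.e 1 (V.f 0 x) + D.a • V.f 0 x := by rw [L01, V.fe01]
theorem L10' (x : M) : V.L x 1 0 = V.e 0 (V.f 1 x) := by rw [L10, V.fe10]; abel
theorem L11' (x : M) : V.L x 1 1 = V.e 1 (V.f 1 x) + D.k • V.f 0 x := by rw [L11, V.fe11]; abel

/-- the Levi form is closed -/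
theorem closed (x : M) (i : Fin 2) : V.f 0 (V.L x 1 i) =
    V.f 1 (V.L x 0 i) + (if i = 0 then star D.a • V.L x 0 0 else star D.k • V.L x 0 0) := by
  fin_cases i
  · simp only [Fin.zero_eta, Fin.isValue, if_true]
    rw [L10, L00, map_add, V.lf, V.ff, D.f0sa, zero_smul, zero_add]
  · simp only [Fin.mk_one, Fin.isValue, one_ne_zero, if_false]
    rw [L11, L00, L01, map_add, V.lf, V.ff, D.f0sk, zero_smul, zero_add]

theorem N_eq (x : M) : V.N x = D.e 1 (V.cc x 0) + D.a * V.cc x 0 - D.e 0 (V.cc x 1) := by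
  have h0 := V.closed x 0
  have h1 := V.closed x 1
  simp only [Fin.isValue, if_true, one_ne_zero, if_false] at h0 h1
  have e1f1 : V.e 1 (V.f 1 x) = V.L x 1 1 - D.k • V.f 0 x := by rw [L11']; abel
  have e1f0 : V.e 1 (V.f 0 x) = V.L x 0 1 - D.a • V.f 0 x := by rw [L01']; abel
  have e0f1 : V.e 0 (V.f 1 x) = V.L x 1 0 := by rw [L10']
  have e0f0 : V.e 0 (V.f 0 x) = V.L x 0 0 := by rw [L00']
  unfold cc
  rw [map_sub, map_sub, V.pe, V.pe, V.pe, V.pe, e1f1, e1f0, e0f1, e0f0, h0, h1]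
  simp only [V.psub_left, V.psub_right, V.pal, V.par, V.psl, V.psr, star_star]
  unfold N
  ring

end FM

end Pool.Agent.MPd01a95.CW
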