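import Mathlib
import Pool.Agent.Lib.MP_d01a95_gt_M.Defs
import Pool.Agent.Lib.MP_d01a95_gt_M.Sm
import Pool.Agent.Lib.MP_d01a95_gt_M.KerA
import Pool.Agent.Lib.MP_d01a95_gt_M.KerB

/-!
Project SU(2,2), part (2): the Kerr chart (helper5).

Coordinates `p 0 = μ`, `p 1 = τ`.  `KD` : a solution of the complex Burgers equation.
-/

set_option autoImplicit false
set_option linter.all false

open Filter Topology
open scoped ContDiff ComplexConjugate

namespace Pool.Agent.MPd01a95.CW

section base

variable {F : Type} [NormedAddCommGroup F] [NormedSpace ℂ F]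

/-- holomorphic Wirtinger derivation -/
noncomputable def wd (k : Fin 2) : Derivation ℂ SO SO :=
  (1 / 2 : ℂ) • (kd (Pi.single k 1) - Complex.I • kd (Pi.single k Complex.I))

/-- antiholomorphic Wirtinger derivation -/
noncomputable def wb (k : Fin 2) : Derivation ℂ SO SO :=
  (1 / 2 : ℂ) • (kd (Pi.single k 1) + Complex.I • kd (Pi.single k Complex.I))

theorem wd_apply (k : Fin 2) (f : SO) : wd k f =
    (1 / 2 : ℂ) • (kd (Pi.single k 1) f - Complex.I • kd (Pi.single k Complex.I) f) := rfl

theorem wb_apply (k : Fin 2) (f : SO) : wb k f =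
    (1 / 2 : ℂ) • (kd (Pi.single k 1) f + Complex.I • kd (Pi.single k Complex.I) f) := rfl

/-- Wirtinger derivatives of vector valued functions -/
noncomputable def vwd (k : Fin 2) : MF F →ₗ[ℂ] MF F :=
  (1 / 2 : ℂ) • (vd (Pi.single k 1) - Complex.I • vd (Pi.single k Complex.I))

noncomputable def vwb (k : Fin 2) : MF F →ₗ[ℂ] MF F :=
  (1 / 2 : ℂ) • (vd (Pi.single k 1) + Complex.I • vd (Pi.single k Complex.I))

theorem vwd_apply (k : Fin 2) (f : MF F) : vwd k f =
    (1 / 2 : ℂ) • (vd (Pi.single k 1) f - Complex.I • vd (Pi.single k Complex.I) f) := rfl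

theorem vwb_apply (k : Fin 2) (f : MF F) : vwb k f =
    (1 / 2 : ℂ) • (vd (Pi.single k 1) f + Complex.I • vd (Pi.single k Complex.I) f) := rfl

theorem wdd (i j : Fin 2) (x : SO) : wd i (wd j x) = wd j (wd i x) := by
  simp only [wd_apply, Derivation.map_smul, map_sub, kd_comm (Pi.single i _) _ x]
  module

theorem wdb (i j : Fin 2) (x : SO) : wd i (wb j x) = wb j (wd i x) := by
  simp only [wd_apply, wb_apply, Derivation.map_smul, map_sub, map_add, kd_comm (Pi.single i _) _ x]
  module

theorem wbb (i j : Fin 2) (x : SO) : wb i (wb j x) = wb j (wb i x) := by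
  simp only [wb_apply, Derivation.map_smul, map_add, kd_comm (Pi.single i _) _ x]
  module

theorem vwdd (i j : Fin 2) (x : MF F) : vwd i (vwd j x) = vwd j (vwd i x) := by
  simp only [vwd_apply, map_smul, map_sub, vd_comm (Pi.single i _) _ x]
  module

theorem vwdb (i j : Fin 2) (x : MF F) : vwd i (vwb j x) = vwb j (vwd i x) := by
  simp only [vwd_apply, vwb_apply, map_smul, map_sub, map_add, vd_comm (Pi.single i _) _ x]
  module

theorem vwbb (i j : Fin 2) (x : MF F) : vwb i (vwb j x) = vwb j (vwb i x) := by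
  simp only [vwb_apply, map_smul, map_add, vd_comm (Pi.single i _) _ x]
  module

theorem wst (i : Fin 2) (x : SO) : star (wd i x) = wb i (star x) := by
  simp only [wd_apply, wb_apply, star_smul, star_sub, kd_star]
  simp

theorem wst' (i : Fin 2) (x : SO) : star (wb i x) = wd i (star x) := by
  rw [← star_inj, star_star, wst, star_star]

theorem ksmul_comm (c : ℂ) (a : SO) (f : MF F) : a • (c • f) = c • (a • f) := by
  apply M_ext
  intro z hz
  rw [xm_ksmul _ _ hz, xm_smul _ _ hz, xm_smul _ _ hz, xm_ksmul _ _ hz, smul_comm]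

theorem vwd_ksmul (k : Fin 2) (a : SO) (f : MF F) : vwd k (a • f) = wd k a • f + a • vwd k f := by
  simp only [vwd_apply, wd_apply, vd_ksmul, smul_sub, sub_smul, smul_assoc, ksmul_comm, smul_add]
  abel

theorem vwb_ksmul (k : Fin 2) (a : SO) (f : MF F) : vwb k (a • f) = wb k a • f + a • vwb k f := by
  simp only [vwb_apply, wb_apply, vd_ksmul, add_smul, smul_assoc, ksmul_comm, smul_add]
  abel

end base

section inner

variable {H : Type} [NormedAddCommGroup H] [InnerProductSpace ℂ H]

theorem pr_sub_left (f g h : MF H) : pr (f - g) h = pr f h - pr g h := by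
  have := pr_add_left (f - g) g h
  rw [sub_add_cancel] at this
  rw [this]; ring

theorem pr_sub_right (f g h : MF H) : pr f (g - h) = pr f g - pr f h := by
  have := pr_add_right f (g - h) h
  rw [sub_add_cancel] at this
  rw [this]; ring

theorem wb_pr (k : Fin 2) (f g : MF H) : wb k (pr f g) = pr (vwd k f) g + pr f (vwb k g) := by
  simp only [wb_apply, vwd_apply, vwb_apply, kd_pr, pr_smul_left, pr_smul_right, pr_sub_left,
    pr_add_right, Complex.conj_I, map_div₀, map_one, map_ofNat]
  module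

theorem wd_pr (k : Fin 2) (f g : MF H) : wd k (pr f g) = pr (vwb k f) g + pr f (vwd k g) := by
  simp only [wd_apply, vwd_apply, vwb_apply, kd_pr, pr_smul_left, pr_smul_right, pr_sub_right,
    pr_add_left, Complex.conj_I, map_div₀, map_one, map_ofNat]
  module

end inner

/-- Kerr data: a solution of the complex Burgers equation, holomorphic in `τ` -/
structure KD where
  A : SO
  h1 : wb 1 A = 0
  h2 : wb 0 A + A * wd 1 A = 0

namespace KD

variable (K : KD)

/-- `A_τ` -/
noncomputable def a : SO := wd 1 K.A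

noncomputable def fe (i : Fin 2) : Derivation ℂ SO SO :=
  if i = 0 then wb 1 else wb 0 + K.A • wd 1

noncomputable def ff (i : Fin 2) : Derivation ℂ SO SO :=
  if i = 0 then wd 1 else wd 0 + star K.A • wb 1

theorem fe0 (x : SO) : K.fe 0 x = wb 1 x := rfl
theorem fe1 (x : SO) : K.fe 1 x = wb 0 x + K.A * wd 1 x := rfl
theorem ff0 (x : SO) : K.ff 0 x = wd 1 x := rfl
theorem ff1 (x : SO) : K.ff 1 x = wd 0 x + star K.A * wb 1 x := rfl

/-- `f₂ A` -/
noncomputable def k : SO := wd 0 K.A

theorem h1s : wd 1 (star K.A) = 0 := by rw [← wst', K.h1, star_zero]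
theorem h2s : wd 0 (star K.A) + star K.A * wb 1 (star K.A) = 0 := by
  have := congrArg star K.h2
  rw [star_add, star_mul, wst', wst, star_zero] at this
  rw [← this]; ring
theorem hb0 : wb 0 K.A = - (K.A * wd 1 K.A) := by linear_combination K.h2
theorem hd0s : wd 0 (star K.A) = - (star K.A * wb 1 (star K.A)) := by linear_combination K.h2s

theorem sa : star K.a = wb 1 (star K.A) := by rw [a, wst]
theorem sk : star K.k = wb 0 (star K.A) := by rw [k, wst]

theorem wb1a : wb 1 K.a = 0 := by rw [a, ← wdb, K.h1, map_zero]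
theorem wb1k : wb 1 K.k = 0 := by rw [k, ← wdb, K.h1, map_zero]
theorem wb0a : wb 0 K.a = - (K.a * K.a) - K.A * wd 1 K.a := by
  rw [a, ← wdb, K.hb0, map_neg, Derivation.leibniz]
  simp only [smul_eq_mul]
  ring
theorem wb0k : wb 0 K.k = - (K.k * K.a) - K.A * wd 0 K.a := by
  rw [k, ← wdb, K.hb0, map_neg, Derivation.leibniz]
  simp only [smul_eq_mul, a]
  ring

/-- the frame algebra of the Kerr chart -/
noncomputable def D : FA SO where
  e := K.fe
  f := K.ff
  a := K.a
  k := K.k
  st := by
    intro i x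
    fin_cases i
    · change star (K.fe 0 x) = K.ff 0 (star x)
      rw [fe0, ff0, wst']
    · change star (K.fe 1 x) = K.ff 1 (star x)
      rw [fe1, ff1, star_add, star_mul, wst, wst', mul_comm]
  ee := by
    intro x
    rw [fe0, fe1, fe1, fe0, map_add, Derivation.leibniz, wbb, wdb]
    simp only [smul_eq_mul, K.h1]
    ring
  ff := by
    intro x
    rw [ff0, ff1, ff1, ff0, map_add, Derivation.leibniz, wdd, wdb]
    simp only [smul_eq_mul, K.h1s]
    ring
  fe00 := by
    intro x
    rw [ff0, fe0, fe0, ff0, wdb]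
  fe01 := by
    intro x
    rw [ff0, fe1, fe1, ff0, map_add, Derivation.leibniz, wdb]
    simp only [smul_eq_mul, a]
    ring
  fe10 := by
    intro x
    rw [ff1, fe0, fe0, ff1, map_add, Derivation.leibniz, wdb, K.sa]
    simp only [smul_eq_mul]
    ring
  fe11 := by
    intro x
    rw [ff1, fe1, fe1, ff1, ff0, fe0, map_add, map_add, map_add, map_add, Derivation.leibniz,
      Derivation.leibniz, Derivation.leibniz, Derivation.leibniz, wdb, wdb, wdd 0 1, wbb 1 0, K.sk,
      K.h1, K.h1s]
    simp only [smul_eq_mul, k]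
    ring
  e0a := by rw [fe0, K.wb1a]
  e1a := by rw [fe1, K.wb0a]; ring
  e0k := by rw [fe0, K.wb1k]
  e1k := by rw [fe1, K.wb0k, k, wdd 1 0, ← a]; ring
  f0k := by
    rw [ff0, ff1, K.wb1a, k, wdd, ← a]; ring

section mod

variable {F : Type} [NormedAddCommGroup F] [NormedSpace ℂ F]

/-- multiplication by a function -/
noncomputable def mulM (c : SO) : MF F →ₗ[ℂ] MF F where
  toFun x := c • x
  map_add' x y := smul_add _ _ _
  map_smul' b x := by rw [RingHom.id_apply, ksmul_comm]

noncomputable def me (i : Fin 2) : MF F →ₗ[ℂ] MF F :=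
  if i = 0 then vwb 1 else vwb 0 + (mulM K.A).comp (vwd 1)

noncomputable def mf (i : Fin 2) : MF F →ₗ[ℂ] MF F :=
  if i = 0 then vwd 1 else vwd 0 + (mulM (star K.A)).comp (vwb 1)

theorem me0 (x : MF F) : K.me 0 x = vwb 1 x := rfl
theorem me1 (x : MF F) : K.me 1 x = vwb 0 x + K.A • vwd 1 x := rfl
theorem mf0 (x : MF F) : K.mf 0 x = vwd 1 x := rfl
theorem mf1 (x : MF F) : K.mf 1 x = vwd 0 x + star K.A • vwb 1 x := rfl

end mod

variable (H : Type) [NormedAddCommGroup H] [InnerProductSpace ℂ H]

/-- the module of vector valued functions -/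
noncomputable def V : FM K.D (MF H) where
  e := K.me
  f := K.mf
  le := by
    intro i c x
    fin_cases i
    · change K.me 0 (c • x) = K.fe 0 c • x + c • K.me 0 x
      rw [me0, fe0, me0, vwb_ksmul]
    · change K.me 1 (c • x) = K.fe 1 c • x + c • K.me 1 x
      rw [me1, fe1, me1, vwb_ksmul, vwd_ksmul, smul_add, smul_add, add_smul, smul_smul, smul_smul,
        smul_smul, mul_comm c K.A]
      abel
  lf := by
    intro i c x
    fin_cases i
    · change K.mf 0 (c • x) = K.ff 0 c • x + c • K.mf 0 x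
      rw [mf0, ff0, mf0, vwd_ksmul]
    · change K.mf 1 (c • x) = K.ff 1 c • x + c • K.mf 1 x
      rw [mf1, ff1, mf1, vwb_ksmul, vwd_ksmul, smul_add, smul_add, add_smul, smul_smul, smul_smul,
        smul_smul, mul_comm c (star K.A)]
      abel
  ee := by
    intro x
    rw [me0, me1, me1, me0, map_add, vwb_ksmul, vwbb, vwdb, K.h1, zero_smul]
    abel
  ff := by
    intro x
    rw [mf0, mf1, mf1, mf0, map_add, vwd_ksmul, vwdd, vwdb, K.h1s, zero_smul]
    abel
  fe00 := by
    intro x
    rw [mf0, me0, me0, mf0, vwdb]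
  fe01 := by
    intro x
    rw [mf0, me1, me1, mf0, map_add, vwd_ksmul, vwdb]
    change _ = _ + K.a • vwd 1 x
    rw [a]
    abel
  fe10 := by
    intro x
    rw [mf1, me0, me0, mf1, map_add, vwb_ksmul, vwdb]
    change _ = _ - star K.a • vwb 1 x
    rw [K.sa]
    abel
  fe11 := by
    intro x
    rw [mf1, me1, me1, mf1, mf0, me0, map_add, map_add, map_add, map_add, vwd_ksmul, vwb_ksmul,
      vwb_ksmul, vwd_ksmul, vwdb, vwdb, vwdd 0 1, vwbb 1 0, K.h1, K.h1s, zero_smul, zero_smul]
    change _ = _ + K.k • vwd 1 x - star K.k • vwb 1 x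
    rw [K.sk, k, zero_add, zero_add, smul_add, smul_add, smul_smul, smul_smul, mul_comm (star K.A) K.A]
    rw [show vwb 1 (vwd 1 x) = vwd 1 (vwb 1 x) from (vwdb 1 1 x).symm]
    abel
  pr := pr
  pal := pr_add_left
  par := pr_add_right
  psl := pr_ksmul_left
  psr := pr_ksmul_right
  pst := star_pr
  pe := by
    intro i x y
    fin_cases i
    · change K.fe 0 (pr x y) = pr (K.mf 0 x) y + pr x (K.me 0 y)
      rw [fe0, mf0, me0, wb_pr]
    · change K.fe 1 (pr x y) = pr (K.mf 1 x) y + pr x (K.me 1 y)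
      rw [fe1, mf1, me1, wb_pr, wd_pr, pr_add_left, pr_add_right, pr_ksmul_left, pr_ksmul_right,
        star_star]
      ring
  pf := by
    intro i x y
    fin_cases i
    · change K.ff 0 (pr x y) = pr (K.me 0 x) y + pr x (K.mf 0 y)
      rw [ff0, mf0, me0, wd_pr]
    · change K.ff 1 (pr x y) = pr (K.me 1 x) y + pr x (K.mf 1 y)
      rw [ff1, mf1, me1, wb_pr, wd_pr, pr_add_left, pr_add_right, pr_ksmul_left, pr_ksmul_right]
      ring

end KD

end Pool.Agent.MPd01a95.CW
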