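import Mathlib
import Pool.Agent.Lib.MP_d01a95_gt_M.Defs
import Pool.Agent.Lib.MP_d01a95_gt_M.Sm
import Pool.Agent.Lib.MP_d01a95_gt_M.KerA
import Pool.Agent.Lib.MP_d01a95_gt_M.KerB
import Pool.Agent.Lib.MP_d01a95_gt_M.KerC

/-!
Project SU(2,2), part (2): Stokes for compactly supported functions on the Kerr chart (helper5).
-/

set_option autoImplicit false
set_option linter.all false

open Filter Topology MeasureTheory
open scoped ContDiff ComplexConjugate

namespace Pool.Agent.MPd01a95.CW

/-- compact support -/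
def CS (f : SO) : Prop := ∃ C : Set E2, IsCompact C ∧ C ⊆ Om ∧ ∀ z, xk f z ≠ 0 → z ∈ C

/-- support in a given set -/
def SC (C : Set E2) (f : SO) : Prop := ∀ z, xk f z ≠ 0 → z ∈ C

theorem xk_off (f : SO) {z : E2} (hz : z ∉ Om) : xk f z = 0 := exK_of_not f.1 hz

theorem SC.zero {C : Set E2} {f : SO} (h : SC C f) {z : E2} (hz : z ∉ C) : xk f z = 0 := by
  by_contra hc
  exact hz (h z hc)

section

variable {C : Set E2} (hC : IsCompact C) (hCO : C ⊆ Om)

include hC in
theorem SC.ev {f : SO} (h : SC C f) {z : E2} (hz : z ∉ C) : xk f =ᶠ[𝓝 z] fun _ => 0 := by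
  filter_upwards [hC.isClosed.isOpen_compl.mem_nhds hz] with y hy
  exact h.zero hy

include hC in
theorem SC.compact {f : SO} (h : SC C f) : HasCompactSupport (xk f) :=
  HasCompactSupport.intro hC fun z hz => h.zero hz

include hC hCO in
theorem SC.smooth {f : SO} (h : SC C f) : ContDiff ℝ ∞ (xk f) := by
  rw [contDiff_iff_contDiffAt]
  intro z
  by_cases hB : z ∈ Om
  · exact (xk_sm f).contDiffAt (isOpen_Om.mem_nhds hB)
  · exact contDiffAt_const.congr_of_eventuallyEq (h.ev hC fun hz => hB (hCO hz))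

theorem SC.mul {f : SO} (h : SC C f) (g : SO) : SC C (f * g) := by
  intro z hne
  have hz : z ∈ Om := by
    by_contra hc
    exact hne (xk_off _ hc)
  rw [xk_mul _ _ hz] at hne
  exact h z (left_ne_zero_of_mul hne)

theorem SC.mul' {f : SO} (h : SC C f) (g : SO) : SC C (g * f) := by
  rw [mul_comm]; exact h.mul g

theorem SC.sub {f g : SO} (h : SC C f) (h' : SC C g) : SC C (f - g) := by
  intro z hne
  by_contra hc
  apply hne
  by_cases hz : z ∈ Om
  · rw [xk_sub _ _ hz, h.zero hc, h'.zero hc, sub_zero]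
  · exact xk_off _ hz

theorem SC.add {f g : SO} (h : SC C f) (h' : SC C g) : SC C (f + g) := by
  intro z hne
  by_contra hc
  apply hne
  by_cases hz : z ∈ Om
  · rw [xk_add _ _ hz, h.zero hc, h'.zero hc, add_zero]
  · exact xk_off _ hz

theorem SC.neg {f : SO} (h : SC C f) : SC C (-f) := by
  intro z hne
  by_contra hc
  apply hne
  by_cases hz : z ∈ Om
  · rw [xk_neg _ hz, h.zero hc, neg_zero]
  · exact xk_off _ hz

theorem SC.smul {f : SO} (h : SC C f) (c : ℂ) : SC C (c • f) := by
  intro z hne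
  by_contra hc
  apply hne
  by_cases hz : z ∈ Om
  · rw [xk_smul _ _ hz, h.zero hc, mul_zero]
  · exact xk_off _ hz

include hC in
theorem SC.kd {f : SO} (h : SC C f) (v : E2) : SC C (kd v f) := by
  intro z hne
  by_contra hc
  apply hne
  by_cases hz : z ∈ Om
  · rw [xk_kd _ _ hz, (h.ev hC hc).fderiv_eq]; simp
  · exact xk_off _ hz

include hC in
theorem SC.wd {f : SO} (h : SC C f) (k : Fin 2) : SC C (wd k f) := by
  rw [wd_apply]
  exact ((h.kd hC _).sub ((h.kd hC _).smul _)).smul _

include hC in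
theorem SC.wb {f : SO} (h : SC C f) (k : Fin 2) : SC C (wb k f) := by
  rw [wb_apply]
  exact ((h.kd hC _).add ((h.kd hC _).smul _)).smul _

include hC in
theorem SC.e (K : KD) {f : SO} (h : SC C f) (i : Fin 2) : SC C (K.D.e i f) := by
  fin_cases i
  · exact h.wb hC 1
  · exact (h.wb hC 0).add ((h.wd hC 1).mul' K.A)

include hC in
theorem SC.f (K : KD) {f : SO} (h : SC C f) (i : Fin 2) : SC C (K.D.f i f) := by
  fin_cases i
  · exact h.wd hC 1
  · exact (h.wd hC 0).add ((h.wb hC 1).mul' (star K.A))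

include hC hCO in
theorem SC.integrable {f : SO} (h : SC C f) : Integrable (xk f) (volume : Measure E2) :=
  (h.smooth hC hCO).continuous.integrable_of_hasCompactSupport (h.compact hC)

/-- integral over the half space -/
noncomputable def IK (f : SO) : ℂ := ∫ z in Om, xk f z

theorem IK_eq (f : SO) : IK f = ∫ z, xk f z := by
  apply setIntegral_eq_integral_of_forall_compl_eq_zero
  intro z hz
  exact xk_off f hz

include hC hCO in
theorem SC.IK_add {f g : SO} (h : SC C f) (h' : SC C g) : IK (f + g) = IK f + IK g := by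
  unfold IK
  rw [← integral_add (h.integrable hC hCO).integrableOn (h'.integrable hC hCO).integrableOn]
  exact setIntegral_congr_fun isOpen_Om.measurableSet fun z hz => xk_add _ _ hz

include hC hCO in
theorem SC.IK_sub {f g : SO} (h : SC C f) (h' : SC C g) : IK (f - g) = IK f - IK g := by
  unfold IK
  rw [← integral_sub (h.integrable hC hCO).integrableOn (h'.integrable hC hCO).integrableOn]
  exact setIntegral_congr_fun isOpen_Om.measurableSet fun z hz => xk_sub _ _ hz

theorem IK_smul (c : ℂ) (f : SO) : IK (c • f) = c * IK f := by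
  unfold IK
  rw [← integral_const_mul]
  exact setIntegral_congr_fun isOpen_Om.measurableSet fun z hz => xk_smul _ _ hz

include hC hCO in
theorem SC.int_kd {f : SO} (h : SC C f) (v : E2) : IK (Pool.Agent.MPd01a95.CW.kd v f) = 0 := by
  have e : IK (Pool.Agent.MPd01a95.CW.kd v f) = ∫ z, fderiv ℝ (xk f) z v := by
    have e0 : IK (Pool.Agent.MPd01a95.CW.kd v f) = ∫ z in Om, fderiv ℝ (xk f) z v :=
      setIntegral_congr_fun isOpen_Om.measurableSet fun z hz => xk_kd _ _ hz
    rw [e0]
    apply setIntegral_eq_integral_of_forall_compl_eq_zero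
    intro z hz
    rw [(h.ev hC fun hc => hz (hCO hc)).fderiv_eq]
    simp
  rw [e]
  have hsm := h.smooth hC hCO
  have hc := h.compact hC
  have hcont : Continuous fun z => fderiv ℝ (xk f) z v :=
    (hsm.continuous_fderiv (by simp)).clm_apply continuous_const
  have i1 : Integrable (fun z => fderiv ℝ (xk f) z v) (volume : Measure E2) :=
    hcont.integrable_of_hasCompactSupport (hc.fderiv_apply (𝕜 := ℝ) v)
  have := integral_mul_fderiv_eq_neg_fderiv_mul_of_integrable (μ := (volume : Measure E2))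
    (f := fun _ : E2 => (1 : ℂ)) (g := xk f) (v := v) (by simp) (by simpa using i1)
    (by simpa using h.integrable hC hCO) (fun x _ => differentiableAt_const _)
    (fun x _ => hsm.differentiable (by simp) x)
  simpa using this

include hC hCO in
theorem SC.int_wd {f : SO} (h : SC C f) (k : Fin 2) : IK (Pool.Agent.MPd01a95.CW.wd k f) = 0 := by
  rw [wd_apply, IK_smul, (h.kd hC _).IK_sub hC hCO ((h.kd hC _).smul _), IK_smul,
    h.int_kd hC hCO, h.int_kd hC hCO]
  simp

include hC hCO in
theorem SC.int_wb {f : SO} (h : SC C f) (k : Fin 2) : IK (Pool.Agent.MPd01a95.CW.wb k f) = 0 := by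
  rw [wb_apply, IK_smul, (h.kd hC _).IK_add hC hCO ((h.kd hC _).smul _), IK_smul,
    h.int_kd hC hCO, h.int_kd hC hCO]
  simp

include hC hCO in
/-- Stokes, first frame vector -/
theorem SC.int_e0 (K : KD) {f : SO} (h : SC C f) : IK (K.D.e 0 f) = 0 := h.int_wb hC hCO 1

include hC hCO in
/-- Stokes, second frame vector -/
theorem SC.int_e1 (K : KD) {f : SO} (h : SC C f) : IK (K.D.e 1 f + K.D.a * f) = 0 := by
  have e : K.D.e 1 f + K.D.a * f = Pool.Agent.MPd01a95.CW.wb 0 f
      + Pool.Agent.MPd01a95.CW.wd 1 (K.A * f) := by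
    change (Pool.Agent.MPd01a95.CW.wb 0 f + K.A * Pool.Agent.MPd01a95.CW.wd 1 f) + K.a * f = _
    rw [Derivation.leibniz]
    simp only [smul_eq_mul, KD.a]
    ring
  rw [e, (h.wb hC 0).IK_add hC hCO ((h.mul' K.A).wd hC 1), h.int_wb hC hCO,
    (h.mul' K.A).int_wd hC hCO, add_zero]

end

end Pool.Agent.MPd01a95.CW
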