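import Mathlib
import Pool.Agent.Lib.MP_d01a95_gt_M.Defs
import Pool.Agent.Lib.MP_d01a95_gt_M.Sm
import Pool.Agent.Lib.MP_d01a95_gt_M.KerA
import Pool.Agent.Lib.MP_d01a95_gt_M.KerB
import Pool.Agent.Lib.MP_d01a95_gt_M.KerC
import Pool.Agent.Lib.MP_d01a95_gt_M.KerD

/-!
Project SU(2,2), part (2): group actions on the Kerr chart, chain rule (helper5).
-/

set_option autoImplicit false
set_option linter.all false

open Filter Topology MeasureTheory
open scoped ContDiff ComplexConjugate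

namespace Pool.Agent.MPd01a95.CW

/-- a smooth, proper, cocompact action on the half space -/
structure PAct (G : Type) [Group G] where
  ac : G → E2 → E2
  mem : ∀ g, ∀ p ∈ Om, ac g p ∈ Om
  one : ∀ p ∈ Om, ac 1 p = p
  mul : ∀ g h, ∀ p ∈ Om, ac (g * h) p = ac g (ac h p)
  sm : ∀ g, ContDiffOn ℝ ∞ (ac g) Om
  proper : ∀ C : Set E2, IsCompact C → C ⊆ Om → {g : G | ∃ p ∈ C, ac g p ∈ C}.Finite
  coc : ∃ C : Set E2, IsCompact C ∧ C ⊆ Om ∧ ∀ p ∈ Om, ∃ g, ac g p ∈ C

/-- coordinate functions -/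
noncomputable def cx (m : Fin 2) : SO :=
  mkK (fun z => z m) (contDiff_apply ℝ ℂ m).contDiffOn

theorem xk_cx (m : Fin 2) {z : E2} (hz : z ∈ Om) : xk (cx m) z = z m := xk_mkK _ _ hz

namespace PAct

variable {G : Type} [Group G] (P : PAct G)
variable {F : Type} [NormedAddCommGroup F] [NormedSpace ℂ F]

theorem inv_ac (g : G) {p : E2} (hp : p ∈ Om) : P.ac g⁻¹ (P.ac g p) = p := by
  rw [← P.mul _ _ _ hp, inv_mul_cancel, P.one _ hp]

theorem ac_inv (g : G) {p : E2} (hp : p ∈ Om) : P.ac g (P.ac g⁻¹ p) = p := by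
  rw [← P.mul _ _ _ hp, mul_inv_cancel, P.one _ hp]

theorem diff (g : G) {z : E2} (hz : z ∈ Om) : DifferentiableAt ℝ (P.ac g) z :=
  ((P.sm g).differentiableOn (by simp)).differentiableAt (isOpen_Om.mem_nhds hz)

/-- composition with the action, scalar functions -/
noncomputable def T (g : G) : SO →⋆ₐ[ℂ] SO where
  toFun f := mkK (fun z => xk f (P.ac g z)) ((xk_sm f).comp (P.sm g) (P.mem g))
  map_one' := K_ext fun z hz => by rw [xk_mkK _ _ hz, xk_one (P.mem g z hz), xk_one hz]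
  map_mul' f h := K_ext fun z hz => by
    rw [xk_mul _ _ hz, xk_mkK _ _ hz, xk_mkK _ _ hz, xk_mkK _ _ hz, xk_mul _ _ (P.mem g z hz)]
  map_zero' := K_ext fun z hz => by rw [xk_mkK _ _ hz, xk_zero (P.mem g z hz), xk_zero hz]
  map_add' f h := K_ext fun z hz => by
    rw [xk_add _ _ hz, xk_mkK _ _ hz, xk_mkK _ _ hz, xk_mkK _ _ hz, xk_add _ _ (P.mem g z hz)]
  commutes' c := K_ext fun z hz => by
    rw [xk_mkK _ _ hz, xk_algebraMap _ (P.mem g z hz), xk_algebraMap _ hz]
  map_star' f := K_ext fun z hz => by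
    rw [xk_star _ hz, xk_mkK _ _ hz, xk_mkK _ _ hz, xk_star _ (P.mem g z hz)]

theorem xk_T (g : G) (f : SO) {z : E2} (hz : z ∈ Om) : xk (P.T g f) z = xk f (P.ac g z) :=
  xk_mkK _ _ hz

/-- composition with the action, vector valued functions -/
noncomputable def TM (g : G) : MF F →ₗ[ℂ] MF F where
  toFun f := mkM (fun z => xm f (P.ac g z)) ((xm_sm f).comp (P.sm g) (P.mem g))
  map_add' f h := M_ext fun z hz => by
    rw [xm_add _ _ hz, xm_mkM _ _ hz, xm_mkM _ _ hz, xm_mkM _ _ hz, xm_add _ _ (P.mem g z hz)]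
  map_smul' c f := M_ext fun z hz => by
    rw [RingHom.id_apply, xm_smul _ _ hz, xm_mkM _ _ hz, xm_mkM _ _ hz, xm_smul _ _ (P.mem g z hz)]

theorem xm_TM (g : G) (f : MF F) {z : E2} (hz : z ∈ Om) : xm (P.TM g f) z = xm f (P.ac g z) :=
  xm_mkM _ _ hz

theorem TM_ksmul (g : G) (a : SO) (f : MF F) : P.TM g (a • f) = P.T g a • P.TM g f :=
  M_ext fun z hz => by
  rw [xm_ksmul _ _ hz, P.xm_TM _ _ hz, P.xm_TM _ _ hz, P.xk_T _ _ hz, xm_ksmul _ _ (P.mem g z hz)]

theorem pr_TM {H : Type} [NormedAddCommGroup H] [InnerProductSpace ℂ H] (g : G) (f h : MF H) :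
    pr (P.TM g f) (P.TM g h) = P.T g (pr f h) := K_ext fun z hz => by
  rw [xk_pr _ _ hz, P.xm_TM _ _ hz, P.xm_TM _ _ hz, P.xk_T _ _ hz, xk_pr _ _ (P.mem g z hz)]

theorem T_one (f : SO) : P.T 1 f = f := K_ext fun z hz => by rw [P.xk_T _ _ hz, P.one _ hz]

theorem T_mul (g h : G) (f : SO) : P.T (g * h) f = P.T h (P.T g f) := K_ext fun z hz => by
  rw [P.xk_T _ _ hz, P.xk_T _ _ hz, P.xk_T _ _ (P.mem h z hz), P.mul _ _ _ hz]

end PAct

section lin

variable {F : Type} [NormedAddCommGroup F] [NormedSpace ℂ F]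

theorem clm_wirt (L : E2 →L[ℝ] F) (w : E2) :
    L w = ∑ m, (w m • ((1 / 2 : ℂ) • (L (Pi.single m 1) - Complex.I • L (Pi.single m Complex.I)))
      + conj (w m) • ((1 / 2 : ℂ) • (L (Pi.single m 1) + Complex.I • L (Pi.single m Complex.I)))) := by
  have hw : w = ∑ k, ((w k).re • (Pi.single k 1 : E2) + (w k).im • (Pi.single k Complex.I : E2)) := by
    funext i
    rw [Finset.sum_apply, Finset.sum_eq_single i]
    · simp only [Pi.add_apply, Pi.smul_apply, Pi.single_eq_same, Complex.real_smul, mul_one]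
      exact (Complex.re_add_im (w i)).symm
    · intro b _ hb
      simp [Pi.single_apply, Ne.symm hb]
    · intro h
      exact absurd (Finset.mem_univ i) h
  conv_lhs => rw [hw, map_sum]
  refine Finset.sum_congr rfl fun m _ => ?_
  rw [map_add, map_smul, map_smul]
  have h1 : ∀ (r : ℝ) (x : F), r • x = (r : ℂ) • x := fun r x => (Complex.coe_smul r x).symm
  rw [h1, h1]
  set X := L (Pi.single m 1)
  set Y := L (Pi.single m Complex.I)
  have h2 : w m = (w m).re + (w m).im * Complex.I := (Complex.re_add_im (w m)).symm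
  have h3 : conj (w m) = (w m).re - (w m).im * Complex.I := by
    conv_lhs => rw [h2]
    simp only [map_add, map_mul, Complex.conj_ofReal, Complex.conj_I]
    ring
  rw [h3]
  conv_rhs => rw [h2]
  simp only [Complex.ofReal_re, Complex.ofReal_im, Complex.add_re, Complex.add_im, Complex.mul_re,
    Complex.mul_im, Complex.I_re, Complex.I_im, mul_zero, mul_one, sub_zero, add_zero, zero_add, zero_sub]
  set a : ℂ := ((w m).re : ℂ)
  set b : ℂ := ((w m).im : ℂ)
  have hX : (a + b * Complex.I) * (1 / 2) + (a - b * Complex.I) * (1 / 2) = a := by ring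
  have hY : - ((a + b * Complex.I) * (1 / 2 * Complex.I)) + (a - b * Complex.I) * (1 / 2 * Complex.I)
      = b := by
    have := Complex.I_mul_I
    linear_combination (- b) * this
  calc a • X + b • Y = ((a + b * Complex.I) * (1 / 2) + (a - b * Complex.I) * (1 / 2)) • X
      + (- ((a + b * Complex.I) * (1 / 2 * Complex.I))
        + (a - b * Complex.I) * (1 / 2 * Complex.I)) • Y := by rw [hX, hY]
    _ = _ := by module

end lin

namespace PAct

variable {G : Type} [Group G] (P : PAct G)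
variable {F : Type} [NormedAddCommGroup F] [NormedSpace ℂ F]

theorem kd_cx (g : G) (v : E2) (m : Fin 2) {z : E2} (hz : z ∈ Om) :
    xk (kd v (P.T g (cx m))) z = fderiv ℝ (P.ac g) z v m := by
  rw [xk_kd _ _ hz, (evK_eq (g := fun y => P.ac g y m) (fun y hy => by
    rw [P.xk_T _ _ hy, xk_cx _ (P.mem g y hy)]) hz).fderiv_eq]
  have h := hasFDerivAt_pi'.mp (P.diff g hz).hasFDerivAt m
  rw [h.fderiv]
  rfl

/-- chain rule, scalar functions, real directions -/
theorem kd_T (g : G) (v : E2) (u : SO) : kd v (P.T g u) =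
    ∑ m, (kd v (P.T g (cx m)) * P.T g (wd m u) + kd v (P.T g (star (cx m))) * P.T g (wb m u)) := by
  apply K_ext
  intro z hz
  have hgz := P.mem g z hz
  have h1 : xk (kd v (P.T g u)) z = fderiv ℝ (xk u) (P.ac g z) (fderiv ℝ (P.ac g) z v) := by
    rw [xk_kd _ _ hz, (evK_eq (g := fun y => xk u (P.ac g y)) (fun y hy => P.xk_T g u hy) hz).fderiv_eq]
    have h := (xk_diff u hgz).hasFDerivAt.comp z (P.diff g hz).hasFDerivAt
    have h' : fderiv ℝ (fun y => xk u (P.ac g y)) z = _ := h.fderiv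
    rw [h']
    rfl
  rw [h1, clm_wirt, Fin.sum_univ_two, Fin.sum_univ_two]
  simp only [xk_add _ _ hz, xk_mul _ _ hz, P.xk_T _ _ hz, P.kd_cx _ _ _ hz, map_star, ← kd_star,
    xk_star _ hz, wd_apply, wb_apply, xk_smul _ _ hgz, xk_sub _ _ hgz, xk_add _ _ hgz,
    xk_kd _ _ hgz, smul_eq_mul]
  rfl

/-- chain rule, vector valued functions, real directions -/
theorem vd_T (g : G) (v : E2) (u : MF F) : vd v (P.TM g u) =
    ∑ m, (kd v (P.T g (cx m)) • P.TM g (vwd m u) + kd v (P.T g (star (cx m))) • P.TM g (vwb m u)) := by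
  apply M_ext
  intro z hz
  have hgz := P.mem g z hz
  have h1 : xm (vd v (P.TM g u)) z = fderiv ℝ (xm u) (P.ac g z) (fderiv ℝ (P.ac g) z v) := by
    rw [xm_vd _ _ hz, (evK_eq (g := fun y => xm u (P.ac g y)) (fun y hy => P.xm_TM g u hy) hz).fderiv_eq]
    have h := (xm_diff u hgz).hasFDerivAt.comp z (P.diff g hz).hasFDerivAt
    have h' : fderiv ℝ (fun y => xm u (P.ac g y)) z = _ := h.fderiv
    rw [h']
    rfl
  rw [h1, clm_wirt, Fin.sum_univ_two, Fin.sum_univ_two]
  simp only [xm_add _ _ hz, xm_ksmul _ _ hz, P.xm_TM _ _ hz, P.kd_cx _ _ _ hz, map_star, ← kd_star,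
    xk_star _ hz, vwd_apply, vwb_apply, xm_smul _ _ hgz, xm_sub _ _ hgz, xm_add _ _ hgz,
    xm_vd _ _ hgz]
  rfl

theorem wd_T (g : G) (k : Fin 2) (u : SO) : wd k (P.T g u) =
    ∑ m, (wd k (P.T g (cx m)) * P.T g (wd m u) + wd k (P.T g (star (cx m))) * P.T g (wb m u)) := by
  rw [wd_apply, P.kd_T, P.kd_T]
  simp only [Fin.sum_univ_two, wd_apply k]
  simp only [smul_sub, smul_add, sub_mul, smul_mul_assoc]
  abel

theorem wb_T (g : G) (k : Fin 2) (u : SO) : wb k (P.T g u) =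
    ∑ m, (wb k (P.T g (cx m)) * P.T g (wd m u) + wb k (P.T g (star (cx m))) * P.T g (wb m u)) := by
  rw [wb_apply, P.kd_T, P.kd_T]
  simp only [Fin.sum_univ_two, wb_apply k]
  simp only [smul_add, add_mul, smul_mul_assoc]
  abel

theorem vwd_T (g : G) (k : Fin 2) (u : MF F) : vwd k (P.TM g u) =
    ∑ m, (wd k (P.T g (cx m)) • P.TM g (vwd m u) + wd k (P.T g (star (cx m))) • P.TM g (vwb m u)) := by
  rw [vwd_apply, P.vd_T, P.vd_T]
  simp only [Fin.sum_univ_two, wd_apply k]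
  simp only [smul_sub, smul_add, sub_smul, smul_assoc]
  abel

theorem vwb_T (g : G) (k : Fin 2) (u : MF F) : vwb k (P.TM g u) =
    ∑ m, (wb k (P.T g (cx m)) • P.TM g (vwd m u) + wb k (P.T g (star (cx m))) • P.TM g (vwb m u)) := by
  rw [vwb_apply, P.vd_T, P.vd_T]
  simp only [Fin.sum_univ_two, wb_apply k]
  simp only [smul_add, add_smul, smul_assoc]
  abel

end PAct

end Pool.Agent.MPd01a95.CW
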