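import Mathlib
import Pool.Agent.Lib.MP_d01a95_gt_M.Defs
import Pool.Agent.Lib.MP_d01a95_gt_M.Sm
import Pool.Agent.Lib.MP_d01a95_gt_M.KerA
import Pool.Agent.Lib.MP_d01a95_gt_M.KerB
import Pool.Agent.Lib.MP_d01a95_gt_M.KerC
import Pool.Agent.Lib.MP_d01a95_gt_M.KerD
import Pool.Agent.Lib.MP_d01a95_gt_M.KerE

/-!
Project SU(2,2), part (2): holomorphic actions on the Kerr chart (helper5).
-/

set_option autoImplicit false
set_option linter.all false

open Filter Topology MeasureTheory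
open scoped ContDiff ComplexConjugate

namespace Pool.Agent.MPd01a95.CW

namespace KD

variable (K : KD)

/-- the holomorphic function `C = τ - μ̄ A` -/
noncomputable def C : SO := cx 1 - star (cx 0) * K.A

theorem wd_cx (k m : Fin 2) : wd k (cx m) = if k = m then 1 else 0 := by
  apply K_ext
  intro z hz
  have hd : ∀ v : E2, xk (kd v (cx m)) z = v m := by
    intro v
    rw [xk_kd _ _ hz, (evK_eq (g := fun y : E2 => y m) (fun y hy => xk_cx m hy) hz).fderiv_eq]
    have : HasFDerivAt (fun y : E2 => y m) (ContinuousLinearMap.proj (R := ℝ) m) z :=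
      (ContinuousLinearMap.proj (R := ℝ) (φ := fun _ : Fin 2 => ℂ) m).hasFDerivAt
    rw [this.fderiv]
    rfl
  rw [wd_apply, xk_smul _ _ hz, xk_sub _ _ hz, xk_smul _ _ hz, hd, hd]
  split_ifs with h
  · subst h
    rw [xk_one hz, Pi.single_eq_same, Pi.single_eq_same, Complex.I_mul_I]; norm_num
  · rw [xk_zero hz, Pi.single_eq_of_ne (Ne.symm h), Pi.single_eq_of_ne (Ne.symm h)]; simp

theorem wb_cx (k m : Fin 2) : wb k (cx m) = 0 := by
  apply K_ext
  intro z hz
  have hd : ∀ v : E2, xk (kd v (cx m)) z = v m := by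
    intro v
    rw [xk_kd _ _ hz, (evK_eq (g := fun y : E2 => y m) (fun y hy => xk_cx m hy) hz).fderiv_eq]
    have : HasFDerivAt (fun y : E2 => y m) (ContinuousLinearMap.proj (R := ℝ) m) z :=
      (ContinuousLinearMap.proj (R := ℝ) (φ := fun _ : Fin 2 => ℂ) m).hasFDerivAt
    rw [this.fderiv]
    rfl
  rw [wb_apply, xk_smul _ _ hz, xk_add _ _ hz, xk_smul _ _ hz, hd, hd, xk_zero hz]
  by_cases h : k = m
  · subst h
    rw [Pi.single_eq_same, Pi.single_eq_same, Complex.I_mul_I]; norm_num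
  · rw [Pi.single_eq_of_ne (Ne.symm h), Pi.single_eq_of_ne (Ne.symm h)]; simp

theorem wb_scx (k m : Fin 2) : wb k (star (cx m)) = if k = m then 1 else 0 := by
  rw [← wst, wd_cx]
  split_ifs <;> simp

theorem wd_scx (k m : Fin 2) : wd k (star (cx m)) = 0 := by
  rw [← wst', wb_cx, star_zero]

theorem e0_cx0 : K.D.e 0 (cx 0) = 0 := wb_cx 1 0
theorem e1_cx0 : K.D.e 1 (cx 0) = 0 := by
  change wb 0 (cx 0) + K.A * wd 1 (cx 0) = 0
  rw [wb_cx, wd_cx]; simp
theorem e_cx0 (j : Fin 2) : K.D.e j (cx 0) = 0 := by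
  fin_cases j
  · exact K.e0_cx0
  · exact K.e1_cx0
theorem e_A (j : Fin 2) : K.D.e j K.A = 0 := by
  fin_cases j
  · exact K.h1
  · exact K.h2
theorem f0A : K.D.f 0 K.A = K.a := rfl
theorem f1A : K.D.f 1 K.A = K.k := by
  change wd 0 K.A + star K.A * wb 1 K.A = K.k
  rw [K.h1, mul_zero, add_zero]; rfl
theorem e0sA : K.D.e 0 (star K.A) = star K.a := by rw [← K.D.sf, K.f0A]
theorem e1sA : K.D.e 1 (star K.A) = star K.k := by rw [← K.D.sf, K.f1A]
theorem f_sA (j : Fin 2) : K.D.f j (star K.A) = 0 := by rw [← K.D.st, K.e_A, star_zero]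
theorem e_C (j : Fin 2) : K.D.e j K.C = 0 := by
  fin_cases j
  · change wb 1 (cx 1 - star (cx 0) * K.A) = 0
    rw [map_sub, Derivation.leibniz, wb_cx, wb_scx, K.h1]
    simp
  · change wb 0 (cx 1 - star (cx 0) * K.A) + K.A * wd 1 (cx 1 - star (cx 0) * K.A) = 0
    rw [map_sub, map_sub, Derivation.leibniz, Derivation.leibniz, wb_cx, wb_scx, K.hb0, wd_cx, wd_scx]
    simp only [smul_eq_mul, if_true]
    ring

theorem cx1_eq : cx 1 = K.C + star (cx 0) * K.A := by rw [C]; ring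
theorem scx1_eq : star (cx 1) = star K.C + cx 0 * star K.A := by
  rw [K.cx1_eq, star_add, star_mul, star_star]; ring

end KD

/-- a holomorphic action on the Kerr chart -/
structure KAct (K : KD) (G : Type) [Group G] extends PAct G where
  hx : ∀ g i, K.D.e i (toPAct.T g (cx 0)) = 0
  hA : ∀ g i, K.D.e i (toPAct.T g K.A) = 0
  hC : ∀ g i, K.D.e i (toPAct.T g K.C) = 0

/-- Leibniz rule for the Levi matrix of scalar functions -/
theorem FA.L_mul {A : Type} [CommRing A] [Algebra ℂ A] [StarRing A] (D : FA A) (u v : A) (i j : Fin 2) :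
    D.self.L (u * v) i j = u * D.self.L v i j + v * D.self.L u i j
      + D.f i u * D.e j v + D.f i v * D.e j u := by
  have key : ∀ i j, D.f i (D.e j (u * v)) = u * D.f i (D.e j v) + v * D.f i (D.e j u)
      + D.f i u * D.e j v + D.f i v * D.e j u := by
    intro i j
    simp only [Derivation.leibniz, smul_eq_mul, map_add]
    ring
  fin_cases i <;> fin_cases j
  · exact key 0 0
  · exact key 0 1
  · change D.f 1 (D.e 0 (u * v)) + star D.a * D.e 0 (u * v) =
      u * (D.f 1 (D.e 0 v) + star D.a * D.e 0 v) + v * (D.f 1 (D.e 0 u) + star D.a * D.e 0 u)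
      + D.f 1 u * D.e 0 v + D.f 1 v * D.e 0 u
    rw [key, Derivation.leibniz]
    simp only [smul_eq_mul]
    ring
  · change D.f 1 (D.e 1 (u * v)) + star D.k * D.e 0 (u * v) =
      u * (D.f 1 (D.e 1 v) + star D.k * D.e 0 v) + v * (D.f 1 (D.e 1 u) + star D.k * D.e 0 u)
      + D.f 1 u * D.e 1 v + D.f 1 v * D.e 1 u
    rw [key, Derivation.leibniz]
    simp only [smul_eq_mul]
    ring

theorem FM.L_of_e {A : Type} [CommRing A] [Algebra ℂ A] [StarRing A] {D : FA A}
    {M : Type} [AddCommGroup M] [Module ℂ M] [Module A M] (V : FM D M) {x : M}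
    (h : ∀ j, V.e j x = 0) (i j : Fin 2) : V.L x i j = 0 := by
  fin_cases i <;> fin_cases j <;> simp [FM.L, h]

theorem FM.L_of_f {A : Type} [CommRing A] [Algebra ℂ A] [StarRing A] {D : FA A}
    {M : Type} [AddCommGroup M] [Module ℂ M] [Module A M] (V : FM D M) {x : M}
    (h : ∀ j, V.f j x = 0) (i j : Fin 2) : V.L x i j = 0 := by
  fin_cases i <;> fin_cases j
  · change V.L x 0 0 = 0
    rw [V.L00']; simp [h]
  · change V.L x 0 1 = 0
    rw [V.L01']; simp [h]
  · change V.L x 1 0 = 0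
    rw [V.L10']; simp [h]
  · change V.L x 1 1 = 0
    rw [V.L11']; simp [h]

namespace KAct

variable {K : KD} {G : Type} [Group G] (P : KAct K G)
variable {F : Type} [NormedAddCommGroup F] [NormedSpace ℂ F]
variable {H : Type} [NormedAddCommGroup H] [InnerProductSpace ℂ H]

/-- the Jacobian matrix in the frame -/
noncomputable def J (g : G) (m i : Fin 2) : SO :=
  if m = 0 then K.D.f i (P.T g (cx 1)) else K.D.f i (P.T g (cx 0))

theorem J0 (g : G) (i : Fin 2) : P.J g 0 i = K.D.f i (P.T g (cx 1)) := rfl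
theorem J1 (g : G) (i : Fin 2) : P.J g 1 i = K.D.f i (P.T g (cx 0)) := rfl
theorem sJ0 (g : G) (i : Fin 2) : star (P.J g 0 i) = K.D.e i (P.T g (star (cx 1))) := by
  rw [J0, K.D.sf, ← map_star]
theorem sJ1 (g : G) (i : Fin 2) : star (P.J g 1 i) = K.D.e i (P.T g (star (cx 0))) := by
  rw [J1, K.D.sf, ← map_star]

theorem f_Tsx (g : G) (i : Fin 2) : K.D.f i (P.T g (star (cx 0))) = 0 := by
  rw [map_star, ← K.D.st, P.hx, star_zero]
theorem f_TsA (g : G) (i : Fin 2) : K.D.f i (P.T g (star K.A)) = 0 := by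
  rw [map_star, ← K.D.st, P.hA, star_zero]
theorem f_TsC (g : G) (i : Fin 2) : K.D.f i (P.T g (star K.C)) = 0 := by
  rw [map_star, ← K.D.st, P.hC, star_zero]

theorem f_Tsx1 (g : G) (i : Fin 2) :
    K.D.f i (P.T g (star (cx 1))) = P.T g (star K.A) * P.J g 1 i := by
  rw [K.scx1_eq, map_add, map_mul, map_add, Derivation.leibniz, P.f_TsC, P.f_TsA, J1]
  simp

theorem e_Tx1 (g : G) (i : Fin 2) :
    K.D.e i (P.T g (cx 1)) = P.T g K.A * star (P.J g 1 i) := by
  have h := congrArg star (P.f_Tsx1 g i)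
  rw [K.D.sf, star_mul, ← map_star, ← map_star, star_star, star_star] at h
  rw [h]; ring

/-- the derivations of a composite, general combination -/
theorem f_T (g : G) (i : Fin 2) (u : SO) :
    K.D.f i (P.T g u) = P.J g 0 i * P.T g (K.D.f 0 u) + P.J g 1 i * P.T g (K.D.f 1 u) := by
  have key : K.D.f i (P.T g u) = ∑ m, (K.D.f i (P.T g (cx m)) * P.T g (wd m u)
      + K.D.f i (P.T g (star (cx m))) * P.T g (wb m u)) := by
    fin_cases i
    · exact P.wd_T g 1 u
    · change wd 0 (P.T g u) + star K.A * wb 1 (P.T g u) = ∑ m,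
        ((wd 0 (P.T g (cx m)) + star K.A * wb 1 (P.T g (cx m))) * P.T g (wd m u)
        + (wd 0 (P.T g (star (cx m))) + star K.A * wb 1 (P.T g (star (cx m)))) * P.T g (wb m u))
      rw [P.wd_T, P.wb_T]
      simp only [Fin.sum_univ_two]
      ring
  rw [key, Fin.sum_univ_two, P.f_Tsx, P.f_Tsx1, ← P.J0, ← P.J1]
  change _ = P.J g 0 i * P.T g (wd 1 u) + P.J g 1 i * P.T g (wd 0 u + star K.A * wb 1 u)
  rw [map_add, map_mul]
  ring

theorem e_T (g : G) (i : Fin 2) (u : SO) :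
    K.D.e i (P.T g u) = star (P.J g 0 i) * P.T g (K.D.e 0 u) + star (P.J g 1 i) * P.T g (K.D.e 1 u) := by
  have h := congrArg star (P.f_T g i (star u))
  have s1 : star (P.T g (star u)) = P.T g u := by rw [← map_star, star_star]
  have s2 : ∀ j, star (P.T g (K.D.f j (star u))) = P.T g (K.D.e j u) := fun j => by
    rw [← map_star, K.D.sf, star_star]
  rw [K.D.sf, s1, star_add, star_mul, star_mul, s2, s2] at h
  rw [h]; ring

theorem f_TM (g : G) (i : Fin 2) (u : MF F) :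
    K.mf i (P.TM g u) = P.J g 0 i • P.TM g (K.mf 0 u) + P.J g 1 i • P.TM g (K.mf 1 u) := by
  have key : K.mf i (P.TM g u) = ∑ m, (K.D.f i (P.T g (cx m)) • P.TM g (vwd m u)
      + K.D.f i (P.T g (star (cx m))) • P.TM g (vwb m u)) := by
    fin_cases i
    · exact P.vwd_T g 1 u
    · change vwd 0 (P.TM g u) + star K.A • vwb 1 (P.TM g u) = ∑ m,
        ((wd 0 (P.T g (cx m)) + star K.A * wb 1 (P.T g (cx m))) • P.TM g (vwd m u)
        + (wd 0 (P.T g (star (cx m))) + star K.A * wb 1 (P.T g (star (cx m)))) • P.TM g (vwb m u))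
      rw [P.vwd_T, P.vwb_T]
      simp only [Fin.sum_univ_two]
      module
  rw [key, Fin.sum_univ_two, P.f_Tsx, P.f_Tsx1, ← P.J0, ← P.J1]
  change _ = P.J g 0 i • P.TM g (vwd 1 u) + P.J g 1 i • P.TM g (vwd 0 u + star K.A • vwb 1 u)
  rw [map_add, P.TM_ksmul]
  module

theorem e_TM (g : G) (i : Fin 2) (u : MF F) :
    K.me i (P.TM g u) = star (P.J g 0 i) • P.TM g (K.me 0 u)
      + star (P.J g 1 i) • P.TM g (K.me 1 u) := by
  have key : K.me i (P.TM g u) = ∑ m, (K.D.e i (P.T g (cx m)) • P.TM g (vwd m u)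
      + K.D.e i (P.T g (star (cx m))) • P.TM g (vwb m u)) := by
    fin_cases i
    · exact P.vwb_T g 1 u
    · change vwb 0 (P.TM g u) + K.A • vwd 1 (P.TM g u) = ∑ m,
        ((wb 0 (P.T g (cx m)) + K.A * wd 1 (P.T g (cx m))) • P.TM g (vwd m u)
        + (wb 0 (P.T g (star (cx m))) + K.A * wd 1 (P.T g (star (cx m)))) • P.TM g (vwb m u))
      rw [P.vwd_T, P.vwb_T]
      simp only [Fin.sum_univ_two]
      module
  rw [key, Fin.sum_univ_two, P.hx, P.e_Tx1, ← P.sJ0, ← P.sJ1]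
  change _ = star (P.J g 0 i) • P.TM g (vwb 1 u) + star (P.J g 1 i) • P.TM g (vwb 0 u + K.A • vwd 1 u)
  rw [map_add, P.TM_ksmul]
  module

/-- Levi matrix of the antiholomorphic coordinates -/
theorem L_sx0 (g : G) (i j : Fin 2) : K.D.self.L (P.T g (star (cx 0))) i j = 0 :=
  K.D.self.L_of_f (fun i => P.f_Tsx g i) i j

theorem L_sx1 (g : G) (i j : Fin 2) : K.D.self.L (P.T g (star (cx 1))) i j =
    P.J g 1 i * (star (P.J g 0 j) * P.T g (star K.a) + star (P.J g 1 j) * P.T g (star K.k)) := by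
  have e1 : P.T g (star (cx 1)) = P.T g (star K.C) + P.T g (cx 0) * P.T g (star K.A) := by
    rw [← map_mul, ← map_add, ← K.scx1_eq]
  have e2 : K.D.self.L (P.T g (star (cx 1))) i j = K.D.self.L (P.T g (star K.C)) i j
      + K.D.self.L (P.T g (cx 0) * P.T g (star K.A)) i j := by
    rw [e1]; exact K.D.self.L_add _ _ i j
  rw [e2, K.D.self.L_of_f (fun i => P.f_TsC g i), FA.L_mul, K.D.self.L_of_f (fun i => P.f_TsA g i),
    K.D.self.L_of_e (fun i => P.hx g i), P.hx, P.f_TsA, ← P.J1, P.e_T, K.e0sA, K.e1sA]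
  ring

/-- **tensoriality of the Levi matrix** -/
theorem L_TM (g : G) (u : MF H) (i j : Fin 2) :
    (K.V H).L (P.TM g u) i j = ∑ k, ∑ l, (P.J g k i * star (P.J g l j)) • P.TM g ((K.V H).L u k l) := by
  have a0 : ∀ i j, K.D.f i (star (P.J g 0 j)) = K.D.f i (K.D.e j (P.T g (star (cx 1)))) :=
    fun i j => by rw [P.sJ0]
  have a1 : ∀ i j, K.D.f i (star (P.J g 1 j)) = K.D.f i (K.D.e j (P.T g (star (cx 0)))) :=
    fun i j => by rw [P.sJ1]
  have key : ∀ i j, K.mf i (K.me j (P.TM g u)) =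
      K.D.f i (star (P.J g 0 j)) • P.TM g (K.me 0 u) + K.D.f i (star (P.J g 1 j)) • P.TM g (K.me 1 u)
      + star (P.J g 0 j) • (P.J g 0 i • P.TM g (K.mf 0 (K.me 0 u)) + P.J g 1 i • P.TM g (K.mf 1 (K.me 0 u)))
      + star (P.J g 1 j) • (P.J g 0 i • P.TM g (K.mf 0 (K.me 1 u))
        + P.J g 1 i • P.TM g (K.mf 1 (K.me 1 u))) := by
    intro i j
    rw [P.e_TM, map_add]
    have l1 := (K.V H).lf i (star (P.J g 0 j)) (P.TM g (K.me 0 u))
    have l2 := (K.V H).lf i (star (P.J g 1 j)) (P.TM g (K.me 1 u))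
    change K.mf i (star (P.J g 0 j) • P.TM g (K.me 0 u)) = _ • _ + _ • K.mf i _ at l1
    change K.mf i (star (P.J g 1 j) • P.TM g (K.me 1 u)) = _ • _ + _ • K.mf i _ at l2
    rw [l1, l2, P.f_TM, P.f_TM]
    abel
  have b0 : ∀ i j, K.D.self.L (P.T g (star (cx 0))) i j = 0 := P.L_sx0 g
  have b1 := P.L_sx1 g
  simp only [Fin.sum_univ_two]
  have c00 : (K.V H).L u 0 0 = K.mf 0 (K.me 0 u) := rfl
  have c01 : (K.V H).L u 0 1 = K.mf 0 (K.me 1 u) := rfl
  have c10 : (K.V H).L u 1 0 = K.mf 1 (K.me 0 u) + star K.a • K.me 0 u := rfl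
  have c11 : (K.V H).L u 1 1 = K.mf 1 (K.me 1 u) + star K.k • K.me 0 u := rfl
  rw [c00, c01, c10, c11, map_add, map_add, P.TM_ksmul, P.TM_ksmul]
  fin_cases i <;> fin_cases j
  · have d0 := b0 0 0
    have d1 := b1 0 0
    change K.D.f 0 (K.D.e 0 (P.T g (star (cx 0)))) = 0 at d0
    change K.D.f 0 (K.D.e 0 (P.T g (star (cx 1)))) = _ at d1
    change K.mf 0 (K.me 0 (P.TM g u)) = _
    rw [key, a0, a1, d0, d1]
    simp only [Fin.zero_eta, Fin.mk_one, Fin.isValue]
    module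
  · have d0 := b0 0 1
    have d1 := b1 0 1
    change K.D.f 0 (K.D.e 1 (P.T g (star (cx 0)))) = 0 at d0
    change K.D.f 0 (K.D.e 1 (P.T g (star (cx 1)))) = _ at d1
    change K.mf 0 (K.me 1 (P.TM g u)) = _
    rw [key, a0, a1, d0, d1]
    simp only [Fin.zero_eta, Fin.mk_one, Fin.isValue]
    module
  · have d0 := b0 1 0
    have d1 := b1 1 0
    change K.D.f 1 (K.D.e 0 (P.T g (star (cx 0)))) + star K.a * K.D.e 0 (P.T g (star (cx 0))) = 0 at d0
    change K.D.f 1 (K.D.e 0 (P.T g (star (cx 1)))) + star K.a * K.D.e 0 (P.T g (star (cx 1))) = _ at d1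
    rw [← P.sJ1] at d0
    rw [← P.sJ0] at d1
    have d0' := eq_sub_of_add_eq d0
    have d1' := eq_sub_of_add_eq d1
    change K.mf 1 (K.me 0 (P.TM g u)) + star K.a • K.me 0 (P.TM g u) = _
    rw [key, d0', d1', P.e_TM]
    simp only [Fin.zero_eta, Fin.mk_one, Fin.isValue]
    module
  · have d0 := b0 1 1
    have d1 := b1 1 1
    change K.D.f 1 (K.D.e 1 (P.T g (star (cx 0)))) + star K.k * K.D.e 0 (P.T g (star (cx 0))) = 0 at d0
    change K.D.f 1 (K.D.e 1 (P.T g (star (cx 1)))) + star K.k * K.D.e 0 (P.T g (star (cx 1))) = _ at d1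
    rw [← P.sJ1 g 1] at d0
    rw [← P.sJ0 g 1] at d1
    rw [← P.sJ1 g 0] at d0
    rw [← P.sJ0 g 0] at d1
    have d0' := eq_sub_of_add_eq d0
    have d1' := eq_sub_of_add_eq d1
    change K.mf 1 (K.me 1 (P.TM g u)) + star K.k • K.me 0 (P.TM g u) = _
    rw [key, d0', d1', P.e_TM]
    simp only [Fin.zero_eta, Fin.mk_one, Fin.isValue]
    module

end KAct

end Pool.Agent.MPd01a95.CW
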