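import Mathlib
import Pool.Agent.Lib.MP_d01a95_gt_M.Defs
import Pool.Agent.Lib.MP_d01a95_gt_M.Sm
import Pool.Agent.Lib.MP_d01a95_gt_M.KerA
import Pool.Agent.Lib.MP_d01a95_gt_M.KerB
import Pool.Agent.Lib.MP_d01a95_gt_M.KerC
import Pool.Agent.Lib.MP_d01a95_gt_M.KerD
import Pool.Agent.Lib.MP_d01a95_gt_M.KerE
import Pool.Agent.Lib.MP_d01a95_gt_M.KerF

/-!
Project SU(2,2), part (2): change of variables on the Kerr chart (helper5).
-/

set_option autoImplicit false
set_option linter.all false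

open Filter Topology MeasureTheory
open scoped ContDiff ComplexConjugate

namespace Pool.Agent.MPd01a95.CW

/-- the shear of the frame -/
noncomputable def shr (A : ℂ) : E2 →ₗ[ℝ] E2 where
  toFun x := ![x 0, x 1 + A * conj (x 0)]
  map_add' x y := by
    funext i
    fin_cases i
    · simp
    · simp; ring
  map_smul' c x := by
    funext i
    fin_cases i
    · simp
    · simp; ring

theorem shr_0 (A : ℂ) (x : E2) : shr A x 0 = x 0 := rfl
theorem shr_1 (A : ℂ) (x : E2) : shr A x 1 = x 1 + A * conj (x 0) := rfl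

theorem shr_comp (A A' : ℂ) : (shr A).comp (shr A') = shr (A + A') := by
  apply LinearMap.ext
  intro x
  funext i
  fin_cases i
  · rfl
  · change shr A (shr A' x) 1 = shr (A + A') x 1
    rw [shr_1, shr_1, shr_0, shr_1]; ring

theorem shr_zero : shr 0 = LinearMap.id := by
  apply LinearMap.ext
  intro x
  funext i
  fin_cases i
  · rfl
  · change shr 0 x 1 = x 1
    rw [shr_1]; ring

/-- scaling of the second coordinate -/
noncomputable def scl (t : ℝ) : E2 →ₗ[ℝ] E2 where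
  toFun x := ![x 0, (t : ℂ) * x 1]
  map_add' x y := by
    funext i
    fin_cases i
    · simp
    · simp; ring
  map_smul' c x := by
    funext i
    fin_cases i
    · simp
    · simp; ring

theorem shr_conj (A : ℂ) : (scl 2).comp ((shr A).comp (scl (1 / 2))) = shr (2 * A) := by
  apply LinearMap.ext
  intro x
  funext i
  fin_cases i
  · rfl
  · change ((2 : ℝ) : ℂ) * (((1 / 2 : ℝ) : ℂ) * x 1 + A * conj (x 0)) = x 1 + 2 * A * conj (x 0)
    push_cast
    ring

theorem scl_comp : (scl 2).comp (scl (1 / 2)) = LinearMap.id := by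
  apply LinearMap.ext
  intro x
  funext i
  fin_cases i
  · rfl
  · change ((2 : ℝ) : ℂ) * (((1 / 2 : ℝ) : ℂ) * x 1) = x 1
    push_cast
    ring

theorem det_shr (A : ℂ) : LinearMap.det (shr A) = 1 := by
  have h1 : LinearMap.det (shr A) * LinearMap.det (shr A) = LinearMap.det (shr (2 * A)) := by
    rw [← LinearMap.det_comp, shr_comp, two_mul]
  have h2 : LinearMap.det (shr (2 * A)) = LinearMap.det (shr A) := by
    rw [← shr_conj, LinearMap.det_comp, LinearMap.det_comp]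
    have := congrArg LinearMap.det scl_comp
    rw [LinearMap.det_comp, LinearMap.det_id] at this
    calc LinearMap.det (scl 2) * (LinearMap.det (shr A) * LinearMap.det (scl (1 / 2)))
        = (LinearMap.det (scl 2) * LinearMap.det (scl (1 / 2))) * LinearMap.det (shr A) := by ring
      _ = _ := by rw [this, one_mul]
  have h3 : LinearMap.det (shr A) ≠ 0 := by
    intro h0
    have := congrArg LinearMap.det (shr_comp A (-A))
    rw [LinearMap.det_comp, h0, zero_mul, add_neg_cancel, shr_zero, LinearMap.det_id] at this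
    exact zero_ne_one this
  rw [h2] at h1
  exact mul_left_cancel₀ h3 (by rw [h1, mul_one])

/-- a complex linear map given by four entries -/
noncomputable def mlin (p q r s : ℂ) : E2 →ₗ[ℂ] E2 := Matrix.toLin' !![p, q; r, s]

theorem mlin_0 (p q r s : ℂ) (x : E2) : mlin p q r s x 0 = p * x 0 + q * x 1 := by
  simp [mlin, Matrix.toLin'_apply, Matrix.mulVec, dotProduct, Fin.sum_univ_two]

theorem mlin_1 (p q r s : ℂ) (x : E2) : mlin p q r s x 1 = r * x 0 + s * x 1 := by
  simp [mlin, Matrix.toLin'_apply, Matrix.mulVec, dotProduct, Fin.sum_univ_two]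

theorem det_mlin (p q r s : ℂ) :
    LinearMap.det ((mlin p q r s).restrictScalars ℝ) = ‖p * s - q * r‖ ^ 2 := by
  have h : LinearMap.det ((mlin p q r s).restrictScalars ℝ) =
      Algebra.norm ℝ (LinearMap.det (mlin p q r s)) := by
    rw [← LinearMap.det_restrictScalars]
  rw [h, Algebra.norm_complex_apply, Complex.normSq_eq_norm_sq, mlin, LinearMap.det_toLin',
    Matrix.det_fin_two_of]

namespace KAct

variable {K : KD} {G : Type} [Group G] (P : KAct K G)

/-- the Jacobian determinant in the frame -/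
noncomputable def dJ (g : G) : SO := P.J g 0 0 * P.J g 1 1 - P.J g 0 1 * P.J g 1 0

theorem kd_frame (u : SO) (v : E2) {z : E2} (hz : z ∈ Om) :
    xk (kd (shr (xk K.A z) v) u) z = v 1 * xk (K.D.f 0 u) z + v 0 * xk (K.D.f 1 u) z
      + conj (v 1) * xk (K.D.e 0 u) z + conj (v 0) * xk (K.D.e 1 u) z := by
  have h0 : xk (K.D.f 0 u) z = xk (wd 1 u) z := rfl
  have h1 : xk (K.D.f 1 u) z = xk (wd 0 u) z + star (xk K.A z) * xk (wb 1 u) z := by
    change xk (wd 0 u + star K.A * wb 1 u) z = _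
    rw [xk_add _ _ hz, xk_mul _ _ hz, xk_star _ hz]
  have h2 : xk (K.D.e 0 u) z = xk (wb 1 u) z := rfl
  have h3 : xk (K.D.e 1 u) z = xk (wb 0 u) z + xk K.A z * xk (wd 1 u) z := by
    change xk (wb 0 u + K.A * wd 1 u) z = _
    rw [xk_add _ _ hz, xk_mul _ _ hz]
  have hw : ∀ m, xk (wd m u) z = (1 / 2 : ℂ) • (fderiv ℝ (xk u) z (Pi.single m 1)
      - Complex.I • fderiv ℝ (xk u) z (Pi.single m Complex.I)) := by
    intro m
    rw [wd_apply, xk_smul _ _ hz, xk_sub _ _ hz, xk_smul _ _ hz, xk_kd _ _ hz, xk_kd _ _ hz]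
    rfl
  have hb : ∀ m, xk (wb m u) z = (1 / 2 : ℂ) • (fderiv ℝ (xk u) z (Pi.single m 1)
      + Complex.I • fderiv ℝ (xk u) z (Pi.single m Complex.I)) := by
    intro m
    rw [wb_apply, xk_smul _ _ hz, xk_add _ _ hz, xk_smul _ _ hz, xk_kd _ _ hz, xk_kd _ _ hz]
    rfl
  rw [xk_kd _ _ hz, clm_wirt, Fin.sum_univ_two, ← hw 0, ← hw 1, ← hb 0, ← hb 1, shr_0, shr_1, h0, h1,
    h2, h3, map_add, map_mul, Complex.conj_conj]
  simp only [smul_eq_mul]
  change _ = v 1 * xk (wd 1 u) z + v 0 * (xk (wd 0 u) z + conj (xk K.A z) * xk (wb 1 u) z) + _ + _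
  ring

theorem fd_frame (g : G) {z : E2} (hz : z ∈ Om) (v : E2) :
    fderiv ℝ (P.ac g) z (shr (xk K.A z) v) = shr (xk K.A (P.ac g z))
      (mlin (xk (P.J g 1 1) z) (xk (P.J g 1 0) z) (xk (P.J g 0 1) z) (xk (P.J g 0 0) z) v) := by
  have c0 := P.kd_cx g (shr (xk K.A z) v) 0 hz
  have c1 := P.kd_cx g (shr (xk K.A z) v) 1 hz
  rw [kd_frame _ _ hz] at c0 c1
  have e0 : K.D.e 0 (P.T g (cx 0)) = 0 := P.hx g 0
  have e1 : K.D.e 1 (P.T g (cx 0)) = 0 := P.hx g 1
  have e2 := P.e_Tx1 g 0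
  have e3 := P.e_Tx1 g 1
  rw [e0, e1, xk_zero hz, mul_zero, mul_zero, add_zero, add_zero, ← P.J1, ← P.J1] at c0
  rw [e2, e3, ← P.J0, ← P.J0, xk_mul _ _ hz, xk_mul _ _ hz, xk_star _ hz, xk_star _ hz,
    P.xk_T _ _ hz] at c1
  funext i
  fin_cases i
  · change fderiv ℝ (P.ac g) z (shr (xk K.A z) v) 0 = shr _ _ 0
    rw [← c0, shr_0, mlin_0]; ring
  · change fderiv ℝ (P.ac g) z (shr (xk K.A z) v) 1 = shr _ _ 1
    rw [← c1, shr_1, mlin_1, mlin_0, map_add, map_mul, map_mul]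
    change _ + conj (v 1) * (_ * conj (xk (P.J g 1 0) z)) + conj (v 0) * (_ * conj (xk (P.J g 1 1) z)) = _
    ring

theorem det_fd (g : G) {z : E2} (hz : z ∈ Om) :
    (fderiv ℝ (P.ac g) z : E2 →L[ℝ] E2).det = ‖xk (P.dJ g) z‖ ^ 2 := by
  have h : ((fderiv ℝ (P.ac g) z : E2 →L[ℝ] E2) : E2 →ₗ[ℝ] E2).comp (shr (xk K.A z)) =
      (shr (xk K.A (P.ac g z))).comp ((mlin (xk (P.J g 1 1) z) (xk (P.J g 1 0) z) (xk (P.J g 0 1) z)
        (xk (P.J g 0 0) z)).restrictScalars ℝ) := by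
    apply LinearMap.ext
    intro v
    exact P.fd_frame g hz v
  have h2 := congrArg LinearMap.det h
  rw [LinearMap.det_comp, LinearMap.det_comp, det_shr, det_shr, det_mlin, mul_one, one_mul] at h2
  change LinearMap.det ((fderiv ℝ (P.ac g) z : E2 →L[ℝ] E2) : E2 →ₗ[ℝ] E2) = _
  rw [h2, dJ, xk_sub _ _ hz, xk_mul _ _ hz, xk_mul _ _ hz]
  congr 2
  ring

theorem image_ac (g : G) : P.ac g '' Om = Om := by
  ext z
  constructor
  · rintro ⟨y, hy, rfl⟩
    exact P.mem g y hy
  · intro hz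
    exact ⟨P.ac g⁻¹ z, P.mem _ z hz, P.ac_inv g hz⟩

theorem inj_ac (g : G) : Set.InjOn (P.ac g) Om := by
  intro x hx y hy h
  rw [← P.inv_ac g hx, ← P.inv_ac g hy, h]

/-- change of variables -/
theorem cov {F : Type} [NormedAddCommGroup F] [NormedSpace ℝ F] (g : G) (f : E2 → F) :
    ∫ z in Om, f z = ∫ z in Om, (‖xk (P.dJ g) z‖ ^ 2) • f (P.ac g z) := by
  have h := integral_image_eq_integral_abs_det_fderiv_smul (μ := (volume : Measure E2))
    (s := Om) (f := P.ac g) (f' := fun z => fderiv ℝ (P.ac g) z)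
    isOpen_Om.measurableSet (fun z hz => (P.diff g hz).hasFDerivAt.hasFDerivWithinAt) (P.inj_ac g) f
  rw [P.image_ac] at h
  rw [h]
  refine setIntegral_congr_fun isOpen_Om.measurableSet fun z hz => ?_
  change |(fderiv ℝ (P.ac g) z : E2 →L[ℝ] E2).det| • f (P.ac g z) = _
  rw [P.det_fd g hz, abs_of_nonneg (by positivity)]

/-- change of variables for smooth functions -/
theorem IK_cov (g : G) (f : SO) : IK f = IK (P.dJ g * star (P.dJ g) * P.T g f) := by
  unfold IK
  rw [P.cov g]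
  refine setIntegral_congr_fun isOpen_Om.measurableSet fun z hz => ?_
  change (‖xk (P.dJ g) z‖ ^ 2) • xk f (P.ac g z) = _
  rw [xk_mul _ _ hz, xk_mul _ _ hz, xk_star _ hz, P.xk_T _ _ hz, Complex.real_smul]
  congr 1
  rw [← Complex.normSq_eq_norm_sq]
  exact (Complex.mul_conj _).symm

end KAct

end Pool.Agent.MPd01a95.CW
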