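import Mathlib
import Pool.Agent.Lib.MP_d01a95_gt_S.SDefs2
import Pool.Agent.Lib.MP_d01a95_gt_M.Sm
import Pool.Agent.Lib.MP_d01a95_gt_M.KerA
import Pool.Agent.Lib.MP_d01a95_gt_M.KerB
import Pool.Agent.Lib.MP_d01a95_gt_M.KerC
import Pool.Agent.Lib.MP_d01a95_gt_M.KerD
import Pool.Agent.Lib.MP_d01a95_gt_M.KerE
import Pool.Agent.Lib.MP_d01a95_gt_M.KerF
import Pool.Agent.Lib.MP_d01a95_gt_M.KerG

/-!
Project SU(2,2), part (2): bridge between `SDefs` (operators on functions) and the frame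
algebra of the Kerr chart (helper5).  Index `1` of `SDefs` is index `0` here and conversely.
-/

set_option autoImplicit false
set_option linter.all false

open Filter Topology MeasureTheory
open scoped ContDiff ComplexConjugate

namespace Pool.Agent.MPd01a95.CW

theorem Om_Up : Om = Up := rfl

section bridge

variable {F : Type} [NormedAddCommGroup F] [NormedSpace ℂ F]

theorem xk_wd_dd (k : Fin 2) (u : SO) {z : E2} (hz : z ∈ Om) : xk (wd k u) z = dd (xk u) k z := by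
  rw [wd_apply, xk_smul _ _ hz, xk_sub _ _ hz, xk_smul _ _ hz, xk_kd _ _ hz, xk_kd _ _ hz]
  rfl

theorem xk_wb_db (k : Fin 2) (u : SO) {z : E2} (hz : z ∈ Om) : xk (wb k u) z = db (xk u) k z := by
  rw [wb_apply, xk_smul _ _ hz, xk_add _ _ hz, xk_smul _ _ hz, xk_kd _ _ hz, xk_kd _ _ hz]
  rfl

theorem xm_vwd_dd (k : Fin 2) (u : MF F) {z : E2} (hz : z ∈ Om) : xm (vwd k u) z = ddV (xm u) k z := by
  rw [vwd_apply, xm_smul _ _ hz, xm_sub _ _ hz, xm_smul _ _ hz, xm_vd _ _ hz, xm_vd _ _ hz]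
  rfl

theorem xm_vwb_db (k : Fin 2) (u : MF F) {z : E2} (hz : z ∈ Om) : xm (vwb k u) z = dbV (xm u) k z := by
  rw [vwb_apply, xm_smul _ _ hz, xm_add _ _ hz, xm_smul _ _ hz, xm_vd _ _ hz, xm_vd _ _ hz]
  rfl

theorem dd_congr {f g : E2 → ℂ} {z : E2} (h : f =ᶠ[𝓝 z] g) (k : Fin 2) : dd f k z = dd g k z := by
  simp only [dd, h.fderiv_eq]

theorem db_congr {f g : E2 → ℂ} {z : E2} (h : f =ᶠ[𝓝 z] g) (k : Fin 2) : db f k z = db g k z := by
  simp only [db, h.fderiv_eq]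

theorem ddV_congr {f g : E2 → F} {z : E2} (h : f =ᶠ[𝓝 z] g) (k : Fin 2) : ddV f k z = ddV g k z := by
  simp only [ddV, h.fderiv_eq]

theorem dbV_congr {f g : E2 → F} {z : E2} (h : f =ᶠ[𝓝 z] g) (k : Fin 2) : dbV f k z = dbV g k z := by
  simp only [dbV, h.fderiv_eq]

theorem mkK_ev {f : E2 → ℂ} (hf : ContDiffOn ℝ ∞ f Om) {z : E2} (hz : z ∈ Om) :
    xk (mkK f hf) =ᶠ[𝓝 z] f := evK_eq (fun y hy => xk_mkK f hf hy) hz

theorem mkM_ev {f : E2 → F} (hf : ContDiffOn ℝ ∞ f Om) {z : E2} (hz : z ∈ Om) :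
    xm (mkM f hf) =ᶠ[𝓝 z] f := evK_eq (fun y hy => xm_mkM f hf hy) hz

/-- the Kerr data of a solution of the Burgers equation -/
noncomputable def kdOf {A : C2 → ℂ} (hA : BA Up A) : KD where
  A := mkK A hA.sm
  h1 := K_ext fun z hz => by
    rw [xk_wb_db _ _ hz, db_congr (mkK_ev hA.sm hz), hA.h1 z hz, xk_zero hz]
  h2 := K_ext fun z hz => by
    rw [xk_add _ _ hz, xk_mul _ _ hz, xk_wb_db _ _ hz, xk_wd_dd _ _ hz, db_congr (mkK_ev hA.sm hz),
      dd_congr (mkK_ev hA.sm hz), xk_mkK _ _ hz, hA.h0 z hz, xk_zero hz]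

/-- the flip of the index -/
def fl (a : Fin 2) : Fin 2 := if a = 1 then 0 else 1

theorem fl0 : fl 0 = 1 := rfl
theorem fl1 : fl 1 = 0 := rfl
theorem fl_fl (a : Fin 2) : fl (fl a) = a := by fin_cases a <;> rfl

variable {A : C2 → ℂ} (hA : BA Up A)

theorem xk_A {z : E2} (hz : z ∈ Om) : xk (kdOf hA).A z = A z := xk_mkK _ hA.sm hz

theorem xm_me (u : MF F) (c : Fin 2) {z : E2} (hz : z ∈ Om) :
    xm ((kdOf hA).me (fl c) u) z = WV A c (xm u) z := by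
  fin_cases c
  · change xm (vwb 0 u + (kdOf hA).A • vwd 1 u) z = _
    rw [xm_add _ _ hz, xm_ksmul _ _ hz, xm_vwb_db _ _ hz, xm_vwd_dd _ _ hz, xk_A hA hz]
    rfl
  · change xm (vwb 1 u) z = _
    rw [xm_vwb_db _ _ hz]
    rfl

theorem xm_mf (u : MF F) (c : Fin 2) {z : E2} (hz : z ∈ Om) :
    xm ((kdOf hA).mf (fl c) u) z = WbV A c (xm u) z := by
  fin_cases c
  · change xm (vwd 0 u + star (kdOf hA).A • vwb 1 u) z = _
    rw [xm_add _ _ hz, xm_ksmul _ _ hz, xm_vwb_db _ _ hz, xm_vwd_dd _ _ hz, xk_star _ hz, xk_A hA hz]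
    rfl
  · change xm (vwd 1 u) z = _
    rw [xm_vwd_dd _ _ hz]
    rfl

theorem xk_e (u : SO) (c : Fin 2) {z : E2} (hz : z ∈ Om) :
    xk ((kdOf hA).D.e (fl c) u) z = W A c (xk u) z := by
  fin_cases c
  · change xk (wb 0 u + (kdOf hA).A * wd 1 u) z = _
    rw [xk_add _ _ hz, xk_mul _ _ hz, xk_wb_db _ _ hz, xk_wd_dd _ _ hz, xk_A hA hz]
    rfl
  · change xk (wb 1 u) z = _
    rw [xk_wb_db _ _ hz]
    rfl

theorem xk_f (u : SO) (c : Fin 2) {z : E2} (hz : z ∈ Om) :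
    xk ((kdOf hA).D.f (fl c) u) z = Wb A c (xk u) z := by
  fin_cases c
  · change xk (wd 0 u + star (kdOf hA).A * wb 1 u) z = _
    rw [xk_add _ _ hz, xk_mul _ _ hz, xk_wb_db _ _ hz, xk_wd_dd _ _ hz, xk_star _ hz, xk_A hA hz]
    rfl
  · change xk (wd 1 u) z = _
    rw [xk_wd_dd _ _ hz]
    rfl

theorem WVc (A : C2 → ℂ) {f g : E2 → F} {z : E2} (h : f =ᶠ[𝓝 z] g) (c : Fin 2) :
    WV A c f z = WV A c g z := by
  simp only [WV, dbV_congr h, ddV_congr h]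

theorem WbVc (A : C2 → ℂ) {f g : E2 → F} {z : E2} (h : f =ᶠ[𝓝 z] g) (c : Fin 2) :
    WbV A c f z = WbV A c g z := by
  simp only [WbV, dbV_congr h, ddV_congr h]

theorem Wc (A : C2 → ℂ) {f g : E2 → ℂ} {z : E2} (h : f =ᶠ[𝓝 z] g) (c : Fin 2) :
    W A c f z = W A c g z := by
  simp only [W, db_congr h, dd_congr h]

theorem Wbc (A : C2 → ℂ) {f g : E2 → ℂ} {z : E2} (h : f =ᶠ[𝓝 z] g) (c : Fin 2) :
    Wb A c f z = Wb A c g z := by
  simp only [Wb, db_congr h, dd_congr h]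

theorem xk_a {z : E2} (hz : z ∈ Om) : xk (kdOf hA).a z = dd A 1 z := by
  rw [KD.a, xk_wd_dd _ _ hz]
  exact dd_congr (mkK_ev hA.sm hz) 1

theorem xk_k {z : E2} (hz : z ∈ Om) : xk (kdOf hA).k z = dd A 0 z := by
  rw [KD.k, xk_wd_dd _ _ hz]
  exact dd_congr (mkK_ev hA.sm hz) 0

/-- the Levi matrix of scalar functions -/
theorem xk_L (u : SO) (a c : Fin 2) {z : E2} (hz : z ∈ Om) :
    xk ((kdOf hA).D.self.L u (fl a) (fl c)) z = HC A a c (xk u) z := by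
  have key : ∀ a c, W A c (fun y => Wb A a (xk u) y) z = xk ((kdOf hA).D.e (fl c) ((kdOf hA).D.f (fl a) u)) z := by
    intro a c
    rw [xk_e hA _ _ hz]
    exact Wc A ((evK_eq (fun y hy => xk_f hA u a hy) hz).symm) c
  fin_cases a <;> fin_cases c
  · change xk ((kdOf hA).D.self.L u 1 1) z = W A 0 (fun y => Wb A 0 (xk u) y) z + dd A 0 z * Wb A 1 (xk u) z
    rw [FM.L11', key, ← xk_f hA u 1 hz, ← xk_k hA hz, ← xk_mul _ _ hz, ← xk_add _ _ hz]
    rfl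
  · change xk ((kdOf hA).D.self.L u 1 0) z = W A 1 (fun y => Wb A 0 (xk u) y) z + 0 * Wb A 1 (xk u) z
    rw [FM.L10', key, zero_mul, add_zero]
    rfl
  · change xk ((kdOf hA).D.self.L u 0 1) z = W A 0 (fun y => Wb A 1 (xk u) y) z + dd A 1 z * Wb A 1 (xk u) z
    rw [FM.L01', key, ← xk_f hA u 1 hz, ← xk_a hA hz, ← xk_mul _ _ hz, ← xk_add _ _ hz]
    rfl
  · change xk ((kdOf hA).D.self.L u 0 0) z = W A 1 (fun y => Wb A 1 (xk u) y) z + 0 * Wb A 1 (xk u) z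
    rw [FM.L00', key, zero_mul, add_zero]
    rfl

/-- the Levi matrix of vector valued functions -/
theorem xm_L {H : Type} [NormedAddCommGroup H] [InnerProductSpace ℂ H] (u : MF H) (a c : Fin 2)
    {z : E2} (hz : z ∈ Om) :
    xm (((kdOf hA).V H).L u (fl a) (fl c)) z = HV A a c (xm u) z := by
  have key : ∀ a c, WV A c (fun y => WbV A a (xm u) y) z = xm ((kdOf hA).me (fl c) ((kdOf hA).mf (fl a) u)) z := by
    intro a c
    rw [xm_me hA _ _ hz]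
    exact WVc A ((evK_eq (fun y hy => xm_mf hA u a hy) hz).symm) c
  fin_cases a <;> fin_cases c
  · change xm (((kdOf hA).V H).L u 1 1) z = WV A 0 (fun y => WbV A 0 (xm u) y) z + dd A 0 z • WbV A 1 (xm u) z
    rw [FM.L11', key, ← xm_mf hA u 1 hz, ← xk_k hA hz, ← xm_ksmul _ _ hz, ← xm_add _ _ hz]
    rfl
  · change xm (((kdOf hA).V H).L u 1 0) z = WV A 1 (fun y => WbV A 0 (xm u) y) z + (0 : ℂ) • WbV A 1 (xm u) z
    rw [FM.L10', key, zero_smul, add_zero]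
    rfl
  · change xm (((kdOf hA).V H).L u 0 1) z = WV A 0 (fun y => WbV A 1 (xm u) y) z + dd A 1 z • WbV A 1 (xm u) z
    rw [FM.L01', key, ← xm_mf hA u 1 hz, ← xk_a hA hz, ← xm_ksmul _ _ hz, ← xm_add _ _ hz]
    rfl
  · change xm (((kdOf hA).V H).L u 0 0) z = WV A 1 (fun y => WbV A 1 (xm u) y) z + (0 : ℂ) • WbV A 1 (xm u) z
    rw [FM.L00', key, zero_smul, add_zero]
    rfl

theorem HVc (A : C2 → ℂ) {f g : E2 → F} {z : E2} (h : f =ᶠ[𝓝 z] g) (a c : Fin 2) :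
    HV A a c f z = HV A a c g z := by
  have h1 : (fun y => WbV A a f y) =ᶠ[𝓝 z] fun y => WbV A a g y := by
    filter_upwards [h.eventually_nhds] with y hy using WbVc A hy a
  simp only [HV, WVc A h1, WbVc A h]

theorem HCc (A : C2 → ℂ) {f g : E2 → ℂ} {z : E2} (h : f =ᶠ[𝓝 z] g) (a c : Fin 2) :
    HC A a c f z = HC A a c g z := by
  have h1 : (fun y => Wb A a f y) =ᶠ[𝓝 z] fun y => Wb A a g y := by
    filter_upwards [h.eventually_nhds] with y hy using Wbc A hy a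
  simp only [HC, Wc A h1, Wbc A h]

end bridge

end Pool.Agent.MPd01a95.CW
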