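import Mathlib
import Pool.Agent.Lib.MP_d01a95_gt_M.Defs
import Pool.Agent.Lib.MP_d01a95_gt_M.Sm
import Pool.Agent.Lib.MP_d01a95_gt_M.KerA
import Pool.Agent.Lib.MP_d01a95_gt_M.KerB
import Pool.Agent.Lib.MP_d01a95_gt_M.KerC
import Pool.Agent.Lib.MP_d01a95_gt_M.KerD
import Pool.Agent.Lib.MP_d01a95_gt_M.KerE
import Pool.Agent.Lib.MP_d01a95_gt_M.KerF
import Pool.Agent.Lib.MP_d01a95_gt_M.KerG

/-!
Project SU(2,2), part (2): cutoff functions and Stokes by unfolding (helper5).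
-/

set_option autoImplicit false
set_option linter.all false

open Filter Topology MeasureTheory
open scoped ContDiff ComplexConjugate

namespace Pool.Agent.MPd01a95.CW

/-- the properties of the cutoff function -/
structure CutK {G : Type} [Group G] (P : PAct G) (χ : SO) : Prop where
  supp : ∃ C : Set E2, IsCompact C ∧ C ⊆ Om ∧ SC C χ
  real : ∀ z ∈ Om, ∃ t : ℝ, 0 ≤ t ∧ xk χ z = t
  sum : ∀ C : Set E2, IsCompact C → C ⊆ Om → ∃ F₀ : Finset G, ∀ F : Finset G, F₀ ⊆ F → ∀ z ∈ C,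
    ∑ γ ∈ F, xk χ (P.ac γ z) = 1
  pos : ∀ z ∈ Om, ∃ γ : G, xk χ (P.ac γ z) ≠ 0

/-- bump functions on the half space -/
theorem exists_bumpK {C : Set E2} (hC : IsCompact C) (hCO : C ⊆ Om) :
    ∃ b : E2 → ℝ, ContDiff ℝ ∞ b ∧ (∀ z, 0 ≤ b z) ∧ (∀ z ∈ C, 0 < b z) ∧
      ∃ C' : Set E2, IsCompact C' ∧ C' ⊆ Om ∧ ∀ z, b z ≠ 0 → z ∈ C' := by
  have h1 : ∀ x ∈ C, ∃ f : E2 → ℝ, tsupport f ⊆ Om ∧ HasCompactSupport f ∧ ContDiff ℝ ∞ f ∧
      Set.range f ⊆ Set.Icc 0 1 ∧ f x = 1 := fun x hx =>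
    exists_contDiff_tsupport_subset (n := ⊤) (isOpen_Om.mem_nhds (hCO hx))
  choose! f hf1 hf2 hf3 hf4 hf5 using h1
  have h2 : ∀ x ∈ C, {y | 0 < f x y} ∈ 𝓝 x := fun x hx =>
    (isOpen_lt continuous_const (hf3 x hx).continuous).mem_nhds (by
      change 0 < f x x; rw [hf5 x hx]; exact one_pos)
  obtain ⟨t, ht, hcov⟩ := hC.elim_nhds_subcover (fun x => {y | 0 < f x y}) h2
  have hnn : ∀ x ∈ C, ∀ y, 0 ≤ f x y := fun x hx y => (hf4 x hx ⟨y, rfl⟩).1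
  refine ⟨fun z => ∑ x ∈ t, f x z, ContDiff.sum fun x hx => hf3 x (ht x hx),
    fun z => Finset.sum_nonneg fun x hx => hnn x (ht x hx) z, fun z hz => ?_,
    ⋃ x ∈ t, tsupport (f x), t.finite_toSet.isCompact_biUnion fun x hx => hf2 x (ht x hx),
    Set.iUnion₂_subset fun x hx => hf1 x (ht x hx), fun z hz => ?_⟩
  · obtain ⟨x, hx, hzx⟩ := Set.mem_iUnion₂.mp (hcov hz)
    exact Finset.sum_pos' (fun x hx => hnn x (ht x hx) z) ⟨x, hx, hzx⟩
  · obtain ⟨x, hx, hne⟩ := Finset.exists_ne_zero_of_sum_ne_zero hz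
    exact Set.mem_iUnion₂.mpr ⟨x, hx, subset_tsupport _ hne⟩

variable {G : Type} [Group G]

theorem PAct.finite_meet (P : PAct G) {C D : Set E2} (hC : IsCompact C) (hCO : C ⊆ Om)
    (hD : IsCompact D) (hDO : D ⊆ Om) : {g : G | ∃ p ∈ C, P.ac g p ∈ D}.Finite := by
  refine (P.proper (C ∪ D) (hC.union hD) (Set.union_subset hCO hDO)).subset ?_
  rintro g ⟨p, hp, hg⟩
  exact ⟨p, Or.inl hp, Or.inr hg⟩

theorem exists_cutK (P : PAct G) : ∃ χ : SO, CutK P χ := by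
  obtain ⟨C0, hC0, hC0O, hcov⟩ := P.coc
  obtain ⟨b, hbs, hb0, hbpos, C', hC', hC'O, hbC'⟩ := exists_bumpK hC0 hC0O
  have hfin : ∀ C : Set E2, IsCompact C → C ⊆ Om → {γ : G | ∃ z ∈ C, P.ac γ z ∈ C'}.Finite :=
    fun C hC hCO => P.finite_meet hC hCO hC' hC'O
  set u : G → E2 → ℝ := fun γ z => b (P.ac γ z) with hu
  set Su : E2 → ℝ := fun z => ∑ᶠ γ, u γ z with hSu
  have hsupp : ∀ C : Set E2, IsCompact C → C ⊆ Om → ∀ z ∈ C,
      (Function.support fun γ => u γ z) ⊆ {γ : G | ∃ z ∈ C, P.ac γ z ∈ C'} := by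
    intro C hC hCO z hz γ hγ
    exact ⟨z, hz, hbC' _ hγ⟩
  have hfs : ∀ z ∈ Om, (Function.support fun γ => u γ z).Finite := fun z hz =>
    (hfin {z} isCompact_singleton (by simpa using hz)).subset
      (hsupp {z} isCompact_singleton (by simpa using hz) z rfl)
  have hpos : ∀ z ∈ Om, 0 < Su z := by
    intro z hz
    obtain ⟨γ, hγ⟩ := hcov z hz
    have h1 : 0 < u γ z := hbpos _ hγ
    refine lt_of_lt_of_le h1 ?_
    exact single_le_finsum γ (hfs z hz) fun γ' => hb0 _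
  have hinv : ∀ γ, ∀ z ∈ Om, Su (P.ac γ z) = Su z := by
    intro γ z hz
    simp only [hSu]
    have : (fun γ' => u γ' (P.ac γ z)) = (fun γ' => u γ' z) ∘ (Equiv.mulRight γ) := by
      funext γ'
      simp only [hu, Function.comp_apply, Equiv.coe_mulRight]
      rw [P.mul _ _ _ hz]
    rw [this]
    exact finsum_comp_equiv (Equiv.mulRight γ) (f := fun γ' => u γ' z)
  have hsum : ∀ (C : Set E2) (hC : IsCompact C) (hCO : C ⊆ Om) (F : Finset G),
      (hfin C hC hCO).toFinset ⊆ F → ∀ z ∈ C, Su z = ∑ γ ∈ F, u γ z := by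
    intro C hC hCO F hF z hz
    simp only [hSu]
    apply finsum_eq_sum_of_support_subset
    intro γ hγ
    exact hF ((hfin C hC hCO).mem_toFinset.mpr (hsupp C hC hCO z hz hγ))
  have husm : ∀ γ, ContDiffOn ℝ ∞ (u γ) Om := fun γ =>
    hbs.comp_contDiffOn (P.sm γ)
  have hSsm : ContDiffOn ℝ ∞ Su Om := by
    intro z hz
    obtain ⟨C, hC, hzC, hCO⟩ := exists_compact_subset isOpen_Om hz
    have h1 : ContDiffWithinAt ℝ ∞ (fun y => ∑ γ ∈ (hfin C hC hCO).toFinset, u γ y) Om z :=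
      ContDiffWithinAt.sum fun γ _ => husm γ z hz
    refine h1.congr_of_eventuallyEq ?_ (hsum C hC hCO _ subset_rfl z (interior_subset hzC))
    filter_upwards [mem_nhdsWithin_of_mem_nhds (mem_interior_iff_mem_nhds.mp hzC)] with y hy
    exact hsum C hC hCO _ subset_rfl y hy
  have hχsm : ContDiffOn ℝ ∞ (fun z => ((b z / Su z : ℝ) : ℂ)) Om := by
    have h1 : ContDiffOn ℝ ∞ (fun z => b z / Su z) Om :=
      hbs.contDiffOn.div hSsm fun z hz => (hpos z hz).ne'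
    exact Complex.ofRealCLM.contDiff.comp_contDiffOn h1
  refine ⟨mkK _ hχsm, ⟨C', hC', hC'O, fun z hne => ?_⟩, fun z hz => ⟨b z / Su z,
    div_nonneg (hb0 _) (hpos z hz).le, xk_mkK _ _ hz⟩, fun C hC hCO => ?_, fun z hz => ?_⟩
  · by_contra hc
    apply hne
    by_cases hz : z ∈ Om
    · rw [xk_mkK _ _ hz]
      have : b z = 0 := by
        by_contra h
        exact hc (hbC' z h)
      rw [this, zero_div, Complex.ofReal_zero]
    · exact xk_off _ hz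
  · refine ⟨(hfin C hC hCO).toFinset, fun F hF z hz => ?_⟩
    have h1 : ∀ γ, xk (mkK _ hχsm) (P.ac γ z) = ((u γ z / Su z : ℝ) : ℂ) := by
      intro γ
      rw [xk_mkK _ _ (P.mem _ _ (hCO hz)), hinv γ z (hCO hz)]
    simp only [h1]
    rw [← Complex.ofReal_sum, ← Finset.sum_div, ← hsum C hC hCO F hF z hz,
      div_self (hpos z (hCO hz)).ne', Complex.ofReal_one]
  · obtain ⟨γ, hγ⟩ := hcov z hz
    refine ⟨γ, ?_⟩
    rw [xk_mkK _ _ (P.mem _ _ hz), hinv γ z hz]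
    have h2 := div_pos (hbpos _ hγ) (hpos z hz)
    exact_mod_cast h2.ne'

/-- the form `∂̄φ ∧ c` -/
noncomputable def WK (K : KD) (c : Fin 2 → SO) (φ : SO) : SO := K.D.e 1 φ * c 0 - K.D.e 0 φ * c 1

theorem WK_T {K : KD} (P : KAct K G) (g : G) (c : Fin 2 → SO)
    (hc : ∀ l, c l = P.dJ g * ∑ n, star (P.J g n l) * P.T g (c n)) (φ : SO) :
    WK K c (P.T g φ) = P.dJ g * star (P.dJ g) * P.T g (WK K c φ) := by
  have h0 := P.e_T g 0 φ
  have h1 := P.e_T g 1 φ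
  have a0 := hc 0
  have a1 := hc 1
  simp only [Fin.sum_univ_two] at a0 a1
  simp only [WK, map_sub, map_mul]
  rw [h0, h1]
  have e : star (P.dJ g) = star (P.J g 0 0) * star (P.J g 1 1) - star (P.J g 0 1) * star (P.J g 1 0) := by
    rw [KAct.dJ, star_sub, star_mul', star_mul']
  rw [e]
  generalize P.T g (c 0) = x0 at *
  generalize P.T g (c 1) = x1 at *
  rw [a0, a1]
  ring

theorem fderiv_const_nhds {f : E2 → ℂ} {z : E2} {c : ℂ} (h : f =ᶠ[𝓝 z] fun _ => c) :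
    fderiv ℝ f z = 0 := by rw [h.fderiv_eq]; simp

theorem wd_zero_of {φ : SO} {z : E2} (hz : z ∈ Om) {c : ℂ} (h : xk φ =ᶠ[𝓝 z] fun _ => c) (k : Fin 2) :
    xk (wd k φ) z = 0 := by
  rw [wd_apply, xk_smul _ _ hz, xk_sub _ _ hz, xk_smul _ _ hz, xk_kd _ _ hz, xk_kd _ _ hz,
    fderiv_const_nhds h]
  simp

theorem wb_zero_of {φ : SO} {z : E2} (hz : z ∈ Om) {c : ℂ} (h : xk φ =ᶠ[𝓝 z] fun _ => c) (k : Fin 2) :
    xk (wb k φ) z = 0 := by
  rw [wb_apply, xk_smul _ _ hz, xk_add _ _ hz, xk_smul _ _ hz, xk_kd _ _ hz, xk_kd _ _ hz,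
    fderiv_const_nhds h]
  simp

theorem e_zero_of (K : KD) {φ : SO} {z : E2} (hz : z ∈ Om) {c : ℂ} (h : xk φ =ᶠ[𝓝 z] fun _ => c)
    (i : Fin 2) : xk (K.D.e i φ) z = 0 := by
  fin_cases i
  · exact wb_zero_of hz h 1
  · change xk (wb 0 φ + K.A * wd 1 φ) z = 0
    rw [xk_add _ _ hz, xk_mul _ _ hz, wb_zero_of hz h, wd_zero_of hz h]
    simp

theorem WK_zero {K : KD} {c : Fin 2 → SO} {φ : SO} {z : E2} (hz : z ∈ Om)
    (h : xk φ =ᶠ[𝓝 z] fun _ => 1) : xk (WK K c φ) z = 0 := by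
  rw [WK, xk_sub _ _ hz, xk_mul _ _ hz, xk_mul _ _ hz, e_zero_of K hz h, e_zero_of K hz h]
  simp

theorem WK_add (K : KD) (c : Fin 2 → SO) (φ ψ : SO) : WK K c (φ + ψ) = WK K c φ + WK K c ψ := by
  simp only [WK, map_add]; ring

theorem WK_sum (K : KD) (c : Fin 2 → SO) {ι : Type} (F : Finset ι) (φ : ι → SO) :
    WK K c (∑ i ∈ F, φ i) = ∑ i ∈ F, WK K c (φ i) := by
  classical
  induction F using Finset.induction_on with
  | empty => simp [WK]
  | insert a F ha ih => rw [Finset.sum_insert ha, Finset.sum_insert ha, WK_add, ih]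

theorem xk_sum {ι : Type} (F : Finset ι) (φ : ι → SO) {z : E2} (hz : z ∈ Om) :
    xk (∑ i ∈ F, φ i) z = ∑ i ∈ F, xk (φ i) z := by
  classical
  induction F using Finset.induction_on with
  | empty => simp [xk_zero hz]
  | insert a F ha ih => rw [Finset.sum_insert ha, Finset.sum_insert ha, xk_add _ _ hz, ih]

theorem SC.IK_sum {C : Set E2} (hC : IsCompact C) (hCO : C ⊆ Om) {ι : Type} (F : Finset ι)
    (φ : ι → SO) (h : ∀ i ∈ F, SC C (φ i)) : IK (∑ i ∈ F, φ i) = ∑ i ∈ F, IK (φ i) := by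
  have e : IK (∑ i ∈ F, φ i) = ∫ z in Om, ∑ i ∈ F, xk (φ i) z :=
    setIntegral_congr_fun isOpen_Om.measurableSet fun z hz => xk_sum _ _ hz
  rw [e, integral_finset_sum]
  · rfl
  · intro i hi
    exact ((h i hi).integrable hC hCO).integrableOn

/-- **Stokes by unfolding** -/
theorem stokesK {K : KD} (P : KAct K G) {χ : SO} (hχ : CutK P.toPAct χ) (c : Fin 2 → SO)
    (hc : ∀ g, ∀ l, c l = P.dJ g * ∑ n, star (P.J g n l) * P.T g (c n)) :
    IK (χ * (K.D.e 1 (c 0) + K.D.a * c 0 - K.D.e 0 (c 1))) = 0 := by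
  classical
  obtain ⟨C, hC, hCO, hS⟩ := hχ.supp
  have s0 := hS.e hC K 0
  have s1 := hS.e hC K 1
  have hW : SC C (WK K c χ) := (s1.mul (c 0)).sub (s0.mul (c 1))
  have h1 : IK (WK K c χ) = - IK (χ * (K.D.e 1 (c 0) + K.D.a * c 0 - K.D.e 0 (c 1))) := by
    have e1 := (hS.mul (c 0)).int_e1 hC hCO K
    have e0 := (hS.mul (c 1)).int_e0 hC hCO K
    have t1 : SC C (K.D.e 1 (χ * c 0) + K.D.a * (χ * c 0)) :=
      ((hS.mul (c 0)).e hC K 1).add ((hS.mul (c 0)).mul' K.D.a)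
    have t0 := (hS.mul (c 1)).e hC K 0
    have t2 : SC C (χ * (K.D.e 1 (c 0) + K.D.a * c 0 - K.D.e 0 (c 1))) := hS.mul _
    have e : WK K c χ = (K.D.e 1 (χ * c 0) + K.D.a * (χ * c 0) - K.D.e 0 (χ * c 1))
        - χ * (K.D.e 1 (c 0) + K.D.a * c 0 - K.D.e 0 (c 1)) := by
      simp only [WK, Derivation.leibniz, smul_eq_mul]
      ring
    rw [e, (t1.sub t0).IK_sub hC hCO t2, t1.IK_sub hC hCO t0, e1, e0]
    ring
  obtain ⟨F₀, hF₀⟩ := hχ.sum C hC hCO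
  obtain ⟨C1, hC1, hCC1, hC1O⟩ := exists_compact_between hC isOpen_Om hCO
  obtain ⟨F₁, hF₁⟩ := hχ.sum C1 hC1 hC1O
  set F2 : Finset G := F₀ ∪ F₁ with hF2
  set F : Finset G := F2 ∪ F2.image (fun γ => γ⁻¹) with hF
  have hFinv : F.image (fun γ => γ⁻¹) = F := by
    rw [hF, Finset.image_union, Finset.image_image]
    have : ((fun γ : G => γ⁻¹) ∘ fun γ : G => γ⁻¹) = id := by
      funext γ; simp
    rw [this, Finset.image_id, Finset.union_comm]
  have hFsum : ∀ z ∈ C1, ∑ γ ∈ F, xk χ (P.ac γ z) = 1 :=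
    hF₁ F (Finset.subset_union_right.trans Finset.subset_union_left)
  have hFsum' : ∀ z ∈ C1, ∑ γ ∈ F, xk χ (P.ac γ⁻¹ z) = 1 := by
    intro z hz
    rw [← hFsum z hz]
    conv_rhs => rw [← hFinv]
    rw [Finset.sum_image fun x _ y _ h => inv_injective h]
  have h2 : IK (WK K c χ) = ∑ γ ∈ F, IK (WK K c χ * P.T γ χ) := by
    rw [← SC.IK_sum hC hCO F _ fun γ _ => hW.mul _]
    congr 1
    apply K_ext
    intro z hz
    rw [xk_sum _ _ hz]
    simp only [xk_mul _ _ hz, P.xk_T _ _ hz]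
    rw [← Finset.mul_sum]
    by_cases h : z ∈ C1
    · rw [hFsum z h, mul_one]
    · rw [hW.zero fun hc => h (interior_subset (hCC1 hc)), zero_mul]
  have h3 : ∀ γ, IK (WK K c χ * P.T γ χ) = IK (WK K c (P.T γ⁻¹ χ) * χ) := by
    intro γ
    rw [P.IK_cov γ⁻¹, map_mul, ← P.T_mul, mul_inv_cancel, P.T_one, ← mul_assoc, ← WK_T P γ⁻¹ c (hc γ⁻¹)]
  have h4 : ∑ γ ∈ F, IK (WK K c (P.T γ⁻¹ χ) * χ) = IK (WK K c (∑ γ ∈ F, P.T γ⁻¹ χ) * χ) := by
    rw [← SC.IK_sum hC hCO F _ fun γ _ => hS.mul' _, WK_sum, Finset.sum_mul]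
  have h5 : WK K c (∑ γ ∈ F, P.T γ⁻¹ χ) * χ = 0 := by
    apply K_ext
    intro z hz
    rw [xk_mul _ _ hz, xk_zero hz]
    by_cases h : xk χ z = 0
    · rw [h, mul_zero]
    · have hz2 : z ∈ interior C1 := hCC1 (hS z h)
      rw [WK_zero hz, zero_mul]
      filter_upwards [mem_interior_iff_mem_nhds.mp hz2, isOpen_Om.mem_nhds hz] with y hy hyB
      rw [xk_sum _ _ hyB]
      simp only [P.xk_T _ _ hyB]
      exact hFsum' y hy
  have h6 : IK (0 : SO) = 0 := by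
    have := IK_smul 0 (0 : SO)
    rwa [zero_smul, zero_mul] at this
  rw [h2, Finset.sum_congr rfl fun γ _ => h3 γ, h4, h5, h6] at h1
  linear_combination h1

end Pool.Agent.MPd01a95.CW
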