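import Mathlib
import Pool.Agent.Lib.MP_d01a95_gt_S.SDefs2
import Pool.Agent.Lib.MP_d01a95_gt_M.Sm
import Pool.Agent.Lib.MP_d01a95_gt_M.KerA
import Pool.Agent.Lib.MP_d01a95_gt_M.KerB
import Pool.Agent.Lib.MP_d01a95_gt_M.KerC
import Pool.Agent.Lib.MP_d01a95_gt_M.KerD
import Pool.Agent.Lib.MP_d01a95_gt_M.KerE
import Pool.Agent.Lib.MP_d01a95_gt_M.KerF
import Pool.Agent.Lib.MP_d01a95_gt_M.KerG
import Pool.Agent.Lib.MP_d01a95_gt_M.KerH
import Pool.Agent.Lib.MP_d01a95_gt_M.KerI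
import Pool.Agent.Lib.MP_d01a95_gt_M.Br

/-!
Project SU(2,2), part (2): the action of a `Kerr` structure as a `KAct` (helper5).
-/

set_option autoImplicit false
set_option linter.all false

open Filter Topology MeasureTheory Matrix
open scoped ContDiff ComplexConjugate

namespace Pool.Agent.MPd01a95.CW

/-- the homogeneous coordinates as smooth functions -/
noncomputable def PS (K : KD) : Fin 4 → SO := ![K.A, K.C, cx 0, 1]

theorem e_PS (K : KD) (j : Fin 2) (a : Fin 4) : K.D.e j (PS K a) = 0 := by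
  fin_cases a
  · exact K.e_A j
  · exact K.e_C j
  · exact K.e_cx0 j
  · exact (K.D.e j).map_one_eq_zero

theorem xk_PS {A : C2 → ℂ} (hA : BA Up A) (a : Fin 4) {z : E2} (hz : z ∈ Om) :
    xk (PS (kdOf hA) a) z = vv A z a := by
  fin_cases a
  · exact xk_A hA hz
  · change xk (cx 1 - star (cx 0) * (kdOf hA).A) z = z 1 - star (z 0) * A z
    rw [xk_sub _ _ hz, xk_mul _ _ hz, xk_star _ hz, xk_cx _ hz, xk_cx _ hz, xk_A hA hz]
  · exact xk_cx 0 hz
  · exact xk_one hz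

variable {G : Type} [Group G] {σ : G →* GU (Fin 2)} (K : Kerr σ)

/-- the lifted coordinates -/
noncomputable def rh (γ : G) (a : Fin 4) : SO := ∑ b, K.R γ a b • PS (kdOf K.ba) b

theorem e_rh (γ : G) (a : Fin 4) (j : Fin 2) : (kdOf K.ba).D.e j (rh K γ a) = 0 := by
  rw [rh, map_sum]
  refine Finset.sum_eq_zero fun b _ => ?_
  rw [Derivation.map_smul, e_PS, smul_zero]

theorem xk_rh (γ : G) (a : Fin 4) {z : E2} (hz : z ∈ Om) :
    xk (rh K γ a) z = (K.R γ *ᵥ vv K.A z) a := by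
  rw [rh, xk_sum _ _ hz]
  simp only [xk_smul _ _ hz, xk_PS K.ba _ hz]
  rfl

theorem rh_al (γ : G) {z : E2} (hz : z ∈ Om) : xk (rh K γ 3) z ≠ 0 ∧
    ∀ a, vv K.A (K.al γ z) a * xk (rh K γ 3) z = xk (rh K γ a) z := by
  obtain ⟨c, hc, h⟩ := K.lift γ z hz
  have h3 := congrFun h 3
  have h3' : (1 : ℂ) = c * (K.R γ *ᵥ vv K.A z) 3 := h3
  have hne : (K.R γ *ᵥ vv K.A z) 3 ≠ 0 := by
    intro h0
    rw [h0, mul_zero] at h3'
    exact one_ne_zero h3'
  rw [xk_rh K γ 3 hz]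
  refine ⟨hne, fun a => ?_⟩
  rw [xk_rh K γ a hz]
  have ha := congrFun h a
  rw [ha, Pi.smul_apply, smul_eq_mul]
  linear_combination (-(K.R γ *ᵥ vv K.A z) a) * h3'

theorem al_eq (γ : G) {z : E2} (hz : z ∈ Om) :
    K.al γ z = ![xk (rh K γ 2) z / xk (rh K γ 3) z, xk (rh K γ 1) z / xk (rh K γ 3) z
      + conj (xk (rh K γ 2) z / xk (rh K γ 3) z) * (xk (rh K γ 0) z / xk (rh K γ 3) z)] := by
  obtain ⟨hne, h⟩ := rh_al K γ hz
  have h0 := h 0
  have h1 := h 1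
  have h2 := h 2
  have e0 : K.A (K.al γ z) = xk (rh K γ 0) z / xk (rh K γ 3) z := by
    rw [eq_div_iff hne]; exact h0
  have e2 : K.al γ z 0 = xk (rh K γ 2) z / xk (rh K γ 3) z := by
    rw [eq_div_iff hne]; exact h2
  have e1 : K.al γ z 1 - star (K.al γ z 0) * K.A (K.al γ z) = xk (rh K γ 1) z / xk (rh K γ 3) z := by
    rw [eq_div_iff hne]; exact h1
  funext i
  fin_cases i
  · exact e2
  · change K.al γ z 1 = xk (rh K γ 1) z / xk (rh K γ 3) z
      + conj (xk (rh K γ 2) z / xk (rh K γ 3) z) * (xk (rh K γ 0) z / xk (rh K γ 3) z)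
    rw [← e1, ← e2, ← e0]
    change K.al γ z 1 = K.al γ z 1 - conj (K.al γ z 0) * K.A (K.al γ z) + conj (K.al γ z 0) * K.A (K.al γ z)
    ring

theorem al_smooth (γ : G) : ContDiffOn ℝ ∞ (K.al γ) Om := by
  have hd : ∀ a, ContDiffOn ℝ ∞ (fun z => xk (rh K γ a) z / xk (rh K γ 3) z) Om := fun a => by
    simp only [div_eq_mul_inv]
    exact (xk_sm (rh K γ a)).mul ((xk_sm (rh K γ 3)).inv fun z hz => (rh_al K γ hz).1)
  have h2 : ContDiffOn ℝ ∞ (fun z => conj (xk (rh K γ 2) z / xk (rh K γ 3) z)) Om :=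
    (Complex.conjCLE.contDiff (n := ∞)).comp_contDiffOn (hd 2)
  have h : ContDiffOn ℝ ∞ (fun z : E2 => (![xk (rh K γ 2) z / xk (rh K γ 3) z,
      xk (rh K γ 1) z / xk (rh K γ 3) z + conj (xk (rh K γ 2) z / xk (rh K γ 3) z)
        * (xk (rh K γ 0) z / xk (rh K γ 3) z)] : E2)) Om := by
    rw [contDiffOn_pi]
    intro i
    fin_cases i
    · exact hd 2
    · exact (hd 1).add (h2.mul (hd 0))
  exact h.congr fun z hz => al_eq K γ hz

/-- the smooth action -/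
noncomputable def pact : PAct G where
  ac := K.al
  mem := K.maps
  one := K.one
  mul := K.mul
  sm := al_smooth K
  proper C hC hCO := K.proper C hCO hC
  coc := by
    obtain ⟨C, h1, h2, h3⟩ := K.coc
    exact ⟨C, h2, h1, h3⟩

theorem T_PS (γ : G) (a : Fin 4) : (pact K).T γ (PS (kdOf K.ba) a) * rh K γ 3 = rh K γ a := by
  apply K_ext
  intro z hz
  have hg := K.maps γ z hz
  rw [xk_mul _ _ hz, (pact K).xk_T _ _ hz]
  change xk (PS (kdOf K.ba) a) (K.al γ z) * _ = _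
  rw [xk_PS K.ba a hg]
  exact (rh_al K γ hz).2 a

theorem e_T_PS (γ : G) (a : Fin 4) (j : Fin 2) :
    (kdOf K.ba).D.e j ((pact K).T γ (PS (kdOf K.ba) a)) = 0 := by
  have h := congrArg ((kdOf K.ba).D.e j) (T_PS K γ a)
  rw [Derivation.leibniz, e_rh, e_rh, smul_zero, zero_add] at h
  apply K_ext
  intro z hz
  have h2 := congrArg (fun u => xk u z) h
  simp only [smul_eq_mul, xk_mul _ _ hz, xk_zero hz] at h2
  rw [xk_zero hz]
  exact (mul_eq_zero.mp h2).resolve_left (rh_al K γ hz).1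

/-- the holomorphic action -/
noncomputable def kact : KAct (kdOf K.ba) G where
  toPAct := pact K
  hx g i := e_T_PS K g 2 i
  hA g i := e_T_PS K g 0 i
  hC g i := e_T_PS K g 1 i

/-- a function whose inverse exists -/
theorem exists_invK (f : SO) (hf : ∀ z ∈ Om, xk f z ≠ 0) : ∃ g : SO, f * g = 1 := by
  refine ⟨mkK (fun z => (xk f z)⁻¹) ((xk_sm f).inv hf), K_ext fun z hz => ?_⟩
  rw [xk_mul _ _ hz, xk_mkK _ _ hz, xk_one hz, mul_inv_cancel₀ (hf z hz)]

end Pool.Agent.MPd01a95.CW
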