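import Mathlib

/-!
Project SU(2,2), part (2): the logarithmic kernel of the ball, series (helper5).
-/

set_option autoImplicit false
set_option linter.all false

open Finset

namespace Pool.Agent.MPd01a95.CW

/-- the weight `(i + j - 1)! / (i! j!)` (zero at the origin) -/
noncomputable def wt (p : ℕ × ℕ) : ℝ := ((p.1 + p.2).choose p.1 : ℝ) / ((p.1 + p.2 : ℕ) : ℝ)

theorem wt_nonneg (p : ℕ × ℕ) : 0 ≤ wt p := by unfold wt; positivity

theorem wt_pos {p : ℕ × ℕ} (h : p ≠ 0) : 0 < wt p := by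
  unfold wt
  have h1 : 0 < p.1 + p.2 := by
    by_contra h2
    apply h
    ext
    · simp; omega
    · simp; omega
  have h2 : 0 < (p.1 + p.2).choose p.1 := Nat.choose_pos (Nat.le_add_right _ _)
  positivity

theorem wt_antidiag (a b : ℂ) (n : ℕ) :
    ∑ p ∈ HasAntidiagonal.antidiagonal n, (wt p : ℂ) * a ^ p.1 * b ^ p.2 = (a + b) ^ n / n := by
  rw [(Commute.all a b).add_pow', Finset.sum_div]
  refine Finset.sum_congr rfl fun p hp => ?_
  rw [Finset.HasAntidiagonal.mem_antidiagonal] at hp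
  simp only [wt, hp, nsmul_eq_mul]
  push_cast
  ring

theorem wt_antidiag_real (a b : ℝ) (n : ℕ) :
    ∑ p ∈ HasAntidiagonal.antidiagonal n, wt p * a ^ p.1 * b ^ p.2 = (a + b) ^ n / n := by
  have h := wt_antidiag a b n
  exact_mod_cast h

theorem summable_real {a b : ℝ} (ha : 0 ≤ a) (hb : 0 ≤ b) (h : a + b < 1) :
    Summable fun p : ℕ × ℕ => wt p * a ^ p.1 * b ^ p.2 := by
  rw [← (Finset.HasAntidiagonal.sigmaAntidiagonalEquivProd (A := ℕ)).summable_iff]
  rw [summable_sigma_of_nonneg]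
  · refine ⟨fun n => Summable.of_finite, ?_⟩
    have e : (fun n : ℕ => ∑' p : HasAntidiagonal.antidiagonal n,
        (((fun p : ℕ × ℕ => wt p * a ^ p.1 * b ^ p.2) ∘ (Finset.HasAntidiagonal.sigmaAntidiagonalEquivProd (A := ℕ))) ⟨n, p⟩))
        = fun n : ℕ => (a + b) ^ n / n := by
      funext n
      rw [← wt_antidiag_real, tsum_fintype]
      simp only [Function.comp, Finset.HasAntidiagonal.sigmaAntidiagonalEquivProd_apply]
      exact Finset.sum_coe_sort (HasAntidiagonal.antidiagonal n) fun p : ℕ × ℕ => wt p * a ^ p.1 * b ^ p.2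
    rw [e]
    have h1 : Summable fun n : ℕ => (a + b) ^ n := summable_geometric_of_lt_one (by positivity) h
    refine Summable.of_nonneg_of_le (fun n => by positivity) (fun n => ?_) h1
    rcases Nat.eq_zero_or_pos n with rfl | hn
    · simp
    · have : (1 : ℝ) ≤ n := by exact_mod_cast hn
      exact div_le_self (by positivity) this
  · intro p
    have := wt_nonneg
    simp only [Function.comp]
    have h1 := wt_nonneg ((Finset.HasAntidiagonal.sigmaAntidiagonalEquivProd (A := ℕ)) p)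
    positivity

theorem summable_norm {a b : ℂ} (h : ‖a‖ + ‖b‖ < 1) :
    Summable fun p : ℕ × ℕ => ‖(wt p : ℂ) * a ^ p.1 * b ^ p.2‖ := by
  have h1 := summable_real (norm_nonneg a) (norm_nonneg b) h
  refine h1.congr fun p => ?_
  rw [norm_mul, norm_mul, norm_pow, norm_pow, Complex.norm_real, Real.norm_eq_abs,
    abs_of_nonneg (wt_nonneg p)]

theorem hasSum_log2 {a b : ℂ} (h : ‖a‖ + ‖b‖ < 1) :
    HasSum (fun p : ℕ × ℕ => (wt p : ℂ) * a ^ p.1 * b ^ p.2) (-Complex.log (1 - (a + b))) := by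
  have hs : Summable fun p : ℕ × ℕ => (wt p : ℂ) * a ^ p.1 * b ^ p.2 := (summable_norm h).of_norm
  have h2 := hs.hasSum
  rw [← (Finset.HasAntidiagonal.sigmaAntidiagonalEquivProd (A := ℕ)).hasSum_iff] at h2
  have h3 : HasSum (fun n : ℕ => (a + b) ^ n / n)
      (∑' p : ℕ × ℕ, (wt p : ℂ) * a ^ p.1 * b ^ p.2) := by
    refine h2.sigma fun n => ?_
    have h4 := hasSum_fintype fun p : HasAntidiagonal.antidiagonal n =>
      (((fun p : ℕ × ℕ => (wt p : ℂ) * a ^ p.1 * b ^ p.2) ∘
        (Finset.HasAntidiagonal.sigmaAntidiagonalEquivProd (A := ℕ))) ⟨n, p⟩)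
    have e : ∑ p : HasAntidiagonal.antidiagonal n, (((fun p : ℕ × ℕ => (wt p : ℂ) * a ^ p.1 * b ^ p.2) ∘
        (Finset.HasAntidiagonal.sigmaAntidiagonalEquivProd (A := ℕ))) ⟨n, p⟩) = (a + b) ^ n / n := by
      rw [← wt_antidiag]
      simp only [Function.comp, Finset.HasAntidiagonal.sigmaAntidiagonalEquivProd_apply]
      exact Finset.sum_coe_sort (HasAntidiagonal.antidiagonal n) fun p : ℕ × ℕ => (wt p : ℂ) * a ^ p.1 * b ^ p.2
    rw [e] at h4
    exact h4
  have h5 : ‖a + b‖ < 1 := (norm_add_le _ _).trans_lt h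
  have h6 := h3.unique (Complex.hasSum_taylorSeries_neg_log h5)
  rw [← h6]
  exact hs.hasSum

end Pool.Agent.MPd01a95.CW
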