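import Mathlib
import Pool.Agent.Lib.MP_d01a95_gt.Defs
import Pool.Agent.Lib.MP_d01a95_gt.Low
import Pool.Agent.Lib.MP_d01a95_gt_H.GU
import Pool.Agent.Lib.MP_d01a95_gt_M.Defs
import Pool.Agent.Lib.MP_d01a95_gt_M.Sm
import Pool.Agent.Lib.MP_d01a95_gt_M.Act
import Pool.Agent.Lib.MP_d01a95_gt_M.HilA

/-!
Project SU(2,2), part (2): the Hilbert space of the logarithmic kernel (helper5).
-/

set_option autoImplicit false
set_option linter.all false

open Matrix Filter Topology
open scoped ContDiff ComplexConjugate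

namespace Pool.Agent.MPd01a95.CW

/-- the form `⟨w, z⟩`, antilinear in `w` -/
noncomputable def ip (w z : E2) : ℂ := ∑ i, conj (w i) * z i

theorem ip_conj (w z : E2) : conj (ip w z) = ip z w := by
  simp only [ip, map_sum, map_mul, Complex.conj_conj]
  exact Finset.sum_congr rfl fun i _ => mul_comm _ _

theorem norm_ip_lt {w z : E2} (hw : w ∈ B) (hz : z ∈ B) :
    ‖conj (w 0) * z 0‖ + ‖conj (w 1) * z 1‖ < 1 := by
  have h1 : ‖w 0‖ ^ 2 + ‖w 1‖ ^ 2 < 1 := by simpa [B, Fin.sum_univ_two] using hw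
  have h2 : ‖z 0‖ ^ 2 + ‖z 1‖ ^ 2 < 1 := by simpa [B, Fin.sum_univ_two] using hz
  rw [norm_mul, norm_mul, RCLike.norm_conj, RCLike.norm_conj]
  nlinarith [sq_nonneg (‖w 0‖ - ‖z 0‖), sq_nonneg (‖w 1‖ - ‖z 1‖)]

theorem norm_ip_lt' {w z : E2} (hw : w ∈ B) (hz : z ∈ B) : ‖ip w z‖ < 1 := by
  have h := norm_ip_lt hw hz
  rw [ip, Fin.sum_univ_two]
  exact (norm_add_le _ _).trans_lt h

/-- the logarithmic kernel -/
noncomputable def LK (w z : E2) : ℂ := -Complex.log (1 - ip w z)

/-- the big space -/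
abbrev H0 : Type := lp (fun _ : ℕ × ℕ => ℂ) 2

noncomputable local instance : Inner ℂ H0 := InnerProductSpace.toInner

/-- the coefficients -/
noncomputable def bf (z : E2) (p : ℕ × ℕ) : ℂ := (Real.sqrt (wt p) : ℂ) * z 0 ^ p.1 * z 1 ^ p.2

theorem bf_mul (w z : E2) (p : ℕ × ℕ) :
    conj (bf w p) * bf z p = (wt p : ℂ) * (conj (w 0) * z 0) ^ p.1 * (conj (w 1) * z 1) ^ p.2 := by
  have h : (Real.sqrt (wt p) : ℂ) * (Real.sqrt (wt p) : ℂ) = (wt p : ℂ) := by
    rw [← Complex.ofReal_mul, Real.mul_self_sqrt (wt_nonneg p)]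
  simp only [bf, map_mul, map_pow, Complex.conj_ofReal]
  rw [← h]
  ring

theorem bf_mem {z : E2} (hz : z ∈ B) : Memℓp (bf z) 2 := by
  have h1 := summable_norm (norm_ip_lt hz hz)
  refine memℓp_gen ?_
  refine h1.congr fun p => ?_
  rw [← bf_mul, norm_mul, RCLike.norm_conj]
  simp only [ENNReal.toReal_ofNat, Real.rpow_ofNat]
  exact (sq _).symm

/-- the embedding of the ball in the big space -/
noncomputable def bb0 (z : E2) : H0 :=
  open Classical in if h : z ∈ B then ⟨bf z, bf_mem h⟩ else 0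

theorem bb0_apply {z : E2} (hz : z ∈ B) (p : ℕ × ℕ) : bb0 z p = bf z p := by
  rw [bb0, dif_pos hz]

theorem inner_bb0 {w z : E2} (hw : w ∈ B) (hz : z ∈ B) : inner ℂ (bb0 w) (bb0 z) = LK w z := by
  have h := hasSum_log2 (norm_ip_lt hw hz)
  have h2 := lp.hasSum_inner (𝕜 := ℂ) (bb0 w) (bb0 z)
  have e : (fun p : ℕ × ℕ => inner ℂ (bb0 w p) (bb0 z p))
      = fun p => (wt p : ℂ) * (conj (w 0) * z 0) ^ p.1 * (conj (w 1) * z 1) ^ p.2 := by
    funext p
    rw [bb0_apply hw, bb0_apply hz, ← bf_mul, RCLike.inner_apply, mul_comm]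
  rw [e] at h2
  rw [h2.unique h, LK, ip, Fin.sum_univ_two]

/-- the Hilbert space of the logarithmic kernel -/
noncomputable def HS : Submodule ℂ H0 := (Submodule.span ℂ (bb0 '' B)).topologicalClosure

theorem bb0_mem (z : E2) : bb0 z ∈ HS := by
  by_cases hz : z ∈ B
  · exact Submodule.le_topologicalClosure _ (Submodule.subset_span ⟨z, hz, rfl⟩)
  · rw [bb0, dif_neg hz]
    exact HS.zero_mem

def HH : Type := HS

noncomputable instance : NormedAddCommGroup HH := inferInstanceAs (NormedAddCommGroup HS)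
noncomputable instance : InnerProductSpace ℂ HH := inferInstanceAs (InnerProductSpace ℂ HS)
noncomputable instance : CompleteSpace HH :=
  (Submodule.isClosed_topologicalClosure (Submodule.span ℂ (bb0 '' B))).completeSpace_coe

/-- the inclusion -/
noncomputable def HH.sub : HH →ₗᵢ[ℂ] H0 := HS.subtypeₗᵢ

/-- the embedding of the ball -/
noncomputable def bb (z : E2) : HH := ⟨bb0 z, bb0_mem z⟩

theorem sub_bb (z : E2) : HH.sub (bb z) = bb0 z := rfl

theorem inner_bb {w z : E2} (hw : w ∈ B) (hz : z ∈ B) : inner ℂ (bb w) (bb z) = LK w z := by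
  rw [← HH.sub.inner_map_map, sub_bb, sub_bb]
  exact inner_bb0 hw hz

/-- totality -/
theorem span_bb : (Submodule.span ℂ (bb '' B)).topologicalClosure = ⊤ := by
  rw [Submodule.eq_top_iff']
  intro x
  have hx' : HH.sub x ∈ closure ((Submodule.span ℂ (bb0 '' B) : Submodule ℂ H0) : Set H0) := x.2
  change x ∈ closure ((Submodule.span ℂ (bb '' B) : Submodule ℂ HH) : Set HH)
  have e : (Submodule.span ℂ (bb0 '' B) : Submodule ℂ H0)
      = (Submodule.span ℂ (bb '' B)).map HH.sub.toLinearMap := by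
    rw [Submodule.map_span, ← Set.image_comp]
    rfl
  rw [e, Submodule.map_coe] at hx'
  rw [HH.sub.isometry.isEmbedding.closure_eq_preimage_closure_image]
  exact hx'

theorem ext_inner_bb {x y : HH} (h : ∀ z ∈ B, inner ℂ x (bb z) = inner ℂ y (bb z)) : x = y := by
  have h1 : ∀ v ∈ Submodule.span ℂ (bb '' B), inner ℂ (x - y) v = 0 := by
    intro v hv
    induction hv using Submodule.span_induction with
    | mem v hv =>
      obtain ⟨z, hz, rfl⟩ := hv
      rw [inner_sub_left, h z hz, sub_self]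
    | zero => exact inner_zero_right _
    | add v w _ _ h1 h2 => rw [inner_add_right, h1, h2, add_zero]
    | smul c v _ h1 => rw [inner_smul_right, h1, mul_zero]
  have h2 : ∀ v : HH, inner ℂ (x - y) v = 0 := by
    have hc : IsClosed {v : HH | inner ℂ (x - y) v = 0} :=
      isClosed_eq (continuous_const.inner continuous_id) continuous_const
    intro v
    have hv : v ∈ (Submodule.span ℂ (bb '' B)).topologicalClosure := by rw [span_bb]; trivial
    exact (closure_minimal (fun v hv => h1 v hv) hc) hv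
  have h3 := h2 (x - y)
  rw [inner_self_eq_zero] at h3
  exact sub_eq_zero.mp h3

/-- every monomial without constant term is an element -/
theorem exists_mono {p : ℕ × ℕ} (hp : p ≠ 0) :
    ∃ ξ : HH, ∀ z ∈ B, inner ℂ ξ (bb z) = z 0 ^ p.1 * z 1 ^ p.2 := by
  classical
  have hw := wt_pos hp
  have hs : (Real.sqrt (wt p) : ℂ) ≠ 0 := by exact_mod_cast (Real.sqrt_pos.mpr hw).ne'
  haveI : CompleteSpace HS := inferInstanceAs (CompleteSpace HH)
  refine ⟨(HS.orthogonalProjection (lp.single 2 p ((Real.sqrt (wt p) : ℂ)⁻¹)) : HS), fun z hz => ?_⟩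
  have h1 := Submodule.inner_orthogonalProjection_eq_of_mem_right (K := HS) (⟨bb0 z, bb0_mem z⟩ : HS)
    (lp.single 2 p ((Real.sqrt (wt p) : ℂ)⁻¹) : H0)
  refine h1.trans ?_
  refine (lp.inner_single_left (𝕜 := ℂ) p ((Real.sqrt (wt p) : ℂ)⁻¹) (bb0 z)).trans ?_
  rw [bb0_apply hz, bf, RCLike.inner_apply]
  simp only [map_inv₀, Complex.conj_ofReal]
  field_simp

theorem exists_poly (ι : Type) [Fintype ι] (c : ι → ℂ) (p : ι → ℕ × ℕ) (hp : ∀ i, p i ≠ 0) :
    ∃ ξ : HH, ∀ z ∈ B, inner ℂ ξ (bb z) = ∑ i, c i * (z 0 ^ (p i).1 * z 1 ^ (p i).2) := by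
  choose ξ hξ using fun i => exists_mono (hp i)
  refine ⟨∑ i, conj (c i) • ξ i, fun z hz => ?_⟩
  rw [sum_inner]
  refine Finset.sum_congr rfl fun i _ => ?_
  rw [inner_smul_left, hξ i z hz, Complex.conj_conj]

end Pool.Agent.MPd01a95.CW
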