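import Mathlib
import Pool.Agent.Lib.MP_d01a95_gt.Defs
import Pool.Agent.Lib.MP_d01a95_gt.Low
import Pool.Agent.Lib.MP_d01a95_gt_H.GU
import Pool.Agent.Lib.MP_d01a95_gt_M.Defs
import Pool.Agent.Lib.MP_d01a95_gt_M.Sm
import Pool.Agent.Lib.MP_d01a95_gt_M.Act
import Pool.Agent.Lib.MP_d01a95_gt_M.CutB
import Pool.Agent.Lib.MP_d01a95_gt_M.HilA
import Pool.Agent.Lib.MP_d01a95_gt_M.HilB

/-!
Project SU(2,2), part (2): the affine isometric action on the Hilbert space (helper5).
-/

set_option autoImplicit false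
set_option linter.all false

open Matrix Filter Topology
open scoped ContDiff ComplexConjugate

namespace Pool.Agent.MPd01a95.CW

section isom

variable {H K : Type} [NormedAddCommGroup H] [InnerProductSpace ℂ H] [CompleteSpace H]
  [NormedAddCommGroup K] [InnerProductSpace ℂ K] [CompleteSpace K] {ι : Type}

theorem norm_lin_eq {v : ι → H} {w : ι → K}
    (hg : ∀ i j, inner ℂ (v i) (v j) = inner ℂ (w i) (w j)) (c : ι →₀ ℂ) :
    ‖Finsupp.linearCombination ℂ w c‖ = ‖Finsupp.linearCombination ℂ v c‖ := by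
  have h : inner ℂ (Finsupp.linearCombination ℂ w c) (Finsupp.linearCombination ℂ w c)
      = inner ℂ (Finsupp.linearCombination ℂ v c) (Finsupp.linearCombination ℂ v c) := by
    simp only [Finsupp.linearCombination_apply, Finsupp.sum, sum_inner, inner_sum,
      inner_smul_left, inner_smul_right, hg]
  rw [inner_self_eq_norm_sq_to_K, inner_self_eq_norm_sq_to_K] at h
  have h2 : ‖Finsupp.linearCombination ℂ w c‖ ^ 2 = ‖Finsupp.linearCombination ℂ v c‖ ^ 2 := by
    exact_mod_cast h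
  exact (pow_left_inj₀ (norm_nonneg _) (norm_nonneg _) two_ne_zero).mp h2

/-- equal Gram matrices are related by an isometry -/
theorem exists_isom {v : ι → H} {w : ι → K}
    (hg : ∀ i j, inner ℂ (v i) (v j) = inner ℂ (w i) (w j))
    (hd : (Submodule.span ℂ (Set.range v)).topologicalClosure = ⊤) :
    ∃ U : H →ₗᵢ[ℂ] K, ∀ i, U (v i) = w i := by
  set e := Finsupp.linearCombination ℂ v with he
  set f := Finsupp.linearCombination ℂ w with hf
  have hde : DenseRange e := by
    have h1 : Set.range e = (Submodule.span ℂ (Set.range v) : Set H) := by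
      rw [← Finsupp.range_linearCombination, LinearMap.coe_range]
    rw [DenseRange, h1]
    intro x
    have : x ∈ (Submodule.span ℂ (Set.range v)).topologicalClosure := by rw [hd]; trivial
    exact this
  have hn : ∀ c, ‖f c‖ = ‖e c‖ := norm_lin_eq hg
  have hn1 : ∀ c, ‖f c‖ ≤ 1 * ‖e c‖ := fun c => by rw [one_mul, hn]
  have hU : ∀ c, f.extendOfNorm e (e c) = f c := LinearMap.extendOfNorm_eq hde ⟨1, hn1⟩
  have hU2 : ∀ x, ‖f.extendOfNorm e x‖ = ‖x‖ := by
    intro x
    refine hde.induction_on (p := fun x => ‖f.extendOfNorm e x‖ = ‖x‖) x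
      (isClosed_eq (by fun_prop) (by fun_prop)) fun c => ?_
    rw [hU, hn]
  refine ⟨⟨(f.extendOfNorm e).toLinearMap, hU2⟩, fun i => ?_⟩
  have h := hU (Finsupp.single i 1)
  simp only [he, hf, Finsupp.linearCombination_single, one_smul] at h
  exact h

end isom

/-- the matrix form -/
noncomputable def fm (v w : Fin 2 ⊕ Unit → ℂ) : ℂ :=
  conj (v (Sum.inr ())) * w (Sum.inr ()) - ∑ i, conj (v (Sum.inl i)) * w (Sum.inl i)

theorem fm_vz (z w : E2) : fm (vz z) (vz w) = 1 - ip z w := by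
  simp [fm, vz, ip]

theorem fm_smul (c d : ℂ) (v w : Fin 2 ⊕ Unit → ℂ) : fm (c • v) (d • w) = conj c * d * fm v w := by
  simp only [fm, Pi.smul_apply, smul_eq_mul, map_mul, mul_sub, Finset.mul_sum]
  congr 1
  · ring
  · exact Finset.sum_congr rfl fun i _ => by ring

theorem fm_eq (v w : Fin 2 ⊕ Unit → ℂ) : fm v w = - (star v ⬝ᵥ (JC (Fin 2) *ᵥ w)) := by
  simp [fm, JC, dotProduct, Matrix.mulVec, Matrix.fromBlocks, Matrix.one_apply, Fin.sum_univ_two]
  ring

theorem fm_act (g : GU (Fin 2)) (v w : Fin 2 ⊕ Unit → ℂ) : fm (g.M *ᵥ v) (g.M *ᵥ w) = fm v w := by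
  rw [fm_eq, fm_eq]
  congr 1
  have h := g.pres
  rw [Matrix.star_mulVec, Matrix.mulVec_mulVec, ← Matrix.dotProduct_mulVec, Matrix.mulVec_mulVec,
    ← Matrix.mul_assoc, h]

theorem ip_act (g : GU (Fin 2)) {z w : E2} (hz : z ∈ B) (hw : w ∈ B) :
    1 - ip z w = conj (den g z) * den g w * (1 - ip (act g.M z) (act g.M w)) := by
  rw [← fm_vz, ← fm_act g, vz_act g hz, vz_act g hw, fm_smul, fm_vz]

end Pool.Agent.MPd01a95.CW
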