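import Mathlib
import Pool.Agent.Lib.MP_d01a95_gt.Defs
import Pool.Agent.Lib.MP_d01a95_gt.Low
import Pool.Agent.Lib.MP_d01a95_gt_H.GU
import Pool.Agent.Lib.MP_d01a95_gt_M.Defs
import Pool.Agent.Lib.MP_d01a95_gt_M.Sm
import Pool.Agent.Lib.MP_d01a95_gt_M.Act
import Pool.Agent.Lib.MP_d01a95_gt_M.CutB
import Pool.Agent.Lib.MP_d01a95_gt_M.HilA
import Pool.Agent.Lib.MP_d01a95_gt_M.HilB
import Pool.Agent.Lib.MP_d01a95_gt_M.HilC

/-!
Project SU(2,2), part (2): the unitary representation (helper5).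
-/

set_option autoImplicit false
set_option linter.all false

open Matrix Filter Topology
open scoped ContDiff ComplexConjugate

namespace Pool.Agent.MPd01a95.CW

theorem eq_of_exp_one {f : ℝ → ℂ} (hf : ContinuousOn f (Set.Icc 0 1))
    (h1 : ∀ t ∈ Set.Icc (0 : ℝ) 1, Complex.exp (f t) = 1) : f 0 = f 1 := by
  have hc : ({x : ℂ | Complex.exp x = 1}).Countable := by
    refine (Set.countable_range fun n : ℤ => (n : ℂ) * (2 * Real.pi * Complex.I)).mono ?_
    intro x hx
    obtain ⟨n, hn⟩ := Complex.exp_eq_one_iff.mp hx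
    exact ⟨n, hn.symm⟩
  have h2 := hc.isTotallyDisconnected (f '' Set.Icc 0 1)
    (by rintro _ ⟨t, ht, rfl⟩; exact h1 t ht) (isPreconnected_Icc.image f hf)
  exact h2 ⟨0, by simp, rfl⟩ ⟨1, by simp, rfl⟩

theorem re_pos {w z : E2} (hw : w ∈ B) (hz : z ∈ B) : 0 < (1 - ip w z).re := by
  have h1 := norm_ip_lt' hw hz
  have h2 := Complex.re_le_norm (ip w z)
  simp only [Complex.sub_re, Complex.one_re]
  linarith

theorem slit {w z : E2} (hw : w ∈ B) (hz : z ∈ B) : 1 - ip w z ∈ Complex.slitPlane :=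
  Or.inl (re_pos hw hz)

theorem ip_ne {w z : E2} (hw : w ∈ B) (hz : z ∈ B) : 1 - ip w z ≠ 0 :=
  Complex.slitPlane_ne_zero (slit hw hz)

theorem exp_LK {w z : E2} (hw : w ∈ B) (hz : z ∈ B) : Complex.exp (LK w z) = (1 - ip w z)⁻¹ := by
  rw [LK, Complex.exp_neg, Complex.exp_log (ip_ne hw hz)]

theorem LK_cont {w : E2} (hw : w ∈ B) : ContinuousOn (LK w) B := by
  unfold LK
  refine ContinuousOn.neg (ContinuousOn.clog ?_ fun z hz => slit hw hz)
  unfold ip
  fun_prop

theorem LK_conj (w z : E2) (hw : w ∈ B) (hz : z ∈ B) : conj (LK w z) = LK z w := by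
  rw [LK, LK, map_neg, ← Complex.log_conj _ (Complex.slitPlane_arg_ne_pi (slit hw hz)), map_sub,
    map_one, ip_conj]

theorem smul_mem_B {z : E2} (hz : z ∈ B) {t : ℝ} (ht : t ∈ Set.Icc (0 : ℝ) 1) :
    ((t : ℂ) • z) ∈ B := by
  have h1 : sq ((t : ℂ) • z) = t ^ 2 * sq z := by
    simp [sq, mul_pow, Fin.sum_univ_two]
    ring
  rw [mem_B, h1]
  have h2 : sq z < 1 := hz
  have h3 := sq_nonneg' z
  have h4 : t ^ 2 ≤ 1 := pow_le_one₀ ht.1 ht.2
  nlinarith

theorem act_cont (g : GU (Fin 2)) : ContinuousOn (fun z => act g.M z) B :=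
  continuousOn_pi.mpr fun i => (act_diff g i).continuousOn

/-- the cocycle identity of the logarithmic kernel -/
theorem LK_act (g : GU (Fin 2)) {w z : E2} (hw : w ∈ B) (hz : z ∈ B) :
    LK (act g.M w) (act g.M z) - LK (act g.M w) (act g.M 0) - LK (act g.M 0) (act g.M z)
      + LK (act g.M 0) (act g.M 0) = LK w z := by
  have ag : ∀ {x : E2}, x ∈ B → act g.M x ∈ B := fun hx => act_mem g hx
  set f : ℝ → ℂ := fun t => LK (act g.M w) (act g.M ((t : ℂ) • z)) - LK (act g.M w) (act g.M 0)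
      - LK (act g.M 0) (act g.M ((t : ℂ) • z)) + LK (act g.M 0) (act g.M 0) - LK w ((t : ℂ) • z) with hf
  have hp : ContinuousOn (fun t : ℝ => (t : ℂ) • z) (Set.Icc 0 1) := by fun_prop
  have hp2 : ContinuousOn (fun t : ℝ => act g.M ((t : ℂ) • z)) (Set.Icc 0 1) :=
    (act_cont g).comp hp fun t ht => smul_mem_B hz ht
  have hc : ContinuousOn f (Set.Icc 0 1) := by
    refine (((((LK_cont (ag hw)).comp hp2 fun t ht => ag (smul_mem_B hz ht)).sub
      continuousOn_const).sub ((LK_cont (ag zero_mem)).comp hp2 fun t ht =>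
        ag (smul_mem_B hz ht))).add continuousOn_const).sub
        ((LK_cont hw).comp hp fun t ht => smul_mem_B hz ht)
  have h1 : ∀ t ∈ Set.Icc (0 : ℝ) 1, Complex.exp (f t) = 1 := by
    intro t ht
    have hz' := smul_mem_B hz ht
    simp only [hf]
    set z' := (t : ℂ) • z
    rw [Complex.exp_sub, Complex.exp_add, Complex.exp_sub, Complex.exp_sub, exp_LK (ag hw) (ag hz'),
      exp_LK (ag hw) (ag zero_mem), exp_LK (ag zero_mem) (ag hz'), exp_LK (ag zero_mem) (ag zero_mem),
      exp_LK hw hz']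
    have e1 := ip_act g hw hz'
    have e2 := ip_act g hw zero_mem
    have e3 := ip_act g zero_mem hz'
    have e4 := ip_act g zero_mem zero_mem
    have n1 := ip_ne (ag hw) (ag hz')
    have n2 := ip_ne (ag hw) (ag zero_mem)
    have n3 := ip_ne (ag zero_mem) (ag hz')
    have n4 := ip_ne (ag zero_mem) (ag zero_mem)
    have n5 := ip_ne hw hz'
    have i1 : ip w 0 = 0 := by simp [ip]
    have i2 : ip 0 z' = 0 := by simp [ip]
    have i3 : ip (0 : E2) 0 = 0 := by simp [ip]
    rw [i1, sub_zero] at e2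
    rw [i2, sub_zero] at e3
    rw [i3, sub_zero] at e4
    field_simp
    rw [e1]
    have d0 := den_ne g zero_mem
    have d0' : conj (den g 0) ≠ 0 := by simpa using d0
    set a := 1 - ip (act g.M w) (act g.M z')
    set b := 1 - ip (act g.M w) (act g.M 0)
    set c := 1 - ip (act g.M 0) (act g.M z')
    set d := 1 - ip (act g.M 0) (act g.M 0)
    have key : conj (den g w) * den g z' * b * c = d := by
      have : (conj (den g 0) * den g 0) * (conj (den g w) * den g z' * b * c)
          = (conj (den g 0) * den g 0) * d := by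
        rw [← e4]
        calc _ = (conj (den g w) * den g 0 * b) * (conj (den g 0) * den g z' * c) := by ring
          _ = 1 := by rw [← e2, ← e3, mul_one]
      exact mul_left_cancel₀ (mul_ne_zero d0' d0) this
    calc _ = a * (conj (den g w) * den g z' * b * c) := by ring
      _ = _ := by rw [key]; try ring
  have h2 := eq_of_exp_one hc h1
  have h0 : f 0 = 0 := by
    have i1 : ip w 0 = 0 := by simp [ip]
    simp only [hf, Complex.ofReal_zero, zero_smul, LK, i1, sub_zero, Complex.log_one]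
    ring
  have h3 : f 1 = 0 := by rw [← h2, h0]
  simp only [hf, Complex.ofReal_one, one_smul] at h3
  exact sub_eq_zero.mp h3

theorem gram_act (g : GU (Fin 2)) {w z : E2} (hw : w ∈ B) (hz : z ∈ B) :
    inner ℂ (bb (act g.M w) - bb (act g.M 0)) (bb (act g.M z) - bb (act g.M 0))
      = inner ℂ (bb w) (bb z) := by
  have ag : ∀ {x : E2}, x ∈ B → act g.M x ∈ B := fun hx => act_mem g hx
  rw [inner_sub_left, inner_sub_right, inner_sub_right, inner_bb (ag hw) (ag hz),
    inner_bb (ag hw) (ag zero_mem), inner_bb (ag zero_mem) (ag hz),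
    inner_bb (ag zero_mem) (ag zero_mem), inner_bb hw hz, ← LK_act g hw hz]
  ring

theorem exists_pi (g : GU (Fin 2)) :
    ∃ U : HH →ₗᵢ[ℂ] HH, ∀ z ∈ B, U (bb z) = bb (act g.M z) - bb (act g.M 0) := by
  obtain ⟨U, hU⟩ := exists_isom (v := fun z : B => bb z.1)
    (w := fun z : B => bb (act g.M z.1) - bb (act g.M 0))
    (fun i j => (gram_act g i.2 j.2).symm) (by
      have : Set.range (fun z : B => bb z.1) = bb '' B := by
        ext x
        simp
      rw [this, span_bb])
  exact ⟨U, fun z hz => hU ⟨z, hz⟩⟩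

/-- the unitary representation, as isometries -/
noncomputable def pL (g : GU (Fin 2)) : HH →ₗᵢ[ℂ] HH := (exists_pi g).choose

theorem pL_bb (g : GU (Fin 2)) {z : E2} (hz : z ∈ B) :
    pL g (bb z) = bb (act g.M z) - bb (act g.M 0) := (exists_pi g).choose_spec z hz

/-- two continuous linear maps agreeing on the ball are equal -/
theorem eq_of_bb {F : Type} [NormedAddCommGroup F] [NormedSpace ℂ F] {U V : HH →L[ℂ] F}
    (h : ∀ z ∈ B, U (bb z) = V (bb z)) (x : HH) : U x = V x := by
  have hx : x ∈ closure ((Submodule.span ℂ (bb '' B) : Submodule ℂ HH) : Set HH) := by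
    have : x ∈ (Submodule.span ℂ (bb '' B)).topologicalClosure := by rw [span_bb]; trivial
    exact this
  refine closure_minimal (s := ((Submodule.span ℂ (bb '' B) : Submodule ℂ HH) : Set HH))
    (t := {x | U x = V x}) ?_ (isClosed_eq U.continuous V.continuous) hx
  intro v hv
  have : Set.EqOn U V (bb '' B) := by rintro _ ⟨z, hz, rfl⟩; exact h z hz
  exact LinearMap.eqOn_span (f := U.toLinearMap) (g := V.toLinearMap) this hv

theorem bb_zero : bb (0 : E2) = 0 := by
  have h : inner ℂ (bb (0 : E2)) (bb 0) = 0 := by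
    rw [inner_bb zero_mem zero_mem, LK]
    simp [ip]
  rwa [inner_self_eq_zero] at h

theorem pL_one (x : HH) : pL 1 x = x := by
  refine eq_of_bb (U := (pL 1).toContinuousLinearMap) (V := ContinuousLinearMap.id ℂ HH) ?_ x
  intro z hz
  change pL 1 (bb z) = bb z
  rw [pL_bb 1 hz, act_one hz, act_one zero_mem, bb_zero, sub_zero]

theorem pL_mul (g h : GU (Fin 2)) (x : HH) : pL (g * h) x = pL g (pL h x) := by
  refine eq_of_bb (U := (pL (g * h)).toContinuousLinearMap)
    (V := ((pL g).comp (pL h)).toContinuousLinearMap) ?_ x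
  intro z hz
  change pL (g * h) (bb z) = pL g (pL h (bb z))
  rw [pL_bb _ hz, pL_bb h hz, map_sub, pL_bb g (act_mem h hz), pL_bb g (act_mem h zero_mem),
    act_mul g h hz, act_mul g h zero_mem]
  abel

/-- the unitary representation -/
noncomputable def pU (g : GU (Fin 2)) : HH ≃ₗᵢ[ℂ] HH where
  toLinearEquiv := LinearEquiv.ofLinear (pL g).toLinearMap (pL g⁻¹).toLinearMap
    (by ext x; simp [← pL_mul, pL_one]) (by ext x; simp [← pL_mul, pL_one])
  norm_map' x := (pL g).norm_map x

theorem pU_apply (g : GU (Fin 2)) (x : HH) : pU g x = pL g x := rfl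

theorem pU_bb (g : GU (Fin 2)) {z : E2} (hz : z ∈ B) :
    pU g (bb z) = bb (act g.M z) - bb (act g.M 0) := pL_bb g hz

theorem pU_one (x : HH) : pU 1 x = x := pL_one x

theorem pU_mul (g h : GU (Fin 2)) (x : HH) : pU (g * h) x = pU g (pU h x) := pL_mul g h x

theorem inner_pU (g : GU (Fin 2)) (x y : HH) : inner ℂ (pU g x) (pU g y) = inner ℂ x y :=
  (pU g).inner_map_map x y

/-- the cocycle relation -/
theorem bb_cocycle (g h : GU (Fin 2)) :
    bb (act (g * h).M 0) = pU g (bb (act h.M 0)) + bb (act g.M 0) := by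
  rw [pU_bb g (act_mem h zero_mem), ← act_act_zero]
  abel

end Pool.Agent.MPd01a95.CW
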