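import Mathlib
import Pool.Agent.Lib.MP_d01a95_gt.Defs
import Pool.Agent.Lib.MP_d01a95_gt.Low
import Pool.Agent.Lib.MP_d01a95_gt_H.GU
import Pool.Agent.Lib.MP_d01a95_gt_M.Defs
import Pool.Agent.Lib.MP_d01a95_gt_M.Sm
import Pool.Agent.Lib.MP_d01a95_gt_M.Act
import Pool.Agent.Lib.MP_d01a95_gt_M.CutB
import Pool.Agent.Lib.MP_d01a95_gt_M.HilA
import Pool.Agent.Lib.MP_d01a95_gt_M.HilB
import Pool.Agent.Lib.MP_d01a95_gt_M.HilC
import Pool.Agent.Lib.MP_d01a95_gt_M.HilD

/-!
Project SU(2,2), part (2): decay of matrix coefficients (helper5).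
-/

set_option autoImplicit false
set_option linter.all false

open Matrix Filter Topology
open scoped ContDiff ComplexConjugate

namespace Pool.Agent.MPd01a95.CW

/-- the logarithm is Lipschitz on half planes -/
theorem log_lip {δ : ℝ} (hδ : 0 < δ) {u v : ℂ} (hu : δ ≤ u.re) (hv : δ ≤ v.re) :
    ‖Complex.log u - Complex.log v‖ ≤ δ⁻¹ * ‖u - v‖ := by
  have hs : Convex ℝ {x : ℂ | δ ≤ x.re} := convex_halfSpace_re_ge δ
  have := hs.norm_image_sub_le_of_norm_hasDerivWithin_le (f := Complex.log) (f' := fun x => x⁻¹)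
    (C := δ⁻¹) (x := v) (y := u) (fun x hx => ?_) (fun x hx => ?_) hv hu
  · exact this
  · have : x ∈ Complex.slitPlane := Or.inl (hδ.trans_le hx)
    exact (Complex.hasDerivAt_log this).hasDerivWithinAt
  · rw [norm_inv]
    exact inv_anti₀ hδ (le_trans hx (Complex.re_le_norm x))

theorem norm_ip_le (w z : E2) : ‖ip w z‖ ≤ Real.sqrt (sq w) * Real.sqrt (sq z) := by
  have h1 : ‖ip w z‖ ≤ ∑ i, ‖w i‖ * ‖z i‖ := by
    refine (norm_sum_le _ _).trans (Finset.sum_le_sum fun i _ => ?_)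
    rw [norm_mul, RCLike.norm_conj]
  refine h1.trans ?_
  rw [← Real.sqrt_mul (sq_nonneg' w)]
  refine Real.le_sqrt_of_sq_le ?_
  exact Finset.sum_mul_sq_le_sq_mul_sq _ _ _

theorem ip_self (z : E2) : ip z z = (sq z : ℂ) := by
  simp only [ip, sq, Complex.ofReal_sum]
  refine Finset.sum_congr rfl fun i _ => ?_
  rw [← Complex.normSq_eq_conj_mul_self, Complex.normSq_eq_norm_sq]

theorem ip_sub_right (w y z : E2) : ip w (y - z) = ip w y - ip w z := by
  simp only [ip, Pi.sub_apply, mul_sub, Finset.sum_sub_distrib]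

theorem sq_sub_eq (y z : E2) : (sq (y - z) : ℝ) = sq y + sq z - 2 * (ip y z).re := by
  have h : (sq (y - z) : ℂ) = sq y + sq z - (ip y z + conj (ip y z)) := by
    rw [← ip_self, ← ip_self, ← ip_self, ip_conj]
    simp only [ip, Fin.sum_univ_two, Pi.sub_apply, map_sub]
    ring
  rw [Complex.add_conj] at h
  have := congrArg Complex.re h
  simpa using this

/-- the distance of `g z` and `g 0` -/
theorem sq_act_sub (g : GU (Fin 2)) {z : E2} (hz : z ∈ B) :
    sq (act g.M z - act g.M 0) ≤ 4 / ((1 - sq z) * GU.c g ^ 2) := by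
  have hz' : 0 < 1 - sq z := by have := mem_B.mp hz; linarith
  have a1 := act_mem g hz
  have a0 := act_mem g zero_mem
  have h1 := ip_act g hz zero_mem
  have h2 := ip_act g hz hz
  have i1 : ip z 0 = 0 := by simp [ip]
  rw [i1, sub_zero] at h1
  rw [ip_self, ip_self] at h2
  have hc0 : ‖den g 0‖ = GU.c g := by
    have : den g 0 = g.M (Sum.inr ()) (Sum.inr ()) := by
      simp [den, Matrix.mulVec, dotProduct, vz]
    rw [this]; rfl
  have hc := GU.c_ge_one g
  set j := ‖den g z‖ with hj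
  have hjp : 0 < j := norm_pos_iff.mpr (den_ne g hz)
  have n1 : 1 = j * GU.c g * ‖1 - ip (act g.M z) (act g.M 0)‖ := by
    have := congrArg norm h1
    rwa [norm_one, norm_mul, norm_mul, RCLike.norm_conj, hc0] at this
  have n2 : 1 - sq z = j ^ 2 * (1 - sq (act g.M z)) := by
    have h3 : conj (den g z) * den g z = ((j ^ 2 : ℝ) : ℂ) := by
      rw [← Complex.normSq_eq_conj_mul_self, Complex.normSq_eq_norm_sq]
    rw [h3] at h2
    exact_mod_cast h2
  have h5 := sq_sub_eq (act g.M z) (act g.M 0)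
  have h6 := mem_B.mp a1
  have h7 := mem_B.mp a0
  set N := ‖1 - ip (act g.M z) (act g.M 0)‖ with hN
  have h8 : 1 - (ip (act g.M z) (act g.M 0)).re ≤ N := by
    have := Complex.re_le_norm (1 - ip (act g.M z) (act g.M 0))
    simpa using this
  have h9 : 0 ≤ sq (act g.M z - act g.M 0) := sq_nonneg' _
  have h10 : sq (act g.M z - act g.M 0) ≤ 2 * N - (1 - sq (act g.M z)) := by linarith
  have hN1 : N = 1 / (j * GU.c g) := by
    rw [eq_div_iff (by positivity)]; linarith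
  have h11 : (1 - sq z) * GU.c g ≤ 2 * j := by
    have h12 : 1 - sq (act g.M z) ≤ 2 * N := by linarith
    have h13 : (1 - sq z) ≤ j ^ 2 * (2 * N) := by rw [n2]; gcongr
    have h14 : j ^ 2 * (2 * N) = 2 * j / GU.c g := by
      rw [hN1]; field_simp
    rw [h14, le_div_iff₀ (by positivity)] at h13
    exact h13
  have h15 : N ≤ 2 / ((1 - sq z) * GU.c g ^ 2) := by
    rw [hN1, div_le_div_iff₀ (by positivity) (by positivity)]
    nlinarith
  have h16 : sq (act g.M z - act g.M 0) ≤ 2 * N := by linarith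
  calc _ ≤ 2 * N := h16
    _ ≤ 2 * (2 / ((1 - sq z) * GU.c g ^ 2)) := by gcongr
    _ = _ := by ring

/-- decay of the matrix coefficients on the ball -/
theorem decay_bb {z w : E2} (hz : z ∈ B) (hw : w ∈ B) :
    ∃ C : ℝ, 0 ≤ C ∧ ∀ g : GU (Fin 2), ‖inner ℂ (bb w) (pU g (bb z))‖ ≤ C / GU.c g := by
  have hz' : 0 < 1 - sq z := by have := mem_B.mp hz; linarith
  have hw' : 0 < 1 - Real.sqrt (sq w) := by
    have := mem_B.mp hw
    have h : Real.sqrt (sq w) < 1 := by
      rw [Real.sqrt_lt' one_pos]; simpa using this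
    linarith
  refine ⟨(1 - Real.sqrt (sq w))⁻¹ * Real.sqrt (4 / (1 - sq z)), by positivity, fun g => ?_⟩
  have a1 := act_mem g hz
  have a0 := act_mem g zero_mem
  have hc := GU.c_ge_one g
  rw [pU_bb g hz, inner_sub_right, inner_bb hw a1, inner_bb hw a0, LK, LK]
  have hre : ∀ x ∈ B, 1 - Real.sqrt (sq w) ≤ (1 - ip w x).re := by
    intro x hx
    have h1 := norm_ip_le w x
    have h2 : Real.sqrt (sq x) ≤ 1 := Real.sqrt_le_one.mpr (mem_B.mp hx).le
    have h3 := Complex.re_le_norm (ip w x)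
    have h4 : Real.sqrt (sq w) * Real.sqrt (sq x) ≤ Real.sqrt (sq w) := by
      have := Real.sqrt_nonneg (sq w)
      nlinarith
    simp only [Complex.sub_re, Complex.one_re]
    linarith
  have h1 := log_lip hw' (hre _ a0) (hre _ a1)
  have e1 : -Complex.log (1 - ip w (act g.M z)) - -Complex.log (1 - ip w (act g.M 0))
      = Complex.log (1 - ip w (act g.M 0)) - Complex.log (1 - ip w (act g.M z)) := by ring
  rw [e1]
  refine h1.trans ?_
  have e2 : 1 - ip w (act g.M 0) - (1 - ip w (act g.M z)) = ip w (act g.M z - act g.M 0) := by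
    rw [ip_sub_right]; ring
  rw [e2, mul_div_assoc]
  refine mul_le_mul_of_nonneg_left ?_ (inv_nonneg.mpr hw'.le)
  refine (norm_ip_le _ _).trans ?_
  have h2 : Real.sqrt (sq w) ≤ 1 := by linarith
  have h3 : Real.sqrt (sq (act g.M z - act g.M 0)) ≤ Real.sqrt (4 / (1 - sq z)) / GU.c g := by
    have h4 : Real.sqrt (4 / (1 - sq z)) / GU.c g = Real.sqrt (4 / ((1 - sq z) * GU.c g ^ 2)) := by
      rw [← div_div, Real.sqrt_div' _ (by positivity : (0 : ℝ) ≤ GU.c g ^ 2),
        Real.sqrt_sq (by linarith)]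
    rw [h4]
    exact Real.sqrt_le_sqrt (sq_act_sub g hz)
  calc _ ≤ 1 * Real.sqrt (sq (act g.M z - act g.M 0)) := by gcongr
    _ ≤ _ := by rw [one_mul]; exact h3

/-- the dense subspace -/
noncomputable def H1 : Submodule ℂ HH := Submodule.span ℂ (bb '' B)

theorem H1_dense : Dense (H1 : Set HH) := by
  intro x
  have : x ∈ (Submodule.span ℂ (bb '' B)).topologicalClosure := by rw [span_bb]; trivial
  exact this

theorem bb_mem_H1 {z : E2} (hz : z ∈ B) : bb z ∈ H1 := Submodule.subset_span ⟨z, hz, rfl⟩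

/-- decay of the matrix coefficients on the dense subspace -/
theorem decay_H1 {x y : HH} (hx : x ∈ H1) (hy : y ∈ H1) :
    ∃ C : ℝ, 0 ≤ C ∧ ∀ g : GU (Fin 2), ‖inner ℂ y (pU g x)‖ ≤ C / GU.c g := by
  have hc : ∀ g : GU (Fin 2), 0 < GU.c g := fun g => one_pos.trans_le (GU.c_ge_one g)
  have step : ∀ w ∈ B, ∃ C : ℝ, 0 ≤ C ∧ ∀ g : GU (Fin 2), ‖inner ℂ (bb w) (pU g x)‖ ≤ C / GU.c g := by
    intro w hw
    unfold H1 at hx
    induction hx using Submodule.span_induction with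
    | mem v hv =>
      obtain ⟨z, hz, rfl⟩ := hv
      exact decay_bb hz hw
    | zero => exact ⟨0, le_rfl, fun g => by simp⟩
    | add v v' _ _ h1 h2 =>
      obtain ⟨C, hC, h1⟩ := h1
      obtain ⟨D, hD, h2⟩ := h2
      refine ⟨C + D, by positivity, fun g => ?_⟩
      rw [map_add, inner_add_right, add_div]
      exact (norm_add_le _ _).trans (add_le_add (h1 g) (h2 g))
    | smul c v _ h1 =>
      obtain ⟨C, hC, h1⟩ := h1
      refine ⟨‖c‖ * C, by positivity, fun g => ?_⟩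
      rw [map_smul, inner_smul_right, norm_mul, mul_div_assoc]
      exact mul_le_mul_of_nonneg_left (h1 g) (norm_nonneg _)
  unfold H1 at hy
  induction hy using Submodule.span_induction with
  | mem v hv =>
    obtain ⟨w, hw, rfl⟩ := hv
    exact step w hw
  | zero => exact ⟨0, le_rfl, fun g => by simp⟩
  | add v v' _ _ h1 h2 =>
    obtain ⟨C, hC, h1⟩ := h1
    obtain ⟨D, hD, h2⟩ := h2
    refine ⟨C + D, by positivity, fun g => ?_⟩
    rw [inner_add_left, add_div]
    exact (norm_add_le _ _).trans (add_le_add (h1 g) (h2 g))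
  | smul c v _ h1 =>
    obtain ⟨C, hC, h1⟩ := h1
    refine ⟨‖c‖ * C, by positivity, fun g => ?_⟩
    rw [inner_smul_left, norm_mul, RCLike.norm_conj, mul_div_assoc]
    exact mul_le_mul_of_nonneg_left (h1 g) (norm_nonneg _)

/-- weak decay, uniform on compact sets -/
theorem weak_decay (y : HH) {K : Set HH} (hK : IsCompact K) {ε : ℝ} (hε : 0 < ε) :
    ∃ R : ℝ, ∀ g : GU (Fin 2), R ≤ GU.c g → ∀ x ∈ K, ‖inner ℂ y (pU g x)‖ ≤ ε := by
  -- approximate `y`
  obtain ⟨D, hD⟩ : ∃ D : ℝ, 0 < D ∧ ∀ x ∈ K, ‖x‖ ≤ D := by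
    obtain ⟨D, hD⟩ := hK.isBounded.exists_norm_le
    exact ⟨max D 1, by positivity, fun x hx => (hD x hx).trans (le_max_left _ _)⟩
  obtain ⟨hD0, hD⟩ := hD
  obtain ⟨y', hy', hyy⟩ := Metric.dense_iff.mp H1_dense y (ε / (4 * D)) (by positivity)
  rw [Metric.mem_ball, dist_eq_norm] at hy'
  -- a finite net
  set η : ℝ := ε / (4 * (‖y'‖ + 1)) with hη
  have hη0 : 0 < η := by positivity
  obtain ⟨t, ht, htf, hcov⟩ := hK.finite_cover_balls (half_pos hη0)
  have ex : ∀ x : HH, ∃ x' ∈ H1, ‖x - x'‖ < η / 2 := by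
    intro x
    obtain ⟨x', h1, h2⟩ := Metric.dense_iff.mp H1_dense x (η / 2) (by positivity)
    rw [Metric.mem_ball, dist_eq_norm] at h1
    exact ⟨x', h2, by rwa [norm_sub_rev]⟩
  choose a ha1 ha2 using ex
  have exC : ∀ x : HH, ∃ C : ℝ, 0 ≤ C ∧ ∀ g : GU (Fin 2), ‖inner ℂ y' (pU g (a x))‖ ≤ C / GU.c g :=
    fun x => decay_H1 (ha1 x) hyy
  choose C hC0 hC using exC
  obtain ⟨M, hM⟩ := (htf.image C).bddAbove
  have hM' : ∀ x ∈ t, C x ≤ |M| := fun x hx => (hM ⟨x, hx, rfl⟩).trans (le_abs_self M)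
  refine ⟨4 * |M| / ε, fun g hg x hx => ?_⟩
  have hcg : 0 < GU.c g := one_pos.trans_le (GU.c_ge_one g)
  obtain ⟨x0, hx0, hxx⟩ := Set.mem_iUnion₂.mp (hcov hx)
  rw [Metric.mem_ball, dist_eq_norm] at hxx
  have e : inner ℂ y (pU g x) = inner ℂ (y - y') (pU g x) + inner ℂ y' (pU g (x - a x0))
      + inner ℂ y' (pU g (a x0)) := by
    rw [map_sub, inner_sub_left, inner_sub_right]
    ring
  have b1 : ‖inner ℂ (y - y') (pU g x)‖ ≤ ε / 4 := by
    refine (norm_inner_le_norm _ _).trans ?_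
    rw [LinearIsometryEquiv.norm_map, norm_sub_rev]
    have h1 := hD x hx
    have h2 : ‖y' - y‖ * ‖x‖ ≤ ε / (4 * D) * D := by gcongr
    have h3 : ε / (4 * D) * D = ε / 4 := by field_simp
    linarith
  have b2 : ‖inner ℂ y' (pU g (x - a x0))‖ ≤ ε / 4 := by
    refine (norm_inner_le_norm _ _).trans ?_
    rw [LinearIsometryEquiv.norm_map]
    have h1 : ‖x - a x0‖ ≤ η := by
      have : x - a x0 = (x - x0) + (x0 - a x0) := by abel
      rw [this]
      have := ha2 x0
      exact (norm_add_le _ _).trans (by linarith)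
    have h2 : ‖y'‖ * ‖x - a x0‖ ≤ (‖y'‖ + 1) * η := by
      gcongr
      linarith
    have h3 : (‖y'‖ + 1) * η = ε / 4 := by rw [hη]; field_simp
    linarith
  have b3 : ‖inner ℂ y' (pU g (a x0))‖ ≤ ε / 4 := by
    refine (hC x0 g).trans ?_
    rw [div_le_iff₀ hcg]
    rw [div_le_iff₀ hε] at hg
    have := hM' x0 hx0
    linarith
  rw [e]
  refine (norm_add₃_le).trans ?_
  linarith

end Pool.Agent.MPd01a95.CW
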