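import Mathlib
import Pool.Agent.Lib.MP_d01a95_gt.Defs
import Pool.Agent.Lib.MP_d01a95_gt.Low
import Pool.Agent.Lib.MP_d01a95_gt_H.GU
import Pool.Agent.Lib.MP_d01a95_gt_H.Cut

/-!
Project SU(2,2), part (2): polynomial counting in a lattice (helper5).
-/

set_option autoImplicit false
set_option linter.all false

open Matrix Filter Topology

namespace Pool.Agent.MPd01a95.CW

variable {G : Type} [Group G]

abbrev Ic : Type := (Fin 2 ⊕ Unit) × (Fin 2 ⊕ Unit) × Bool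

/-- the rounded matrix entries -/
noncomputable def rnd (T : ℝ) (g : GU (Fin 2)) (p : Ic) : ℤ :=
  if p.2.2 then ⌊12 * T * (g.M p.1 p.2.1).re⌋ else ⌊12 * T * (g.M p.1 p.2.1).im⌋

theorem rnd_eq_close {T : ℝ} (hT : 0 < T) {g h : GU (Fin 2)} (e : rnd T g = rnd T h)
    (i j : Fin 2 ⊕ Unit) : ‖h.M i j - g.M i j‖ ≤ 2 / (12 * T) := by
  have h1 := congrFun e (i, j, true)
  have h2 := congrFun e (i, j, false)
  simp only [rnd] at h1 h2
  have h12 : 0 < 12 * T := by positivity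
  have k : ∀ a b : ℝ, ⌊12 * T * a⌋ = ⌊12 * T * b⌋ → |b - a| ≤ 1 / (12 * T) := by
    intro a b hab
    have := Int.abs_sub_lt_one_of_floor_eq_floor hab
    rw [← mul_sub, abs_mul, abs_of_pos h12] at this
    rw [le_div_iff₀ h12, abs_sub_comm]
    linarith
  have k1 := k _ _ h1
  have k2 := k _ _ h2
  have h3 := Complex.norm_le_abs_re_add_abs_im (h.M i j - g.M i j)
  simp only [Complex.sub_re, Complex.sub_im] at h3
  have : (2 : ℝ) / (12 * T) = 1 / (12 * T) + 1 / (12 * T) := by ring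
  rw [this]
  linarith

theorem c_of_close {T : ℝ} (hT : 0 < T) {g h : GU (Fin 2)} (hg : GU.c g ≤ T)
    (e : rnd T g = rnd T h) : GU.c (g⁻¹ * h) ≤ 2 := by
  have h0 : (g⁻¹ * h).M = 1 + (g⁻¹).M * (h.M - g.M) := by
    rw [Matrix.mul_sub, GU.inv_mul_M, GU.M_mul]
    abel
  have h1 : GU.c (g⁻¹ * h) = ‖(g⁻¹ * h).M (Sum.inr ()) (Sum.inr ())‖ := rfl
  rw [h1, h0, Matrix.add_apply, Matrix.one_apply_eq, Matrix.mul_apply]
  refine (norm_add_le _ _).trans ?_
  rw [norm_one]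
  have h2 : ‖∑ k, (g⁻¹).M (Sum.inr ()) k * (h.M - g.M) k (Sum.inr ())‖
      ≤ ∑ k : Fin 2 ⊕ Unit, (2 * T) * (2 / (12 * T)) := by
    refine (norm_sum_le _ _).trans (Finset.sum_le_sum fun k _ => ?_)
    rw [norm_mul]
    refine mul_le_mul ?_ (rnd_eq_close hT e k _) (norm_nonneg _) (by positivity)
    refine (GU.entry_le g⁻¹ _ _).trans ?_
    rw [GU.c_inv]
    linarith
  have h3 : ∑ k : Fin 2 ⊕ Unit, (2 * T) * (2 / (12 * T)) = 1 := by
    simp only [Finset.sum_const, Finset.card_univ, Fintype.card_sum, Fintype.card_fin,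
      Fintype.card_unit, nsmul_eq_mul]
    field_simp
    norm_num
  linarith

theorem rnd_bound {T : ℝ} (hT : 1 ≤ T) {g : GU (Fin 2)} (hg : GU.c g ≤ T) (p : Ic) :
    rnd T g p ∈ Finset.Icc (-⌈25 * T ^ 2⌉) ⌈25 * T ^ 2⌉ := by
  have k : ∀ a : ℝ, |a| ≤ 2 * T → ⌊12 * T * a⌋ ∈ Finset.Icc (-⌈25 * T ^ 2⌉) ⌈25 * T ^ 2⌉ := by
    intro a ha
    have h1 : |12 * T * a| ≤ 24 * T ^ 2 := by
      rw [abs_mul, abs_of_pos (by positivity)]
      nlinarith
    have h2 := abs_le.mp h1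
    have h3 := Int.floor_le (12 * T * a)
    have h4 := Int.lt_floor_add_one (12 * T * a)
    have h5 := Int.le_ceil (25 * T ^ 2)
    have h6 : 1 ≤ T ^ 2 := by nlinarith
    rw [Finset.mem_Icc]
    constructor
    · have : (-(⌈25 * T ^ 2⌉ : ℝ)) ≤ (⌊12 * T * a⌋ : ℝ) := by linarith
      exact_mod_cast this
    · have : (⌊12 * T * a⌋ : ℝ) ≤ (⌈25 * T ^ 2⌉ : ℝ) := by linarith
      exact_mod_cast this
  have hb := GU.entry_le g p.1 p.2.1
  have hb2 : 2 * GU.c g ≤ 2 * T := by linarith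
  unfold rnd
  split_ifs
  · exact k _ ((Complex.abs_re_le_norm _).trans (hb.trans hb2))
  · exact k _ ((Complex.abs_im_le_norm _).trans (hb.trans hb2))

/-- polynomial counting -/
theorem count_poly {σ : G →* GU (Fin 2)} (hL : Lat σ) :
    ∃ C : ℝ, 0 < C ∧ ∀ T : ℝ, 1 ≤ T → ({g : G | GU.c (σ g) ≤ T}.ncard : ℝ) ≤ C * T ^ 36 := by
  classical
  have hf := hL.finite_c
  set N := (hf 2).toFinset.card with hN
  refine ⟨(N + 1) * 53 ^ 18, by positivity, fun T hT => ?_⟩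
  have hT0 : 0 < T := by linarith
  rw [Set.ncard_eq_toFinset_card _ (hf T)]
  set F := (hf T).toFinset with hF
  have h1 : F.card ≤ N * (F.image fun g => rnd T (σ g)).card := by
    refine Finset.card_le_mul_card_image F N fun b hb => ?_
    obtain ⟨g, hg, rfl⟩ := Finset.mem_image.mp hb
    have hg' : GU.c (σ g) ≤ T := by simpa [hF] using hg
    rw [hN]
    refine Finset.card_le_card_of_injOn (fun h => g⁻¹ * h) (fun h hh => ?_) (fun x _ y _ hxy => ?_)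
    · have hh' := (Finset.mem_filter.mp (Finset.mem_coe.mp hh)).2
      have := c_of_close hT0 hg' hh'.symm
      simp only [Set.Finite.coe_toFinset, Set.mem_setOf_eq, map_mul, map_inv]
      exact this
    · exact mul_left_cancel hxy
  have h2 : (F.image fun g => rnd T (σ g)).card ≤ (Finset.Icc (-⌈25 * T ^ 2⌉) ⌈25 * T ^ 2⌉).card ^ 18 := by
    have h3 : (F.image fun g => rnd T (σ g)) ⊆
        Fintype.piFinset fun _ : Ic => Finset.Icc (-⌈25 * T ^ 2⌉) ⌈25 * T ^ 2⌉ := by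
      intro b hb
      obtain ⟨g, hg, rfl⟩ := Finset.mem_image.mp hb
      have hg' : GU.c (σ g) ≤ T := by simpa [hF] using hg
      rw [Fintype.mem_piFinset]
      exact fun p => rnd_bound hT hg' p
    refine (Finset.card_le_card h3).trans ?_
    rw [Fintype.card_piFinset, Finset.prod_const]
    simp
  have h4 : ((Finset.Icc (-⌈25 * T ^ 2⌉) ⌈25 * T ^ 2⌉).card : ℝ) ≤ 53 * T ^ 2 := by
    rw [Int.card_Icc]
    have h5 := Int.ceil_lt_add_one (25 * T ^ 2)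
    have h6 : 0 ≤ ⌈25 * T ^ 2⌉ := Int.ceil_nonneg (by positivity)
    have h7 : (((⌈25 * T ^ 2⌉ + 1 - -⌈25 * T ^ 2⌉).toNat : ℤ) : ℝ) = 2 * (⌈25 * T ^ 2⌉ : ℝ) + 1 := by
      rw [Int.toNat_of_nonneg (by omega)]
      push_cast
      ring
    have h8 : (((⌈25 * T ^ 2⌉ + 1 - -⌈25 * T ^ 2⌉).toNat : ℕ) : ℝ) = 2 * (⌈25 * T ^ 2⌉ : ℝ) + 1 := by
      rw [← h7]; norm_cast
    rw [h8]
    nlinarith
  calc (F.card : ℝ) ≤ (N * (F.image fun g => rnd T (σ g)).card : ℕ) := by exact_mod_cast h1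
    _ ≤ (N * (Finset.Icc (-⌈25 * T ^ 2⌉) ⌈25 * T ^ 2⌉).card ^ 18 : ℕ) := by
      exact_mod_cast Nat.mul_le_mul_left N h2
    _ = (N : ℝ) * ((Finset.Icc (-⌈25 * T ^ 2⌉) ⌈25 * T ^ 2⌉).card : ℝ) ^ 18 := by push_cast; rfl
    _ ≤ (N + 1 : ℝ) * (53 * T ^ 2) ^ 18 := by gcongr; linarith
    _ = _ := by ring

/-- exponential growth with respect to the logarithmic length -/
theorem count_exp {σ : G →* GU (Fin 2)} (hL : Lat σ) :
    ∃ C : ℝ, 0 < C ∧ ∀ R : ℝ, 0 ≤ R →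
      ({g : G | Real.log (GU.c (σ g)) ≤ R}.ncard : ℝ) ≤ C * Real.exp (36 * R) := by
  obtain ⟨C, hC, h⟩ := count_poly hL
  refine ⟨C, hC, fun R hR => ?_⟩
  have h1 := h (Real.exp R) (Real.one_le_exp hR)
  have e : {g : G | Real.log (GU.c (σ g)) ≤ R} = {g : G | GU.c (σ g) ≤ Real.exp R} := by
    ext g
    exact Real.log_le_iff_le_exp (one_pos.trans_le (GU.c_ge_one _))
  rw [e]
  refine h1.trans_eq ?_
  rw [← Real.exp_nat_mul]
  norm_num

end Pool.Agent.MPd01a95.CW
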