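import Mathlib
import Pool.Agent.Lib.MP_d01a95_gt.Defs
import Pool.Agent.Lib.MP_d01a95_gt.Low
import Pool.Agent.Lib.MP_d01a95_gt_H.GU
import Pool.Agent.Lib.MP_d01a95_gt_H.Cut
import Pool.Agent.Lib.MP_d01a95_gt_L.LDefs
import Pool.Agent.Lib.MP_d01a95_gt_L.PDefs
import Pool.Agent.Lib.MP_d01a95_gt_M.Sm
import Pool.Agent.Lib.MP_d01a95_gt_M.Act
import Pool.Agent.Lib.MP_d01a95_gt_M.CutB
import Pool.Agent.Lib.MP_d01a95_gt_M.HilA
import Pool.Agent.Lib.MP_d01a95_gt_M.HilB
import Pool.Agent.Lib.MP_d01a95_gt_M.HilC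
import Pool.Agent.Lib.MP_d01a95_gt_M.HilD
import Pool.Agent.Lib.MP_d01a95_gt_M.HilE
import Pool.Agent.Lib.MP_d01a95_gt_M.HilF

/-!
Project SU(2,2), part (2): the unitary representation as an instance of `LN.Decay` (helper5).
-/

set_option autoImplicit false
set_option linter.all false

open Matrix Filter Topology
open scoped ContDiff ComplexConjugate

namespace Pool.Agent.MPd01a95.CW

variable {G : Type} [Group G] (σ : G →* GU (Fin 2))

/-- the unitary representation of the group -/
noncomputable def pG : G →* (HH ≃ₗᵢ[ℂ] HH) where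
  toFun g := pU (σ g)
  map_one' := by
    ext x
    rw [map_one, pU_one]
    rfl
  map_mul' g h := by
    ext x
    rw [map_mul, pU_mul]
    rfl

theorem pG_apply (g : G) (x : HH) : pG σ g x = pU (σ g) x := rfl

/-- the cocycle -/
noncomputable def cG (g : G) : HH := bb (act (σ g).M 0)

theorem cG_mul (g h : G) : cG σ (g * h) = pG σ g (cG σ h) + cG σ g := by
  rw [pG_apply, cG, cG, cG, map_mul, bb_cocycle]

attribute [local instance] InnerProductSpace.complexToReal

variable {σ}

/-- decay of the coefficients, growth of the group -/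
noncomputable def decay (hL : Lat σ) : LN.Decay (LP.reR (pG σ)) where
  len g := Real.log (GU.c (σ g))
  len_nn g := Real.log_nonneg (GU.c_ge_one _)
  cnt := by
    obtain ⟨C, hC, h⟩ := count_exp hL
    refine ⟨max C 36, by positivity, fun R hR => ⟨?_, ?_⟩⟩
    · refine (hL.finite_c (Real.exp R)).subset fun g hg => ?_
      exact (Real.log_le_iff_le_exp (one_pos.trans_le (GU.c_ge_one _))).mp hg
    · refine (h R hR).trans ?_
      have h1 : C ≤ max C 36 := le_max_left _ _
      have h2 : Real.exp (36 * R) ≤ Real.exp (max C 36 * R) :=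
        Real.exp_le_exp.mpr (mul_le_mul_of_nonneg_right (le_max_right _ _) hR)
      have h3 : 0 ≤ Real.exp (36 * R) := (Real.exp_pos _).le
      have h4 : 0 ≤ max C 36 := by positivity
      exact mul_le_mul h1 h2 h3 h4
  D := H1.restrictScalars ℝ
  dense := H1_dense
  dec := by
    intro ξ hξ η hη
    obtain ⟨C, hC, h⟩ := decay_H1 (x := ξ) (y := η) hξ hη
    refine ⟨C, fun g => ?_⟩
    have hc : 0 < GU.c (σ g) := one_pos.trans_le (GU.c_ge_one _)
    rw [Real.exp_neg, Real.exp_log hc, ← div_eq_mul_inv]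
    refine le_trans ?_ (h (σ g))
    have e : inner ℝ (LP.reR (pG σ) g ξ) η = (inner ℂ η (pU (σ g) ξ)).re := by
      rw [real_inner_comm]
      rfl
    rw [e]
    exact Complex.abs_re_le_norm _

end Pool.Agent.MPd01a95.CW
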