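import Mathlib
import Pool.Agent.Lib.MP_d01a95_gt_M.Defs
import Pool.Agent.Lib.MP_d01a95_gt_M.Sm
import Pool.Agent.Lib.MP_d01a95_gt_M.KerA
import Pool.Agent.Lib.MP_d01a95_gt_M.KerB
import Pool.Agent.Lib.MP_d01a95_gt_M.KerC
import Pool.Agent.Lib.MP_d01a95_gt_M.KerD
import Pool.Agent.Lib.MP_d01a95_gt_M.KerE
import Pool.Agent.Lib.MP_d01a95_gt_M.KerF
import Pool.Agent.Lib.MP_d01a95_gt_M.KerG
import Pool.Agent.Lib.MP_d01a95_gt_M.KerH

/-!
Project SU(2,2), part (2): the Kaehler identity for affine maps (helper5).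
-/

set_option autoImplicit false
set_option linter.all false

open Filter Topology MeasureTheory
open scoped ContDiff ComplexConjugate

namespace Pool.Agent.MPd01a95.CW

section pm

variable {F F' : Type} [NormedAddCommGroup F] [NormedSpace ℂ F]
  [NormedAddCommGroup F'] [NormedSpace ℂ F']

/-- composition with a bounded operator -/
noncomputable def PM (U : F →L[ℂ] F') : MF F →ₗ[ℂ] MF F' where
  toFun f := mkM (fun z => U (xm f z)) ((U.restrictScalars ℝ).contDiff.comp_contDiffOn (xm_sm f))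
  map_add' f g := M_ext fun z hz => by
    rw [xm_add _ _ hz, xm_mkM _ _ hz, xm_mkM _ _ hz, xm_mkM _ _ hz, xm_add _ _ hz, map_add]
  map_smul' c f := M_ext fun z hz => by
    rw [RingHom.id_apply, xm_smul _ _ hz, xm_mkM _ _ hz, xm_mkM _ _ hz, xm_smul _ _ hz, map_smul]

theorem xm_PM (U : F →L[ℂ] F') (f : MF F) {z : E2} (hz : z ∈ Om) : xm (PM U f) z = U (xm f z) :=
  xm_mkM _ _ hz

theorem PM_ksmul (U : F →L[ℂ] F') (a : SO) (f : MF F) : PM U (a • f) = a • PM U f :=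
  M_ext fun z hz => by
  rw [xm_ksmul _ _ hz, xm_PM _ _ hz, xm_PM _ _ hz, xm_ksmul _ _ hz, map_smul]

theorem PM_vd (U : F →L[ℂ] F') (v : E2) (f : MF F) : vd v (PM U f) = PM U (vd v f) :=
  M_ext fun z hz => by
  rw [xm_PM _ _ hz, xm_vd _ _ hz, xm_vd _ _ hz,
    (evK_eq (g := fun y => U (xm f y)) (fun y hy => xm_PM U f hy) hz).fderiv_eq]
  have h := ((U.restrictScalars ℝ).hasFDerivAt (x := xm f z)).comp z (xm_diff f hz).hasFDerivAt
  have h' : fderiv ℝ (fun y => U (xm f y)) z = _ := h.fderiv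
  rw [h']
  rfl

theorem PM_vwd (U : F →L[ℂ] F') (k : Fin 2) (f : MF F) : vwd k (PM U f) = PM U (vwd k f) := by
  simp only [vwd_apply, PM_vd, map_smul, map_sub]

theorem PM_vwb (U : F →L[ℂ] F') (k : Fin 2) (f : MF F) : vwb k (PM U f) = PM U (vwb k f) := by
  simp only [vwb_apply, PM_vd, map_smul, map_add]

theorem PM_me (K : KD) (U : F →L[ℂ] F') (i : Fin 2) (f : MF F) : K.me i (PM U f) = PM U (K.me i f) := by
  fin_cases i
  · exact PM_vwb U 1 f
  · change vwb 0 (PM U f) + K.A • vwd 1 (PM U f) = PM U (vwb 0 f + K.A • vwd 1 f)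
    rw [PM_vwb, PM_vwd, map_add, PM_ksmul]

theorem PM_mf (K : KD) (U : F →L[ℂ] F') (i : Fin 2) (f : MF F) : K.mf i (PM U f) = PM U (K.mf i f) := by
  fin_cases i
  · exact PM_vwd U 1 f
  · change vwd 0 (PM U f) + star K.A • vwb 1 (PM U f) = PM U (vwd 0 f + star K.A • vwb 1 f)
    rw [PM_vwb, PM_vwd, map_add, PM_ksmul]

/-- constants -/
noncomputable def cM (c : F) : MF F := mkM (fun _ => c) contDiffOn_const

theorem xm_cM (c : F) {z : E2} (hz : z ∈ Om) : xm (cM c) z = c := xm_mkM _ _ hz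

theorem vd_cM (v : E2) (c : F) : vd v (cM c) = 0 := M_ext fun z hz => by
  rw [xm_vd _ _ hz, xm_zero hz, (evK_eq (g := fun _ => c) (fun y hy => xm_cM c hy) hz).fderiv_eq]
  simp

theorem me_cM (K : KD) (i : Fin 2) (c : F) : K.me i (cM c) = 0 := by
  fin_cases i
  · change vwb 1 (cM c) = 0
    rw [vwb_apply, vd_cM, vd_cM]; simp
  · change vwb 0 (cM c) + K.A • vwd 1 (cM c) = 0
    rw [vwb_apply, vwd_apply]; simp [vd_cM]

theorem mf_cM (K : KD) (i : Fin 2) (c : F) : K.mf i (cM c) = 0 := by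
  fin_cases i
  · change vwd 1 (cM c) = 0
    rw [vwd_apply, vd_cM, vd_cM]; simp
  · change vwd 0 (cM c) + star K.A • vwb 1 (cM c) = 0
    rw [vwb_apply, vwd_apply]; simp [vd_cM]

end pm

section inner

variable {H : Type} [NormedAddCommGroup H] [InnerProductSpace ℂ H]

theorem pr_PM (U : H →ₗᵢ[ℂ] H) (f g : MF H) :
    pr (PM U.toContinuousLinearMap f) (PM U.toContinuousLinearMap g) = pr f g :=
  K_ext fun z hz => by
  rw [xk_pr _ _ hz, xk_pr _ _ hz, xm_PM _ _ hz, xm_PM _ _ hz]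
  exact U.inner_map_map _ _

theorem L_PM (K : KD) (U : H →L[ℂ] H) (f : MF H) (i j : Fin 2) :
    (K.V H).L (PM U f) i j = PM U ((K.V H).L f i j) := by
  fin_cases i <;> fin_cases j
  · change K.mf 0 (K.me 0 (PM U f)) = PM U (K.mf 0 (K.me 0 f))
    rw [PM_me, PM_mf]
  · change K.mf 0 (K.me 1 (PM U f)) = PM U (K.mf 0 (K.me 1 f))
    rw [PM_me, PM_mf]
  · change K.mf 1 (K.me 0 (PM U f)) + star K.a • K.me 0 (PM U f)
      = PM U (K.mf 1 (K.me 0 f) + star K.a • K.me 0 f)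
    rw [PM_me, PM_mf, map_add, PM_ksmul]
  · change K.mf 1 (K.me 1 (PM U f)) + star K.k • K.me 0 (PM U f)
      = PM U (K.mf 1 (K.me 1 f) + star K.k • K.me 0 f)
    rw [PM_me, PM_mf, PM_me, map_add, PM_ksmul]

theorem L_cM (K : KD) (c : H) (i j : Fin 2) : (K.V H).L (cM c) i j = 0 :=
  (K.V H).L_of_e (fun j => me_cM K j c) i j

variable {K : KD} {G : Type} [Group G]

/-- affine equivariant maps -/
structure Aff (P : KAct K G) (U : G → H →ₗᵢ[ℂ] H) (c : G → H) (h : MF H) : Prop where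
  eq : ∀ g, P.TM g h = PM (U g).toContinuousLinearMap h + cM (c g)

variable {P : KAct K G} {U : G → H →ₗᵢ[ℂ] H} {c : G → H} {h : MF H}

theorem Aff.f (hh : Aff P U c h) (g : G) (i : Fin 2) :
    PM (U g).toContinuousLinearMap (K.mf i h) = P.J g 0 i • P.TM g (K.mf 0 h)
      + P.J g 1 i • P.TM g (K.mf 1 h) := by
  rw [← P.f_TM, hh.eq g, map_add, mf_cM, add_zero, PM_mf]

theorem Aff.L (hh : Aff P U c h) (g : G) (i j : Fin 2) :
    PM (U g).toContinuousLinearMap ((K.V H).L h i j) =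
      ∑ k, ∑ l, (P.J g k i * star (P.J g l j)) • P.TM g ((K.V H).L h k l) := by
  rw [← P.L_TM, hh.eq g, (K.V H).L_add, L_cM, add_zero, L_PM]

theorem Aff.cc (hh : Aff P U c h) (g : G) (l : Fin 2) :
    (K.V H).cc h l = P.dJ g * ∑ n, star (P.J g n l) * P.T g ((K.V H).cc h n) := by
  have e1 : (K.V H).cc h l = pr ((K.V H).L h l 0) (K.mf 1 h) - pr ((K.V H).L h l 1) (K.mf 0 h) := rfl
  have e2 : ∀ n, P.T g ((K.V H).cc h n) = pr (P.TM g ((K.V H).L h n 0)) (P.TM g (K.mf 1 h))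
      - pr (P.TM g ((K.V H).L h n 1)) (P.TM g (K.mf 0 h)) := by
    intro n
    have : (K.V H).cc h n = pr ((K.V H).L h n 0) (K.mf 1 h) - pr ((K.V H).L h n 1) (K.mf 0 h) := rfl
    rw [this, map_sub, P.pr_TM, P.pr_TM]
  rw [e1, ← pr_PM (U g) _ (K.mf 1 h), ← pr_PM (U g) _ (K.mf 0 h), hh.L, hh.L, hh.f, hh.f]
  simp only [Fin.sum_univ_two, e2, pr_add_left, pr_add_right, pr_ksmul_left, pr_ksmul_right, KAct.dJ,
    star_mul', star_star]
  ring

/-- **the Kaehler identity** -/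
theorem Aff.kahler (hh : Aff P U c h) {χ : SO} (hχ : CutK P.toPAct χ) :
    IK (χ * (K.V H).N h) = 0 := by
  rw [(K.V H).N_eq]
  exact stokesK P hχ ((K.V H).cc h) fun g l => hh.cc g l

end inner

end Pool.Agent.MPd01a95.CW
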