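import Mathlib
import Pool.Agent.Lib.MP_d01a95_gt_M.Defs
import Pool.Agent.Lib.MP_d01a95_gt_M.Sm
import Pool.Agent.Lib.MP_d01a95_gt_M.KerA
import Pool.Agent.Lib.MP_d01a95_gt_M.KerB
import Pool.Agent.Lib.MP_d01a95_gt_M.KerC
import Pool.Agent.Lib.MP_d01a95_gt_M.KerD
import Pool.Agent.Lib.MP_d01a95_gt_M.KerE
import Pool.Agent.Lib.MP_d01a95_gt_M.KerF

/-!
Project SU(2,2), part (2): the maximum principle for the Levi form (helper5).
-/

set_option autoImplicit false
set_option linter.all false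

open Filter Topology MeasureTheory
open scoped ContDiff ComplexConjugate

namespace Pool.Agent.MPd01a95.CW

theorem kd_wirt (v : E2) (u : SO) : kd v u = ∑ m, (v m • wd m u + conj (v m) • wb m u) := by
  apply K_ext
  intro z hz
  rw [xk_kd _ _ hz, clm_wirt, Fin.sum_univ_two, Fin.sum_univ_two]
  simp only [xk_add _ _ hz, xk_smul _ _ hz, wd_apply, wb_apply, xk_sub _ _ hz, xk_kd _ _ hz,
    smul_eq_mul]

theorem kd2 (v : E2) (u : SO) : kd v (kd v u) =
    (v 0 ^ 2) • wd 0 (wd 0 u) + (2 * v 0 * v 1) • wd 0 (wd 1 u) + (v 1 ^ 2) • wd 1 (wd 1 u)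
    + (2 * v 0 * conj (v 0)) • wd 0 (wb 0 u) + (2 * v 0 * conj (v 1)) • wd 0 (wb 1 u)
    + (2 * v 1 * conj (v 0)) • wd 1 (wb 0 u) + (2 * v 1 * conj (v 1)) • wd 1 (wb 1 u)
    + (conj (v 0) ^ 2) • wb 0 (wb 0 u) + (2 * conj (v 0) * conj (v 1)) • wb 0 (wb 1 u)
    + (conj (v 1) ^ 2) • wb 1 (wb 1 u) := by
  have h : kd v u = v 0 • wd 0 u + conj (v 0) • wb 0 u + (v 1 • wd 1 u + conj (v 1) • wb 1 u) := by
    rw [kd_wirt, Fin.sum_univ_two]
  rw [kd_wirt v (kd v u), Fin.sum_univ_two, h]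
  simp only [map_add, Derivation.map_smul]
  rw [← wdb 0 0 u, ← wdb 0 1 u, ← wdb 1 0 u, ← wdb 1 1 u, wdd 1 0 u, wbb 1 0 u]
  module

/-- one variable second derivative test -/
theorem second_test {φ φ' : ℝ → ℝ} {c : ℝ} (h1 : ∀ᶠ t in 𝓝 (0 : ℝ), HasDerivAt φ (φ' t) t)
    (h2 : HasDerivAt φ' c 0) (hmax : IsLocalMax φ 0) : c ≤ 0 := by
  by_contra hc
  rw [not_le] at hc
  have hd : deriv φ =ᶠ[𝓝 0] φ' := h1.mono fun t ht => ht.deriv
  have hφ0 : φ' 0 = 0 := by
    have := hmax.deriv_eq_zero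
    rwa [h1.self_of_nhds.deriv] at this
  have hdd : deriv (deriv φ) 0 = c := by
    rw [hd.deriv_eq, h2.deriv]
  have hmin : IsLocalMin φ 0 := by
    refine isLocalMin_of_deriv_deriv_pos (by rw [hdd]; exact hc) ?_ h1.self_of_nhds.continuousAt
    exact hmax.deriv_eq_zero
  have hconst : ∀ᶠ t in 𝓝 (0 : ℝ), φ t = φ 0 := by
    filter_upwards [hmax, hmin] with t ht1 ht2
    exact le_antisymm ht1 ht2
  have hd0 : φ' =ᶠ[𝓝 0] fun _ => 0 := by
    filter_upwards [hconst.eventually_nhds, h1] with t ht ht1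
    have h3 : φ =ᶠ[𝓝 t] fun _ => φ 0 := ht
    have h4 : HasDerivAt φ 0 t := (hasDerivAt_const t (φ 0)).congr_of_eventuallyEq h3
    exact ht1.unique h4
  have h5 : HasDerivAt φ' 0 0 := (hasDerivAt_const (0 : ℝ) (0 : ℝ)).congr_of_eventuallyEq hd0
  have := h2.unique h5
  linarith

section test

variable {u : SO} {z : E2}

theorem line_deriv (u : SO) (z v : E2) (hz : z ∈ Om) :
    ∀ᶠ t in 𝓝 (0 : ℝ), HasDerivAt (fun t : ℝ => (xk u (z + t • v)).re)
      (xk (kd v u) (z + t • v)).re t := by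
  have hc : Continuous fun t : ℝ => z + t • v := by fun_prop
  have hmem : ∀ᶠ t in 𝓝 (0 : ℝ), z + t • v ∈ Om :=
    hc.continuousAt.eventually_mem (isOpen_Om.mem_nhds (by simpa using hz))
  filter_upwards [hmem] with t ht
  have h1 : HasDerivAt (fun t : ℝ => z + t • v) v t := by
    have := ((hasDerivAt_id t).smul_const v).const_add z
    simpa using this
  have h2 := (xk_diff u ht).hasFDerivAt.comp_hasDerivAt t h1
  have h3 := Complex.reCLM.hasFDerivAt.comp_hasDerivAt t h2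
  rw [xk_kd _ _ ht]
  exact h3

theorem second_real (hz : z ∈ Om) (hmax : IsLocalMax (fun y => (xk u y).re) z) (v : E2) :
    (xk (kd v (kd v u)) z).re ≤ 0 := by
  have hc : Continuous fun t : ℝ => z + t • v := by fun_prop
  refine second_test (φ := fun t : ℝ => (xk u (z + t • v)).re)
    (φ' := fun t : ℝ => (xk (kd v u) (z + t • v)).re) (line_deriv u z v hz) ?_ ?_
  · have := (line_deriv (kd v u) z v hz).self_of_nhds
    simpa using this
  · have h0 : z + (0 : ℝ) • v = z := by simp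
    have h1 : Tendsto (fun t : ℝ => z + t • v) (𝓝 0) (𝓝 z) := by
      have := hc.tendsto 0
      rwa [h0] at this
    have h2 := h1.eventually hmax
    filter_upwards [h2] with t ht
    simpa using ht

theorem first_real (hz : z ∈ Om) (hmax : IsLocalMax (fun y => (xk u y).re) z) (v : E2) :
    (xk (kd v u) z).re = 0 := by
  have hc : Continuous fun t : ℝ => z + t • v := by fun_prop
  have h0 : z + (0 : ℝ) • v = z := by simp
  have h1 : Tendsto (fun t : ℝ => z + t • v) (𝓝 0) (𝓝 z) := by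
    have := hc.tendsto 0
    rwa [h0] at this
  have hm : IsLocalMax (fun t : ℝ => (xk u (z + t • v)).re) 0 := by
    filter_upwards [h1.eventually hmax] with t ht
    simpa using ht
  have h2 := (line_deriv u z v hz).self_of_nhds
  have := hm.hasDerivAt_eq_zero h2
  simpa using this

/-- the Levi form -/
noncomputable def lev (K : KD) (u : SO) (z : E2) (x : Fin 2 → ℂ) : ℂ :=
  ∑ i, ∑ j, x i * conj (x j) * xk (K.D.self.L u i j) z

theorem xk_real (hr : star u = u) (hz : z ∈ Om) : (xk u z).im = 0 := by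
  have h := xk_star u hz
  rw [hr] at h
  exact Complex.conj_eq_iff_im.mp h.symm

theorem lev_max (K : KD) (hr : star u = u) (hz : z ∈ Om)
    (hmax : IsLocalMax (fun y => (xk u y).re) z) (x : Fin 2 → ℂ) : (lev K u z x).re ≤ 0 := by
  have hk0 : ∀ v : E2, xk (kd v u) z = 0 := by
    intro v
    have h1 := first_real hz hmax v
    have h2 : star (kd v u) = kd v u := by rw [kd_star, hr]
    exact Complex.ext h1 (xk_real h2 hz)
  have hd : ∀ m, xk (wd m u) z = 0 := fun m => by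
    rw [wd_apply, xk_smul _ _ hz, xk_sub _ _ hz, xk_smul _ _ hz, hk0, hk0]; simp
  have hb : ∀ m, xk (wb m u) z = 0 := fun m => by
    rw [wb_apply, xk_smul _ _ hz, xk_add _ _ hz, xk_smul _ _ hz, hk0, hk0]; simp
  set A := xk K.A z with hA
  have l00 : xk (K.D.self.L u 0 0) z = xk (wd 1 (wb 1 u)) z := rfl
  have l01 : xk (K.D.self.L u 0 1) z = xk (wd 1 (wb 0 u)) z + A * xk (wd 1 (wd 1 u)) z := by
    change xk (wd 1 (wb 0 u + K.A * wd 1 u)) z = _
    rw [map_add, Derivation.leibniz, smul_eq_mul, smul_eq_mul, xk_add _ _ hz, xk_add _ _ hz,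
      xk_mul _ _ hz, xk_mul _ _ hz, hd]
    ring
  have l10 : xk (K.D.self.L u 1 0) z = xk (wd 0 (wb 1 u)) z + conj A * xk (wb 1 (wb 1 u)) z := by
    change xk (wd 0 (wb 1 u) + star K.A * wb 1 (wb 1 u) + star K.a * wb 1 u) z = _
    rw [xk_add _ _ hz, xk_add _ _ hz, xk_mul _ _ hz, xk_mul _ _ hz, xk_star _ hz, hb, mul_zero,
      add_zero]
    rfl
  have l11 : xk (K.D.self.L u 1 1) z = xk (wd 0 (wb 0 u)) z + A * xk (wd 0 (wd 1 u)) z
      + conj A * (xk (wb 0 (wb 1 u)) z + A * xk (wd 1 (wb 1 u)) z) := by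
    change xk (wd 0 (wb 0 u + K.A * wd 1 u) + star K.A * wb 1 (wb 0 u + K.A * wd 1 u)
      + star K.k * wb 1 u) z = _
    rw [map_add, map_add, Derivation.leibniz, Derivation.leibniz, ← wdb 1 1 u, wbb 1 0 u]
    simp only [smul_eq_mul, xk_add _ _ hz, xk_mul _ _ hz, xk_star _ hz, hd, hb]
    change _ + (A * _ + _) + conj A * (_ + (A * _ + _)) + _ = _
    ring
  have h1 := second_real hz hmax (![x 1, x 0 + A * conj (x 1)] : E2)
  have h2 := second_real hz hmax (![Complex.I * x 1, Complex.I * x 0 - Complex.I * A * conj (x 1)] : E2)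
  have key : lev K u z x = (1 / 4 : ℂ) * (xk (kd ![x 1, x 0 + A * conj (x 1)]
      (kd ![x 1, x 0 + A * conj (x 1)] u)) z
      + xk (kd ![Complex.I * x 1, Complex.I * x 0 - Complex.I * A * conj (x 1)]
      (kd ![Complex.I * x 1, Complex.I * x 0 - Complex.I * A * conj (x 1)] u)) z) := by
    rw [lev, kd2, kd2]
    simp only [Fin.sum_univ_two, xk_add _ _ hz, xk_smul _ _ hz, l00, l01, l10, l11]
    simp only [Matrix.cons_val_zero, Matrix.cons_val_one, map_add, map_sub, map_mul, Complex.conj_conj,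
      Complex.conj_I]
    generalize xk (wd 0 (wd 0 u)) z = p00
    generalize xk (wd 0 (wd 1 u)) z = p01
    generalize xk (wd 1 (wd 1 u)) z = p11
    generalize xk (wd 0 (wb 0 u)) z = q00
    generalize xk (wd 0 (wb 1 u)) z = q01
    generalize xk (wd 1 (wb 0 u)) z = q10
    generalize xk (wd 1 (wb 1 u)) z = q11
    generalize xk (wb 0 (wb 0 u)) z = r00
    generalize xk (wb 0 (wb 1 u)) z = r01
    generalize xk (wb 1 (wb 1 u)) z = r11
    generalize conj (x 0) = y0
    generalize conj (x 1) = y1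
    generalize conj A = B
    generalize x 0 = x0
    generalize x 1 = x1
    have hI : Complex.I ^ 2 = -1 := Complex.I_sq
    ring_nf
    simp only [hI]
    ring
  rw [key]
  have h4 : ((1 / 4 : ℂ) * (xk (kd ![x 1, x 0 + A * conj (x 1)]
      (kd ![x 1, x 0 + A * conj (x 1)] u)) z
      + xk (kd ![Complex.I * x 1, Complex.I * x 0 - Complex.I * A * conj (x 1)]
      (kd ![Complex.I * x 1, Complex.I * x 0 - Complex.I * A * conj (x 1)] u)) z)).re =
      (1 / 4) * ((xk (kd ![x 1, x 0 + A * conj (x 1)] (kd ![x 1, x 0 + A * conj (x 1)] u)) z).re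
      + (xk (kd ![Complex.I * x 1, Complex.I * x 0 - Complex.I * A * conj (x 1)]
      (kd ![Complex.I * x 1, Complex.I * x 0 - Complex.I * A * conj (x 1)] u)) z).re) := by
    have : (1 / 4 : ℂ) = ((1 / 4 : ℝ) : ℂ) := by push_cast; rfl
    rw [this, Complex.re_ofReal_mul, Complex.add_re]
  rw [h4]
  linarith

end test

end Pool.Agent.MPd01a95.CW
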