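import Mathlib
import Pool.Agent.Lib.MP_d01a95_gt_M.Defs
import Pool.Agent.Lib.MP_d01a95_gt_M.Sm
import Pool.Agent.Lib.MP_d01a95_gt_M.KerA
import Pool.Agent.Lib.MP_d01a95_gt_M.KerB
import Pool.Agent.Lib.MP_d01a95_gt_M.KerC
import Pool.Agent.Lib.MP_d01a95_gt_M.KerD
import Pool.Agent.Lib.MP_d01a95_gt_M.KerE
import Pool.Agent.Lib.MP_d01a95_gt_M.KerF
import Pool.Agent.Lib.MP_d01a95_gt_M.KerG
import Pool.Agent.Lib.MP_d01a95_gt_M.KerH
import Pool.Agent.Lib.MP_d01a95_gt_M.KerI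

/-!
Project SU(2,2), part (2): the Kaehler inequality, algebra (helper5).
-/

set_option autoImplicit false
set_option linter.all false

open Filter Topology MeasureTheory
open scoped ContDiff ComplexConjugate

namespace Pool.Agent.MPd01a95.CW

/-- scalar functions as complex valued vector functions -/
noncomputable def toM (u : SO) : MF ℂ := ⟨u.1, u.2⟩

theorem xm_toM (u : SO) (z : E2) : xm (toM u) z = xk u z := rfl

theorem toM_inj {u v : SO} (h : toM u = toM v) : u = v := by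
  apply K_ext
  intro z hz
  rw [← xm_toM, ← xm_toM, h]

theorem toM_add (u v : SO) : toM (u + v) = toM u + toM v := rfl

theorem toM_mul (u v : SO) : toM (u * v) = u • toM v := M_ext fun z hz => by
  rw [xm_toM, xm_ksmul _ _ hz, xm_toM, xk_mul _ _ hz]; rfl

theorem vd_toM (v : E2) (u : SO) : vd v (toM u) = toM (kd v u) := M_ext fun z hz => by
  rw [xm_toM, xm_vd _ _ hz, xk_kd _ _ hz]; rfl

theorem vwd_toM (k : Fin 2) (u : SO) : vwd k (toM u) = toM (wd k u) := by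
  rw [vwd_apply, vd_toM, vd_toM, wd_apply]; rfl

theorem vwb_toM (k : Fin 2) (u : SO) : vwb k (toM u) = toM (wb k u) := by
  rw [vwb_apply, vd_toM, vd_toM, wb_apply]; rfl

theorem me_toM (K : KD) (i : Fin 2) (u : SO) : K.me i (toM u) = toM (K.D.e i u) := by
  fin_cases i
  · exact vwb_toM 1 u
  · change vwb 0 (toM u) + K.A • vwd 1 (toM u) = toM (wb 0 u + K.A * wd 1 u)
    rw [vwb_toM, vwd_toM, toM_add, toM_mul]

theorem mf_toM (K : KD) (i : Fin 2) (u : SO) : K.mf i (toM u) = toM (K.D.f i u) := by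
  fin_cases i
  · exact vwd_toM 1 u
  · change vwd 0 (toM u) + star K.A • vwb 1 (toM u) = toM (wd 0 u + star K.A * wb 1 u)
    rw [vwb_toM, vwd_toM, toM_add, toM_mul]

theorem L_toM (K : KD) (u : SO) (i j : Fin 2) : (K.V ℂ).L (toM u) i j = toM (K.D.self.L u i j) := by
  fin_cases i <;> fin_cases j
  · change K.mf 0 (K.me 0 (toM u)) = toM (K.D.f 0 (K.D.e 0 u))
    rw [me_toM, mf_toM]
  · change K.mf 0 (K.me 1 (toM u)) = toM (K.D.f 0 (K.D.e 1 u))
    rw [me_toM, mf_toM]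
  · change K.mf 1 (K.me 0 (toM u)) + star K.a • K.me 0 (toM u)
      = toM (K.D.f 1 (K.D.e 0 u) + star K.a * K.D.e 0 u)
    rw [me_toM, mf_toM, toM_add, toM_mul]
  · change K.mf 1 (K.me 1 (toM u)) + star K.k • K.me 0 (toM u)
      = toM (K.D.f 1 (K.D.e 1 u) + star K.k * K.D.e 0 u)
    rw [me_toM, mf_toM, me_toM, toM_add, toM_mul]

variable {K : KD} {G : Type} [Group G]

theorem TM_toM (P : PAct G) (g : G) (u : SO) : P.TM g (toM u) = toM (P.T g u) := M_ext fun z hz => by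
  rw [P.xm_TM _ _ hz, xm_toM, xm_toM, P.xk_T _ _ hz]

/-- tensoriality of the Levi matrix, scalar functions -/
theorem KAct.L_T (P : KAct K G) (g : G) (u : SO) (i j : Fin 2) :
    K.D.self.L (P.T g u) i j = ∑ k, ∑ l, P.J g k i * star (P.J g l j) * P.T g (K.D.self.L u k l) := by
  apply toM_inj
  rw [← L_toM, ← TM_toM, P.L_TM]
  simp only [Fin.sum_univ_two, toM_add, toM_mul _ (P.T g _), L_toM, TM_toM]

/-- an invariant Hermitian metric -/
structure Met (P : KAct K G) where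
  g : Fin 2 → Fin 2 → SO
  di : SO
  her : ∀ i j, star (g i j) = g j i
  hdi : (g 0 0 * g 1 1 - g 0 1 * g 1 0) * di = 1
  inv : ∀ γ i j, g i j = ∑ k, ∑ l, P.J γ k i * star (P.J γ l j) * P.T γ (g k l)

namespace Met

variable {P : KAct K G} (m : Met P)

/-- determinant -/
noncomputable def δ : SO := m.g 0 0 * m.g 1 1 - m.g 0 1 * m.g 1 0

theorem δ_di : m.δ * m.di = 1 := m.hdi

theorem δ_inv (γ : G) : m.δ = P.dJ γ * star (P.dJ γ) * P.T γ m.δ := by
  have e : star (P.dJ γ) = star (P.J γ 0 0) * star (P.J γ 1 1) - star (P.J γ 0 1) * star (P.J γ 1 0) := by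
    rw [KAct.dJ, star_sub, star_mul', star_mul']
  have b00 := m.inv γ 0 0
  have b01 := m.inv γ 0 1
  have b10 := m.inv γ 1 0
  have b11 := m.inv γ 1 1
  rw [e, KAct.dJ, δ]
  simp only [Fin.sum_univ_two, map_sub, map_mul] at *
  generalize P.T γ (m.g 0 0) = t00 at *
  generalize P.T γ (m.g 0 1) = t01 at *
  generalize P.T γ (m.g 1 0) = t10 at *
  generalize P.T γ (m.g 1 1) = t11 at *
  rw [b00, b01, b10, b11]
  ring

variable {H : Type} [NormedAddCommGroup H] [InnerProductSpace ℂ H]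

/-- `δ` times the trace of the Levi matrix -/
noncomputable def tr (M : Fin 2 → Fin 2 → MF H) : MF H :=
  m.g 0 0 • M 1 1 + m.g 1 1 • M 0 0 - m.g 1 0 • M 0 1 - m.g 0 1 • M 1 0

/-- `Q = |tr|² - δ N` -/
noncomputable def Q (h : MF H) : SO :=
  pr (m.tr ((K.V H).L h)) (m.tr ((K.V H).L h)) - m.δ * (K.V H).N h

/-- sum of squares -/
theorem Q_sos (h : MF H) : m.g 0 0 ^ 2 * m.Q h =
    m.δ ^ 2 * pr ((K.V H).L h 0 0) ((K.V H).L h 0 0)
    + m.δ * pr (m.g 0 0 • (K.V H).L h 0 1 - m.g 0 1 • (K.V H).L h 0 0)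
        (m.g 0 0 • (K.V H).L h 0 1 - m.g 0 1 • (K.V H).L h 0 0)
    + m.δ * pr (m.g 0 0 • (K.V H).L h 1 0 - m.g 1 0 • (K.V H).L h 0 0)
        (m.g 0 0 • (K.V H).L h 1 0 - m.g 1 0 • (K.V H).L h 0 0)
    + pr ((m.g 0 0 ^ 2) • (K.V H).L h 1 1 - (m.g 0 0 * m.g 0 1) • (K.V H).L h 1 0
          - (m.g 0 0 * m.g 1 0) • (K.V H).L h 0 1 + (m.g 0 1 * m.g 1 0) • (K.V H).L h 0 0)
        ((m.g 0 0 ^ 2) • (K.V H).L h 1 1 - (m.g 0 0 * m.g 0 1) • (K.V H).L h 1 0
          - (m.g 0 0 * m.g 1 0) • (K.V H).L h 0 1 + (m.g 0 1 * m.g 1 0) • (K.V H).L h 0 0) := by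
  have hN : (K.V H).N h = pr ((K.V H).L h 1 1) ((K.V H).L h 0 0) + pr ((K.V H).L h 0 0) ((K.V H).L h 1 1)
      - pr ((K.V H).L h 0 1) ((K.V H).L h 0 1) - pr ((K.V H).L h 1 0) ((K.V H).L h 1 0) := rfl
  rw [Q, hN, tr, δ]
  generalize (K.V H).L h 0 0 = A
  generalize (K.V H).L h 0 1 = B
  generalize (K.V H).L h 1 0 = C
  generalize (K.V H).L h 1 1 = D
  simp only [pr_add_left, pr_add_right, pr_sub_left, pr_sub_right, pr_ksmul_left, pr_ksmul_right,
    star_mul', star_pow, m.her]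
  ring

variable {U : G → H →ₗᵢ[ℂ] H} {c : G → H} {h : MF H}

theorem Q_inv (hh : Aff P U c h) (γ : G) :
    m.Q h = (P.dJ γ * star (P.dJ γ)) ^ 2 * P.T γ (m.Q h) := by
  have hN : (K.V H).N h = pr ((K.V H).L h 1 1) ((K.V H).L h 0 0) + pr ((K.V H).L h 0 0) ((K.V H).L h 1 1)
      - pr ((K.V H).L h 0 1) ((K.V H).L h 0 1) - pr ((K.V H).L h 1 0) ((K.V H).L h 1 0) := rfl
  have e : star (P.dJ γ) = star (P.J γ 0 0) * star (P.J γ 1 1) - star (P.J γ 0 1) * star (P.J γ 1 0) := by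
    rw [KAct.dJ, star_sub, star_mul', star_mul']
  have hL := hh.L γ
  have i1 : (K.V H).N h = (P.dJ γ * star (P.dJ γ)) * P.T γ ((K.V H).N h) := by
    rw [e, KAct.dJ, hN]
    simp only [map_add, map_sub, ← P.pr_TM]
    rw [← pr_PM (U γ) ((K.V H).L h 1 1) ((K.V H).L h 0 0), ← pr_PM (U γ) ((K.V H).L h 0 0) ((K.V H).L h 1 1),
      ← pr_PM (U γ) ((K.V H).L h 0 1) ((K.V H).L h 0 1), ← pr_PM (U γ) ((K.V H).L h 1 0) ((K.V H).L h 1 0),
      hL 0 0, hL 0 1, hL 1 0, hL 1 1]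
    simp only [Fin.sum_univ_two]
    generalize P.TM γ ((K.V H).L h 0 0) = A
    generalize P.TM γ ((K.V H).L h 0 1) = B
    generalize P.TM γ ((K.V H).L h 1 0) = C
    generalize P.TM γ ((K.V H).L h 1 1) = D
    simp only [pr_add_left, pr_add_right, pr_ksmul_left, pr_ksmul_right, star_mul', star_star]
    ring
  have i2 : PM (U γ).toContinuousLinearMap (m.tr ((K.V H).L h)) =
      (P.dJ γ * star (P.dJ γ)) • P.TM γ (m.tr ((K.V H).L h)) := by
    rw [e, KAct.dJ, tr]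
    simp only [map_add, map_sub, PM_ksmul, P.TM_ksmul]
    have b00 := m.inv γ 0 0
    have b01 := m.inv γ 0 1
    have b10 := m.inv γ 1 0
    have b11 := m.inv γ 1 1
    rw [hL 0 0, hL 0 1, hL 1 0, hL 1 1]
    simp only [Fin.sum_univ_two] at *
    generalize P.T γ (m.g 0 0) = t00 at *
    generalize P.T γ (m.g 0 1) = t01 at *
    generalize P.T γ (m.g 1 0) = t10 at *
    generalize P.T γ (m.g 1 1) = t11 at *
    rw [b00, b01, b10, b11]
    generalize P.TM γ ((K.V H).L h 0 0) = A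
    generalize P.TM γ ((K.V H).L h 0 1) = B
    generalize P.TM γ ((K.V H).L h 1 0) = C
    generalize P.TM γ ((K.V H).L h 1 1) = D
    module
  have i3 : pr (m.tr ((K.V H).L h)) (m.tr ((K.V H).L h)) =
      (P.dJ γ * star (P.dJ γ)) ^ 2 * P.T γ (pr (m.tr ((K.V H).L h)) (m.tr ((K.V H).L h))) := by
    conv_lhs => rw [← pr_PM (U γ), i2]
    rw [pr_ksmul_left, pr_ksmul_right, P.pr_TM, star_mul', star_star]
    ring
  rw [Q, map_sub, map_mul]
  have i4 := m.δ_inv γ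
  calc pr (m.tr ((K.V H).L h)) (m.tr ((K.V H).L h)) - m.δ * (K.V H).N h
      = (P.dJ γ * star (P.dJ γ)) ^ 2 * P.T γ (pr (m.tr ((K.V H).L h)) (m.tr ((K.V H).L h)))
        - (P.dJ γ * star (P.dJ γ) * P.T γ m.δ) * ((P.dJ γ * star (P.dJ γ)) * P.T γ ((K.V H).N h)) := by
        rw [← i3, ← i4, ← i1]
    _ = _ := by ring

/-- the invariant density `Q / δ` -/
theorem QD_inv (hh : Aff P U c h) (γ : G) :
    m.di * m.Q h = P.dJ γ * star (P.dJ γ) * P.T γ (m.di * m.Q h) := by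
  have h1 := m.Q_inv hh γ
  have h2 := m.δ_inv γ
  have h3 : P.T γ m.δ * P.T γ m.di = 1 := by rw [← map_mul, m.δ_di, map_one]
  have h4 := m.δ_di
  have h5 : m.δ * (m.di * m.Q h) = m.δ * (P.dJ γ * star (P.dJ γ) * P.T γ (m.di * m.Q h)) := by
    rw [map_mul]
    calc m.δ * (m.di * m.Q h) = (m.δ * m.di) * m.Q h := by ring
      _ = m.Q h := by rw [h4, one_mul]
      _ = (P.dJ γ * star (P.dJ γ)) ^ 2 * P.T γ (m.Q h) * (P.T γ m.δ * P.T γ m.di) := by
        rw [h3, mul_one, ← h1]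
      _ = (P.dJ γ * star (P.dJ γ) * P.T γ m.δ) * (P.dJ γ * star (P.dJ γ) * (P.T γ m.di * P.T γ (m.Q h))) := by ring
      _ = _ := by rw [← h2]
  calc m.di * m.Q h = (m.δ * m.di) * (m.di * m.Q h) := by rw [h4, one_mul]
    _ = m.di * (m.δ * (m.di * m.Q h)) := by ring
    _ = m.di * (m.δ * (P.dJ γ * star (P.dJ γ) * P.T γ (m.di * m.Q h))) := by rw [h5]
    _ = (m.δ * m.di) * (P.dJ γ * star (P.dJ γ) * P.T γ (m.di * m.Q h)) := by ring
    _ = _ := by rw [h4, one_mul]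

/-- integrated form -/
theorem int_Q (hh : Aff P U c h) {χ : SO} (hχ : CutK P.toPAct χ) :
    IK (χ * (m.di * m.Q h)) = IK (χ * (m.di * pr (m.tr ((K.V H).L h)) (m.tr ((K.V H).L h)))) := by
  obtain ⟨C, hC, hCO, hS⟩ := hχ.supp
  have e : χ * (m.di * m.Q h) = χ * (m.di * pr (m.tr ((K.V H).L h)) (m.tr ((K.V H).L h)))
      - χ * (K.V H).N h := by
    rw [Q]
    have h4 := m.δ_di
    calc _ = χ * (m.di * pr (m.tr ((K.V H).L h)) (m.tr ((K.V H).L h)))
          - (m.δ * m.di) * (χ * (K.V H).N h) := by ring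
      _ = _ := by rw [h4, one_mul]
  rw [e, (hS.mul _).IK_sub hC hCO (hS.mul _), hh.kahler hχ, sub_zero]

end Met

end Pool.Agent.MPd01a95.CW
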