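import Mathlib
import Pool.Agent.Lib.MP_d01a95_gt_M.Defs
import Pool.Agent.Lib.MP_d01a95_gt_M.Sm
import Pool.Agent.Lib.MP_d01a95_gt_M.KerA
import Pool.Agent.Lib.MP_d01a95_gt_M.KerB
import Pool.Agent.Lib.MP_d01a95_gt_M.KerC
import Pool.Agent.Lib.MP_d01a95_gt_M.KerD
import Pool.Agent.Lib.MP_d01a95_gt_M.KerE
import Pool.Agent.Lib.MP_d01a95_gt_M.KerF
import Pool.Agent.Lib.MP_d01a95_gt_M.KerG
import Pool.Agent.Lib.MP_d01a95_gt_M.KerH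
import Pool.Agent.Lib.MP_d01a95_gt_M.KerI
import Pool.Agent.Lib.MP_d01a95_gt_M.KerK

/-!
Project SU(2,2), part (2): the Kaehler inequality, estimates (helper5).
-/

set_option autoImplicit false
set_option linter.all false

open Filter Topology MeasureTheory
open scoped ContDiff ComplexConjugate

namespace Pool.Agent.MPd01a95.CW

theorem le_of_sq_le' {x y : ℝ} (hy : 0 ≤ y) (h : x ^ 2 ≤ y ^ 2) : x ≤ y := by
  by_contra hc
  rw [not_le] at hc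
  nlinarith

section sos

variable {H : Type} [NormedAddCommGroup H] [NormedSpace ℂ H]

theorem sos_bound {R a d q : ℝ} (hR : 1 ≤ R) (ha : 1 ≤ R * a) (ha' : a ≤ R) (hd : 1 ≤ R * d)
    (hd' : d ≤ R) {b b' : ℂ} (hb : ‖b‖ ≤ R) (hb' : ‖b'‖ ≤ R) (A B C D : H)
    (h : a ^ 2 * q = d ^ 2 * ‖A‖ ^ 2 + d * ‖(a : ℂ) • B - b • A‖ ^ 2 + d * ‖(a : ℂ) • C - b' • A‖ ^ 2
      + ‖((a : ℂ) ^ 2) • D - ((a : ℂ) * b) • C - ((a : ℂ) * b') • B + (b * b') • A‖ ^ 2) :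
    0 ≤ q ∧ ‖A‖ ^ 2 + ‖B‖ ^ 2 + ‖C‖ ^ 2 + ‖D‖ ^ 2 ≤ 45 * R ^ 16 * q := by
  have hR0 : 0 < R := by linarith
  have ha0 : 0 < a := by
    by_contra hc
    rw [not_lt] at hc
    nlinarith
  have hd0 : 0 < d := by
    by_contra hc
    rw [not_lt] at hc
    nlinarith
  have hq : 0 ≤ q := by
    by_contra hc
    rw [not_le] at hc
    have h1 : a ^ 2 * q < 0 := mul_neg_of_pos_of_neg (by positivity) hc
    have h2 : 0 ≤ d ^ 2 * ‖A‖ ^ 2 + d * ‖(a : ℂ) • B - b • A‖ ^ 2 + d * ‖(a : ℂ) • C - b' • A‖ ^ 2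
      + ‖((a : ℂ) ^ 2) • D - ((a : ℂ) * b) • C - ((a : ℂ) * b') • B + (b * b') • A‖ ^ 2 := by positivity
    linarith
  refine ⟨hq, ?_⟩
  set s := Real.sqrt q with hs
  have hs0 : 0 ≤ s := Real.sqrt_nonneg q
  have hss : s ^ 2 = q := Real.sq_sqrt hq
  set X := (a : ℂ) • B - b • A with hX
  set Y := (a : ℂ) • C - b' • A with hY
  set Z := ((a : ℂ) ^ 2) • D - ((a : ℂ) * b) • C - ((a : ℂ) * b') • B + (b * b') • A with hZ
  have na : ‖(a : ℂ)‖ = a := by rw [Complex.norm_real, Real.norm_eq_abs, abs_of_pos ha0]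
  have haq : a ^ 2 * q ≤ R ^ 2 * q := by gcongr
  have p1 : 0 ≤ d ^ 2 * ‖A‖ ^ 2 := by positivity
  have p2 : 0 ≤ d * ‖X‖ ^ 2 := by positivity
  have p3 : 0 ≤ d * ‖Y‖ ^ 2 := by positivity
  have p4 : 0 ≤ ‖Z‖ ^ 2 := by positivity
  -- A
  have hA : ‖A‖ ≤ R ^ 2 * s := by
    apply le_of_sq_le' (by positivity)
    have h1 : d ^ 2 * ‖A‖ ^ 2 ≤ R ^ 2 * q := by linarith
    have h2 : ‖A‖ ^ 2 ≤ R ^ 2 * (d ^ 2 * ‖A‖ ^ 2) := by
      have : 1 ≤ (R * d) ^ 2 := one_le_pow₀ hd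
      nlinarith [sq_nonneg ‖A‖]
    calc ‖A‖ ^ 2 ≤ R ^ 2 * (d ^ 2 * ‖A‖ ^ 2) := h2
      _ ≤ R ^ 2 * (R ^ 2 * q) := by gcongr
      _ = (R ^ 2 * s) ^ 2 := by rw [mul_pow, hss]; ring
  have key : ∀ W : H, d * ‖W‖ ^ 2 ≤ R ^ 2 * q → ‖W‖ ≤ R ^ 2 * s := by
    intro W h1
    apply le_of_sq_le' (by positivity)
    have h2 : ‖W‖ ^ 2 ≤ R * (d * ‖W‖ ^ 2) := by nlinarith [sq_nonneg ‖W‖]
    calc ‖W‖ ^ 2 ≤ R * (d * ‖W‖ ^ 2) := h2
      _ ≤ R * (R ^ 2 * q) := by gcongr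
      _ ≤ R * (R * (R ^ 2 * q)) := by
        have : 0 ≤ R * (R ^ 2 * q) := by positivity
        nlinarith
      _ = (R ^ 2 * s) ^ 2 := by rw [mul_pow, hss]; ring
  have hXb := key X (by linarith)
  have hYb := key Y (by linarith)
  have fromX : ∀ (W V : H) (b : ℂ), ‖b‖ ≤ R → V = (a : ℂ) • W - b • A → ‖V‖ ≤ R ^ 2 * s →
      ‖W‖ ≤ 2 * R ^ 4 * s := by
    intro W V b hb hV hVb
    have h1 : (a : ℂ) • W = V + b • A := by rw [hV]; abel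
    have h2 : a * ‖W‖ ≤ R ^ 2 * s + R * (R ^ 2 * s) := by
      rw [← na, ← norm_smul, h1]
      refine (norm_add_le _ _).trans (add_le_add hVb ?_)
      rw [norm_smul]
      gcongr
    have h3 : ‖W‖ ≤ R * (a * ‖W‖) := by nlinarith [norm_nonneg W]
    calc ‖W‖ ≤ R * (a * ‖W‖) := h3
      _ ≤ R * (R ^ 2 * s + R * (R ^ 2 * s)) := by gcongr
      _ ≤ R * (R * (R ^ 2 * s) + R * (R ^ 2 * s)) := by
        have h5 : 0 ≤ R ^ 2 * s := by positivity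
        have h6 : R ^ 2 * s ≤ R * (R ^ 2 * s) := by nlinarith
        exact mul_le_mul_of_nonneg_left (by linarith) hR0.le
      _ = 2 * R ^ 4 * s := by ring
  have hB : ‖B‖ ≤ 2 * R ^ 4 * s := fromX B X b hb hX hXb
  have hC : ‖C‖ ≤ 2 * R ^ 4 * s := fromX C Y b' hb' hY hYb
  have hZb : ‖Z‖ ≤ R * s := by
    apply le_of_sq_le' (by positivity)
    rw [mul_pow, hss]
    linarith
  have pw : ∀ n m : ℕ, n ≤ m → R ^ n * s ≤ R ^ m * s := fun n m hnm =>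
    mul_le_mul_of_nonneg_right (pow_le_pow_right₀ hR hnm) hs0
  have hD : ‖D‖ ≤ 6 * R ^ 8 * s := by
    have h1 : ((a : ℂ) ^ 2) • D = Z + ((a : ℂ) * b) • C + ((a : ℂ) * b') • B - (b * b') • A := by
      rw [hZ]; abel
    have h2 : a ^ 2 * ‖D‖ ≤ R * s + R * R * (2 * R ^ 4 * s) + R * R * (2 * R ^ 4 * s) + R * R * (R ^ 2 * s) := by
      have e : a ^ 2 * ‖D‖ = ‖((a : ℂ) ^ 2) • D‖ := by rw [norm_smul, norm_pow, na]
      rw [e, h1]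
      refine (norm_sub_le _ _).trans (add_le_add ((norm_add₃_le).trans ?_) ?_)
      · refine add_le_add (add_le_add hZb ?_) ?_
        · rw [norm_smul, norm_mul, na]; gcongr
        · rw [norm_smul, norm_mul, na]; gcongr
      · rw [norm_smul, norm_mul]; gcongr
    have h3 : ‖D‖ ≤ R ^ 2 * (a ^ 2 * ‖D‖) := by
      have : 1 ≤ (R * a) ^ 2 := one_le_pow₀ ha
      nlinarith [norm_nonneg D]
    have h4 : R * s + R * R * (2 * R ^ 4 * s) + R * R * (2 * R ^ 4 * s) + R * R * (R ^ 2 * s) ≤ 6 * R ^ 6 * s := by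
      have e1 := pw 1 6 (by norm_num)
      have e2 := pw 4 6 (by norm_num)
      rw [pow_one] at e1
      nlinarith
    calc ‖D‖ ≤ R ^ 2 * (a ^ 2 * ‖D‖) := h3
      _ ≤ R ^ 2 * (6 * R ^ 6 * s) := by
        have := h2.trans h4
        gcongr
      _ = 6 * R ^ 8 * s := by ring
  have sqle : ∀ (x t : ℝ), 0 ≤ x → x ≤ t → x ^ 2 ≤ t ^ 2 := fun x t hx hxt => by gcongr
  have q1 := sqle _ _ (norm_nonneg A) hA
  have q2 := sqle _ _ (norm_nonneg B) hB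
  have q3 := sqle _ _ (norm_nonneg C) hC
  have q4 := sqle _ _ (norm_nonneg D) hD
  have pq : ∀ n m : ℕ, n ≤ m → R ^ n * q ≤ R ^ m * q := fun n m hnm =>
    mul_le_mul_of_nonneg_right (pow_le_pow_right₀ hR hnm) hq
  have r1 : (R ^ 2 * s) ^ 2 = R ^ 4 * q := by rw [mul_pow, hss]; ring
  have r2 : (2 * R ^ 4 * s) ^ 2 = 4 * (R ^ 8 * q) := by rw [mul_pow, hss]; ring
  have r4 : (6 * R ^ 8 * s) ^ 2 = 36 * (R ^ 16 * q) := by rw [mul_pow, hss]; ring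
  rw [r1] at q1
  rw [r2] at q2 q3
  rw [r4] at q4
  have t1 := pq 4 16 (by norm_num)
  have t2 := pq 8 16 (by norm_num)
  linarith

end sos

namespace Met

variable {K : KD} {G : Type} [Group G] {P : KAct K G} (m : Met P)
variable {H : Type} [NormedAddCommGroup H] [InnerProductSpace ℂ H]

/-- positivity -/
def Pos : Prop := ∀ z ∈ Om, 0 < (xk (m.g 0 0) z).re ∧ 0 < (xk m.δ z).re

theorem star_δ : star m.δ = m.δ := by
  rw [δ, star_sub, star_mul', star_mul', m.her, m.her, m.her, m.her]; ring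

theorem star_N (h : MF H) : star ((K.V H).N h) = (K.V H).N h := by
  have hN : (K.V H).N h = pr ((K.V H).L h 1 1) ((K.V H).L h 0 0) + pr ((K.V H).L h 0 0) ((K.V H).L h 1 1)
      - pr ((K.V H).L h 0 1) ((K.V H).L h 0 1) - pr ((K.V H).L h 1 0) ((K.V H).L h 1 0) := rfl
  rw [hN, star_sub, star_sub, star_add, star_pr, star_pr, star_pr, star_pr]
  ring

theorem star_Q (h : MF H) : star (m.Q h) = m.Q h := by
  rw [Q, star_sub, star_mul', m.star_δ, star_pr, star_N]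

theorem real_of_star {u : SO} (h : star u = u) {z : E2} (hz : z ∈ Om) : xk u z = ((xk u z).re : ℂ) := by
  have h1 := xk_star u hz
  rw [h] at h1
  exact (Complex.conj_eq_iff_re.mp h1.symm).symm

theorem pr_self (x : MF H) {z : E2} (hz : z ∈ Om) : xk (pr x x) z = ((‖xm x z‖ ^ 2 : ℝ) : ℂ) := by
  rw [xk_pr _ _ hz, inner_self_eq_norm_sq_to_K]
  norm_cast

theorem xk_sq (u : SO) {z : E2} (hz : z ∈ Om) : xk (u ^ 2) z = (xk u z) ^ 2 := by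
  rw [sq, xk_mul _ _ hz, sq]

/-- the sum of squares, pointwise -/
theorem sos_pt (h : MF H) {z : E2} (hz : z ∈ Om) :
    (xk (m.g 0 0) z).re ^ 2 * (xk (m.Q h) z).re = (xk m.δ z).re ^ 2 * ‖xm ((K.V H).L h 0 0) z‖ ^ 2
      + (xk m.δ z).re * ‖(((xk (m.g 0 0) z).re : ℝ) : ℂ) • xm ((K.V H).L h 0 1) z
        - xk (m.g 0 1) z • xm ((K.V H).L h 0 0) z‖ ^ 2
      + (xk m.δ z).re * ‖(((xk (m.g 0 0) z).re : ℝ) : ℂ) • xm ((K.V H).L h 1 0) z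
        - xk (m.g 1 0) z • xm ((K.V H).L h 0 0) z‖ ^ 2
      + ‖((((xk (m.g 0 0) z).re : ℝ) : ℂ) ^ 2) • xm ((K.V H).L h 1 1) z
        - ((((xk (m.g 0 0) z).re : ℝ) : ℂ) * xk (m.g 0 1) z) • xm ((K.V H).L h 1 0) z
        - ((((xk (m.g 0 0) z).re : ℝ) : ℂ) * xk (m.g 1 0) z) • xm ((K.V H).L h 0 1) z
        + (xk (m.g 0 1) z * xk (m.g 1 0) z) • xm ((K.V H).L h 0 0) z‖ ^ 2 := by
  have hsos := congrArg (fun u => xk u z) (m.Q_sos h)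
  have ra := real_of_star (m.her 0 0) hz
  have rd := real_of_star m.star_δ hz
  have rq := real_of_star (m.star_Q h) hz
  rw [xk_mul _ _ hz, xk_sq _ hz, xk_add _ _ hz, xk_add _ _ hz, xk_add _ _ hz, xk_mul _ _ hz,
    xk_mul _ _ hz, xk_mul _ _ hz, xk_sq _ hz, pr_self _ hz, pr_self _ hz, pr_self _ hz,
    pr_self _ hz, xm_sub _ _ hz, xm_sub _ _ hz, xm_add _ _ hz, xm_sub _ _ hz, xm_sub _ _ hz,
    xm_ksmul _ _ hz, xm_ksmul _ _ hz, xm_ksmul _ _ hz, xm_ksmul _ _ hz, xm_ksmul _ _ hz,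
    xm_ksmul _ _ hz, xm_ksmul _ _ hz, xk_sq _ hz, xk_mul _ _ hz, xk_mul _ _ hz, xm_ksmul _ _ hz,
    xk_mul _ _ hz] at hsos
  rw [ra, rd, rq] at hsos
  have := congrArg Complex.re hsos
  generalize ‖xm ((K.V H).L h 0 0) z‖ = n0 at this ⊢
  generalize ‖(((xk (m.g 0 0) z).re : ℝ) : ℂ) • xm ((K.V H).L h 0 1) z
        - xk (m.g 0 1) z • xm ((K.V H).L h 0 0) z‖ = n1 at this ⊢
  generalize ‖(((xk (m.g 0 0) z).re : ℝ) : ℂ) • xm ((K.V H).L h 1 0) z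
        - xk (m.g 1 0) z • xm ((K.V H).L h 0 0) z‖ = n2 at this ⊢
  generalize ‖((((xk (m.g 0 0) z).re : ℝ) : ℂ) ^ 2) • xm ((K.V H).L h 1 1) z
        - ((((xk (m.g 0 0) z).re : ℝ) : ℂ) * xk (m.g 0 1) z) • xm ((K.V H).L h 1 0) z
        - ((((xk (m.g 0 0) z).re : ℝ) : ℂ) * xk (m.g 1 0) z) • xm ((K.V H).L h 0 1) z
        + (xk (m.g 0 1) z * xk (m.g 1 0) z) • xm ((K.V H).L h 0 0) z‖ = n3 at this ⊢
  generalize (xk (m.g 0 0) z).re = a at this ⊢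
  generalize (xk m.δ z).re = d at this ⊢
  generalize (xk (m.Q h) z).re = q at this ⊢
  have e : ((a : ℂ) ^ 2 * (q : ℂ)).re = a ^ 2 * q := by
    rw [← Complex.ofReal_pow, ← Complex.ofReal_mul, Complex.ofReal_re]
  have e2 : ((d : ℂ) ^ 2 * ((n0 ^ 2 : ℝ) : ℂ) + (d : ℂ) * ((n1 ^ 2 : ℝ) : ℂ) + (d : ℂ) * ((n2 ^ 2 : ℝ) : ℂ)
      + ((n3 ^ 2 : ℝ) : ℂ)).re = d ^ 2 * n0 ^ 2 + d * n1 ^ 2 + d * n2 ^ 2 + n3 ^ 2 := by
    rw [← Complex.ofReal_pow, ← Complex.ofReal_mul, ← Complex.ofReal_mul, ← Complex.ofReal_mul,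
      ← Complex.ofReal_add, ← Complex.ofReal_add, ← Complex.ofReal_add, Complex.ofReal_re]
  rw [← e, ← e2]
  exact this

/-- bounds on a compact set -/
theorem bounds (hp : m.Pos) {C : Set E2} (hC : IsCompact C) (hCO : C ⊆ Om) :
    ∃ R : ℝ, 1 ≤ R ∧ ∀ z ∈ C, (xk (m.g 0 0) z).re ≤ R ∧ 1 ≤ R * (xk (m.g 0 0) z).re ∧
      (xk m.δ z).re ≤ R ∧ 1 ≤ R * (xk m.δ z).re ∧ ‖xk (m.g 0 1) z‖ ≤ R := by
  have c1 : ContinuousOn (fun z => (xk (m.g 0 0) z).re) C :=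
    Complex.continuous_re.comp_continuousOn ((xk_sm _).continuousOn.mono hCO)
  have c2 : ContinuousOn (fun z => (xk m.δ z).re) C :=
    Complex.continuous_re.comp_continuousOn ((xk_sm _).continuousOn.mono hCO)
  have c3 : ContinuousOn (fun z => ‖xk (m.g 0 1) z‖) C := ((xk_sm _).continuousOn.mono hCO).norm
  have i1 : ContinuousOn (fun z => ((xk (m.g 0 0) z).re)⁻¹) C :=
    c1.inv₀ fun z hz => (hp z (hCO hz)).1.ne'
  have i2 : ContinuousOn (fun z => ((xk m.δ z).re)⁻¹) C :=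
    c2.inv₀ fun z hz => (hp z (hCO hz)).2.ne'
  obtain ⟨B1, hB1⟩ := hC.bddAbove_image c1
  obtain ⟨B2, hB2⟩ := hC.bddAbove_image c2
  obtain ⟨B3, hB3⟩ := hC.bddAbove_image c3
  obtain ⟨B4, hB4⟩ := hC.bddAbove_image i1
  obtain ⟨B5, hB5⟩ := hC.bddAbove_image i2
  have a1 := abs_nonneg B1
  have a2 := abs_nonneg B2
  have a3 := abs_nonneg B3
  have a4 := abs_nonneg B4
  have a5 := abs_nonneg B5
  refine ⟨|B1| + |B2| + |B3| + |B4| + |B5| + 1, by linarith, fun z hz => ?_⟩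
  obtain ⟨pa, pd⟩ := hp z (hCO hz)
  have b1 : (xk (m.g 0 0) z).re ≤ |B1| := (hB1 ⟨z, hz, rfl⟩).trans (le_abs_self B1)
  have b2 : (xk m.δ z).re ≤ |B2| := (hB2 ⟨z, hz, rfl⟩).trans (le_abs_self B2)
  have b3 : ‖xk (m.g 0 1) z‖ ≤ |B3| := (hB3 ⟨z, hz, rfl⟩).trans (le_abs_self B3)
  have b4 : ((xk (m.g 0 0) z).re)⁻¹ ≤ |B4| := (hB4 ⟨z, hz, rfl⟩).trans (le_abs_self B4)
  have b5 : ((xk m.δ z).re)⁻¹ ≤ |B5| := (hB5 ⟨z, hz, rfl⟩).trans (le_abs_self B5)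
  refine ⟨by linarith, ?_, by linarith, ?_, by linarith⟩
  · have h2 : ((xk (m.g 0 0) z).re)⁻¹ * (xk (m.g 0 0) z).re ≤
        (|B1| + |B2| + |B3| + |B4| + |B5| + 1) * (xk (m.g 0 0) z).re :=
      mul_le_mul_of_nonneg_right (by linarith) pa.le
    rwa [inv_mul_cancel₀ pa.ne'] at h2
  · have h2 : ((xk m.δ z).re)⁻¹ * (xk m.δ z).re ≤
        (|B1| + |B2| + |B3| + |B4| + |B5| + 1) * (xk m.δ z).re :=
      mul_le_mul_of_nonneg_right (by linarith) pd.le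
    rwa [inv_mul_cancel₀ pd.ne'] at h2

theorem F_eq (h : MF H) {z : E2} (hz : z ∈ Om) :
    (xk (m.di * m.Q h) z).re * (xk m.δ z).re = (xk (m.Q h) z).re := by
  have h1 : m.di * m.Q h * m.δ = m.Q h := by
    have := m.δ_di
    calc _ = (m.δ * m.di) * m.Q h := by ring
      _ = _ := by rw [this, one_mul]
  have h2 := congrArg (fun u => (xk u z).re) h1
  rw [xk_mul _ _ hz, real_of_star m.star_δ hz, Complex.re_mul_ofReal] at h2
  exact h2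

theorem pointwise (hp : m.Pos) {C : Set E2} (hC : IsCompact C) (hCO : C ⊆ Om) :
    ∃ c : ℝ, 0 < c ∧ ∀ (H : Type) [NormedAddCommGroup H] [InnerProductSpace ℂ H] (h : MF H), ∀ z ∈ C,
      0 ≤ (xk (m.di * m.Q h) z).re ∧
      ‖xm ((K.V H).L h 0 0) z‖ ^ 2 + ‖xm ((K.V H).L h 0 1) z‖ ^ 2 + ‖xm ((K.V H).L h 1 0) z‖ ^ 2
        + ‖xm ((K.V H).L h 1 1) z‖ ^ 2 ≤ c * (xk (m.di * m.Q h) z).re := by
  obtain ⟨R, hR1, hR⟩ := m.bounds hp hC hCO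
  refine ⟨45 * R ^ 16 * R, by positivity, fun H _ _ h z hz => ?_⟩
  have hzO := hCO hz
  obtain ⟨haR, haR', hdR, hdR', hbR⟩ := hR z hz
  have hb10 : ‖xk (m.g 1 0) z‖ ≤ R := by
    rw [← m.her 0 1, xk_star _ hzO, norm_star]; exact hbR
  obtain ⟨q0, hfin⟩ := sos_bound hR1 haR' haR hdR' hdR hbR hb10 _ _ _ _ (m.sos_pt h hzO)
  have hF := m.F_eq h hzO
  have pd := (hp z hzO).2
  have hF0 : 0 ≤ (xk (m.di * m.Q h) z).re := by
    by_contra hc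
    rw [not_le] at hc
    nlinarith
  refine ⟨hF0, hfin.trans ?_⟩
  rw [← hF]
  calc 45 * R ^ 16 * ((xk (m.di * m.Q h) z).re * (xk m.δ z).re)
      ≤ 45 * R ^ 16 * ((xk (m.di * m.Q h) z).re * R) := by
        gcongr
    _ = _ := by ring

end Met

end Pool.Agent.MPd01a95.CW
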