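import Mathlib
import Pool.Agent.Lib.MP_d01a95_gt.Defs
import Pool.Agent.Lib.MP_d01a95_gt_H.GU
import Pool.Agent.Lib.MP_d01a95_gt_H.Cut
import Pool.Agent.Lib.MP_d01a95_gt_L.LDefs
import Pool.Agent.Lib.MP_d01a95_gt_L.PDefs
import Pool.Agent.Lib.MP_d01a95_gt_L.PFin
import Pool.Agent.Lib.MP_d01a95_gt_S.SDefs2
import Pool.Agent.Lib.MP_d01a95_gt_S.VDefs
import Pool.Agent.Lib.MP_d01a95_gt_S.Vcalc
import Pool.Agent.Lib.MP_d01a95_gt_S.Vsym
import Pool.Agent.Lib.MP_d01a95_gt_S.Vmax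
import Pool.Agent.Lib.MP_d01a95_gt_S.Vbd
import Pool.Agent.Lib.MP_d01a95_gt_S.Vinst
import Pool.Agent.Lib.MP_d01a95_gt_S.Vkah2
import Pool.Agent.Lib.MP_d01a95_gt_M.Act
import Pool.Agent.Lib.MP_d01a95_gt_M.CutB
import Pool.Agent.Lib.MP_d01a95_gt_M.HilB
import Pool.Agent.Lib.MP_d01a95_gt_M.HilD
import Pool.Agent.Lib.MP_d01a95_gt_M.HilE
import Pool.Agent.Lib.MP_d01a95_gt_M.Dec

/-!
Project SU(2,2), part (2), section 4: coordinates of the pluriharmonic map (helper5).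
-/

set_option autoImplicit false
set_option linter.all false

open Matrix Filter Topology
open scoped ContDiff ComplexConjugate

namespace Pool.Agent.MPd01a95.CW

variable {G : Type} [Group G] {σ : G →* GU (Fin 2)}

theorem up_o : IsOpen Up := LN.isOpen_Om

/-- the equivariant pluriharmonic map -/
structure PHM (K : Kerr σ) (h : C2 → HH) : Prop where
  sm : ContDiffOn ℝ ∞ h Up
  eqv : ∀ g, ∀ x ∈ Up, h (K.al g x) = pG σ g (h x) + cG σ g
  ph : ∀ x ∈ Up, ∀ a c, HV K.A a c h x = 0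

theorem exists_phm (hL : Lat σ) (K : Kerr σ) : ∃ h, PHM K h := by
  obtain ⟨h, h1, h2, h3⟩ := LP.S3 K (VK_KV K) (pG σ) (c := cG σ) (cG_mul σ) (decay hL)
    (kah_KI K (pG σ) (cG σ))
  exact ⟨h, h1, h2, h3⟩

/-! ### calculus -/

theorem HC_cg (A : C2 → ℂ) {f g : C2 → ℂ} {x : C2} (hx : x ∈ Up) (h : ∀ y ∈ Up, f y = g y)
    (a c : Fin 2) : HC A a c f x = HC A a c g x := by
  have e : f =ᶠ[𝓝 x] g := by
    filter_upwards [up_o.mem_nhds hx] with y hy
    exact h y hy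
  rw [← H_eq, ← H_eq]
  exact HV_congr A e a c

theorem HC_ad {A : C2 → ℂ} (hA : BA Up A) {f g : C2 → ℂ} (hf : ContDiffOn ℝ 2 f Up)
    (hg : ContDiffOn ℝ 2 g Up) (a c : Fin 2) : ∀ x ∈ Up,
    HC A a c (fun y => f y + g y) x = HC A a c f x + HC A a c g x := by
  intro x hx
  have df : ∀ y ∈ Up, DifferentiableAt ℝ f y := fun y hy =>
    (hf.contDiffAt (up_o.mem_nhds hy)).differentiableAt (by norm_num)
  have dg : ∀ y ∈ Up, DifferentiableAt ℝ g y := fun y hy =>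
    (hg.contDiffAt (up_o.mem_nhds hy)).differentiableAt (by norm_num)
  have e1 : (fun y => Wb A a (fun z => f z + g z) y) =ᶠ[𝓝 x]
      fun y => Wb A a f y + Wb A a g y := by
    filter_upwards [up_o.mem_nhds hx] with y hy
    exact (Vs.W_add A (df y hy) (dg y hy) a).2
  have dWf := (Vs.W_diff up_o hA.sm hf a hx).2
  have dWg := (Vs.W_diff up_o hA.sm hg a hx).2
  have e4 := (Vs.W_add A dWf dWg c).1
  have e5 := (Vs.W_add A (df x hx) (dg x hx) 1).2
  rw [HC, (Vs.W_congr A e1 c).1, e4, e5, HC, HC]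
  ring

theorem HC_cm {A : C2 → ℂ} (hA : BA Up A) (k : ℂ) {f : C2 → ℂ} (hf : ContDiffOn ℝ 2 f Up)
    (a c : Fin 2) : ∀ x ∈ Up, HC A a c (fun y => k * f y) x = k * HC A a c f x := by
  intro x hx
  have h := HV_clm A (ContinuousLinearMap.lsmul ℂ ℂ k) up_o hx hA.sm hf a c
  rw [H_eq] at h
  exact h

/-- the Levi form of a complex function -/
noncomputable def lv (A : C2 → ℂ) (X : Fin 2 → ℂ) (w : C2 → ℂ) (x : C2) : ℂ :=
  ∑ a, ∑ c, X a * star (X c) * HC A a c w x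

theorem lv_eq (A : C2 → ℂ) (X : Fin 2 → ℂ) (w : C2 → ℂ) (x : C2) :
    lv A X w x = X 0 * star (X 0) * HC A 0 0 w x + X 0 * star (X 1) * HC A 0 1 w x +
      (X 1 * star (X 0) * HC A 1 0 w x + X 1 * star (X 1) * HC A 1 1 w x) := by
  simp only [lv, Fin.sum_univ_two]

theorem lv_re {A : C2 → ℂ} (hA : BA Up A) (X : Fin 2 → ℂ) {w : C2 → ℂ}
    (hw : ContDiffOn ℝ 2 w Up) {x : C2} (hx : x ∈ Up) :
    lv A X (fun y => ((w y).re : ℂ)) x = ((lv A X w x).re : ℂ) := by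
  have hsw : ContDiffOn ℝ 2 (fun y => star (w y)) Up :=
    Complex.conjCLE.contDiff.comp_contDiffOn hw
  have e0 : (fun y => ((w y).re : ℂ)) = fun y => (1 / 2 : ℂ) * (w y + star (w y)) := by
    funext y
    have := Complex.add_conj (w y)
    change ((w y).re : ℂ) = (1 / 2 : ℂ) * (w y + conj (w y))
    rw [this]
    push_cast
    ring
  have hH : ∀ a c, HC A a c (fun y => ((w y).re : ℂ)) x =
      (1 / 2 : ℂ) * (HC A a c w x + star (HC A c a w x)) := by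
    intro a c
    have e1 := HC_cm hA (1 / 2 : ℂ) (f := fun y => w y + star (w y)) (hw.add hsw) a c x hx
    have e2 := HC_ad hA hw hsw a c x hx
    have e3 := HC_symm up_o hA hsw a c x hx
    simp only [star_star] at e3
    rw [e0, e1, e2, e3]
  have e4 : ((lv A X w x).re : ℂ) = (1 / 2 : ℂ) * (lv A X w x + star (lv A X w x)) := by
    have := Complex.add_conj (lv A X w x)
    change ((lv A X w x).re : ℂ) = (1 / 2 : ℂ) * (lv A X w x + conj (lv A X w x))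
    rw [this]
    push_cast
    ring
  rw [e4, lv_eq, lv_eq, hH, hH, hH, hH]
  simp only [star_add, star_mul', star_star]
  ring

/-! ### the maximum principle -/

/-- convergence to zero at infinity -/
def T0 (K : Kerr σ) (w : C2 → ℂ) : Prop :=
  ∀ C ⊆ Up, IsCompact C → ∀ δ > 0, {γ | ∃ x ∈ C, δ ≤ ‖w (K.al γ x)‖}.Finite

theorem max_re (hL : Lat σ) (K : Kerr σ) {w : C2 → ℂ} (hw : ContDiffOn ℝ 2 w Up)
    (hX : ∀ x ∈ Up, ∃ X : Fin 2 → ℂ, X ≠ 0 ∧ lv K.A X w x = 0) (h0 : T0 K w) :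
    ∀ x ∈ Up, (w x).re ≤ 0 := by
  obtain ⟨p, hp1, hp2, hp3⟩ := exists_psh K hL
  refine max_inf K.ba (f := fun x => (w x).re) (p := p)
    (Complex.reCLM.contDiff.comp_contDiffOn hw) (hp1.of_le (by norm_cast)) hp2 ?_ hp3 ?_
  · intro x hx
    obtain ⟨X, hX0, hX1⟩ := hX x hx
    refine ⟨X, hX0, ?_⟩
    have h1 := lv_re K.ba X hw hx
    rw [hX1, Complex.zero_re, Complex.ofReal_zero] at h1
    change 0 ≤ (lv K.A X (fun y => ((w y).re : ℂ)) x).re
    rw [h1, Complex.zero_re]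
  · refine inf_of_fin K fun C hC hCc δ hδ => (h0 C hC hCc δ hδ).subset ?_
    rintro γ ⟨x, hx, h⟩
    exact ⟨x, hx, h.trans ((le_abs_self _).trans (Complex.abs_re_le_norm _))⟩

theorem max_null (hL : Lat σ) (K : Kerr σ) {w : C2 → ℂ} (hw : ContDiffOn ℝ 2 w Up)
    (hX : ∀ x ∈ Up, ∃ X : Fin 2 → ℂ, X ≠ 0 ∧ lv K.A X w x = 0) (h0 : T0 K w) :
    ∀ x ∈ Up, w x = 0 := by
  have key : ∀ k : ℂ, ‖k‖ = 1 → ∀ x ∈ Up, (k * w x).re ≤ 0 := by
    intro k hk
    refine max_re hL K (w := fun y => k * w y) (contDiffOn_const.mul hw) (fun x hx => ?_)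
      (fun C hC hCc δ hδ => ?_)
    · obtain ⟨X, hX0, hX1⟩ := hX x hx
      refine ⟨X, hX0, ?_⟩
      have e : lv K.A X (fun y => k * w y) x = k * lv K.A X w x := by
        rw [lv_eq, lv_eq, HC_cm K.ba k hw 0 0 x hx, HC_cm K.ba k hw 0 1 x hx,
          HC_cm K.ba k hw 1 0 x hx, HC_cm K.ba k hw 1 1 x hx]
        ring
      rw [e, hX1, mul_zero]
    · refine (h0 C hC hCc δ hδ).subset ?_
      rintro γ ⟨x, hx, h⟩
      refine ⟨x, hx, h.trans ?_⟩
      rw [norm_mul, hk, one_mul]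
  intro x hx
  have h1 := key 1 (by simp) x hx
  have h2 := key (-1) (by simp) x hx
  have h3 := key Complex.I (by simp) x hx
  have h4 := key (-Complex.I) (by simp) x hx
  simp only [one_mul, neg_mul, Complex.neg_re, Complex.I_mul_re] at h1 h2 h3 h4
  apply Complex.ext
  · rw [Complex.zero_re]; linarith
  · rw [Complex.zero_im]; linarith

/-! ### decay -/

theorem uni_decay (hL : Lat σ) {K : Kerr σ} {h : C2 → HH} (hp : PHM K h) (ξ : HH) {C : Set C2}
    (hC : C ⊆ Up) (hCc : IsCompact C) {δ : ℝ} (hδ : 0 < δ) :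
    {γ | ∃ x ∈ C, δ ≤ ‖inner ℂ ξ (h (K.al γ x)) - inner ℂ ξ (bb (act (σ γ).M 0))‖}.Finite := by
  obtain ⟨R, hR⟩ := weak_decay ξ (hCc.image_of_continuousOn (hp.sm.continuousOn.mono hC))
    (half_pos hδ)
  refine (hL.finite_c R).subset ?_
  rintro γ ⟨x, hx, h1⟩
  by_contra hcon
  have hcon' : R < GU.c (σ γ) := not_le.mp hcon
  have h2 := hR (σ γ) hcon'.le (h x) ⟨x, hx, rfl⟩
  rw [hp.eqv γ x (hC hx), inner_add_right] at h1
  have e : inner ℂ ξ (pG σ γ (h x)) + inner ℂ ξ (cG σ γ) - inner ℂ ξ (bb (act (σ γ).M 0)) =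
      inner ℂ ξ (pU (σ γ) (h x)) := by
    rw [pG_apply, cG]
    ring
  rw [e] at h1
  linarith

/-- components of the pluriharmonic map -/
theorem comp_sm {K : Kerr σ} {h : C2 → HH} (hp : PHM K h) (ξ : HH) :
    ContDiffOn ℝ ∞ (fun x => inner ℂ ξ (h x)) Up := by
  have h1 : ContDiff ℝ ∞ fun y : HH => innerSL ℂ ξ y :=
    ((innerSL ℂ ξ).restrictScalars ℝ).contDiff
  exact h1.comp_contDiffOn hp.sm

theorem comp_ph {K : Kerr σ} {h : C2 → HH} (hp : PHM K h) (ξ : HH) (a c : Fin 2) : ∀ x ∈ Up,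
    HC K.A a c (fun x => inner ℂ ξ (h x)) x = 0 := by
  intro x hx
  have h1 := HV_clm K.A (innerSL ℂ ξ) up_o hx K.ba.sm (hp.sm.of_le (by norm_cast)) a c
  rw [hp.ph x hx, map_zero, H_eq] at h1
  exact h1

/-- a vector annihilated by a covector -/
theorem exists_null (p q : ℂ) : ∃ X : Fin 2 → ℂ, X ≠ 0 ∧ X 0 * p + X 1 * q = 0 := by
  by_cases h : p = 0 ∧ q = 0
  · refine ⟨fun _ => 1, fun h0 => ?_, by rw [h.1, h.2]; simp⟩
    have := congrFun h0 0
    simp at this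
  · refine ⟨![q, -p], fun h0 => h ⟨?_, ?_⟩, by simp; ring⟩
    · have := congrFun h0 1
      simpa using this
    · have := congrFun h0 0
      simpa using this

/-- the quadratic relations -/
theorem sq_rel (hL : Lat σ) {K : Kerr σ} {h : C2 → HH} (hp : PHM K h) {ξ ξ2 : HH} {M : ℝ}
    (hb : ∀ z ∈ B, ‖inner ℂ ξ (bb z)‖ ≤ M)
    (h2 : ∀ z ∈ B, inner ℂ ξ2 (bb z) = inner ℂ ξ (bb z) ^ 2) :
    ∀ x ∈ Up, inner ℂ ξ2 (h x) = inner ℂ ξ (h x) ^ 2 := by
  have hu : ContDiffOn ℝ 2 (fun x => inner ℂ ξ (h x)) Up := (comp_sm hp ξ).of_le (by norm_cast)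
  have hu2 : ContDiffOn ℝ 2 (fun x => inner ℂ ξ2 (h x)) Up := (comp_sm hp ξ2).of_le (by norm_cast)
  have hM : 0 ≤ M := (norm_nonneg _).trans (hb 0 zero_mem)
  have key : ∀ x ∈ Up, inner ℂ ξ2 (h x) + (-1) * (inner ℂ ξ (h x) * inner ℂ ξ (h x)) = 0 := by
    refine max_null hL K (w := fun x => inner ℂ ξ2 (h x) +
      (-1) * (inner ℂ ξ (h x) * inner ℂ ξ (h x))) (hu2.add (contDiffOn_const.mul (hu.mul hu)))
      (fun x hx => ?_) (fun C hC hCc δ hδ => ?_)
    · set u : C2 → ℂ := fun x => inner ℂ ξ (h x) with hudef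
      obtain ⟨X, hX0, hX1⟩ := exists_null (Wb K.A 0 u x) (Wb K.A 1 u x)
      refine ⟨X, hX0, ?_⟩
      have hH : ∀ a c, HC K.A a c (fun x => inner ℂ ξ2 (h x) + (-1) * (u x * u x)) x =
          - (2 * (Wb K.A a u x * W K.A c u x)) := by
        intro a c
        rw [HC_ad K.ba hu2 (contDiffOn_const.mul (hu.mul hu)) a c x hx, comp_ph hp ξ2 a c x hx,
          HC_cm K.ba (-1) (f := fun x => u x * u x) (hu.mul hu) a c x hx,
          HC_mul up_o K.ba hu hu a c x hx, comp_ph hp ξ a c x hx]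
        ring
      rw [lv_eq, hH, hH, hH, hH]
      linear_combination (-2 * (star (X 0) * W K.A 0 u x + star (X 1) * W K.A 1 u x)) * hX1
    · set ε : ℝ := min 1 (δ / (4 * (M + 1))) with hε
      have hε0 : 0 < ε := by positivity
      have hε1 : ε ≤ 1 := min_le_left _ _
      have hε2 : ε * (4 * (M + 1)) ≤ δ := by
        have : ε ≤ δ / (4 * (M + 1)) := min_le_right _ _
        rwa [le_div_iff₀ (by positivity)] at this
      refine ((uni_decay hL hp ξ hC hCc hε0).union (uni_decay hL hp ξ2 hC hCc hε0)).subset ?_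
      rintro γ ⟨x, hx, h1⟩
      by_contra hcon
      simp only [Set.mem_union, Set.mem_setOf_eq, not_or, not_exists, not_and, not_le] at hcon
      have a1 := hcon.1 x hx
      have a2 := hcon.2 x hx
      have hz : act (σ γ).M 0 ∈ B := act_mem _ zero_mem
      have a3 := hb _ hz
      rw [h2 _ hz] at a2
      have e : inner ℂ ξ2 (h (K.al γ x)) + (-1) * (inner ℂ ξ (h (K.al γ x)) *
          inner ℂ ξ (h (K.al γ x))) =
          (inner ℂ ξ2 (h (K.al γ x)) - inner ℂ ξ (bb (act (σ γ).M 0)) ^ 2) -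
          2 * inner ℂ ξ (bb (act (σ γ).M 0)) * (inner ℂ ξ (h (K.al γ x)) -
            inner ℂ ξ (bb (act (σ γ).M 0))) -
          (inner ℂ ξ (h (K.al γ x)) - inner ℂ ξ (bb (act (σ γ).M 0))) ^ 2 := by ring
      beta_reduce at h1
      rw [e] at h1
      generalize inner ℂ ξ2 (h (K.al γ x)) - inner ℂ ξ (bb (act (σ γ).M 0)) ^ 2 = p at *
      generalize inner ℂ ξ (h (K.al γ x)) - inner ℂ ξ (bb (act (σ γ).M 0)) = q at *
      generalize inner ℂ ξ (bb (act (σ γ).M 0)) = r at *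
      have b1 : ‖p - 2 * r * q - q ^ 2‖ ≤ ‖p‖ + 2 * ‖r‖ * ‖q‖ + ‖q‖ ^ 2 := by
        refine (norm_sub_le _ _).trans ?_
        rw [norm_pow]
        gcongr
        refine (norm_sub_le _ _).trans ?_
        rw [norm_mul, norm_mul, Complex.norm_ofNat]
      have b2 : 2 * ‖r‖ * ‖q‖ ≤ 2 * M * ε := by gcongr
      have b3 : ‖q‖ ^ 2 ≤ 1 * ε := by
        rw [pow_two]
        exact mul_le_mul (a1.le.trans hε1) a1.le (norm_nonneg _) zero_le_one
      nlinarith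
  intro x hx
  have := key x hx
  linear_combination this

end Pool.Agent.MPd01a95.CW
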