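import Mathlib
import Pool.Agent.Lib.MP_d01a95_gt.Defs
import Pool.Agent.Lib.MP_d01a95_gt_M.CutB
import Pool.Agent.Lib.MP_d01a95_gt_M.HilA
import Pool.Agent.Lib.MP_d01a95_gt_M.HilB
import Pool.Agent.Lib.MP_d01a95_gt_M.HilD
import Pool.Agent.Lib.MP_d01a95_gt_M.HilE
import Pool.Agent.Lib.MP_d01a95_gt_M.Dec
import Pool.Agent.Lib.MP_d01a95_gt_M.SecA

/-!
Project SU(2,2), part (2), section 4: the pluriharmonic map takes values in the image of the ball
(helper5).
-/

set_option autoImplicit false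
set_option linter.all false

open Matrix Filter Topology
open scoped ContDiff ComplexConjugate

namespace Pool.Agent.MPd01a95.CW

variable {G : Type} [Group G] {σ : G →* GU (Fin 2)}

/-- monomials -/
noncomputable def xi (p : ℕ × ℕ) : HH :=
  open Classical in if hp : p ≠ 0 then (exists_mono hp).choose else 0

theorem xi_bb {p : ℕ × ℕ} (hp : p ≠ 0) {z : C2} (hz : z ∈ B) :
    inner ℂ (xi p) (bb z) = z 0 ^ p.1 * z 1 ^ p.2 := by
  rw [xi, dif_pos hp]
  exact (exists_mono hp).choose_spec z hz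

theorem norm_coord {z : C2} (hz : z ∈ B) (i : Fin 2) : ‖z i‖ ≤ 1 := by
  have h1 : ‖z 0‖ ^ 2 + ‖z 1‖ ^ 2 < 1 := by simpa [B, Fin.sum_univ_two] using hz
  fin_cases i
  · change ‖z 0‖ ≤ 1
    nlinarith [norm_nonneg (z 0), norm_nonneg (z 1)]
  · change ‖z 1‖ ≤ 1
    nlinarith [norm_nonneg (z 0), norm_nonneg (z 1)]

theorem xi_bd {p : ℕ × ℕ} (hp : p ≠ 0) {z : C2} (hz : z ∈ B) : ‖inner ℂ (xi p) (bb z)‖ ≤ 1 := by
  rw [xi_bb hp hz, norm_mul, norm_pow, norm_pow]
  exact mul_le_one₀ (pow_le_one₀ (norm_nonneg _) (norm_coord hz 0)) (by positivity)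
    (pow_le_one₀ (norm_nonneg _) (norm_coord hz 1))

theorem add_ne {p q : ℕ × ℕ} (hp : p ≠ 0) : p + q ≠ 0 := by
  intro h
  apply hp
  have h1 := congrArg Prod.fst h
  have h2 := congrArg Prod.snd h
  simp only [Prod.fst_add, Prod.snd_add, Prod.fst_zero, Prod.snd_zero] at h1 h2
  ext
  · change p.1 = 0; omega
  · change p.2 = 0; omega

theorem xi_mul (hL : Lat σ) {K : Kerr σ} {h : C2 → HH} (hp : PHM K h) {p q : ℕ × ℕ} (h1 : p ≠ 0)
    (h2 : q ≠ 0) {x : C2} (hx : x ∈ Up) :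
    inner ℂ (xi (p + q)) (h x) = inner ℂ (xi p) (h x) * inner ℂ (xi q) (h x) := by
  have a1 := sq_rel hL hp (ξ := xi p) (ξ2 := xi (p + p)) (M := 1) (fun z hz => xi_bd h1 hz)
    (fun z hz => by rw [xi_bb (add_ne h1) hz, xi_bb h1 hz, Prod.fst_add, Prod.snd_add]; ring) x hx
  have a2 := sq_rel hL hp (ξ := xi q) (ξ2 := xi (q + q)) (M := 1) (fun z hz => xi_bd h2 hz)
    (fun z hz => by rw [xi_bb (add_ne h2) hz, xi_bb h2 hz, Prod.fst_add, Prod.snd_add]; ring) x hx
  have a3 := sq_rel hL hp (ξ := xi p + xi q)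
    (ξ2 := xi (p + p) + (xi (p + q) + xi (p + q)) + xi (q + q)) (M := 2)
    (fun z hz => by
      rw [inner_add_left]
      have e1 := xi_bd h1 hz
      have e2 := xi_bd h2 hz
      exact (norm_add_le _ _).trans (by linarith))
    (fun z hz => by
      rw [inner_add_left, inner_add_left, inner_add_left, inner_add_left,
        xi_bb (add_ne h1) hz, xi_bb (add_ne h1) hz, xi_bb (add_ne h2) hz, xi_bb h1 hz, xi_bb h2 hz]
      simp only [Prod.fst_add, Prod.snd_add]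
      ring) x hx
  simp only [inner_add_left] at a3
  rw [a1, a2] at a3
  linear_combination (1 / 2 : ℂ) * a3

/-- the map to the ball -/
noncomputable def Ph (h : C2 → HH) (x : C2) : C2 :=
  ![inner ℂ (xi (1, 0)) (h x), inner ℂ (xi (0, 1)) (h x)]

theorem xi_pow (hL : Lat σ) {K : Kerr σ} {h : C2 → HH} (hp : PHM K h) {x : C2} (hx : x ∈ Up)
    {p : ℕ × ℕ} (h1 : p ≠ 0) :
    inner ℂ (xi p) (h x) = Ph h x 0 ^ p.1 * Ph h x 1 ^ p.2 := by
  have e1 : ((1, 0) : ℕ × ℕ) ≠ 0 := by simp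
  have e2 : ((0, 1) : ℕ × ℕ) ≠ 0 := by simp
  have s1 : ∀ n : ℕ, inner ℂ (xi (n + 1, 0)) (h x) = Ph h x 0 ^ (n + 1) := by
    intro n
    induction n with
    | zero => rw [zero_add, pow_one]; rfl
    | succ n ih =>
      have h3 := xi_mul hL hp (p := (n + 1, 0)) (q := (1, 0)) (by simp) e1 hx
      have h4 : ((n + 1, 0) : ℕ × ℕ) + (1, 0) = (n + 1 + 1, 0) := rfl
      rw [h4, ih] at h3
      rw [h3, pow_succ]
      rfl
  have s2 : ∀ m : ℕ, inner ℂ (xi (0, m + 1)) (h x) = Ph h x 1 ^ (m + 1) := by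
    intro m
    induction m with
    | zero => rw [zero_add, pow_one]; rfl
    | succ n ih =>
      have h3 := xi_mul hL hp (p := (0, n + 1)) (q := (0, 1)) (by simp) e2 hx
      have h4 : ((0, n + 1) : ℕ × ℕ) + (0, 1) = (0, n + 1 + 1) := rfl
      rw [h4, ih] at h3
      rw [h3, pow_succ]
      rfl
  obtain ⟨n, m⟩ := p
  rcases Nat.eq_zero_or_pos n with hn | hn
  · subst hn
    rcases Nat.eq_zero_or_pos m with hm | hm
    · subst hm
      exact absurd rfl h1
    · obtain ⟨m, rfl⟩ := Nat.exists_eq_succ_of_ne_zero hm.ne'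
      rw [Nat.succ_eq_add_one, s2 m]
      simp
  · obtain ⟨n, rfl⟩ := Nat.exists_eq_succ_of_ne_zero hn.ne'
    rcases Nat.eq_zero_or_pos m with hm | hm
    · subst hm
      rw [Nat.succ_eq_add_one, s1 n]
      simp
    · obtain ⟨m, rfl⟩ := Nat.exists_eq_succ_of_ne_zero hm.ne'
      have h3 := xi_mul hL hp (p := (n + 1, 0)) (q := (0, m + 1)) (by simp) (by simp) hx
      have h4 : ((n + 1, 0) : ℕ × ℕ) + (0, m + 1) = (n + 1, m + 1) := by simp
      rw [h4, s1 n, s2 m] at h3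
      exact h3

/-- the coordinates in the big space -/
theorem sub_coord (y : HH) (p : ℕ × ℕ) :
    (HH.sub y : H0) p = (Real.sqrt (wt p) : ℂ) * inner ℂ (xi p) y := by
  have h1 : ∀ y : HH, (HH.sub y : H0) p = inner ℂ (lp.single 2 p (1 : ℂ) : H0) (HH.sub y) := by
    intro y
    have h2 := lp.inner_single_left (𝕜 := ℂ) p (1 : ℂ) (HH.sub y)
    rw [h2, RCLike.inner_apply, map_one, mul_one]
  have h2 := eq_of_bb (F := ℂ)
    (U := (innerSL ℂ (lp.single 2 p (1 : ℂ) : H0)).comp HH.sub.toContinuousLinearMap)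
    (V := (Real.sqrt (wt p) : ℂ) • innerSL ℂ (xi p)) (fun z hz => ?_) y
  · rw [h1]
    exact h2
  · change inner ℂ (lp.single 2 p (1 : ℂ) : H0) (HH.sub (bb z)) =
      (Real.sqrt (wt p) : ℂ) * inner ℂ (xi p) (bb z)
    rw [← h1, sub_bb, bb0_apply hz, bf]
    rcases eq_or_ne p 0 with h0 | h0
    · subst h0
      have : wt 0 = 0 := by simp [wt]
      rw [this, Real.sqrt_zero]
      simp
    · rw [xi_bb h0 hz, mul_assoc]

theorem Ph_mem (hL : Lat σ) {K : Kerr σ} {h : C2 → HH} (hp : PHM K h) {x : C2} (hx : x ∈ Up) :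
    Ph h x ∈ B := by
  have h1 : Summable fun p => ‖(HH.sub (h x) : H0) p‖ ^ 2 := by
    have h2 := (lp.memℓp (HH.sub (h x) : H0)).summable (by simp)
    simpa using h2
  have h3 : (fun p : ℕ × ℕ => ‖(HH.sub (h x) : H0) p‖ ^ 2) =
      fun p => wt p * (‖Ph h x 0‖ ^ 2) ^ p.1 * (‖Ph h x 1‖ ^ 2) ^ p.2 := by
    funext p
    rw [sub_coord, norm_mul, mul_pow, Complex.norm_real, Real.norm_eq_abs, sq_abs,
      Real.sq_sqrt (wt_nonneg p)]
    rcases eq_or_ne p 0 with h0 | h0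
    · subst h0
      have : wt 0 = 0 := by simp [wt]
      rw [this]
      simp
    · rw [xi_pow hL hp hx h0, norm_mul, norm_pow, norm_pow]
      ring
  rw [h3] at h1
  rw [← (Finset.HasAntidiagonal.sigmaAntidiagonalEquivProd (A := ℕ)).summable_iff] at h1
  have h4 := h1.sigma
  have e : (fun n : ℕ => ∑' p : Finset.HasAntidiagonal.antidiagonal n,
      (((fun p : ℕ × ℕ => wt p * (‖Ph h x 0‖ ^ 2) ^ p.1 * (‖Ph h x 1‖ ^ 2) ^ p.2) ∘
        (Finset.HasAntidiagonal.sigmaAntidiagonalEquivProd (A := ℕ))) ⟨n, p⟩))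
      = fun n : ℕ => (‖Ph h x 0‖ ^ 2 + ‖Ph h x 1‖ ^ 2) ^ n / n := by
    funext n
    rw [← wt_antidiag_real, tsum_fintype]
    simp only [Function.comp, Finset.HasAntidiagonal.sigmaAntidiagonalEquivProd_apply]
    exact Finset.sum_coe_sort (Finset.HasAntidiagonal.antidiagonal n)
      fun p : ℕ × ℕ => wt p * (‖Ph h x 0‖ ^ 2) ^ p.1 * (‖Ph h x 1‖ ^ 2) ^ p.2
  rw [e] at h4
  change ∑ i, ‖Ph h x i‖ ^ 2 < 1
  rw [Fin.sum_univ_two]
  by_contra hcon
  rw [not_lt] at hcon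
  have h5 : Summable fun n : ℕ => (1 : ℝ) / n := by
    refine Summable.of_nonneg_of_le (fun n => by positivity) (fun n => ?_) h4
    have := one_le_pow₀ hcon (n := n)
    gcongr
  exact Real.not_summable_one_div_natCast h5

/-- the pluriharmonic map factors through the ball -/
theorem h_eq (hL : Lat σ) {K : Kerr σ} {h : C2 → HH} (hp : PHM K h) {x : C2} (hx : x ∈ Up) :
    h x = bb (Ph h x) := by
  apply HH.sub.injective
  rw [sub_bb]
  refine lp.ext (funext fun p => ?_)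
  rw [sub_coord, bb0_apply (Ph_mem hL hp hx), bf]
  rcases eq_or_ne p 0 with h0 | h0
  · subst h0
    have : wt 0 = 0 := by simp [wt]
    rw [this, Real.sqrt_zero]
    simp
  · rw [xi_pow hL hp hx h0, mul_assoc]

theorem bb_inj {z w : C2} (hz : z ∈ B) (hw : w ∈ B) (h : bb z = bb w) : z = w := by
  funext i
  fin_cases i
  · have h1 := xi_bb (p := (1, 0)) (by simp) hz
    have h2 := xi_bb (p := (1, 0)) (by simp) hw
    rw [h, h2] at h1
    simpa using h1.symm
  · have h1 := xi_bb (p := (0, 1)) (by simp) hz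
    have h2 := xi_bb (p := (0, 1)) (by simp) hw
    rw [h, h2] at h1
    simpa using h1.symm

theorem Ph_eqv (hL : Lat σ) {K : Kerr σ} {h : C2 → HH} (hp : PHM K h) (γ : G) {x : C2}
    (hx : x ∈ Up) : Ph h (K.al γ x) = act (σ γ).M (Ph h x) := by
  have h1 := hp.eqv γ x hx
  have hm := Ph_mem hL hp hx
  rw [h_eq hL hp hx, h_eq hL hp (K.maps γ x hx), pG_apply, pU_bb _ hm, cG, sub_add_cancel] at h1
  exact bb_inj (Ph_mem hL hp (K.maps γ x hx)) (act_mem _ hm) h1

theorem Ph_sm {K : Kerr σ} {h : C2 → HH} (hp : PHM K h) : ContDiffOn ℝ ∞ (Ph h) Up := by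
  refine contDiffOn_pi.mpr fun i => ?_
  fin_cases i
  · exact comp_sm hp (xi (1, 0))
  · exact comp_sm hp (xi (0, 1))

theorem Ph_ph {K : Kerr σ} {h : C2 → HH} (hp : PHM K h) (i a c : Fin 2) {x : C2} (hx : x ∈ Up) :
    HC K.A a c (fun y => Ph h y i) x = 0 := by
  fin_cases i
  · exact comp_ph hp (xi (1, 0)) a c x hx
  · exact comp_ph hp (xi (0, 1)) a c x hx

/-- the products of the components are pluriharmonic -/
theorem Ph_prod (hL : Lat σ) {K : Kerr σ} {h : C2 → HH} (hp : PHM K h) (i j a c : Fin 2) {x : C2}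
    (hx : x ∈ Up) : HC K.A a c (fun y => Ph h y i * Ph h y j) x = 0 := by
  have key : ∀ p q : ℕ × ℕ, p ≠ 0 → q ≠ 0 →
      HC K.A a c (fun y => inner ℂ (xi p) (h y) * inner ℂ (xi q) (h y)) x = 0 := by
    intro p q h1 h2
    rw [HC_cg K.A (g := fun y => inner ℂ (xi (p + q)) (h y)) hx
      (fun y hy => (xi_mul hL hp h1 h2 hy).symm) a c]
    exact comp_ph hp _ a c x hx
  fin_cases i <;> fin_cases j
  · exact key (1, 0) (1, 0) (by simp) (by simp)
  · exact key (1, 0) (0, 1) (by simp) (by simp)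
  · exact key (0, 1) (1, 0) (by simp) (by simp)
  · exact key (0, 1) (0, 1) (by simp) (by simp)

/-- the products of derivatives of different type -/
theorem Ph_type (hL : Lat σ) {K : Kerr σ} {h : C2 → HH} (hp : PHM K h) (i j a c : Fin 2) {x : C2}
    (hx : x ∈ Up) : Wb K.A a (fun y => Ph h y i) x * W K.A c (fun y => Ph h y j) x +
      W K.A c (fun y => Ph h y i) x * Wb K.A a (fun y => Ph h y j) x = 0 := by
  have s : ∀ i, ContDiffOn ℝ 2 (fun y => Ph h y i) Up := fun i =>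
    ((contDiffOn_pi.mp (Ph_sm hp)) i).of_le (by norm_cast)
  have h1 := HC_mul up_o K.ba (s i) (s j) a c x hx
  rw [Ph_prod hL hp i j a c hx, Ph_ph hp i a c hx, Ph_ph hp j a c hx] at h1
  linear_combination -h1

end Pool.Agent.MPd01a95.CW
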