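import Mathlib
import Pool.Agent.Lib.MP_d01a95_gt.Defs
import Pool.Agent.Lib.MP_d01a95_gt_M.CutB
import Pool.Agent.Lib.MP_d01a95_gt_M.HilC
import Pool.Agent.Lib.MP_d01a95_gt_M.HilD
import Pool.Agent.Lib.MP_d01a95_gt_M.HilE
import Pool.Agent.Lib.MP_d01a95_gt_M.Dec
import Pool.Agent.Lib.MP_d01a95_gt_M.SecA

/-!
Project SU(2,2), part (2), section 4: equivariant maps are proper; rank (helper5).
-/

set_option autoImplicit false
set_option linter.all false

open Matrix Filter Topology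
open scoped ContDiff ComplexConjugate

namespace Pool.Agent.MPd01a95.CW

variable {G : Type} [Group G] {σ : G →* GU (Fin 2)}

/-- the distance to the boundary -/
theorem one_sub_act (g : GU (Fin 2)) {z : E2} (hz : z ∈ B) :
    1 - sq (act g.M z) ≤ 4 / ((1 - sq z) * GU.c g ^ 2) := by
  have hz' : 0 < 1 - sq z := by have := mem_B.mp hz; linarith
  have a1 := act_mem g hz
  have a0 := act_mem g zero_mem
  have h1 := ip_act g hz zero_mem
  have h2 := ip_act g hz hz
  have i1 : ip z 0 = 0 := by simp [ip]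
  rw [i1, sub_zero] at h1
  rw [ip_self, ip_self] at h2
  have hc0 : ‖den g 0‖ = GU.c g := by
    have : den g 0 = g.M (Sum.inr ()) (Sum.inr ()) := by
      simp [den, Matrix.mulVec, dotProduct, vz]
    rw [this]; rfl
  have hc := GU.c_ge_one g
  set j := ‖den g z‖ with hj
  have hjp : 0 < j := norm_pos_iff.mpr (den_ne g hz)
  have n1 : 1 = j * GU.c g * ‖1 - ip (act g.M z) (act g.M 0)‖ := by
    have := congrArg norm h1
    rwa [norm_one, norm_mul, norm_mul, RCLike.norm_conj, hc0] at this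
  have n2 : 1 - sq z = j ^ 2 * (1 - sq (act g.M z)) := by
    have h3 : conj (den g z) * den g z = ((j ^ 2 : ℝ) : ℂ) := by
      rw [← Complex.normSq_eq_conj_mul_self, Complex.normSq_eq_norm_sq]
    rw [h3] at h2
    exact_mod_cast h2
  have h5 := sq_sub_eq (act g.M z) (act g.M 0)
  have h6 := mem_B.mp a1
  have h7 := mem_B.mp a0
  set N := ‖1 - ip (act g.M z) (act g.M 0)‖ with hN
  have h8 : 1 - (ip (act g.M z) (act g.M 0)).re ≤ N := by
    have := Complex.re_le_norm (1 - ip (act g.M z) (act g.M 0))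
    simpa using this
  have h9 : 0 ≤ sq (act g.M z - act g.M 0) := sq_nonneg' _
  have h10 : sq (act g.M z - act g.M 0) ≤ 2 * N - (1 - sq (act g.M z)) := by linarith
  have hN1 : N = 1 / (j * GU.c g) := by
    rw [eq_div_iff (by positivity)]; linarith
  have h11 : (1 - sq z) * GU.c g ≤ 2 * j := by
    have h12 : 1 - sq (act g.M z) ≤ 2 * N := by linarith
    have h13 : (1 - sq z) ≤ j ^ 2 * (2 * N) := by rw [n2]; gcongr
    have h14 : j ^ 2 * (2 * N) = 2 * j / GU.c g := by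
      rw [hN1]; field_simp
    rw [h14, le_div_iff₀ (by positivity)] at h13
    exact h13
  have h15 : N ≤ 2 / ((1 - sq z) * GU.c g ^ 2) := by
    rw [hN1, div_le_div_iff₀ (by positivity) (by positivity)]
    nlinarith
  have h16 : 1 - sq (act g.M z) ≤ 2 * N := by linarith
  calc _ ≤ 2 * N := h16
    _ ≤ 2 * (2 / ((1 - sq z) * GU.c g ^ 2)) := by gcongr
    _ = _ := by ring

/-- equivariant maps go to the boundary -/
theorem prop_fin (hL : Lat σ) (K : Kerr σ) {u : C2 → C2} (hm : ∀ x ∈ Up, u x ∈ B)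
    (hc : ContinuousOn u Up) (he : ∀ γ, ∀ x ∈ Up, u (K.al γ x) = act (σ γ).M (u x)) :
    ∀ C ⊆ Up, IsCompact C → ∀ δ > 0, {γ | ∃ x ∈ C, δ ≤ 1 - sq (u (K.al γ x))}.Finite := by
  intro C hC hCc δ hδ
  rcases C.eq_empty_or_nonempty with h0 | hne
  · subst h0
    simp
  obtain ⟨q, hq, hmax⟩ := hCc.exists_isMaxOn hne
    ((sq_smooth.continuous.comp_continuousOn hc).mono hC)
  have hq1 : 0 < 1 - sq (u q) := by have := mem_B.mp (hm q (hC hq)); linarith
  refine (hL.finite_c (4 / ((1 - sq (u q)) * δ))).subset ?_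
  rintro γ ⟨x, hx, h1⟩
  rw [he γ x (hC hx)] at h1
  have h2 := h1.trans (one_sub_act (σ γ) (hm x (hC hx)))
  have h3 : sq (u x) ≤ sq (u q) := hmax hx
  have h4 : 0 < 1 - sq (u x) := by linarith
  have h5 := GU.c_ge_one (σ γ)
  rw [le_div_iff₀ (by positivity)] at h2
  change GU.c (σ γ) ≤ _
  rw [le_div_iff₀ (by positivity)]
  have h6 : GU.c (σ γ) ≤ GU.c (σ γ) ^ 2 := by nlinarith
  have h7 : (1 - sq (u q)) * GU.c (σ γ) ^ 2 ≤ (1 - sq (u x)) * GU.c (σ γ) ^ 2 := by gcongr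
  calc GU.c (σ γ) * ((1 - sq (u q)) * δ) = δ * ((1 - sq (u q)) * GU.c (σ γ)) := by ring
    _ ≤ δ * ((1 - sq (u q)) * GU.c (σ γ) ^ 2) := by gcongr
    _ ≤ δ * ((1 - sq (u x)) * GU.c (σ γ) ^ 2) := by gcongr
    _ ≤ 4 := h2

theorem prop_inf (hL : Lat σ) (K : Kerr σ) {u : C2 → C2} (hm : ∀ x ∈ Up, u x ∈ B)
    (hc : ContinuousOn u Up) (he : ∀ γ, ∀ x ∈ Up, u (K.al γ x) = act (σ γ).M (u x)) :
    ∀ δ > 0, ∃ C ⊆ Up, IsCompact C ∧ ∀ x ∈ Up, x ∉ C → 1 - sq (u x) < δ :=
  inf_of_fin K (w := fun x => 1 - sq (u x)) (prop_fin hL K hm hc he)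

/-- two proportional covectors have a common null vector -/
theorem exists_null2 {p0 q0 p1 q1 : ℂ} (h : p0 * q1 - p1 * q0 = 0) : ∃ X : Fin 2 → ℂ, X ≠ 0 ∧
    X 0 * p0 + X 1 * q0 = 0 ∧ X 0 * p1 + X 1 * q1 = 0 := by
  by_cases h0 : p0 = 0 ∧ q0 = 0
  · obtain ⟨X, hX, h1⟩ := exists_null p1 q1
    exact ⟨X, hX, by rw [h0.1, h0.2]; simp, h1⟩
  · refine ⟨![q0, -p0], fun h1 => h0 ⟨?_, ?_⟩, by simp; ring, ?_⟩
    · have := congrFun h1 1
      simpa using this
    · have := congrFun h1 0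
      simpa using this
    · simp
      linear_combination -h

theorem HC_const (A : C2 → ℂ) (k : ℂ) (a c : Fin 2) (x : C2) : HC A a c (fun _ => k) x = 0 := by
  have e : ∀ a, (fun y => Wb A a (fun _ => k) y) = fun _ => 0 := by
    intro a
    funext y
    simp [Wb, dd, db]
  have e2 : Wb A 1 (fun _ => k) x = 0 := by simp [Wb, dd]
  rw [HC, e, e2]
  simp [W, dd, db]

/-- holomorphic functions are pluriharmonic -/
theorem HC_hol {A : C2 → ℂ} (hA : BA Up A) {f : C2 → ℂ} (hf : ContDiffOn ℝ 2 f Up)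
    (hh : ∀ x ∈ Up, ∀ c, W A c f x = 0) (a c : Fin 2) : ∀ x ∈ Up, HC A a c f x = 0 := by
  intro x hx
  have h1 := HV_symm up_o hA hf a c x hx
  rw [H_eq] at h1
  have e : (fun y => WV A c f y) =ᶠ[𝓝 x] fun _ => (0 : ℂ) := by
    filter_upwards [up_o.mem_nhds hx] with y hy
    rw [W_eq]
    exact hh y hy c
  rw [h1, (WV_congr A e a).2, W_eq, hh x hx, smul_zero, add_zero]
  simp [WbV, ddV, dbV]

/-- the squared modulus of a holomorphic function -/
theorem HC_sq {A : C2 → ℂ} (hA : BA Up A) {f : C2 → ℂ} (hf : ContDiffOn ℝ 2 f Up)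
    (hh : ∀ x ∈ Up, ∀ c, W A c f x = 0) (a c : Fin 2) : ∀ x ∈ Up,
    HC A a c (fun y => f y * star (f y)) x = Wb A a f x * star (Wb A c f x) := by
  intro x hx
  have hsf : ContDiffOn ℝ 2 (fun y => star (f y)) Up :=
    Complex.conjCLE.contDiff.comp_contDiffOn hf
  have h1 := HC_mul up_o hA hf hsf a c x hx
  have h2 := HC_symm up_o hA hsf a c x hx
  simp only [star_star] at h2
  rw [HC_hol hA hf hh c a x hx, star_zero] at h2
  rw [h1, HC_hol hA hf hh a c x hx, h2, (W_star A f x c).1, hh x hx]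
  ring

/-- the holomorphic equivariant map is somewhere an immersion -/
theorem rank_ne (hL : Lat σ) (K : Kerr σ) {u : C2 → C2} (hm : ∀ x ∈ Up, u x ∈ B)
    (hs : ContDiffOn ℝ ∞ u Up) (hh : ∀ x ∈ Up, ∀ c i, W K.A c (fun y => u y i) x = 0)
    (he : ∀ γ, ∀ x ∈ Up, u (K.al γ x) = act (σ γ).M (u x)) :
    ∃ x ∈ Up, Wb K.A 0 (fun y => u y 0) x * Wb K.A 1 (fun y => u y 1) x -
      Wb K.A 0 (fun y => u y 1) x * Wb K.A 1 (fun y => u y 0) x ≠ 0 := by
  by_contra hcon
  push Not at hcon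
  obtain ⟨p, hp1, hp2, hp3⟩ := exists_psh K hL
  have s : ∀ i, ContDiffOn ℝ 2 (fun y => u y i) Up := fun i =>
    ((contDiffOn_pi.mp hs) i).of_le (by norm_cast)
  have ss : ∀ i, ContDiffOn ℝ 2 (fun y => star (u y i)) Up := fun i =>
    Complex.conjCLE.contDiff.comp_contDiffOn (s i)
  have hf : ContDiffOn ℝ 2 (fun x => 1 - sq (u x)) Up :=
    contDiffOn_const.sub ((sq_smooth.of_le (by norm_cast)).comp_contDiffOn
      (hs.of_le (by norm_cast)))
  have e1 : (fun y => ((1 - sq (u y) : ℝ) : ℂ)) =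
      fun y => 1 + (-1) * (u y 0 * star (u y 0) + u y 1 * star (u y 1)) := by
    funext y
    have h1 : ∀ i, u y i * star (u y i) = ((‖u y i‖ ^ 2 : ℝ) : ℂ) := by
      intro i
      have := Complex.mul_conj' (u y i)
      push_cast
      exact this
    rw [h1, h1, sq, Fin.sum_univ_two]
    push_cast
    ring
  have hH : ∀ a c, ∀ x ∈ Up, HC K.A a c (fun y => ((1 - sq (u y) : ℝ) : ℂ)) x =
      -(Wb K.A a (fun y => u y 0) x * star (Wb K.A c (fun y => u y 0) x) +
        Wb K.A a (fun y => u y 1) x * star (Wb K.A c (fun y => u y 1) x)) := by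
    intro a c x hx
    have q : ∀ i, ContDiffOn ℝ 2 (fun y => u y i * star (u y i)) Up := fun i => (s i).mul (ss i)
    have q2 : ContDiffOn ℝ 2 (fun y => u y 0 * star (u y 0) + u y 1 * star (u y 1)) Up :=
      (q 0).add (q 1)
    rw [e1, HC_ad K.ba (f := fun _ => (1 : ℂ)) contDiffOn_const (contDiffOn_const.mul q2) a c x hx,
      HC_const, HC_cm K.ba (-1) q2 a c x hx, HC_ad K.ba (q 0) (q 1) a c x hx,
      HC_sq K.ba (s 0) (fun y hy c => hh y hy c 0) a c x hx,
      HC_sq K.ba (s 1) (fun y hy c => hh y hy c 1) a c x hx]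
    ring
  have key := max_inf K.ba (f := fun x => 1 - sq (u x)) (p := p) hf
    (hp1.of_le (by norm_cast)) hp2 (fun x hx => ?_) hp3 (prop_inf hL K hm hs.continuousOn he)
  · have hx0 : (![0, Complex.I] : C2) ∈ Up := by
      change 0 < ((![0, Complex.I] : C2) 1).im
      simp
    have h1 := key _ hx0
    have h2 := mem_B.mp (hm _ hx0)
    linarith
  · obtain ⟨X, hX, h1, h2⟩ := exists_null2 (hcon x hx)
    refine ⟨X, hX, ?_⟩
    have h3 : ∑ a, ∑ c, X a * star (X c) * HC K.A a c (fun y => ((1 - sq (u y) : ℝ) : ℂ)) x = 0 := by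
      simp only [Fin.sum_univ_two]
      rw [hH 0 0 x hx, hH 0 1 x hx, hH 1 0 x hx, hH 1 1 x hx]
      linear_combination
        (-(star (X 0) * star (Wb K.A 0 (fun y => u y 0) x) +
          star (X 1) * star (Wb K.A 1 (fun y => u y 0) x))) * h1 +
        (-(star (X 0) * star (Wb K.A 0 (fun y => u y 1) x) +
          star (X 1) * star (Wb K.A 1 (fun y => u y 1) x))) * h2
    rw [h3, Complex.zero_re]

end Pool.Agent.MPd01a95.CW
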