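import Mathlib
import Pool.Agent.Lib.MP_d01a95_gt.Defs
import Pool.Agent.Lib.MP_d01a95_gt_M.CutB
import Pool.Agent.Lib.MP_d01a95_gt_M.SecA
import Pool.Agent.Lib.MP_d01a95_gt_M.SecC

/-!
Project SU(2,2), part (2), section 4: type of the map on slices (helper5).
-/

set_option autoImplicit false
set_option linter.all false

open Matrix Filter Topology
open scoped ContDiff ComplexConjugate

namespace Pool.Agent.MPd01a95.CW

variable {G : Type} [Group G] {σ : G →* GU (Fin 2)}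

/-- the slices -/
def sl (μ τ : ℂ) : C2 := ![μ, τ]

/-- the upper half plane -/
def Hp : Set ℂ := {τ | 0 < τ.im}

theorem Hp_open : IsOpen Hp := isOpen_lt continuous_const Complex.continuous_im

theorem Hp_conv : Convex ℝ Hp := by
  intro x hx y hy a b ha hb hab
  change 0 < (a • x + b • y).im
  change 0 < x.im at hx
  change 0 < y.im at hy
  simp only [Complex.add_im, Complex.real_smul, Complex.mul_im, Complex.ofReal_re,
    Complex.ofReal_im, zero_mul, add_zero]
  rcases eq_or_lt_of_le ha with h | h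
  · subst h
    have : b = 1 := by linarith
    subst this
    linarith
  · nlinarith [mul_pos h hx, mul_nonneg hb hy.le]

theorem sl_mem {μ τ : ℂ} (h : τ ∈ Hp) : sl μ τ ∈ Up := h

theorem sl_eta (x : C2) : sl (x 0) (x 1) = x := by
  funext i
  fin_cases i <;> rfl

theorem sl_eq (μ τ : ℂ) : sl μ τ = sl μ 0 + (ContinuousLinearMap.single ℝ (fun _ : Fin 2 => ℂ) 1) τ := by
  funext i
  fin_cases i <;> simp [sl]

theorem sl_fd (μ τ : ℂ) : HasFDerivAt (𝕜 := ℝ) (sl μ)
    (ContinuousLinearMap.single ℝ (fun _ : Fin 2 => ℂ) 1) τ := by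
  have h := ((ContinuousLinearMap.single ℝ (fun _ : Fin 2 => ℂ) 1).hasFDerivAt (x := τ)).const_add
    (sl μ 0)
  have e : sl μ = fun τ => sl μ 0 + (ContinuousLinearMap.single ℝ (fun _ : Fin 2 => ℂ) 1) τ :=
    funext fun τ => sl_eq μ τ
  rw [e]
  exact h

theorem sl_cont : Continuous fun p : ℂ × ℂ => sl p.1 p.2 := by
  refine continuous_pi fun i => ?_
  fin_cases i
  · exact continuous_fst
  · exact continuous_snd

theorem sl_fderiv {g : C2 → ℂ} {μ τ : ℂ} (hg : DifferentiableAt ℝ g (sl μ τ)) (v : ℂ) :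
    DifferentiableAt ℝ (fun τ => g (sl μ τ)) τ ∧
    fderiv ℝ (fun τ => g (sl μ τ)) τ v = fderiv ℝ g (sl μ τ) (Pi.single 1 v) := by
  have h := hg.hasFDerivAt.comp τ (sl_fd μ τ)
  refine ⟨h.differentiableAt, ?_⟩
  have h2 : fderiv ℝ (fun τ => g (sl μ τ)) τ = _ := h.fderiv
  rw [h2]
  rfl

/-- functions annihilated by the antiholomorphic derivative are holomorphic on the slices -/
theorem sl_hol {g : C2 → ℂ} {μ τ : ℂ} (hg : DifferentiableAt ℝ g (sl μ τ))
    (h : db g 1 (sl μ τ) = 0) : DifferentiableAt ℂ (fun τ => g (sl μ τ)) τ := by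
  rw [differentiableAt_complex_iff_differentiableAt_real]
  refine ⟨(sl_fderiv hg 1).1, ?_⟩
  rw [(sl_fderiv hg _).2, (sl_fderiv hg _).2, smul_eq_mul]
  rw [db] at h
  have h2 : fderiv ℝ g (sl μ τ) (Pi.single 1 1) +
      Complex.I * fderiv ℝ g (sl μ τ) (Pi.single 1 Complex.I) = 0 := by
    have := congrArg (fun z => 2 * z) h
    simp only [mul_zero] at this
    linear_combination this
  have hI := Complex.I_mul_I
  linear_combination (-Complex.I) * h2 + (fderiv ℝ g (sl μ τ) (Pi.single 1 Complex.I)) * hI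

/-- pluriharmonic maps which are holomorphic or antiholomorphic at each point -/
structure TY (A : C2 → ℂ) (u : C2 → C2) : Prop where
  sm : ContDiffOn ℝ ∞ u Up
  ph : ∀ x ∈ Up, ∀ i a c, HC A a c (fun y => u y i) x = 0
  dich : ∀ x ∈ Up, (∀ a i, Wb A a (fun y => u y i) x = 0) ∨ ∀ c i, W A c (fun y => u y i) x = 0

theorem TY.s2 {A : C2 → ℂ} {u : C2 → C2} (h : TY A u) (i : Fin 2) :
    ContDiffOn ℝ 2 (fun y => u y i) Up := ((contDiffOn_pi.mp h.sm) i).of_le (by norm_cast)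

theorem TY.conj {A : C2 → ℂ} (hA : BA Up A) {u : C2 → C2} (h : TY A u) :
    TY A (fun x i => star (u x i)) where
  sm := contDiffOn_pi.mpr fun i =>
    Complex.conjCLE.contDiff.comp_contDiffOn ((contDiffOn_pi.mp h.sm) i)
  ph := by
    intro x hx i a c
    have hs : ContDiffOn ℝ 2 (fun y => star (u y i)) Up :=
      Complex.conjCLE.contDiff.comp_contDiffOn (h.s2 i)
    have h2 := HC_symm up_o hA hs a c x hx
    simp only [star_star] at h2
    rw [h.ph x hx i c a, star_zero] at h2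
    exact h2
  dich := by
    intro x hx
    rcases h.dich x hx with h1 | h1
    · refine Or.inr fun c i => ?_
      rw [(W_star A (fun y => u y i) x c).1, h1, star_zero]
    · refine Or.inl fun c i => ?_
      rw [(W_star A (fun y => u y i) x c).2, h1, star_zero]

/-- on a slice, a map which is not antiholomorphic is holomorphic -/
theorem TY.slice {A : C2 → ℂ} (hA : BA Up A) {u : C2 → C2} (h : TY A u) {μ : ℂ}
    (h1 : ∃ τ ∈ Hp, ∃ i, Wb A 1 (fun y => u y i) (sl μ τ) ≠ 0) :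
    ∀ τ ∈ Hp, ∀ c i, W A c (fun y => u y i) (sl μ τ) = 0 := by
  obtain ⟨τ0, hτ0, i, h2⟩ := h1
  by_contra hcon
  push Not at hcon
  obtain ⟨τ1, hτ1, c, j, h3⟩ := hcon
  -- the holomorphic function
  set f : ℂ → ℂ := fun τ => Wb A 1 (fun y => u y i) (sl μ τ) with hf
  have hd : DifferentiableOn ℂ f Hp := by
    intro τ hτ
    have d1 := (Vs.W_diff up_o hA.sm (h.s2 i) 1 (sl_mem (μ := μ) hτ)).2
    have e1 : db (fun y => Wb A 1 (fun y => u y i) y) 1 (sl μ τ) = 0 := by
      have e2 := h.ph (sl μ τ) (sl_mem hτ) i 1 1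
      rw [HC] at e2
      have e3 : Ga A 1 1 (sl μ τ) = 0 := by simp [Ga]
      rw [e3, zero_mul, add_zero] at e2
      rw [W, if_pos rfl] at e2
      exact e2
    exact (sl_hol d1 e1).differentiableWithinAt
  have ha : AnalyticOnNhd ℂ f Hp := hd.analyticOnNhd Hp_open
  -- it vanishes near `τ1`
  have hev : f =ᶠ[𝓝 τ1] 0 := by
    have c1 : ContinuousAt (fun y => W A c (fun y => u y j) y) (sl μ τ1) :=
      (Vs.W_diff up_o hA.sm (h.s2 j) c (sl_mem (μ := μ) hτ1)).1.continuousAt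
    have c2 : ContinuousAt (fun τ => sl μ τ) τ1 := (sl_fd μ τ1).continuousAt
    have c3 : ContinuousAt (fun τ => W A c (fun y => u y j) (sl μ τ)) τ1 :=
      ContinuousAt.comp (f := fun τ => sl μ τ) c1 c2
    filter_upwards [c3.eventually_ne h3, Hp_open.mem_nhds hτ1] with τ hτ hτ2
    rcases h.dich (sl μ τ) (sl_mem hτ2) with h4 | h4
    · exact h4 1 i
    · exact absurd (h4 c j) hτ
  have := ha.eqOn_zero_of_preconnected_of_eventuallyEq_zero Hp_conv.isPreconnected hτ1 hev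
  exact h2 (this hτ0)

/-- a map with vanishing derivatives on a slice is constant there -/
theorem TY.const {A : C2 → ℂ} {u : C2 → C2} (h : TY A u) {μ : ℂ}
    (h1 : ∀ τ ∈ Hp, ∀ i, Wb A 1 (fun y => u y i) (sl μ τ) = 0)
    (h2 : ∀ τ ∈ Hp, ∀ i, W A 1 (fun y => u y i) (sl μ τ) = 0) :
    ∀ τ ∈ Hp, u (sl μ τ) = u (sl μ Complex.I) := by
  have hI : Complex.I ∈ Hp := by
    change 0 < Complex.I.im
    simp
  intro τ hτ
  funext i
  have hd : ∀ y ∈ Hp, DifferentiableAt ℝ (fun y => u y i) (sl μ y) := fun y hy =>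
    ((h.s2 i).contDiffAt (up_o.mem_nhds (sl_mem hy))).differentiableAt (by norm_num)
  have hz : ∀ y ∈ Hp, fderiv ℝ (fun τ => u (sl μ τ) i) y = 0 := by
    intro y hy
    have a1 := h1 y hy i
    have a2 := h2 y hy i
    rw [Wb, if_pos rfl, dd] at a1
    rw [W, if_pos rfl, db] at a2
    have b1 := (sl_fderiv (g := fun y => u y i) (hd y hy) 1).2
    have b2 := (sl_fderiv (g := fun y => u y i) (hd y hy) Complex.I).2
    rw [← b1, ← b2] at a1 a2
    generalize fderiv ℝ (fun τ => u (sl μ τ) i) y = L at *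
    have c1 : L 1 = 0 := by linear_combination a1 + a2
    have c2 : L Complex.I = 0 := by
      have hI := Complex.I_mul_I
      linear_combination (Complex.I) * (a1 - a2) + (L Complex.I) * hI
    ext v
    have hv : v = v.re • (1 : ℂ) + v.im • Complex.I := by
      rw [Complex.real_smul, Complex.real_smul, mul_one]
      exact (Complex.re_add_im v).symm
    rw [hv, map_add, map_smul, map_smul, c1, c2]
    simp
  have hdo : DifferentiableOn ℝ (fun τ => u (sl μ τ) i) Hp := fun y hy =>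
    (sl_fderiv (g := fun y => u y i) (hd y hy) 1).1.differentiableWithinAt
  exact Hp_open.is_const_of_fderiv_eq_zero Hp_conv.isPreconnected hdo hz hτ hI

/-- proper maps are not constant on the slices -/
theorem slice_nc (hL : Lat σ) (K : Kerr σ) {u : C2 → C2} (hm : ∀ x ∈ Up, u x ∈ B)
    (hc : ContinuousOn u Up) (he : ∀ γ, ∀ x ∈ Up, u (K.al γ x) = act (σ γ).M (u x)) (μ : ℂ)
    (h : ∀ τ ∈ Hp, u (sl μ τ) = u (sl μ Complex.I)) : False := by
  have hI : Complex.I ∈ Hp := by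
    change 0 < Complex.I.im
    simp
  have h0 : 0 < 1 - sq (u (sl μ Complex.I)) := by
    have := mem_B.mp (hm _ (sl_mem (μ := μ) hI))
    linarith
  obtain ⟨C, hC, hCc, h1⟩ := prop_inf hL K hm hc he _ h0
  have h2 : ∀ τ ∈ Hp, sl μ τ ∈ C := by
    intro τ hτ
    by_contra hn
    have := h1 (sl μ τ) (sl_mem hτ) hn
    rw [h τ hτ] at this
    exact lt_irrefl _ this
  obtain ⟨R, hR⟩ := hCc.isBounded.exists_norm_le
  have h3 : ((|R| + 1 : ℝ) : ℂ) * Complex.I ∈ Hp := by
    change 0 < (((|R| + 1 : ℝ) : ℂ) * Complex.I).im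
    simp
    positivity
  have h4 := hR _ (h2 _ h3)
  have h5 : ‖(sl μ (((|R| + 1 : ℝ) : ℂ) * Complex.I)) 1‖ ≤ R := (norm_le_pi_norm _ 1).trans h4
  have h6 : ‖(sl μ (((|R| + 1 : ℝ) : ℂ) * Complex.I)) 1‖ = |R| + 1 := by
    change ‖((|R| + 1 : ℝ) : ℂ) * Complex.I‖ = |R| + 1
    rw [norm_mul, Complex.norm_I, mul_one, Complex.norm_real, Real.norm_eq_abs,
      abs_of_nonneg (by positivity)]
  have h7 := le_abs_self R
  linarith

/-- the set of slices where the map is not antiholomorphic -/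
def Ma (A : C2 → ℂ) (u : C2 → C2) : Set ℂ :=
  {μ | ∃ τ ∈ Hp, ∃ i, Wb A 1 (fun y => u y i) (sl μ τ) ≠ 0}

theorem Ma_open {A : C2 → ℂ} (hA : BA Up A) {u : C2 → C2} (h : TY A u) : IsOpen (Ma A u) := by
  rw [isOpen_iff_mem_nhds]
  rintro μ ⟨τ, hτ, i, h1⟩
  have c1 : ContinuousAt (fun y => Wb A 1 (fun y => u y i) y) (sl μ τ) :=
    (Vs.W_diff up_o hA.sm (h.s2 i) 1 (sl_mem (μ := μ) hτ)).2.continuousAt
  have c2 : ContinuousAt (fun μ' => sl μ' τ) μ :=
    (sl_cont.comp (continuous_id.prodMk continuous_const)).continuousAt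
  have c3 : ContinuousAt (fun μ' => Wb A 1 (fun y => u y i) (sl μ' τ)) μ :=
    ContinuousAt.comp (f := fun μ' => sl μ' τ) c1 c2
  filter_upwards [c3.eventually_ne h1] with μ' hμ'
  exact ⟨τ, hτ, i, hμ'⟩

theorem Ma_conj (A : C2 → ℂ) (u : C2 → C2) {μ : ℂ} :
    μ ∈ Ma A (fun x i => star (u x i)) ↔ ∃ τ ∈ Hp, ∃ i, W A 1 (fun y => u y i) (sl μ τ) ≠ 0 := by
  constructor
  · rintro ⟨τ, hτ, i, h⟩
    rw [(W_star A (fun y => u y i) _ 1).2] at h
    exact ⟨τ, hτ, i, fun h0 => h (by rw [h0, star_zero])⟩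
  · rintro ⟨τ, hτ, i, h⟩
    refine ⟨τ, hτ, i, fun h0 => h ?_⟩
    rw [(W_star A (fun y => u y i) _ 1).2, star_eq_zero] at h0
    exact h0

/-- the map is holomorphic or antiholomorphic -/
theorem TY.main (hL : Lat σ) (K : Kerr σ) {u : C2 → C2} (h : TY K.A u) (hm : ∀ x ∈ Up, u x ∈ B)
    (he : ∀ γ, ∀ x ∈ Up, u (K.al γ x) = act (σ γ).M (u x)) :
    (∀ x ∈ Up, ∀ c i, W K.A c (fun y => u y i) x = 0) ∨
      ∀ x ∈ Up, ∀ a i, Wb K.A a (fun y => u y i) x = 0 := by
  have hcj := h.conj K.ba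
  have o1 := Ma_open K.ba h
  have o2 := Ma_open K.ba hcj
  have hcov : ∀ μ, μ ∈ Ma K.A u ∨ μ ∈ Ma K.A (fun x i => star (u x i)) := by
    intro μ
    by_contra hcon
    push Not at hcon
    obtain ⟨n1, n2⟩ := hcon
    rw [Ma_conj] at n2
    push Not at n2
    simp only [Ma, Set.mem_setOf_eq] at n1
    push Not at n1
    exact slice_nc hL K hm h.sm.continuousOn he μ (h.const n1 n2)
  have hdis : ∀ μ, μ ∈ Ma K.A u → μ ∈ Ma K.A (fun x i => star (u x i)) → False := by
    intro μ m1 m2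
    have h1 := h.slice K.ba m1
    rw [Ma_conj] at m2
    obtain ⟨τ, hτ, i, h2⟩ := m2
    exact h2 (h1 τ hτ 1 i)
  have hcl : IsClopen (Ma K.A u) := by
    refine ⟨⟨?_⟩, o1⟩
    have e : (Ma K.A u)ᶜ = Ma K.A (fun x i => star (u x i)) := by
      ext μ
      constructor
      · intro hμ
        exact (hcov μ).resolve_left hμ
      · intro hμ hμ'
        exact hdis μ hμ' hμ
    rw [e]
    exact o2
  rcases isClopen_iff.mp hcl with h0 | h0
  · refine Or.inr fun x hx a i => ?_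
    have m : x 0 ∈ Ma K.A (fun x i => star (u x i)) :=
      (hcov (x 0)).resolve_left (by rw [h0]; exact Set.notMem_empty _)
    have h1 := hcj.slice K.ba m (x 1) hx a i
    rw [sl_eta, (W_star K.A (fun y => u y i) x a).1, star_eq_zero] at h1
    exact h1
  · refine Or.inl fun x hx c i => ?_
    have m : x 0 ∈ Ma K.A u := by rw [h0]; exact Set.mem_univ _
    have h1 := h.slice K.ba m (x 1) hx c i
    rw [sl_eta] at h1
    exact h1

end Pool.Agent.MPd01a95.CW
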