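import Mathlib
import Pool.Agent.Lib.MP_d01a95_gt.Defs
import Pool.Agent.Lib.MP_d01a95_gt_S.SDefs2
import Pool.Agent.Lib.MP_d01a95_gt_S.Vcj
import Pool.Agent.Lib.MP_d01a95_gt_M.CutB
import Pool.Agent.Lib.MP_d01a95_gt_M.SecA
import Pool.Agent.Lib.MP_d01a95_gt_M.SecB
import Pool.Agent.Lib.MP_d01a95_gt_M.SecC
import Pool.Agent.Lib.MP_d01a95_gt_M.SecD

/-!
Project SU(2,2), part (2), section 4: the holomorphic equivariant map (helper5).
-/

set_option autoImplicit false
set_option linter.all false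

open Matrix Filter Topology
open scoped ContDiff ComplexConjugate

namespace Pool.Agent.MPd01a95.CW

variable {G : Type} [Group G] {σ : G →* GU (Fin 2)}

theorem Ph_TY (hL : Lat σ) {K : Kerr σ} {h : C2 → HH} (hp : PHM K h) : TY K.A (Ph h) where
  sm := Ph_sm hp
  ph := fun x hx i a c => Ph_ph hp i a c hx
  dich := by
    intro x hx
    by_cases h1 : ∀ a i, Wb K.A a (fun y => Ph h y i) x = 0
    · exact Or.inl h1
    · push Not at h1
      obtain ⟨a, i, h1⟩ := h1
      refine Or.inr fun c j => ?_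
      have h2 := Ph_type hL hp i i a c hx
      have h3 : W K.A c (fun y => Ph h y i) x = 0 := by
        have : Wb K.A a (fun y => Ph h y i) x * W K.A c (fun y => Ph h y i) x = 0 := by
          linear_combination (1 / 2 : ℂ) * h2
        exact (mul_eq_zero.mp this).resolve_left h1
      have h4 := Ph_type hL hp i j a c hx
      rw [h3, zero_mul, add_zero] at h4
      exact (mul_eq_zero.mp h4).resolve_left h1

theorem act_cj (g : GU (Fin 2)) (z : C2) :
    act g.cj.M (fun i => star (z i)) = fun i => star (act g.M z i) := by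
  funext i
  have h : ∀ j, (g.M.map star *ᵥ Sum.elim (fun i => star (z i)) fun _ => 1) j =
      star ((g.M *ᵥ Sum.elim z fun _ => 1) j) := by
    intro j
    simp [Matrix.mulVec, dotProduct]
  change (g.M.map star *ᵥ Sum.elim (fun i => star (z i)) fun _ => 1) (Sum.inl i) /
    (g.M.map star *ᵥ Sum.elim (fun i => star (z i)) fun _ => 1) (Sum.inr ()) =
    star ((g.M *ᵥ Sum.elim z fun _ => 1) (Sum.inl i) / (g.M *ᵥ Sum.elim z fun _ => 1) (Sum.inr ()))
  rw [h, h, star_div₀]

/-- section 4: the holomorphic equivariant map to the ball -/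
theorem exists_holU (hL : Lat σ) (K : Kerr σ) : (∃ u, HolU K u) ∨
    ∃ (K' : Kerr (cjG σ)) (u : C2 → C2), Lat (cjG σ) ∧ K'.R = K.R ∧ HolU K' u := by
  obtain ⟨h, hp⟩ := exists_phm hL K
  have hty := Ph_TY hL hp
  have hm : ∀ x ∈ Up, Ph h x ∈ B := fun x hx => Ph_mem hL hp hx
  have he : ∀ γ, ∀ x ∈ Up, Ph h (K.al γ x) = act (σ γ).M (Ph h x) := fun γ x hx =>
    Ph_eqv hL hp γ hx
  rcases hty.main hL K hm he with h1 | h1
  · exact Or.inl ⟨Ph h, hm, hty.sm, h1, he, rank_ne hL K hm hty.sm h1 he⟩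
  · obtain ⟨hL', K', hA, hal, hR⟩ := kerr_conj hL K
    have hm' : ∀ x ∈ Up, (fun i => star (Ph h x i)) ∈ B := by
      intro x hx
      have h2 := mem_B.mp (hm x hx)
      rw [mem_B, sq]
      simp only [norm_star]
      exact h2
    have hs' : ContDiffOn ℝ ∞ (fun x i => star (Ph h x i)) Up := (hty.conj K.ba).sm
    have hh' : ∀ x ∈ Up, ∀ c i, W K'.A c (fun y => star (Ph h y i)) x = 0 := by
      intro x hx c i
      rw [hA, (W_star K.A (fun y => Ph h y i) x c).1, h1 x hx c i, star_zero]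
    have he' : ∀ γ, ∀ x ∈ Up, (fun i => star (Ph h (K'.al γ x) i)) =
        act ((cjG σ) γ).M (fun i => star (Ph h x i)) := by
      intro γ x hx
      rw [hal, he γ x hx]
      exact (act_cj (σ γ) (Ph h x)).symm
    exact Or.inr ⟨K', fun x i => star (Ph h x i), hL', hR, hm', hs', hh', he',
      rank_ne hL' K' (u := fun x i => star (Ph h x i)) hm' hs' hh' he'⟩

end Pool.Agent.MPd01a95.CW
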