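import Mathlib
import Pool.Agent.Lib.MP_d01a95_gt.Defs
import Pool.Agent.Lib.MP_d01a95_gt_S.SDefs2
import Pool.Agent.Lib.MP_d01a95_gt_S.U6
import Pool.Agent.Lib.MP_d01a95_gt_M.SecE

/-!
Project SU(2,2), part (2): from the surface to the spacelike holomorphic map (helper5).
-/

set_option autoImplicit false
set_option linter.all false

open Matrix Filter Topology
open scoped ContDiff ComplexConjugate

namespace Pool.Agent.MPd01a95

/-- part (2) -/
theorem part_two {G : Type} [Group G] {σ : G →* GU (Fin 2)} (hL : Lat σ) (K : Kerr σ) :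
    (∃ w, VB σ K.R w) ∨ ∃ w, VB (cjG σ) K.R w := by
  rcases CW.exists_holU hL K with ⟨u, hu⟩ | ⟨K', u, hL', hR, hu⟩
  · exact Or.inl (exists_w hL hu)
  · refine Or.inr ?_
    rw [← hR]
    exact exists_w hL' hu

end Pool.Agent.MPd01a95
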